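import Mathlib

namespace Pool.Agent.MP58366f
open scoped BigOperators
open Finset

noncomputable section

variable {N : ℕ} [NeZero N]

/-- additive character -/
abbrev ec (x : ZMod N) : ℂ := ZMod.stdAddChar x

/-- kernel of the symbol `h` -/
def ker (h : ZMod N → ℂ) (x : ZMod N) : ℂ := (N : ℂ)⁻¹ * ∑ j, h j * ec (-(j * x))

/-- spectral transform -/
def FT (f : ZMod N → ℂ) (j : ZMod N) : ℂ := ∑ x, f x * ec (j * x)

/-- the multiplier operator with symbol `h` -/
def Top (h f : ZMod N → ℂ) (x : ZMod N) : ℂ := ∑ y, ker h (x - y) * f y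

lemma ec_add (x y : ZMod N) : ec (x + y) = ec x * ec y := AddChar.map_add_eq_mul _ _ _

lemma ec_zero : ec (0 : ZMod N) = 1 := AddChar.map_zero_eq_one _

lemma norm_ec (x : ZMod N) : ‖ec x‖ = 1 := AddChar.norm_apply _ _

lemma ec_neg (x : ZMod N) : ec (-x) = (starRingEnd ℂ) (ec x) := by
  have := AddChar.map_neg_eq_conj (ZMod.stdAddChar (N := N)) x
  simpa [ec] using this

lemma ec_ne_zero (x : ZMod N) : ec x ≠ 0 := by
  have := norm_ec x
  intro h
  rw [h] at this
  simp at this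

lemma natCast_ne_zero' : (N : ℂ) ≠ 0 := by
  exact_mod_cast NeZero.ne N

lemma sum_ec_mul (b : ZMod N) : ∑ x : ZMod N, ec (x * b) = if b = 0 then (N : ℂ) else 0 := by
  have h := AddChar.sum_mulShift (R := ZMod N) (R' := ℂ) b (ZMod.isPrimitive_stdAddChar N)
  rw [ZMod.card] at h
  rw [show (∑ x : ZMod N, ec (x * b)) = ∑ x : ZMod N, ZMod.stdAddChar (x * b) from rfl, h]
  split_ifs <;> simp

lemma FT_ker (h : ZMod N → ℂ) (j : ZMod N) : FT (ker h) j = h j := by
  unfold FT ker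
  have h1 : ∀ x : ZMod N, (N : ℂ)⁻¹ * (∑ i, h i * ec (-(i * x))) * ec (j * x)
      = (N : ℂ)⁻¹ * ∑ i, h i * ec (x * (j - i)) := by
    intro x
    rw [mul_assoc, Finset.sum_mul]
    congr 1
    apply Finset.sum_congr rfl
    intro i _
    rw [mul_assoc, ← ec_add]
    congr 2
    ring
  simp_rw [h1]
  rw [← Finset.mul_sum, Finset.sum_comm]
  simp_rw [← Finset.mul_sum, sum_ec_mul]
  have h2 : ∑ i, h i * (if j - i = 0 then (N : ℂ) else 0) = h j * N := by
    rw [Finset.sum_eq_single j]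
    · simp
    · intro b _ hb
      have : j - b ≠ 0 := sub_ne_zero.mpr (Ne.symm hb)
      simp [this]
    · simp
  rw [h2]
  field_simp [natCast_ne_zero' (N := N)]

lemma FT_inversion (f : ZMod N → ℂ) (x : ZMod N) : ker (FT f) x = f x := by
  unfold FT ker
  have h1 : ∀ j : ZMod N, (∑ y, f y * ec (j * y)) * ec (-(j * x))
      = ∑ y, f y * ec (j * (y - x)) := by
    intro j
    rw [Finset.sum_mul]
    apply Finset.sum_congr rfl
    intro i _
    rw [mul_assoc, ← ec_add]
    congr 2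
    ring
  simp_rw [h1]
  rw [Finset.sum_comm]
  simp_rw [← Finset.mul_sum, sum_ec_mul]
  have h2 : ∑ i, f i * (if i - x = 0 then (N : ℂ) else 0) = f x * N := by
    rw [Finset.sum_eq_single x]
    · simp
    · intro b _ hb
      have : b - x ≠ 0 := sub_ne_zero.mpr hb
      simp [this]
    · simp
  rw [h2]
  field_simp [natCast_ne_zero' (N := N)]

lemma FT_injective {f g : ZMod N → ℂ} (h : ∀ j, FT f j = FT g j) : f = g := by
  funext x
  rw [← FT_inversion f x, ← FT_inversion g x]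
  have : FT f = FT g := funext h
  rw [this]

/-- convolution -/
lemma FT_conv (k f : ZMod N → ℂ) (j : ZMod N) :
    FT (fun x => ∑ y, k (x - y) * f y) j = FT k j * FT f j := by
  unfold FT
  rw [Finset.sum_mul_sum]
  simp_rw [Finset.sum_mul]
  rw [Finset.sum_comm]
  rw [Finset.sum_comm (s := univ) (t := univ) (f := fun i j_1 => k i * ec (j * i) * (f j_1 * ec (j * j_1)))]
  apply Finset.sum_congr rfl
  intro y _
  refine Fintype.sum_equiv (Equiv.subRight y) _ _ ?_
  intro x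
  simp only [Equiv.subRight_apply]
  have : ec (j * x) = ec (j * (x - y)) * ec (j * y) := by
    rw [← ec_add]; congr 1; ring
  rw [this]; ring

lemma FT_Top (h f : ZMod N → ℂ) (j : ZMod N) : FT (Top h f) j = h j * FT f j := by
  unfold Top
  rw [FT_conv, FT_ker]

lemma Top_mul (h₁ h₂ f : ZMod N → ℂ) :
    Top (fun j => h₁ j * h₂ j) f = Top h₁ (Top h₂ f) := by
  apply FT_injective
  intro j
  rw [FT_Top, FT_Top, FT_Top]; ring

lemma FT_add (f g : ZMod N → ℂ) (j : ZMod N) : FT (fun x => f x + g x) j = FT f j + FT g j := by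
  unfold FT; rw [← Finset.sum_add_distrib]; apply Finset.sum_congr rfl; intros; ring

lemma FT_const_mul (c : ℂ) (f : ZMod N → ℂ) (j : ZMod N) :
    FT (fun x => c * f x) j = c * FT f j := by
  unfold FT; rw [Finset.mul_sum]; apply Finset.sum_congr rfl; intros; ring

lemma FT_sum {ι : Type*} (s : Finset ι) (f : ι → ZMod N → ℂ) (j : ZMod N) :
    FT (fun x => ∑ i ∈ s, f i x) j = ∑ i ∈ s, FT (f i) j := by
  unfold FT; rw [Finset.sum_comm]; apply Finset.sum_congr rfl; intros; rw [Finset.sum_mul]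

lemma ker_add (h₁ h₂ : ZMod N → ℂ) (x : ZMod N) :
    ker (fun j => h₁ j + h₂ j) x = ker h₁ x + ker h₂ x := by
  unfold ker; rw [← mul_add, ← Finset.sum_add_distrib]; congr 1
  apply Finset.sum_congr rfl; intros; ring

lemma ker_const_mul (c : ℂ) (h : ZMod N → ℂ) (x : ZMod N) :
    ker (fun j => c * h j) x = c * ker h x := by
  unfold ker; rw [Finset.mul_sum, Finset.mul_sum, Finset.mul_sum]
  apply Finset.sum_congr rfl; intros; ring

lemma ker_sum {ι : Type*} (s : Finset ι) (h : ι → ZMod N → ℂ) (x : ZMod N) :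
    ker (fun j => ∑ i ∈ s, h i j) x = ∑ i ∈ s, ker (h i) x := by
  unfold ker
  rw [← Finset.mul_sum, Finset.sum_comm]; congr 1
  apply Finset.sum_congr rfl; intros; rw [Finset.sum_mul]

lemma Top_add (h₁ h₂ f : ZMod N → ℂ) (x : ZMod N) :
    Top (fun j => h₁ j + h₂ j) f x = Top h₁ f x + Top h₂ f x := by
  unfold Top; simp_rw [ker_add, add_mul]; rw [Finset.sum_add_distrib]

lemma Top_sum {ι : Type*} (s : Finset ι) (h : ι → ZMod N → ℂ) (f : ZMod N → ℂ) (x : ZMod N) :
    Top (fun j => ∑ i ∈ s, h i j) f x = ∑ i ∈ s, Top (h i) f x := by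
  unfold Top; simp_rw [ker_sum, Finset.sum_mul]; rw [Finset.sum_comm]

lemma Top_const_mul (c : ℂ) (h f : ZMod N → ℂ) (x : ZMod N) :
    Top (fun j => c * h j) f x = c * Top h f x := by
  unfold Top; simp_rw [ker_const_mul]; rw [Finset.mul_sum]
  apply Finset.sum_congr rfl; intros; ring

lemma Top_one (f : ZMod N → ℂ) : Top (fun _ => 1) f = f := by
  apply FT_injective; intro j; rw [FT_Top]; ring

/-- if two symbols agree on the spectrum of `f`, the operators agree on `f` -/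
lemma Top_congr_on {h₁ h₂ f : ZMod N → ℂ} (H : ∀ j, FT f j ≠ 0 → h₁ j = h₂ j) :
    Top h₁ f = Top h₂ f := by
  apply FT_injective; intro j
  rw [FT_Top, FT_Top]
  by_cases hj : FT f j = 0
  · rw [hj]; ring
  · rw [H j hj]

/-- Parseval -/
lemma parseval (f g : ZMod N → ℂ) :
    ∑ x, f x * (starRingEnd ℂ) (g x) = (N : ℂ)⁻¹ * ∑ j, FT f j * (starRingEnd ℂ) (FT g j) := by
  have h1 : ∀ j, FT f j * (starRingEnd ℂ) (FT g j)
      = ∑ x, ∑ y, f x * (starRingEnd ℂ) (g y) * ec (j * (x - y)) := by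
    intro j
    unfold FT
    rw [map_sum, Finset.sum_mul_sum]
    apply Finset.sum_congr rfl; intro x _
    apply Finset.sum_congr rfl; intro y _
    rw [map_mul, ← ec_neg]
    have : ec (j * (x - y)) = ec (j * x) * ec (-(j * y)) := by
      rw [← ec_add]; congr 1; ring
    rw [this]; ring
  simp_rw [h1]
  rw [Finset.sum_comm]
  have h2 : ∀ x, ∑ j : ZMod N, ∑ y, f x * (starRingEnd ℂ) (g y) * ec (j * (x - y))
      = f x * (starRingEnd ℂ) (g x) * N := by
    intro x
    rw [Finset.sum_comm]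
    simp_rw [← Finset.mul_sum, sum_ec_mul]
    rw [Finset.sum_eq_single x]
    · simp
    · intro b _ hb
      have : x - b ≠ 0 := sub_ne_zero.mpr (Ne.symm hb)
      simp [this]
    · simp
  simp_rw [h2]
  rw [← Finset.sum_mul]
  field_simp [natCast_ne_zero' (N := N)]

lemma parseval_sq (f : ZMod N → ℂ) :
    ∑ x, ‖f x‖ ^ 2 = (N : ℝ)⁻¹ * ∑ j, ‖FT f j‖ ^ 2 := by
  have h := parseval f f
  have h1 : ∀ z : ℂ, z * (starRingEnd ℂ) z = ((‖z‖ ^ 2 : ℝ) : ℂ) := by
    intro z; rw [Complex.mul_conj, Complex.normSq_eq_norm_sq]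
  simp_rw [h1] at h
  have h2 : ((∑ x, ‖f x‖ ^ 2 : ℝ) : ℂ) = (((N : ℝ)⁻¹ * ∑ j, ‖FT f j‖ ^ 2 : ℝ) : ℂ) := by
    push_cast
    push_cast at h
    exact h
  exact_mod_cast h2

/-- product formula for the transform -/
lemma FT_mul_conj (f g : ZMod N → ℂ) (j : ZMod N) :
    FT (fun x => f x * (starRingEnd ℂ) (g x)) j
      = (N : ℂ)⁻¹ * ∑ l, FT f (j + l) * (starRingEnd ℂ) (FT g l) := by
  have h := parseval (fun x => f x * ec (j * x)) g
  have h1 : FT (fun x => f x * (starRingEnd ℂ) (g x)) j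
      = ∑ x, (f x * ec (j * x)) * (starRingEnd ℂ) (g x) := by
    unfold FT; apply Finset.sum_congr rfl; intros; ring
  rw [h1, h]
  congr 1
  apply Finset.sum_congr rfl; intro l _
  congr 1
  unfold FT
  apply Finset.sum_congr rfl; intro x _
  rw [mul_assoc, ← ec_add]; congr 2; ring

/-- disjoint spectra give orthogonality -/
lemma orth_of_disjoint {f g : ZMod N → ℂ} (H : ∀ j, FT f j = 0 ∨ FT g j = 0) :
    ∑ x, f x * (starRingEnd ℂ) (g x) = 0 := by
  rw [parseval]
  have : ∀ j, FT f j * (starRingEnd ℂ) (FT g j) = 0 := by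
    intro j
    rcases H j with h | h <;> rw [h] <;> simp
  simp [this]

/-- spectrum of a product -/
lemma FT_mul_conj_ne_zero {f g : ZMod N → ℂ} {j : ZMod N}
    (h : FT (fun x => f x * (starRingEnd ℂ) (g x)) j ≠ 0) :
    ∃ a b, FT f a ≠ 0 ∧ FT g b ≠ 0 ∧ j = a - b := by
  rw [FT_mul_conj] at h
  have h' : ∑ l, FT f (j + l) * (starRingEnd ℂ) (FT g l) ≠ 0 := right_ne_zero_of_mul h
  obtain ⟨l, _, hl⟩ := Finset.exists_ne_zero_of_sum_ne_zero h'
  refine ⟨j + l, l, left_ne_zero_of_mul hl, ?_, by ring⟩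
  intro h0
  apply right_ne_zero_of_mul hl
  rw [h0]; simp

end

end Pool.Agent.MP58366f
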