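import Pool.Agent.MP58366f.C_Rho

/-!
MP_58366f_an, part C7: the window part.
-/

open Metric Set Filter Topology

namespace Pool.Agent.MP58366f

/-- the window part -/
noncomputable def beta {n : ℕ} (w : Fin n → ℂ) (a c s : ℝ) : ℂ :=
  (UU w c s - 1) * ((1 - eta 4 a c s : ℝ) : ℂ)

/-- the part away from the window -/
noncomputable def rho {n : ℕ} (w : Fin n → ℂ) (a c s : ℝ) : ℂ :=
  (UU w c s - 1) * (eta 4 a c s : ℂ)

lemma UU_split {n : ℕ} (w : Fin n → ℂ) (a c s : ℝ) :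
    UU w c s = rho w a c s + (1 + beta w a c s) := by
  unfold rho beta
  push_cast
  ring

lemma norm_UU_sub_one {n : ℕ} (w : Fin n → ℂ) (hw : ∀ j, w j ≠ 0 ∧ ‖w j‖ < 1) (c s : ℝ) :
    ‖UU w c s - 1‖ ≤ 2 := by
  have h1 : ‖UU w c s‖ ≤ 1 := by
    unfold UU
    rw [norm_prod]
    exact Finset.prod_le_one (fun _ _ => norm_nonneg _) fun j _ =>
      norm_bl_le (hw j).1 (hw j).2 (norm_ez c s).le
  calc ‖UU w c s - 1‖ ≤ ‖UU w c s‖ + ‖(1 : ℂ)‖ := norm_sub_le _ _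
    _ ≤ 2 := by rw [norm_one]; linarith

lemma norm_beta {n : ℕ} (w : Fin n → ℂ) (hw : ∀ j, w j ≠ 0 ∧ ‖w j‖ < 1) (a c s : ℝ) :
    ‖beta w a c s‖ ≤ 2 := by
  unfold beta
  rw [norm_mul, Complex.norm_real, Real.norm_of_nonneg (by linarith [eta_le_one 4 a c s])]
  have h1 := norm_UU_sub_one w hw c s
  have h2 := eta_nonneg 4 a c s
  have h3 := eta_le_one 4 a c s
  calc ‖UU w c s - 1‖ * (1 - eta 4 a c s) ≤ 2 * 1 := by
        apply mul_le_mul h1 (by linarith) (by linarith) (by norm_num)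
    _ = 2 := by norm_num

lemma beta_supp {n : ℕ} (w : Fin n → ℂ) {a c s : ℝ} (ha : 0 < a) (ha' : a ≤ 1 / 64) (hc : 0 ≤ c)
    (hc' : c ≤ 1 / 4) (hs : |s| ≤ Real.pi) (h : beta w a c s ≠ 0) : |s - c| ≤ 2 * a := by
  by_contra hcon
  push Not at hcon
  apply h
  unfold beta
  rw [cut_supp ha ha' hc hc' hs hcon]
  simp

lemma beta_periodic {n : ℕ} (w : Fin n → ℂ) (a c s : ℝ) :
    beta w a c (s + 2 * Real.pi) = beta w a c s := by
  unfold beta UU
  simp only [ez_periodic, eta_periodic]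

lemma contDiff_ez (c : ℝ) : ContDiff ℝ 2 (ez c) := by
  unfold ez
  have h1 : ContDiff ℝ 2 (fun s : ℝ => ((s - c : ℝ) : ℂ)) :=
    Complex.ofRealCLM.contDiff.comp (contDiff_id.sub contDiff_const)
  exact (h1.mul contDiff_const).cexp

lemma contDiff_bl {w : ℂ} (hw : ‖w‖ < 1) (c : ℝ) : ContDiff ℝ 2 fun s => bl w (ez c s) := by
  unfold bl
  have h1 := contDiff_ez c
  have h2 : ContDiff ℝ 2 fun s => (1 - starRingEnd ℂ w * ez c s)⁻¹ :=
    (contDiff_const.sub (contDiff_const.mul h1)).inv fun s => one_sub_ne hw (norm_ez c s).le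
  simp only [div_eq_mul_inv]
  exact contDiff_const.mul ((contDiff_const.sub h1).mul h2)

lemma contDiff_eta (m a c : ℝ) : ContDiff ℝ 2 (eta m a c) := by
  unfold eta yy
  refine Real.smoothTransition.contDiff.comp ?_
  fun_prop

lemma contDiff_beta {n : ℕ} (w : Fin n → ℂ) (hw : ∀ j, w j ≠ 0 ∧ ‖w j‖ < 1) (a c : ℝ) :
    ContDiff ℝ 2 (beta w a c) := by
  unfold beta UU
  have h1 : ContDiff ℝ 2 fun s => ∏ j, bl (w j) (ez c s) :=
    contDiff_prod fun j _ => contDiff_bl (hw j).2 c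
  have h2 : ContDiff ℝ 2 fun s => ((1 - eta 4 a c s : ℝ) : ℂ) :=
    Complex.ofRealCLM.contDiff.comp (contDiff_const.sub (contDiff_eta 4 a c))
  exact (h1.sub contDiff_const).mul h2

lemma nz_sum : ∃ S : ℝ, 0 < S ∧ ∀ (N : ℕ) [NeZero N],
    ∑ x : ZMod N, (1 / (1 + nz x) ^ 2) * nz x ^ (3 / 4 : ℝ) ≤ S := by
  set g : ℤ → ℝ := fun n => (1 + |(n : ℝ)|) ^ (-(5 / 4) : ℝ) with hg
  have hg0 : ∀ n, 0 ≤ g n := fun n => Real.rpow_nonneg (by positivity) _
  have hsum : Summable g := by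
    refine Summable.of_norm_bounded_eventually
      (Real.summable_abs_int_rpow (b := 5 / 4) (by norm_num)) ?_
    have : ∀ᶠ n : ℤ in cofinite, n ≠ 0 := by
      have := (finite_singleton (0 : ℤ)).compl_mem_cofinite
      filter_upwards [this] with n hn
      exact hn
    filter_upwards [this] with n hn
    rw [Real.norm_of_nonneg (hg0 n)]
    have h1 : 0 < |(n : ℝ)| := by
      rw [abs_pos]; exact_mod_cast hn
    exact Real.rpow_le_rpow_of_nonpos h1 (by linarith) (by norm_num)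
  refine ⟨∑' n, g n + 1, by
    have : 0 ≤ ∑' n, g n := tsum_nonneg hg0
    linarith, fun N _ => ?_⟩
  have hterm : ∀ x : ZMod N, (1 / (1 + nz x) ^ 2) * nz x ^ (3 / 4 : ℝ) ≤ g x.valMinAbs := by
    intro x
    have h0 : 0 ≤ nz x := abs_nonneg _
    have h1 : (0 : ℝ) < 1 + nz x := by linarith
    have h2 : nz x ^ (3 / 4 : ℝ) ≤ (1 + nz x) ^ (3 / 4 : ℝ) :=
      Real.rpow_le_rpow h0 (by linarith) (by norm_num)
    calc (1 / (1 + nz x) ^ 2) * nz x ^ (3 / 4 : ℝ)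
        ≤ (1 / (1 + nz x) ^ 2) * (1 + nz x) ^ (3 / 4 : ℝ) := by gcongr
      _ = (1 + nz x) ^ (-(2 : ℝ)) * (1 + nz x) ^ (3 / 4 : ℝ) := by
          rw [Real.rpow_neg h1.le, one_div]
          norm_cast
      _ = (1 + nz x) ^ (-(5 / 4) : ℝ) := by
          rw [← Real.rpow_add h1]; norm_num
  have hinj : Function.Injective (fun x : ZMod N => x.valMinAbs) := ZMod.injective_valMinAbs
  calc ∑ x : ZMod N, (1 / (1 + nz x) ^ 2) * nz x ^ (3 / 4 : ℝ)
      ≤ ∑ x : ZMod N, g x.valMinAbs := Finset.sum_le_sum fun x _ => hterm x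
    _ = ∑ n ∈ Finset.univ.map ⟨_, hinj⟩, g n := by rw [Finset.sum_map]; rfl
    _ ≤ ∑' n, g n := hsum.sum_le_tsum _ fun n _ => hg0 n
    _ ≤ _ := by linarith

lemma deriv_periodic {H : ℝ → ℂ} {T : ℝ} (hp : ∀ s, H (s + T) = H s) (s : ℝ) :
    deriv H (s + T) = deriv H s := by
  rw [← deriv_comp_add_const]
  congr 1
  funext x
  exact hp x

lemma bdd_of_periodic {H : ℝ → ℂ} (hc : Continuous H) (hp : ∀ s, H (s + 2 * Real.pi) = H s) :
    ∃ A : ℝ, 0 ≤ A ∧ ∀ s, ‖H s‖ ≤ A := by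
  have h1 : Function.Periodic H (2 * Real.pi) := hp
  have h2 := h1.isBounded_of_continuous Real.two_pi_pos.ne' hc
  obtain ⟨A, hA⟩ := h2.exists_norm_le
  exact ⟨max A 0, le_max_right _ _, fun s => (hA _ (mem_range_self s)).trans (le_max_left _ _)⟩

lemma moment_periodic {H : ℝ → ℂ} (hH : ContDiff ℝ 2 H)
    (hp : ∀ s, H (s + 2 * Real.pi) = H s) : ∃ M : ℝ, 0 ≤ M ∧ ∀ (N : ℕ) [NeZero N],
    ∑ x, ‖ker (sym N H) x‖ * nz x ^ (3 / 4 : ℝ) ≤ M := by
  obtain ⟨C, hC, hker⟩ := ker_bound_periodic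
  obtain ⟨S, hS, hnz⟩ := nz_sum
  have hc1 : ContDiff ℝ 1 (deriv H) := by
    have h2 : ContDiff ℝ ((1 : ℕ) + 1) H := by exact_mod_cast hH
    exact_mod_cast (contDiff_succ_iff_deriv.1 h2).2.2
  have hc2 : Continuous (deriv (deriv H)) := by
    have h2 : ContDiff ℝ ((0 : ℕ) + 1) (deriv H) := by exact_mod_cast hc1
    exact (contDiff_succ_iff_deriv.1 h2).2.2.continuous
  have hd0 : ∀ t, HasDerivAt H (deriv H t) t := fun t =>
    ((hH.differentiable (by norm_num)) t).hasDerivAt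
  have hd1 : ∀ t, HasDerivAt (deriv H) (deriv (deriv H) t) t := fun t =>
    ((hc1.differentiable (by norm_num)) t).hasDerivAt
  obtain ⟨A0, hA0, hb0⟩ := bdd_of_periodic hH.continuous hp
  obtain ⟨A2, hA2, hb2⟩ := bdd_of_periodic hc2 (deriv_periodic (deriv_periodic hp))
  have hsd := second_diff hd0 hd1 hb2
  refine ⟨C * (A0 + 2 * A2) * S, by positivity, fun N _ => ?_⟩
  have h := (hker N H (A0 + 2 * A2) (by positivity) hp (fun s => by linarith [hb0 s])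
    (fun s t => (hsd s t).trans (mul_le_mul_of_nonneg_right (by linarith) (sq_nonneg t)))).1
  calc ∑ x, ‖ker (sym N H) x‖ * nz x ^ (3 / 4 : ℝ)
      ≤ ∑ x, C * (A0 + 2 * A2) * ((1 / (1 + nz x) ^ 2) * nz x ^ (3 / 4 : ℝ)) := by
        refine Finset.sum_le_sum fun x _ => ?_
        rw [← mul_assoc]
        exact mul_le_mul_of_nonneg_right (h x) (Real.rpow_nonneg (abs_nonneg _) _)
    _ = C * (A0 + 2 * A2) * ∑ x, (1 / (1 + nz x) ^ 2) * nz x ^ (3 / 4 : ℝ) := by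
        rw [Finset.mul_sum]
    _ ≤ C * (A0 + 2 * A2) * S := mul_le_mul_of_nonneg_left (hnz N) (by positivity)

lemma beta_M4 {CB Cθ : ℝ} (hCB : 0 < CB) {n : ℕ} (w : Fin n → ℂ) (a c : ℝ) {N : ℕ} [NeZero N]
    (h1 : M4 (sym N fun s => UU w c s) CB)
    (h2 : M4 (sym N fun s => ((1 - eta 4 a c s : ℝ) : ℂ)) Cθ) :
    M4 (sym N (beta w a c)) ((CB + 1) * Cθ) := by
  have h3 : M4 (sym N fun s => UU w c s - 1) (CB + 1) := by
    have h4 := (M4_one (N := N)).const_mul (-1)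
    have h5 := h1.add h4
    refine (h5.congr fun j => ?_).mono ?_
    · unfold sym; ring
    · simp
  exact h3.mul (by linarith) h2

end Pool.Agent.MP58366f
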