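import Pool.Agent.MP58366f.C_Beta

/-!
MP_58366f_an, part C8: the choice of the windows.
-/

open Metric Set Filter Topology

namespace Pool.Agent.MP58366f

lemma dep_seq {α : Type*} (P : ℕ → α → Prop) (R : ℕ → α → α → Prop) (h0 : ∃ x, P 0 x)
    (hs : ∀ k x, P k x → ∃ y, P (k + 1) y ∧ R k x y) :
    ∃ f : ℕ → α, (∀ k, P k (f k)) ∧ ∀ k, R k (f k) (f (k + 1)) := by
  classical
  obtain ⟨x₀, hx₀⟩ := h0
  choose! F hF1 hF2 using hs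
  set f : ℕ → α := fun k => Nat.rec x₀ (fun k x => F k x) k with hf
  have hP : ∀ k, P k (f k) := by
    intro k
    induction k with
    | zero => exact hx₀
    | succ k ih => exact hF1 k (f k) ih
  exact ⟨f, hP, fun k => hF2 k (f k) (hP k)⟩

/-- the data at one level -/
def Level (CB : ℝ) (e : ℕ → ℝ) (k : ℕ) (a c : ℝ) (n : ℕ) (w : Fin n → ℂ) (H : ℝ) : Prop :=
  (∀ j, w j ≠ 0 ∧ ‖w j‖ < 1 ∧ ‖w j - 1‖ ≤ 1 / 2 ^ k) ∧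
  (∑ j, (1 - ‖w j‖) ≤ 1 / 2 ^ k) ∧
  (∃ r : Fin k → ℝ, Function.Injective r ∧ (∀ i, 0 < r i ∧ r i < 1 ∧ ∃ j, w j = (r i : ℂ)) ∧
    ∀ i i', |r i - r i'| ≤ e k * (1 - r i)) ∧
  (∃ N₀ : ℕ, ∀ (N : ℕ) [NeZero N], N₀ ≤ N → M4 (sym N fun s => UU w c s) CB) ∧
  (∀ (N : ℕ) [NeZero N], M4 (sym N (rho w a c)) (1 / 2 ^ k)) ∧
  (∀ (N : ℕ) [NeZero N], ∑ x, ‖ker (sym N (beta w a c)) x‖ * nz x ^ (3 / 4 : ℝ) ≤ H)

lemma level_exists : ∃ (CB : ℝ) (e : ℕ → ℝ), 0 < CB ∧ Tendsto e atTop (𝓝 0) ∧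
    ∀ (k : ℕ) (a c : ℝ), 0 < a → a ≤ 1 → 0 ≤ c → c ≤ 1 / 4 → ∃ (n : ℕ) (w : Fin n → ℂ) (H : ℝ),
      0 ≤ H ∧ Level CB e k a c n w H := by
  obtain ⟨CB, e, hCB, he, hwin⟩ := window_exists
  refine ⟨CB, e, hCB, he, fun k a c ha ha1 hc hc' => ?_⟩
  obtain ⟨ε₀, hε₀, hrho⟩ := rho_M4 a ha ha1 (1 / 2 ^ k) (by positivity)
  obtain ⟨W, hW1, hW2, ⟨r, hr1, hr2, hr3⟩, hW4⟩ := hwin k (min ε₀ (1 / 2 ^ k)) (by positivity)
  obtain ⟨N₀, hN₀⟩ := hW4 c ⟨hc, hc'⟩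
  set w : Fin W.toList.length → ℂ := W.toList.get with hw
  have hWw : W = (Finset.univ : Finset (Fin W.toList.length)).val.map w := by
    rw [Fin.univ_val_map, hw, List.ofFn_get, Multiset.coe_toList]
  have hmem : ∀ j, w j ∈ W := by
    intro j
    rw [← Multiset.mem_toList]
    exact List.get_mem _ _
  have hsum : (W.map fun w => 1 - ‖w‖).sum = ∑ j, (1 - ‖w j‖) := by
    conv_lhs => rw [hWw]
    rw [Multiset.map_map]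
    rfl
  have hprod : ∀ s : ℝ, (W.map fun w => bl w (Complex.exp (((s - c : ℝ) : ℂ) * Complex.I))).prod =
      UU w c s := by
    intro s
    conv_lhs => rw [hWw]
    rw [Multiset.map_map]
    rfl
  have hwj : ∀ j, w j ≠ 0 ∧ ‖w j‖ < 1 ∧ ‖w j - 1‖ ≤ min ε₀ (1 / 2 ^ k) := fun j => by
    have := hW1 (w j) (hmem j)
    exact ⟨norm_pos_iff.1 this.1, this.2.1, this.2.2⟩
  rw [hsum] at hW2
  obtain ⟨M, hM, hmom⟩ := moment_periodic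
    (contDiff_beta w (fun j => ⟨(hwj j).1, (hwj j).2.1⟩) a c) (beta_periodic w a c)
  refine ⟨_, w, M, hM, ?_, ?_, ?_, ?_, ?_, ?_⟩
  · exact fun j => ⟨(hwj j).1, (hwj j).2.1, (hwj j).2.2.trans (min_le_right _ _)⟩
  · exact hW2.trans (min_le_right _ _)
  · refine ⟨r, hr1, fun i => ⟨(hr2 i).1, (hr2 i).2.1, ?_⟩, hr3⟩
    have h1 := (hr2 i).2.2
    rw [hWw, Multiset.mem_map] at h1
    obtain ⟨j, _, hj⟩ := h1
    exact ⟨j, hj⟩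
  · refine ⟨N₀, fun N _ hN => ?_⟩
    have h1 := hN₀ N hN
    simp only [hprod] at h1
    exact h1
  · intro N _
    exact hrho c _ w (fun j => ⟨(hwj j).1, (hwj j).2.1, (hwj j).2.2.trans (min_le_left _ _)⟩)
      (hW2.trans (min_le_left _ _)) N
  · exact hmom

/-- the centres of the windows -/
noncomputable def cc (k : ℕ) : ℝ := 1 / 4 / 16 ^ k

lemma cc_pos (k : ℕ) : 0 < cc k := by unfold cc; positivity

lemma cc_succ (k : ℕ) : cc (k + 1) = cc k / 16 := by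
  unfold cc; rw [pow_succ]; field_simp

lemma cc_le (k : ℕ) : cc k ≤ 1 / 4 := by
  unfold cc
  apply div_le_self (by norm_num)
  exact one_le_pow₀ (by norm_num)

lemma small_a {T b : ℝ} (hT : 1 ≤ T) (hb : 0 < b) : ∃ a : ℝ, 0 < a ∧ a ≤ b ∧
    T * a ^ (3 / 4 : ℝ) ≤ 1 := by
  have hT0 : 0 < T := by linarith
  refine ⟨min b (T ^ (-(4 / 3) : ℝ)), lt_min hb (Real.rpow_pos_of_pos hT0 _), min_le_left _ _, ?_⟩
  have h1 : (min b (T ^ (-(4 / 3) : ℝ))) ^ (3 / 4 : ℝ) ≤ (T ^ (-(4 / 3) : ℝ)) ^ (3 / 4 : ℝ) :=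
    Real.rpow_le_rpow (le_min hb.le (Real.rpow_nonneg hT0.le _)) (min_le_right _ _) (by norm_num)
  have h2 : (T ^ (-(4 / 3) : ℝ)) ^ (3 / 4 : ℝ) = T⁻¹ := by
    rw [← Real.rpow_mul hT0.le, ← Real.rpow_neg_one]
    norm_num
  rw [h2] at h1
  calc T * _ ≤ T * T⁻¹ := by gcongr
    _ = 1 := mul_inv_cancel₀ hT0.ne'

lemma choose_data : ∃ (CB : ℝ) (e : ℕ → ℝ), 0 < CB ∧ Tendsto e atTop (𝓝 0) ∧
    ∃ (a Hm : ℕ → ℝ) (n : ℕ → ℕ) (w : (k : ℕ) → Fin (n k) → ℂ), (∀ k, 0 < a k) ∧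
      (∀ k, a k ≤ cc k / 16) ∧ (∀ k, a (k + 1) ≤ a k / 16) ∧
      (∀ k, ∀ j < k, Hm j * a k ^ (3 / 4 : ℝ) ≤ 1 / 2 ^ (k - j)) ∧
      ∀ k, Level CB e k (a k) (cc k) (n k) (w k) (Hm k) := by
  obtain ⟨CB, e, hCB, he, hlev⟩ := level_exists
  refine ⟨CB, e, hCB, he, ?_⟩
  set P : ℕ → ℝ × ℝ × ℝ × (Σ n : ℕ, (Fin n → ℂ)) → Prop := fun k x =>
    0 < x.1 ∧ x.1 ≤ cc k / 16 ∧ 1 ≤ x.2.1 ∧ x.2.1 * x.1 ^ (3 / 4 : ℝ) ≤ 1 ∧ 0 ≤ x.2.2.1 ∧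
      Level CB e k x.1 (cc k) x.2.2.2.1 x.2.2.2.2 x.2.2.1 with hP
  set R : ℕ → ℝ × ℝ × ℝ × (Σ n : ℕ, (Fin n → ℂ)) → ℝ × ℝ × ℝ × (Σ n : ℕ, (Fin n → ℂ)) → Prop :=
    fun _ x y => y.1 ≤ x.1 / 16 ∧ 2 * x.2.1 ≤ y.2.1 ∧ 2 * x.2.2.1 ≤ y.2.1 with hR
  have hc16 : ∀ k, cc k / 16 ≤ 1 := fun k => by linarith [cc_le k]
  obtain ⟨f, hf1, hf2⟩ := dep_seq P R (by
    obtain ⟨a, ha, ha1, ha2⟩ := small_a (T := 1) le_rfl (div_pos (cc_pos 0) (by norm_num : (0:ℝ) < 16))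
    obtain ⟨n, w, H, hH, hL⟩ := hlev 0 a (cc 0) ha (ha1.trans (hc16 0)) (cc_pos 0).le (cc_le 0)
    exact ⟨⟨a, 1, H, ⟨n, w⟩⟩, ha, ha1, le_rfl, ha2, hH, hL⟩) (by
    intro k x hx
    obtain ⟨h1, h2, h3, h4, h5, h6⟩ := hx
    obtain ⟨a, ha, ha1, ha2⟩ := small_a (T := max (2 * x.2.1) (2 * x.2.2.1))
      (b := min (x.1 / 16) (cc (k + 1) / 16)) (le_max_of_le_left (by linarith))
      (lt_min (by linarith) (by linarith [cc_pos (k + 1)]))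
    obtain ⟨n, w, H, hH, hL⟩ := hlev (k + 1) a (cc (k + 1)) ha
      ((ha1.trans (min_le_right _ _)).trans (hc16 _)) (cc_pos _).le (cc_le _)
    exact ⟨⟨a, max (2 * x.2.1) (2 * x.2.2.1), H, ⟨n, w⟩⟩,
      ⟨ha, ha1.trans (min_le_right _ _), le_max_of_le_left (by linarith), ha2, hH, hL⟩,
      ha1.trans (min_le_left _ _), le_max_left _ _, le_max_right _ _⟩)
  refine ⟨fun k => (f k).1, fun k => (f k).2.2.1, fun k => (f k).2.2.2.1,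
    fun k => (f k).2.2.2.2, fun k => (hf1 k).1, fun k => (hf1 k).2.1, fun k => (hf2 k).1, ?_,
    fun k => (hf1 k).2.2.2.2.2⟩
  intro k j hj
  have key : ∀ m : ℕ, 2 ^ (m + 1) * (f j).2.2.1 ≤ (f (j + 1 + m)).2.1 := by
    intro m
    induction m with
    | zero =>
      have := (hf2 j).2.2
      simpa using this
    | succ m ih =>
      have := (hf2 (j + 1 + m)).2.1
      calc 2 ^ (m + 1 + 1) * (f j).2.2.1 = 2 * (2 ^ (m + 1) * (f j).2.2.1) := by ring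
        _ ≤ 2 * (f (j + 1 + m)).2.1 := by linarith
        _ ≤ _ := this
  obtain ⟨m, rfl⟩ : ∃ m, k = j + 1 + m := ⟨k - (j + 1), by omega⟩
  have h1 := key m
  have h2 : j + 1 + m - j = m + 1 := by omega
  rw [h2]
  rw [le_div_iff₀ (by positivity)]
  have h3 := (hf1 (j + 1 + m)).2.2.2.1
  have h4 : 0 ≤ (f (j + 1 + m)).1 ^ (3 / 4 : ℝ) := Real.rpow_nonneg (hf1 (j + 1 + m)).1.le _
  calc (f j).2.2.1 * (f (j + 1 + m)).1 ^ (3 / 4 : ℝ) * 2 ^ (m + 1)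
      = (2 ^ (m + 1) * (f j).2.2.1) * (f (j + 1 + m)).1 ^ (3 / 4 : ℝ) := by ring
    _ ≤ (f (j + 1 + m)).2.1 * (f (j + 1 + m)).1 ^ (3 / 4 : ℝ) := by gcongr
    _ ≤ 1 := h3

end Pool.Agent.MP58366f
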