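import Mathlib

/-!
MP_58366f_an, part C1: a bounded analytic function with zeros clustering hyperbolically is not a
finite product of functions satisfying the interpolation condition at their zeros.
-/

open Metric Set

namespace Pool.Agent.MP58366f

/-- two zeros of a bounded analytic function that are close to each other force a small
derivative. -/
lemma deriv_small {B : ℂ → ℂ} (hB : DifferentiableOn ℂ B (ball (0 : ℂ) 1))
    (hB1 : ∀ z ∈ ball (0 : ℂ) 1, ‖B z‖ ≤ 1) {z z' : ℂ} (hz : ‖z‖ < 1) (hzz : z ≠ z')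
    (h0 : B z = 0) (h0' : B z' = 0) {η : ℝ} (hη : ‖z' - z‖ ≤ η * (1 - ‖z‖)) (hη1 : η < 1) :
    (1 - ‖z‖ ^ 2) * ‖deriv B z‖ ≤ 4 * η := by
  have hR : 0 < 1 - ‖z‖ := by linarith
  have hsub : ball z (1 - ‖z‖) ⊆ ball (0 : ℂ) 1 := by
    intro x hx
    rw [mem_ball_zero_iff]
    rw [mem_ball, dist_eq_norm] at hx
    calc ‖x‖ = ‖(x - z) + z‖ := by rw [sub_add_cancel]
      _ ≤ ‖x - z‖ + ‖z‖ := norm_add_le _ _
      _ < 1 := by linarith
  have hη0 : 0 ≤ η := by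
    have h1 : 0 ≤ η * (1 - ‖z‖) := (norm_nonneg _).trans hη
    by_contra hneg
    push Not at hneg
    nlinarith
  have hz'mem : z' ∈ ball z (1 - ‖z‖) := by
    rw [mem_ball, dist_eq_norm]
    calc ‖z' - z‖ ≤ η * (1 - ‖z‖) := hη
      _ < 1 * (1 - ‖z‖) := by
        exact mul_lt_mul_of_pos_right hη1 hR
      _ = 1 - ‖z‖ := one_mul _
  have hBd : DifferentiableOn ℂ B (ball z (1 - ‖z‖)) := hB.mono hsub
  set M : ℝ := 1 / (1 - ‖z‖) with hM
  have hg : ∀ x ∈ ball z (1 - ‖z‖), ‖dslope B z x‖ ≤ M := by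
    intro x hx
    refine Complex.norm_dslope_le_div_of_mapsTo_ball hBd ?_ hx
    intro y hy
    rw [h0, mem_closedBall_zero_iff]
    exact hB1 y (hsub hy)
  have hgd : DifferentiableOn ℂ (dslope B z) (ball z (1 - ‖z‖)) :=
    (Complex.differentiableOn_dslope (isOpen_ball.mem_nhds (mem_ball_self hR))).2 hBd
  have hmaps : MapsTo (dslope B z) (ball z (1 - ‖z‖)) (closedBall (dslope B z z) (2 * M)) := by
    intro x hx
    rw [mem_closedBall, dist_eq_norm]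
    have h1 := hg x hx
    have h2 := hg z (mem_ball_self hR)
    calc ‖dslope B z x - dslope B z z‖ ≤ ‖dslope B z x‖ + ‖dslope B z z‖ := norm_sub_le _ _
      _ ≤ 2 * M := by linarith
  have h3 := Complex.dist_le_div_mul_dist_of_mapsTo_ball hgd hmaps hz'mem
  have h4 : dslope B z z' = 0 := by
    rw [dslope_of_ne _ hzz.symm, slope_def_module, h0, h0', sub_zero, smul_zero]
  rw [h4, dslope_same, dist_comm, dist_zero_right, dist_eq_norm] at h3
  have h5 : 2 * M / (1 - ‖z‖) * ‖z' - z‖ ≤ 2 * M * η := by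
    have : 2 * M / (1 - ‖z‖) * ‖z' - z‖ ≤ 2 * M / (1 - ‖z‖) * (η * (1 - ‖z‖)) := by
      refine mul_le_mul_of_nonneg_left hη ?_
      positivity
    refine this.trans (le_of_eq ?_)
    field_simp
  have h6 : ‖deriv B z‖ ≤ 2 * M * η := h3.trans h5
  have h7 : (1 - ‖z‖ ^ 2) = (1 - ‖z‖) * (1 + ‖z‖) := by ring
  rw [h7]
  calc (1 - ‖z‖) * (1 + ‖z‖) * ‖deriv B z‖ ≤ (1 - ‖z‖) * 2 * (2 * M * η) := by
        gcongr
        linarith
    _ = 4 * η := by
        rw [hM]; field_simp; ring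

lemma no_decomp {F : ℂ → ℂ}
    (hcl : ∀ K : ℕ, ∀ η : ℝ, 0 < η → ∃ (σ : ℂ) (r : Fin K → ℝ), ‖σ‖ = 1 ∧ Function.Injective r ∧
      (∀ i, 0 < r i ∧ r i < 1) ∧ (∀ i j, |r i - r j| ≤ η * (1 - r i)) ∧
      ∀ i, F (σ * (r i : ℂ)) = 0)
    (N : ℕ) (B : Fin N → ℂ → ℂ) (c : ℂ) (hc : ‖c‖ = 1)
    (hBd : ∀ j, DifferentiableOn ℂ (B j) (ball (0 : ℂ) 1))
    (hB1 : ∀ j, ∀ z ∈ ball (0 : ℂ) 1, ‖B j z‖ ≤ 1)
    (hδ : ∀ j, ∃ δ : ℝ, 0 < δ ∧ ∀ z ∈ ball (0 : ℂ) 1, B j z = 0 →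
      δ ≤ (1 - ‖z‖ ^ 2) * ‖deriv (B j) z‖)
    (hF : ∀ z ∈ ball (0 : ℂ) 1, F z = c * ∏ j : Fin N, B j z) : False := by
  choose δ hδ0 hδ1 using hδ
  obtain ⟨d, hd0, hd1⟩ : ∃ d : ℝ, 0 < d ∧ ∀ j, d ≤ δ j := by
    classical
    by_cases hN : Nonempty (Fin N)
    · refine ⟨Finset.univ.inf' Finset.univ_nonempty δ, ?_, fun j =>
        Finset.inf'_le _ (Finset.mem_univ j)⟩
      rw [Finset.lt_inf'_iff]
      exact fun j _ => hδ0 j
    · rw [not_nonempty_iff] at hN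
      exact ⟨1, one_pos, fun j => (hN.false j).elim⟩
  set η : ℝ := min (d / 8) (1 / 2) with hη
  have hη0 : 0 < η := by positivity
  obtain ⟨σ, r, hσ, hinj, hr, hclose, hzero⟩ := hcl (N + 1) η hη0
  have hnorm : ∀ i, ‖σ * (r i : ℂ)‖ = r i := by
    intro i
    rw [norm_mul, hσ, one_mul, Complex.norm_real, Real.norm_of_nonneg (hr i).1.le]
  have hmem : ∀ i, σ * (r i : ℂ) ∈ ball (0 : ℂ) 1 := by
    intro i
    rw [mem_ball_zero_iff, hnorm]
    exact (hr i).2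
  have hex : ∀ i, ∃ j, B j (σ * (r i : ℂ)) = 0 := by
    intro i
    have h1 := hF _ (hmem i)
    rw [hzero i] at h1
    have hc0 : c ≠ 0 := by
      intro h
      rw [h, norm_zero] at hc
      exact zero_ne_one hc
    have h2 := (mul_eq_zero.1 h1.symm).resolve_left hc0
    obtain ⟨j, -, hj⟩ := Finset.prod_eq_zero_iff.1 h2
    exact ⟨j, hj⟩
  choose J hJ using hex
  obtain ⟨i, i', hne, hii⟩ := Fintype.exists_ne_map_eq_of_card_lt J (by simp)
  have hσ0 : σ ≠ 0 := by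
    intro h
    rw [h, norm_zero] at hσ
    exact zero_ne_one hσ
  have hzz : σ * (r i : ℂ) ≠ σ * (r i' : ℂ) := by
    intro h
    have h1 := mul_left_cancel₀ hσ0 h
    exact hne (hinj (by exact_mod_cast h1))
  have h1 := deriv_small (hBd (J i)) (hB1 (J i)) (z := σ * (r i : ℂ)) (z' := σ * (r i' : ℂ))
    (η := η) (by rw [hnorm]; exact (hr i).2) hzz (hJ i) (by rw [hii]; exact hJ i')
    (by
      rw [hnorm, ← mul_sub, norm_mul, hσ, one_mul, ← Complex.ofReal_sub, Complex.norm_real,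
        Real.norm_eq_abs, abs_sub_comm]
      exact hclose i i')
    (lt_of_le_of_lt (min_le_right _ _) (by norm_num))
  have h2 := hδ1 (J i) _ (hmem i) (hJ i)
  have h3 := hd1 (J i)
  have h4 : η ≤ d / 8 := min_le_left _ _
  linarith

end Pool.Agent.MP58366f
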