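import Pool.Agent.MP58366f.C_Product

/-!
MP_58366f_an, part C3: Taylor coefficients.
-/

open Metric Set Filter Topology

namespace Pool.Agent.MP58366f

/-- Taylor coefficient at `0` -/
noncomputable def cf (f : ℂ → ℂ) (n : ℕ) : ℂ := iteratedDeriv n f 0 / (n.factorial : ℂ)

lemma contDiffAt_of_diff {f : ℂ → ℂ} {ρ : ℝ} (hρ : 0 < ρ) (hf : DifferentiableOn ℂ f (ball 0 ρ))
    (n : WithTop ℕ∞) : ContDiffAt ℂ n f 0 :=
  (hf.analyticAt (isOpen_ball.mem_nhds (mem_ball_self hρ))).contDiffAt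

lemma cf_mul {f g : ℂ → ℂ} {ρ : ℝ} (hρ : 0 < ρ) (hf : DifferentiableOn ℂ f (ball 0 ρ))
    (hg : DifferentiableOn ℂ g (ball 0 ρ)) (n : ℕ) :
    cf (fun z => f z * g z) n = ∑ i ∈ Finset.range (n + 1), cf f (n - i) * cf g i := by
  unfold cf
  rw [iteratedDeriv_fun_mul (contDiffAt_of_diff hρ hf _) (contDiffAt_of_diff hρ hg _),
    Finset.sum_div]
  rw [← Finset.sum_range_reflect (fun i => iteratedDeriv (n - i) f 0 / ((n - i).factorial : ℂ) *
    (iteratedDeriv i g 0 / (i.factorial : ℂ)))]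
  refine Finset.sum_congr rfl fun i hi => ?_
  have hi' : i ≤ n := by
    rw [Finset.mem_range] at hi; omega
  have e1 : n + 1 - 1 - i = n - i := by omega
  have e2 : n - (n - i) = i := by omega
  rw [e1, e2, Nat.cast_choose ℂ hi']
  have h1 : (i.factorial : ℂ) ≠ 0 := by exact_mod_cast i.factorial_ne_zero
  have h2 : ((n - i).factorial : ℂ) ≠ 0 := by exact_mod_cast (n - i).factorial_ne_zero
  have h3 : (n.factorial : ℂ) ≠ 0 := by exact_mod_cast n.factorial_ne_zero
  field_simp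

lemma cf_series {f : ℂ → ℂ} {ρ : ℝ} (hρ : 1 < ρ) (hf : DifferentiableOn ℂ f (ball 0 ρ)) :
    Summable (fun n => ‖cf f n‖) ∧ ∀ z, ‖z‖ ≤ 1 → HasSum (fun n => cf f n * z ^ n) (f z) := by
  constructor
  · obtain ⟨r, hr1, hr2⟩ := exists_between hρ
    have hr0 : 0 < r := by linarith
    have hcont : ContinuousOn f (closedBall 0 r) :=
      hf.continuousOn.mono (closedBall_subset_ball hr2)
    obtain ⟨C, hC⟩ := (isCompact_closedBall (0 : ℂ) r).exists_bound_of_continuousOn hcont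
    have hd : DiffContOnCl ℂ f (ball 0 r) := by
      refine DifferentiableOn.diffContOnCl (hf.mono ?_)
      rw [closure_ball _ hr0.ne']
      exact closedBall_subset_ball hr2
    have hb : ∀ n, ‖cf f n‖ ≤ C * (1 / r) ^ n := by
      intro n
      have h1 := Complex.norm_iteratedDeriv_le_of_forall_mem_sphere_norm_le n hr0 hd
        (fun z hz => hC z (sphere_subset_closedBall hz))
      unfold cf
      rw [norm_div, Complex.norm_natCast]
      have h3 : (0 : ℝ) < n.factorial := by exact_mod_cast n.factorial_pos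
      rw [div_le_iff₀ h3]
      refine h1.trans (le_of_eq ?_)
      rw [one_div, inv_pow]
      field_simp
    refine Summable.of_nonneg_of_le (fun n => norm_nonneg _) hb ?_
    refine Summable.mul_left _ (summable_geometric_of_lt_one (by positivity) ?_)
    rw [div_lt_one hr0]; exact hr1
  · intro z hz
    have hz' : z ∈ ball (0 : ℂ) ρ := by
      rw [mem_ball_zero_iff]; linarith
    have h1 := Complex.hasSum_taylorSeries_on_ball hf hz'
    refine h1.congr_fun ?_ |> fun h => h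
    intro n
    simp only [sub_zero, smul_eq_mul, cf]
    ring

lemma cf_tendsto {G : ℕ → ℂ → ℂ} {F : ℂ → ℂ} (hG : ∀ K, DifferentiableOn ℂ (G K) (ball 0 1))
    (hF : DifferentiableOn ℂ F (ball 0 1)) (h : TendstoUniformlyOn G F atTop (KK (1 / 2))) (n : ℕ) :
    Tendsto (fun K => cf (G K) n) atTop (𝓝 (cf F n)) := by
  rw [Metric.tendstoUniformlyOn_iff] at h
  rw [Metric.tendsto_atTop']
  intro ε hε
  have hr : (0 : ℝ) < 1 / 2 := by norm_num
  obtain ⟨K0, hK0⟩ := eventually_atTop.1 (h (ε / 2 * (1 / 2) ^ n) (by positivity))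
  refine ⟨K0, fun K hK => ?_⟩
  have hsub : closedBall (0 : ℂ) (1 / 2) ⊆ ball 0 1 := closedBall_subset_ball (by norm_num)
  have hd : DiffContOnCl ℂ (G K - F) (ball 0 (1 / 2)) := by
    refine DifferentiableOn.diffContOnCl (((hG K).sub hF).mono ?_)
    rw [closure_ball _ hr.ne']
    exact hsub
  have h1 := Complex.norm_iteratedDeriv_le_of_forall_mem_sphere_norm_le n hr hd
    (C := ε / 2 * (1 / 2) ^ n) (fun z hz => by
      have hz1 : ‖z‖ = 1 / 2 := by simpa using hz
      have hz2 : z ∈ KK (1 / 2) := by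
        refine ⟨by linarith, ?_⟩
        have := norm_sub_norm_le (1 : ℂ) z
        rw [norm_one, hz1, norm_sub_rev] at this
        linarith
      have := hK0 K hK.le z hz2
      rw [Pi.sub_apply, ← dist_eq_norm, dist_comm]
      exact this.le)
  rw [iteratedDeriv_sub (contDiffAt_of_diff one_pos (hG K) _) (contDiffAt_of_diff one_pos hF _)]
    at h1
  unfold cf
  rw [dist_eq_norm, ← sub_div, norm_div, Complex.norm_natCast]
  have h3 : (0 : ℝ) < n.factorial := by exact_mod_cast n.factorial_pos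
  rw [div_lt_iff₀ h3]
  refine lt_of_le_of_lt h1 ?_
  have h4 : (n.factorial : ℝ) * (ε / 2 * (1 / 2) ^ n) / (1 / 2) ^ n = ε / 2 * n.factorial := by
    field_simp
  rw [h4]
  nlinarith

/-- transfer of the multiplier inequality to the limit function -/
lemma multiplier_of_partial {G : ℕ → ℂ → ℂ} {F : ℂ → ℂ}
    (hG : ∀ K, DifferentiableOn ℂ (G K) (ball 0 1)) (hF : DifferentiableOn ℂ F (ball 0 1))
    (h : TendstoUniformlyOn G F atTop (KK (1 / 2))) {C : ℝ}
    (hC : ∀ K R : ℕ, ∀ b : ℕ → ℂ, ∑ n ∈ Finset.range R,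
      ‖∑ i ∈ Finset.range (n + 1), cf (G K) (n - i) * b i‖ ^ 4 ≤
        C * ∑ n ∈ Finset.range R, ‖b n‖ ^ 4)
    (f : ℂ → ℂ) (hf : DifferentiableOn ℂ f (ball 0 1))
    (hs : Summable (fun n : ℕ => ‖iteratedDeriv n f 0 / (n.factorial : ℂ)‖ ^ (4 : ℝ))) :
    Summable (fun n : ℕ =>
      ‖iteratedDeriv n (fun z => F z * f z) 0 / (n.factorial : ℂ)‖ ^ (4 : ℝ)) := by
  have e4 : ∀ x : ℝ, x ^ (4 : ℝ) = x ^ 4 := fun x => by
    rw [← Real.rpow_natCast]; norm_num
  simp only [e4] at hs ⊢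
  have hs' : Summable (fun n : ℕ => ‖cf f n‖ ^ 4) := hs
  change Summable (fun n : ℕ => ‖cf (fun z => F z * f z) n‖ ^ 4)
  have hlim : ∀ R : ℕ, ∑ n ∈ Finset.range R, ‖cf (fun z => F z * f z) n‖ ^ 4 ≤
      C * ∑ n ∈ Finset.range R, ‖cf f n‖ ^ 4 := by
    intro R
    have h1 : Tendsto (fun K => ∑ n ∈ Finset.range R,
        ‖∑ i ∈ Finset.range (n + 1), cf (G K) (n - i) * cf f i‖ ^ 4) atTop
        (𝓝 (∑ n ∈ Finset.range R, ‖cf (fun z => F z * f z) n‖ ^ 4)) := by
      refine tendsto_finsetSum _ fun n _ => ?_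
      rw [cf_mul one_pos hF hf n]
      refine (Tendsto.norm (tendsto_finsetSum _ fun i _ => ?_)).pow 4
      exact (cf_tendsto hG hF h _).mul_const _
    exact le_of_tendsto' h1 fun K => hC K R _
  have hC0 : 0 ≤ |C| := abs_nonneg _
  refine summable_of_sum_range_le (c := |C| * ∑' n, ‖cf f n‖ ^ 4)
    (fun n => by positivity) fun R => ?_
  have h5 : 0 ≤ ∑ n ∈ Finset.range R, ‖cf f n‖ ^ 4 :=
    Finset.sum_nonneg fun _ _ => by positivity
  calc _ ≤ C * ∑ n ∈ Finset.range R, ‖cf f n‖ ^ 4 := hlim R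
    _ ≤ |C| * ∑ n ∈ Finset.range R, ‖cf f n‖ ^ 4 :=
        mul_le_mul_of_nonneg_right (le_abs_self C) h5
    _ ≤ |C| * ∑' n, ‖cf f n‖ ^ 4 :=
        mul_le_mul_of_nonneg_left (hs'.sum_le_tsum _ fun _ _ => by positivity) hC0

end Pool.Agent.MP58366f
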