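import Pool.Agent.MP58366f.Interface

/-!
MP_58366f_an, part C5: smooth cut-offs and second differences.
-/

open Metric Set Filter Topology

namespace Pool.Agent.MP58366f

lemma eq_zero_of_dense_side {f : ℝ → ℝ} (hf : Continuous f) {s : Set ℝ} (h : ∀ x ∈ s, f x = 0)
    {x : ℝ} (hx : x ∈ closure s) : f x = 0 := by
  have h1 : IsClosed {x | f x = 0} := isClosed_eq hf continuous_const
  exact h1.closure_subset_iff.2 h hx

/-- derivatives of the smooth transition -/
lemma exists_trans : ∃ (S1 S2 : ℝ → ℝ) (B : ℝ), 1 ≤ B ∧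
    (∀ t, HasDerivAt Real.smoothTransition (S1 t) t) ∧ (∀ t, HasDerivAt S1 (S2 t) t) ∧
    (∀ t, |S1 t| ≤ B) ∧ (∀ t, |S2 t| ≤ B) ∧ (∀ t, t ≤ 0 → S1 t = 0 ∧ S2 t = 0) ∧
    (∀ t, 1 ≤ t → S1 t = 0 ∧ S2 t = 0) := by
  set S := Real.smoothTransition with hS
  have hc : ContDiff ℝ (2 : ℕ) S := Real.smoothTransition.contDiff
  have hc1 : ContDiff ℝ (1 : ℕ) (deriv S) := by
    have h2 : ContDiff ℝ ((1 : ℕ) + 1) S := by exact_mod_cast hc
    exact (contDiff_succ_iff_deriv.1 h2).2.2
  have hc2 : Continuous (deriv (deriv S)) := by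
    have h2 : ContDiff ℝ ((0 : ℕ) + 1) (deriv S) := by exact_mod_cast hc1
    exact (contDiff_succ_iff_deriv.1 h2).2.2.continuous
  have hc1c : Continuous (deriv S) := hc1.continuous
  have hd0 : ∀ t, HasDerivAt S (deriv S t) t := fun t =>
    ((hc.differentiable (by norm_num)) t).hasDerivAt
  have hd1 : ∀ t, HasDerivAt (deriv S) (deriv (deriv S) t) t := fun t =>
    ((hc1.differentiable (by norm_num)) t).hasDerivAt
  have hneg1 : ∀ t ∈ Iio (0 : ℝ), deriv S t = 0 := by
    intro t ht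
    have : S =ᶠ[𝓝 t] fun _ => 0 := by
      filter_upwards [Iio_mem_nhds ht] with x hx
      exact Real.smoothTransition.zero_of_nonpos hx.le
    rw [this.deriv_eq]; simp
  have hpos1 : ∀ t ∈ Ioi (1 : ℝ), deriv S t = 0 := by
    intro t ht
    have : S =ᶠ[𝓝 t] fun _ => 1 := by
      filter_upwards [Ioi_mem_nhds ht] with x hx
      exact Real.smoothTransition.one_of_one_le (le_of_lt hx)
    rw [this.deriv_eq]; simp
  have hneg2 : ∀ t ∈ Iio (0 : ℝ), deriv (deriv S) t = 0 := by
    intro t ht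
    have : deriv S =ᶠ[𝓝 t] fun _ => 0 := by
      filter_upwards [Iio_mem_nhds ht] with x hx
      exact hneg1 x hx
    rw [this.deriv_eq]; simp
  have hpos2 : ∀ t ∈ Ioi (1 : ℝ), deriv (deriv S) t = 0 := by
    intro t ht
    have : deriv S =ᶠ[𝓝 t] fun _ => 0 := by
      filter_upwards [Ioi_mem_nhds ht] with x hx
      exact hpos1 x hx
    rw [this.deriv_eq]; simp
  have hl : ∀ t, t ≤ 0 → deriv S t = 0 ∧ deriv (deriv S) t = 0 := by
    intro t ht
    have ht' : t ∈ closure (Iio (0 : ℝ)) := by rw [closure_Iio]; exact ht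
    exact ⟨eq_zero_of_dense_side hc1c hneg1 ht', eq_zero_of_dense_side hc2 hneg2 ht'⟩
  have hr : ∀ t, 1 ≤ t → deriv S t = 0 ∧ deriv (deriv S) t = 0 := by
    intro t ht
    have ht' : t ∈ closure (Ioi (1 : ℝ)) := by rw [closure_Ioi]; exact ht
    exact ⟨eq_zero_of_dense_side hc1c hpos1 ht', eq_zero_of_dense_side hc2 hpos2 ht'⟩
  obtain ⟨B1, hB1⟩ := (isCompact_Icc (a := (0 : ℝ)) (b := 1)).exists_bound_of_continuousOn
    hc1c.continuousOn
  obtain ⟨B2, hB2⟩ := (isCompact_Icc (a := (0 : ℝ)) (b := 1)).exists_bound_of_continuousOn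
    hc2.continuousOn
  refine ⟨deriv S, deriv (deriv S), max 1 (max B1 B2), le_max_left _ _, hd0, hd1, ?_, ?_, hl, hr⟩
  · intro t
    by_cases h0 : t ≤ 0
    · rw [(hl t h0).1, abs_zero]; exact le_max_of_le_left zero_le_one
    · by_cases h1 : 1 ≤ t
      · rw [(hr t h1).1, abs_zero]; exact le_max_of_le_left zero_le_one
      · push Not at h0 h1
        exact (hB1 t ⟨h0.le, h1.le⟩).trans ((le_max_left _ _).trans (le_max_right _ _))
  · intro t
    by_cases h0 : t ≤ 0
    · rw [(hl t h0).2, abs_zero]; exact le_max_of_le_left zero_le_one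
    · by_cases h1 : 1 ≤ t
      · rw [(hr t h1).2, abs_zero]; exact le_max_of_le_left zero_le_one
      · push Not at h0 h1
        exact (hB2 t ⟨h0.le, h1.le⟩).trans ((le_max_right _ _).trans (le_max_right _ _))

/-- second differences from second derivatives -/
lemma second_diff {H H1 H2 : ℝ → ℂ} {A : ℝ} (h1 : ∀ s, HasDerivAt H (H1 s) s)
    (h2 : ∀ s, HasDerivAt H1 (H2 s) s) (hA : ∀ s, ‖H2 s‖ ≤ A) (s t : ℝ) :
    ‖H (s + t) - 2 * H s + H (s - t)‖ ≤ 2 * A * t ^ 2 := by
  have hlip : ∀ x y, ‖H1 y - H1 x‖ ≤ A * ‖y - x‖ := fun x y =>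
    (convex_univ).norm_image_sub_le_of_norm_hasDerivWithin_le
      (fun z _ => (h2 z).hasDerivWithinAt) (fun z _ => hA z) (mem_univ x) (mem_univ y)
  have hA0 : 0 ≤ A := (norm_nonneg _).trans (hA 0)
  set φ : ℝ → ℂ := fun τ => H (s + τ) + H (s - τ) with hφ
  have hφ' : ∀ τ, HasDerivAt φ (H1 (s + τ) - H1 (s - τ)) τ := by
    intro τ
    have e1 : HasDerivAt (fun τ => H (s + τ)) (H1 (s + τ)) τ := by
      have := (h1 (s + τ)).scomp τ ((hasDerivAt_id τ).const_add s)
      simpa [Function.comp_def] using this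
    have e2 : HasDerivAt (fun τ => H (s - τ)) (-H1 (s - τ)) τ := by
      have := (h1 (s - τ)).scomp τ ((hasDerivAt_id τ).const_sub s)
      simpa [Function.comp_def] using this
    have := e1.add e2
    rw [← sub_eq_add_neg] at this
    exact this
  have hb : ‖φ t - φ 0‖ ≤ 2 * A * |t| * ‖t - 0‖ := by
    refine (convex_Icc (-|t|) |t|).norm_image_sub_le_of_norm_hasDerivWithin_le
      (f' := fun τ => H1 (s + τ) - H1 (s - τ)) (fun z _ => (hφ' z).hasDerivWithinAt) ?_
      (by constructor <;> simp) (by constructor; exact neg_abs_le t; exact le_abs_self t)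
    intro z hz
    have h3 := hlip (s - z) (s + z)
    have h4 : ‖s + z - (s - z)‖ ≤ 2 * |t| := by
      have e : s + z - (s - z) = 2 * z := by ring
      rw [e, Real.norm_eq_abs, abs_mul, abs_two]
      have : |z| ≤ |t| := abs_le.2 hz
      linarith
    calc ‖H1 (s + z) - H1 (s - z)‖ ≤ A * ‖s + z - (s - z)‖ := h3
      _ ≤ A * (2 * |t|) := mul_le_mul_of_nonneg_left h4 hA0
      _ = 2 * A * |t| := by ring
  have e1 : φ t - φ 0 = H (s + t) - 2 * H s + H (s - t) := by
    simp only [hφ, add_zero, sub_zero]; ring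
  rw [e1, sub_zero, Real.norm_eq_abs] at hb
  calc _ ≤ 2 * A * |t| * |t| := hb
    _ = 2 * A * t ^ 2 := by rw [mul_assoc, ← sq, sq_abs]

/-- rescaled distance on the circle -/
noncomputable def yy (a c s : ℝ) : ℝ := (1 - Real.cos (s - c)) / a ^ 2

/-- cut-off function, vanishing near `c` -/
noncomputable def eta (m a c s : ℝ) : ℝ := Real.smoothTransition (m * yy a c s - 1)

lemma eta_nonneg (m a c s : ℝ) : 0 ≤ eta m a c s := Real.smoothTransition.nonneg _

lemma eta_le_one (m a c s : ℝ) : eta m a c s ≤ 1 := Real.smoothTransition.le_one _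

lemma eta_periodic (m a c s : ℝ) : eta m a c (s + 2 * Real.pi) = eta m a c s := by
  unfold eta yy
  have : s + 2 * Real.pi - c = (s - c) + 2 * Real.pi := by ring
  rw [this, Real.cos_add_two_pi]

lemma eta_derivs : ∃ B : ℝ, 1 ≤ B ∧ ∀ m a c : ℝ, 1 ≤ m → 0 < a → ∃ E1 E2 : ℝ → ℝ,
    (∀ s, HasDerivAt (eta m a c) (E1 s) s) ∧ (∀ s, HasDerivAt E1 (E2 s) s) ∧
    (∀ s, |E1 s| ≤ B * m / a ^ 2) ∧ (∀ s, |E2 s| ≤ 5 * B * m / a ^ 2) ∧
    (∀ s, m * yy a c s ≤ 1 → E1 s = 0 ∧ E2 s = 0) ∧
    (∀ s, 2 ≤ m * yy a c s → E1 s = 0 ∧ E2 s = 0) := by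
  obtain ⟨S1, S2, B, hB, hS1, hS2, hb1, hb2, hl, hr⟩ := exists_trans
  refine ⟨B, hB, fun m a c hm ha => ?_⟩
  have hy : ∀ s, HasDerivAt (fun s => m * yy a c s - 1) (m * (Real.sin (s - c) / a ^ 2)) s := by
    intro s
    unfold yy
    have h1 : HasDerivAt (fun s => Real.cos (s - c)) (-Real.sin (s - c)) s := by
      have := (Real.hasDerivAt_cos (s - c)).comp s ((hasDerivAt_id s).sub_const c)
      simpa [Function.comp_def] using this
    have h2 := (((h1.const_sub 1).div_const (a ^ 2)).const_mul m).sub_const 1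
    simpa using h2
  have hy2 : ∀ s, HasDerivAt (fun s => m * (Real.sin (s - c) / a ^ 2))
      (m * (Real.cos (s - c) / a ^ 2)) s := by
    intro s
    have h1 : HasDerivAt (fun s => Real.sin (s - c)) (Real.cos (s - c)) s := by
      have := (Real.hasDerivAt_sin (s - c)).comp s ((hasDerivAt_id s).sub_const c)
      simpa [Function.comp_def] using this
    exact (h1.div_const (a ^ 2)).const_mul m
  refine ⟨fun s => S1 (m * yy a c s - 1) * (m * (Real.sin (s - c) / a ^ 2)),
    fun s => S2 (m * yy a c s - 1) * (m * (Real.sin (s - c) / a ^ 2)) *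
      (m * (Real.sin (s - c) / a ^ 2)) + S1 (m * yy a c s - 1) * (m * (Real.cos (s - c) / a ^ 2)),
    ?_, ?_, ?_, ?_, ?_, ?_⟩
  · intro s
    exact (hS1 _).comp s (hy s)
  · intro s
    exact ((hS2 _).comp s (hy s)).mul (hy2 s)
  · intro s
    rw [abs_mul, abs_mul, abs_div, abs_of_nonneg (by linarith : (0 : ℝ) ≤ m),
      abs_of_nonneg (by positivity : (0 : ℝ) ≤ a ^ 2)]
    have h1 := hb1 (m * yy a c s - 1)
    have h2 := Real.abs_sin_le_one (s - c)
    calc |S1 (m * yy a c s - 1)| * (m * (|Real.sin (s - c)| / a ^ 2))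
        ≤ B * (m * (1 / a ^ 2)) := by gcongr
      _ = B * m / a ^ 2 := by ring
  · intro s
    by_cases hlow : m * yy a c s ≤ 1
    · have := hl (m * yy a c s - 1) (by linarith)
      beta_reduce
      rw [this.1, this.2]
      simp only [zero_mul, add_zero, abs_zero]
      positivity
    by_cases hhigh : 2 ≤ m * yy a c s
    · have := hr (m * yy a c s - 1) (by linarith)
      beta_reduce
      rw [this.1, this.2]
      simp only [zero_mul, add_zero, abs_zero]
      positivity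
    push Not at hlow hhigh
    have hsin : (m * (Real.sin (s - c) / a ^ 2)) * (m * (Real.sin (s - c) / a ^ 2)) ≤
        4 * m / a ^ 2 := by
      have h1 : Real.sin (s - c) ^ 2 ≤ 2 * (1 - Real.cos (s - c)) := by
        have h2 := Real.sin_sq_add_cos_sq (s - c)
        have h3 := Real.cos_le_one (s - c)
        have h4 := Real.neg_one_le_cos (s - c)
        nlinarith
      have h5 : m * (1 - Real.cos (s - c)) ≤ 2 * a ^ 2 := by
        unfold yy at hhigh
        rw [← mul_div_assoc, div_lt_iff₀ (by positivity)] at hhigh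
        exact hhigh.le
      have h6 : (m * (Real.sin (s - c) / a ^ 2)) * (m * (Real.sin (s - c) / a ^ 2)) =
          m * (m * Real.sin (s - c) ^ 2) / (a ^ 2 * a ^ 2) := by
        field_simp
      rw [h6, div_le_div_iff₀ (by positivity) (by positivity)]
      have h7 : m * Real.sin (s - c) ^ 2 ≤ 4 * a ^ 2 := by nlinarith
      have ha2 : 0 < a ^ 2 := by positivity
      calc m * (m * Real.sin (s - c) ^ 2) * a ^ 2 ≤ m * (4 * a ^ 2) * a ^ 2 := by gcongr
        _ = 4 * m * (a ^ 2 * a ^ 2) := by ring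
    have hcos : |m * (Real.cos (s - c) / a ^ 2)| ≤ m / a ^ 2 := by
      rw [abs_mul, abs_div, abs_of_nonneg (by linarith : (0 : ℝ) ≤ m),
        abs_of_nonneg (by positivity : (0 : ℝ) ≤ a ^ 2)]
      have h2 := Real.abs_cos_le_one (s - c)
      calc m * (|Real.cos (s - c)| / a ^ 2) ≤ m * (1 / a ^ 2) := by gcongr
        _ = m / a ^ 2 := by ring
    have hB0 : 0 ≤ B := by linarith
    calc |S2 (m * yy a c s - 1) * (m * (Real.sin (s - c) / a ^ 2)) *
          (m * (Real.sin (s - c) / a ^ 2)) + S1 (m * yy a c s - 1) *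
          (m * (Real.cos (s - c) / a ^ 2))|
        ≤ |S2 (m * yy a c s - 1) * (m * (Real.sin (s - c) / a ^ 2)) *
          (m * (Real.sin (s - c) / a ^ 2))| + |S1 (m * yy a c s - 1) *
          (m * (Real.cos (s - c) / a ^ 2))| := abs_add_le _ _
      _ = |S2 (m * yy a c s - 1)| * ((m * (Real.sin (s - c) / a ^ 2)) *
          (m * (Real.sin (s - c) / a ^ 2))) + |S1 (m * yy a c s - 1)| *
          |m * (Real.cos (s - c) / a ^ 2)| := by
            rw [mul_assoc, abs_mul, abs_mul_self, abs_mul]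
      _ ≤ B * (4 * m / a ^ 2) + B * (m / a ^ 2) := by
            have := mul_self_nonneg (m * (Real.sin (s - c) / a ^ 2))
            have h8 := hb1 (m * yy a c s - 1)
            have h9 := hb2 (m * yy a c s - 1)
            gcongr
      _ = 5 * B * m / a ^ 2 := by ring
  · intro s hs
    have := hl (m * yy a c s - 1) (by linarith)
    simp only [this.1, this.2, zero_mul, add_zero, and_self]
  · intro s hs
    have := hr (m * yy a c s - 1) (by linarith)
    simp only [this.1, this.2, zero_mul, add_zero, and_self]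

lemma yy_large {a c s : ℝ} (ha : 0 < a) (ha' : a ≤ 1 / 64) (hc : 0 ≤ c) (hc' : c ≤ 1 / 4)
    (hs : |s| ≤ Real.pi) (h : 2 * a < |s - c|) : 1 / 2 ≤ yy a c s := by
  unfold yy
  rw [le_div_iff₀ (by positivity)]
  have hpi : Real.pi < 4 := Real.pi_lt_four
  have hpi3 : 3 < Real.pi := Real.pi_gt_three
  have hpi0 : 0 < Real.pi := Real.pi_pos
  obtain ⟨hs1, hs2⟩ := abs_le.1 hs
  have key : ∀ x : ℝ, |x| ≤ Real.pi → 2 * a < |x| → 1 / 2 * a ^ 2 ≤ 1 - Real.cos x := by
    intro x hx hx'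
    have h2 : Real.cos x ≤ 1 - 2 / Real.pi ^ 2 * x ^ 2 := Real.cos_le_one_sub_mul_cos_sq hx
    have h3 : 4 * a ^ 2 ≤ x ^ 2 := by
      rw [← sq_abs x]
      nlinarith [abs_nonneg x]
    have h4 : 1 / 8 ≤ 2 / Real.pi ^ 2 := by
      rw [div_le_div_iff₀ (by norm_num) (by positivity)]
      nlinarith
    nlinarith
  by_cases hcase : -Real.pi ≤ s - c
  · exact key (s - c) (abs_le.2 ⟨hcase, by linarith⟩) h
  · push Not at hcase
    have h1 : Real.cos (s - c) = Real.cos (s - c + 2 * Real.pi) := (Real.cos_add_two_pi _).symm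
    rw [h1]
    refine key _ (abs_le.2 ⟨by linarith, by linarith⟩) ?_
    rw [abs_of_pos (by linarith)]
    linarith

lemma angle_le (N : ℕ) [NeZero N] (j : ZMod N) :
    |2 * Real.pi * (j.valMinAbs : ℝ) / N| ≤ Real.pi := by
  have hN : (0 : ℝ) < N := Nat.cast_pos.2 (Nat.pos_of_ne_zero (NeZero.ne N))
  have h1 := ZMod.natAbs_valMinAbs_le j
  have h2 : (2 : ℝ) * |(j.valMinAbs : ℝ)| ≤ N := by
    have h3 : 2 * j.valMinAbs.natAbs ≤ N := by omega
    have h4 : |(j.valMinAbs : ℝ)| = (j.valMinAbs.natAbs : ℝ) := by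
      rw [Nat.cast_natAbs, Int.cast_abs]
    rw [h4]; exact_mod_cast h3
  rw [abs_div, abs_mul, abs_mul, abs_two, abs_of_pos Real.pi_pos, Nat.abs_cast,
    div_le_iff₀ hN]
  nlinarith [Real.pi_pos]

lemma eta_eq_one {m a c s : ℝ} (h : 2 ≤ m * yy a c s) : eta m a c s = 1 :=
  Real.smoothTransition.one_of_one_le (by linarith)

lemma eta_eq_zero {m a c s : ℝ} (h : m * yy a c s ≤ 1) : eta m a c s = 0 :=
  Real.smoothTransition.zero_of_nonpos (by linarith)

lemma cut_supp {a c s : ℝ} (ha : 0 < a) (ha' : a ≤ 1 / 64) (hc : 0 ≤ c) (hc' : c ≤ 1 / 4)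
    (hs : |s| ≤ Real.pi) (h : 2 * a < |s - c|) : eta 4 a c s = 1 :=
  eta_eq_one (by linarith [yy_large ha ha' hc hc' hs h])

/-- the cut-off to a window is a bounded multiplier -/
lemma cut_M4 : ∃ Cθ : ℝ, 0 < Cθ ∧ ∀ (N : ℕ) [NeZero N] (a c : ℝ), 0 < a → a ≤ 1 / 64 → 0 ≤ c →
    c ≤ 1 / 4 → 1 ≤ N * (2 * a) → M4 (sym N fun s => ((1 - eta 4 a c s : ℝ) : ℂ)) Cθ := by
  obtain ⟨C, hC, hker⟩ := ker_bound
  obtain ⟨B, hB, hder⟩ := eta_derivs
  refine ⟨C * (160 * B), by positivity, fun N _ a c ha ha' hc hc' hN => ?_⟩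
  obtain ⟨E1, E2, hE1, hE2, hb1, hb2, hz1, hz2⟩ := hder 4 a c (by norm_num) ha
  have hpi3 : 3 < Real.pi := Real.pi_gt_three
  have hfar : ∀ s : ℝ, 1 < |s| → |s| < 3 / 2 → 2 ≤ 4 * yy a c s := by
    intro s h1 h2
    have h3 : 2 * a < |s - c| := by
      have h4 : |s| ≤ |s - c| + |c| := by
        calc |s| = |s - c + c| := by ring_nf
          _ ≤ _ := abs_add_le _ _
      rw [abs_of_nonneg hc] at h4
      linarith
    linarith [yy_large ha ha' hc hc' (by linarith) h3]
  set H : ℝ → ℂ := fun s => if |s| < 3 / 2 then ((1 - eta 4 a c s : ℝ) : ℂ) else 0 with hH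
  set H1 : ℝ → ℂ := fun s => if |s| < 3 / 2 then ((-E1 s : ℝ) : ℂ) else 0 with hH1
  set H2 : ℝ → ℂ := fun s => if |s| < 3 / 2 then ((-E2 s : ℝ) : ℂ) else 0 with hH2
  have hopen : IsOpen {s : ℝ | |s| < 3 / 2} := isOpen_lt continuous_abs continuous_const
  have hopen1 : IsOpen {s : ℝ | 1 < |s|} := isOpen_lt continuous_const continuous_abs
  have hz : ∀ s, 1 < |s| → H s = 0 ∧ H1 s = 0 := by
    intro s hs
    by_cases h : |s| < 3 / 2
    · have h2 := hfar s hs h
      have h3 := (hz2 s h2).1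
      simp only [hH, hH1, if_pos h, h3, eta_eq_one h2]
      simp
    · simp only [hH, hH1, if_neg h, and_self]
  have hd1 : ∀ s, HasDerivAt H (H1 s) s := by
    intro s
    by_cases h : |s| < 3 / 2
    · have e1 : HasDerivAt (fun s => ((1 - eta 4 a c s : ℝ) : ℂ)) ((-E1 s : ℝ) : ℂ) s := by
        have := ((hE1 s).const_sub 1).ofReal_comp
        simpa using this
      have e2 : H =ᶠ[𝓝 s] fun s => ((1 - eta 4 a c s : ℝ) : ℂ) := by
        filter_upwards [hopen.mem_nhds h] with x hx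
        simp only [hH]; rw [if_pos hx]
      have e3 : H1 s = ((-E1 s : ℝ) : ℂ) := by simp only [hH1]; rw [if_pos h]
      rw [e3]
      exact e1.congr_of_eventuallyEq e2
    · have h1 : 1 < |s| := by push Not at h; linarith
      have e2 : H =ᶠ[𝓝 s] fun _ => (0 : ℂ) := by
        filter_upwards [hopen1.mem_nhds h1] with x hx
        exact (hz x hx).1
      rw [(hz s h1).2]
      exact (hasDerivAt_const s (0 : ℂ)).congr_of_eventuallyEq e2
  have hd2 : ∀ s, HasDerivAt H1 (H2 s) s := by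
    intro s
    by_cases h : |s| < 3 / 2
    · have e1 : HasDerivAt (fun s => ((-E1 s : ℝ) : ℂ)) ((-E2 s : ℝ) : ℂ) s := by
        have := ((hE2 s).neg).ofReal_comp
        simpa using this
      have e2 : H1 =ᶠ[𝓝 s] fun s => ((-E1 s : ℝ) : ℂ) := by
        filter_upwards [hopen.mem_nhds h] with x hx
        simp only [hH1]; rw [if_pos hx]
      have e3 : H2 s = ((-E2 s : ℝ) : ℂ) := by simp only [hH2]; rw [if_pos h]
      rw [e3]
      exact e1.congr_of_eventuallyEq e2
    · have h1 : 1 < |s| := by push Not at h; linarith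
      have e2 : H1 =ᶠ[𝓝 s] fun _ => (0 : ℂ) := by
        filter_upwards [hopen1.mem_nhds h1] with x hx
        exact (hz x hx).2
      have e3 : H2 s = 0 := by simp only [hH2]; rw [if_neg h]
      rw [e3]
      exact (hasDerivAt_const s (0 : ℂ)).congr_of_eventuallyEq e2
  have hb : ∀ s, ‖H2 s‖ ≤ 20 * B / a ^ 2 := by
    intro s
    simp only [hH2]
    split_ifs
    · rw [Complex.norm_real, Real.norm_eq_abs, abs_neg]
      calc |E2 s| ≤ 5 * B * 4 / a ^ 2 := hb2 s
        _ = 20 * B / a ^ 2 := by ring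
    · rw [norm_zero]; positivity
  have hsd := second_diff hd1 hd2 hb
  have hM := (hker N H c (2 * a) (160 * B) (by linarith) (by linarith)
    (by rw [abs_of_nonneg hc]; linarith) hN (by positivity) ?_ ?_ ?_).2
  · refine hM.congr fun j => ?_
    have hj := angle_le N j
    unfold sym
    by_cases h : |2 * Real.pi * (j.valMinAbs : ℝ) / N| < 3 / 2
    · simp only [hH]; rw [if_pos h]
    · simp only [hH]; rw [if_neg h]
      have h3 : 2 * a < |2 * Real.pi * (j.valMinAbs : ℝ) / N - c| := by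
        have h4 : |2 * Real.pi * (j.valMinAbs : ℝ) / N| ≤
            |2 * Real.pi * (j.valMinAbs : ℝ) / N - c| + |c| := by
          calc |2 * Real.pi * (j.valMinAbs : ℝ) / N| =
            |2 * Real.pi * (j.valMinAbs : ℝ) / N - c + c| := by ring_nf
            _ ≤ _ := abs_add_le _ _
        rw [abs_of_nonneg hc] at h4
        push Not at h
        linarith
      rw [cut_supp ha ha' hc hc' hj h3]
      simp
  · intro s hs
    simp only [hH]
    split_ifs with h
    · rw [cut_supp ha ha' hc hc' (by linarith) hs]; simp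
    · rfl
  · intro s
    simp only [hH]
    split_ifs with h
    · rw [Complex.norm_real, Real.norm_eq_abs, abs_of_nonneg (by linarith [eta_le_one 4 a c s])]
      linarith [eta_nonneg 4 a c s]
    · rw [norm_zero]; positivity
  · intro s t
    refine (hsd s t).trans (le_of_eq ?_)
    field_simp
    ring

end Pool.Agent.MP58366f
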