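import Pool.Agent.MP58366f.C_Coef

/-!
MP_58366f_an, part C4: from multiplier bounds on the groups `ZMod N` to inequalities for Taylor
coefficients.
-/

open Metric Set Filter Topology

namespace Pool.Agent.MP58366f

lemma ec_eq_exp_c {N : ℕ} [NeZero N] (j : ZMod N) :
    ec j = Complex.exp (((2 * Real.pi * (j.valMinAbs : ℝ) / N : ℝ) : ℂ) * Complex.I) := by
  have h1 : ((j.valMinAbs : ℤ) : ZMod N) = j := ZMod.coe_valMinAbs j
  have h2 : ec j = ec ((j.valMinAbs : ℤ) : ZMod N) := by rw [h1]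
  rw [h2]
  unfold ec
  rw [ZMod.stdAddChar_coe]
  congr 1
  push_cast
  ring

lemma sum_fin_inj {N : ℕ} [NeZero N] {R : ℕ} (hR : R ≤ N) (g : ZMod N → ℝ) (hg : ∀ x, 0 ≤ g x) :
    ∑ n ∈ Finset.range R, g (n : ZMod N) ≤ ∑ x, g x := by
  classical
  have hinj : Set.InjOn (fun n : ℕ => (n : ZMod N)) (Finset.range R : Finset ℕ) := by
    intro a ha b hb hab
    rw [Finset.mem_coe, Finset.mem_range] at ha hb
    have h1 := congrArg ZMod.val hab
    beta_reduce at h1
    rwa [ZMod.val_natCast_of_lt (by omega), ZMod.val_natCast_of_lt (by omega)] at h1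
  rw [← Finset.sum_image (f := g) hinj]
  exact Finset.sum_le_sum_of_subset_of_nonneg (Finset.subset_univ _) fun x _ _ => hg x

lemma ker_poly {N : ℕ} [NeZero N] (a : ℕ → ℂ) (L : ℕ) (x : ZMod N) :
    ker (fun j : ZMod N => ∑ m ∈ Finset.range L, a m * ec j ^ m) x =
      ∑ m ∈ Finset.range L, if (m : ZMod N) = x then a m else 0 := by
  unfold ker
  have h1 : ∀ j : ZMod N, (∑ m ∈ Finset.range L, a m * ec j ^ m) * ec (-(j * x)) =
      ∑ m ∈ Finset.range L, a m * ec (j * ((m : ZMod N) - x)) := by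
    intro j
    rw [Finset.sum_mul]
    refine Finset.sum_congr rfl fun m _ => ?_
    rw [mul_assoc]
    congr 1
    have h2 : ec j ^ m = ec ((m : ZMod N) * j) := by
      rw [← nsmul_eq_mul]
      exact (AddChar.map_nsmul_eq_pow _ _ _).symm
    rw [h2, ← ec_add]
    congr 1
    ring
  simp_rw [h1]
  rw [Finset.sum_comm]
  simp_rw [← Finset.mul_sum, sum_ec_mul]
  rw [Finset.mul_sum]
  refine Finset.sum_congr rfl fun m _ => ?_
  by_cases h : (m : ZMod N) = x
  · rw [if_pos h, if_pos (sub_eq_zero.2 h)]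
    have := natCast_ne_zero' (N := N)
    field_simp
  · rw [if_neg h, if_neg (fun h' => h (sub_eq_zero.1 h'))]
    simp

lemma norm_ker_le_c {N : ℕ} [NeZero N] (h : ZMod N → ℂ) {τ : ℝ} (hτ : ∀ j, ‖h j‖ ≤ τ) (x : ZMod N) :
    ‖ker h x‖ ≤ τ := by
  unfold ker
  have hN : (0 : ℝ) < N := by exact_mod_cast Nat.pos_of_ne_zero (NeZero.ne N)
  rw [norm_mul, norm_inv, Complex.norm_natCast]
  have h1 : ‖∑ j, h j * ec (-(j * x))‖ ≤ N * τ := by
    refine (norm_sum_le _ _).trans ?_
    have h2 : ∀ j ∈ (Finset.univ : Finset (ZMod N)), ‖h j * ec (-(j * x))‖ ≤ τ := by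
      intro j _
      rw [norm_mul, norm_ec, mul_one]
      exact hτ j
    refine (Finset.sum_le_sum h2).trans (le_of_eq ?_)
    rw [Finset.sum_const, Finset.card_univ, ZMod.card, nsmul_eq_mul]
  calc (N : ℝ)⁻¹ * ‖∑ j, h j * ec (-(j * x))‖ ≤ (N : ℝ)⁻¹ * (N * τ) := by gcongr
    _ = τ := by field_simp

/-- kernel of the sampled function is close to the Taylor coefficients -/
lemma ker_close {N : ℕ} [NeZero N] {R : ℕ} (hN : 2 * R < N) {G : ℂ → ℂ} (a : ℕ → ℂ)
    (ha : Summable fun m => ‖a m‖) (hG : ∀ z, ‖z‖ ≤ 1 → HasSum (fun m => a m * z ^ m) (G z))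
    {n i : ℕ} (hn : n < R) (hi : i < R) :
    ‖ker (sym N fun s => G (Complex.exp ((s : ℂ) * Complex.I))) ((n : ZMod N) - (i : ZMod N)) -
      (if i ≤ n then a (n - i) else 0)‖ ≤ ∑' m, ‖a (m + (N - R))‖ := by
  set L := N - R with hL
  set τ := ∑' m, ‖a (m + L)‖ with hτ
  have hsym : ∀ j : ZMod N, sym N (fun s => G (Complex.exp ((s : ℂ) * Complex.I))) j = G (ec j) := by
    intro j
    unfold sym
    rw [ec_eq_exp_c]
  have htail : ∀ j : ZMod N, ‖G (ec j) - ∑ m ∈ Finset.range L, a m * ec j ^ m‖ ≤ τ := by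
    intro j
    have h1 := hG (ec j) (norm_ec j).le
    have h2 := (hasSum_nat_add_iff' L).2 h1
    rw [← h2.tsum_eq]
    refine (norm_tsum_le_tsum_norm ?_).trans (le_of_eq ?_)
    · refine ((summable_nat_add_iff L).2 ha).congr fun m => ?_
      rw [norm_mul, norm_pow, norm_ec, one_pow, mul_one]
    · rw [hτ]
      refine tsum_congr fun m => ?_
      rw [norm_mul, norm_pow, norm_ec, one_pow, mul_one]
  have hsplit : ∀ x : ZMod N, ker (sym N fun s => G (Complex.exp ((s : ℂ) * Complex.I))) x =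
      ker (fun j => G (ec j) - ∑ m ∈ Finset.range L, a m * ec j ^ m) x +
      ker (fun j => ∑ m ∈ Finset.range L, a m * ec j ^ m) x := by
    intro x
    rw [← ker_add]
    congr 1
    funext j
    rw [hsym, sub_add_cancel]
  rw [hsplit, ker_poly]
  have hval : (∑ m ∈ Finset.range L, if (m : ZMod N) = (n : ZMod N) - (i : ZMod N) then a m else 0) =
      if i ≤ n then a (n - i) else 0 := by
    by_cases hin : i ≤ n
    · rw [if_pos hin]
      have e1 : (n : ZMod N) - (i : ZMod N) = ((n - i : ℕ) : ZMod N) := by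
        rw [Nat.cast_sub hin]
      rw [e1, Finset.sum_eq_single (n - i)]
      · rw [if_pos rfl]
      · intro m hm hne
        rw [if_neg]
        intro h
        apply hne
        rw [Finset.mem_range] at hm
        have h1 := congrArg ZMod.val h
        rwa [ZMod.val_natCast_of_lt (by omega), ZMod.val_natCast_of_lt (by omega)] at h1
      · intro h
        exfalso
        apply h
        rw [Finset.mem_range]
        omega
    · rw [if_neg hin]
      refine Finset.sum_eq_zero fun m hm => ?_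
      rw [if_neg]
      intro h
      rw [Finset.mem_range] at hm
      have h1 : ((m + i : ℕ) : ZMod N) = ((n : ℕ) : ZMod N) := by
        push_cast
        rw [h]; ring
      have h2 := congrArg ZMod.val h1
      rw [ZMod.val_natCast_of_lt (by omega), ZMod.val_natCast_of_lt (by omega)] at h2
      omega
  rw [hval, add_sub_cancel_right]
  exact norm_ker_le_c _ htail _

theorem coef_ineq {G : ℂ → ℂ} {ρ : ℝ} (hρ : 1 < ρ) (hGd : DifferentiableOn ℂ G (ball 0 ρ)) {C : ℝ}
    {N₀ : ℕ} (hM : ∀ (N : ℕ) [NeZero N], N₀ ≤ N →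
      M4 (sym N fun s => G (Complex.exp ((s : ℂ) * Complex.I))) C) (R : ℕ) (b : ℕ → ℂ) :
    ∑ n ∈ Finset.range R, ‖∑ i ∈ Finset.range (n + 1), cf G (n - i) * b i‖ ^ 4 ≤
      C ^ 4 * ∑ n ∈ Finset.range R, ‖b n‖ ^ 4 := by
  classical
  obtain ⟨ha, hG⟩ := cf_series hρ hGd
  set a := cf G with ha'
  set Nk : ℕ → ℕ := fun k => N₀ + 2 * R + 1 + k with hNk
  have hne : ∀ k, NeZero (Nk k) := fun k => ⟨by simp only [hNk]; omega⟩
  set h : (k : ℕ) → ZMod (Nk k) → ℂ := fun k =>
    sym (Nk k) fun s => G (Complex.exp ((s : ℂ) * Complex.I)) with hh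
  -- the test function
  set f : (k : ℕ) → ZMod (Nk k) → ℂ := fun k y =>
    ∑ i ∈ Finset.range R, if y = (i : ZMod (Nk k)) then b i else 0 with hf
  have hTop : ∀ k, haveI := hne k; ∀ x : ZMod (Nk k), Top (h k) (f k) x =
      ∑ i ∈ Finset.range R, ker (h k) (x - (i : ZMod (Nk k))) * b i := by
    intro k
    have := hne k
    intro x
    unfold Top
    simp only [hf, Finset.mul_sum]
    rw [Finset.sum_comm]
    refine Finset.sum_congr rfl fun i _ => ?_
    simp
  have hfn : ∀ k, haveI := hne k; ∑ y, ‖f k y‖ ^ 4 ≤ ∑ i ∈ Finset.range R, ‖b i‖ ^ 4 := by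
    intro k
    have := hne k
    have hinj : Set.InjOn (fun n : ℕ => (n : ZMod (Nk k))) (Finset.range R : Finset ℕ) := by
      intro p hp q hq hpq
      rw [Finset.mem_coe, Finset.mem_range] at hp hq
      have h1 := congrArg ZMod.val hpq
      beta_reduce at h1
      rwa [ZMod.val_natCast_of_lt (by simp only [hNk]; omega),
        ZMod.val_natCast_of_lt (by simp only [hNk]; omega)] at h1
    have h1 : ∑ y, ‖f k y‖ ^ 4 =
        ∑ y ∈ (Finset.range R).image (fun n : ℕ => (n : ZMod (Nk k))), ‖f k y‖ ^ 4 := by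
      symm
      refine Finset.sum_subset (Finset.subset_univ _) fun y _ hy => ?_
      have : f k y = 0 := by
        simp only [hf]
        refine Finset.sum_eq_zero fun i hi => ?_
        rw [if_neg]
        rintro rfl
        exact hy (Finset.mem_image_of_mem _ hi)
      rw [this]; simp
    rw [h1, Finset.sum_image hinj]
    refine le_of_eq (Finset.sum_congr rfl fun n hn => ?_)
    have : f k (n : ZMod (Nk k)) = b n := by
      simp only [hf]
      rw [Finset.sum_eq_single n]
      · rw [if_pos rfl]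
      · intro i hi hne'
        rw [if_neg]
        intro h'
        exact hne' (hinj (Finset.mem_coe.2 hi) (Finset.mem_coe.2 hn) h'.symm)
      · intro h'; exact absurd hn h'
    rw [this]
  have hineq : ∀ k, ∑ n ∈ Finset.range R,
      ‖∑ i ∈ Finset.range R, ker (h k) ((n : ZMod (Nk k)) - (i : ZMod (Nk k))) * b i‖ ^ 4 ≤
      C ^ 4 * ∑ n ∈ Finset.range R, ‖b n‖ ^ 4 := by
    intro k
    have := hne k
    have h1 := hM (Nk k) (by simp only [hNk]; omega) (f k)
    have h2 := pow_le_pow_left₀ (n4_nonneg _) h1 4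
    rw [mul_pow, n4_pow, n4_pow] at h2
    have h3 := sum_fin_inj (N := Nk k) (R := R) (by simp only [hNk]; omega)
      (fun x => ‖Top (h k) (f k) x‖ ^ 4) (fun x => by positivity)
    have h4 : ∑ n ∈ Finset.range R,
        ‖∑ i ∈ Finset.range R, ker (h k) ((n : ZMod (Nk k)) - (i : ZMod (Nk k))) * b i‖ ^ 4 =
        ∑ n ∈ Finset.range R, ‖Top (h k) (f k) (n : ZMod (Nk k))‖ ^ 4 := by
      refine Finset.sum_congr rfl fun n _ => ?_
      rw [hTop k]
    rw [h4]
    refine h3.trans (h2.trans ?_)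
    exact mul_le_mul_of_nonneg_left (hfn k) (by positivity)
  -- the limit
  have hτ : Tendsto (fun k => ∑' m, ‖a (m + (Nk k - R))‖) atTop (𝓝 0) := by
    have h1 := tendsto_sum_nat_add (fun m => ‖a m‖)
    refine h1.comp ?_
    refine tendsto_atTop_mono (fun k => ?_) tendsto_id
    simp only [hNk, id]; omega
  have hlimker : ∀ n ∈ Finset.range R, ∀ i ∈ Finset.range R,
      Tendsto (fun k => haveI := hne k; ker (h k) ((n : ZMod (Nk k)) - (i : ZMod (Nk k)))) atTop
        (𝓝 (if i ≤ n then a (n - i) else 0)) := by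
    intro n hn i hi
    rw [Finset.mem_range] at hn hi
    rw [tendsto_iff_norm_sub_tendsto_zero]
    refine squeeze_zero (fun k => norm_nonneg _) (fun k => ?_) hτ
    have := hne k
    exact ker_close (N := Nk k) (R := R) (by simp only [hNk]; omega) a ha hG hn hi
  have hlim : Tendsto (fun k => haveI := hne k; ∑ n ∈ Finset.range R,
      ‖∑ i ∈ Finset.range R, ker (h k) ((n : ZMod (Nk k)) - (i : ZMod (Nk k))) * b i‖ ^ 4) atTop
      (𝓝 (∑ n ∈ Finset.range R,
        ‖∑ i ∈ Finset.range R, (if i ≤ n then a (n - i) else 0) * b i‖ ^ 4)) := by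
    refine tendsto_finsetSum _ fun n hn => ?_
    refine (Tendsto.norm (tendsto_finsetSum _ fun i hi => ?_)).pow 4
    exact (hlimker n hn i hi).mul_const _
  have hfin : ∑ n ∈ Finset.range R, ‖∑ i ∈ Finset.range (n + 1), a (n - i) * b i‖ ^ 4 =
      ∑ n ∈ Finset.range R,
        ‖∑ i ∈ Finset.range R, (if i ≤ n then a (n - i) else 0) * b i‖ ^ 4 := by
    refine Finset.sum_congr rfl fun n hn => ?_
    rw [Finset.mem_range] at hn
    congr 2
    have hsub : Finset.range (n + 1) ⊆ Finset.range R := by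
      intro x hx
      rw [Finset.mem_range] at hx ⊢
      omega
    rw [← Finset.sum_subset hsub]
    · refine Finset.sum_congr rfl fun i hi => ?_
      rw [Finset.mem_range] at hi
      rw [if_pos (by omega)]
    · intro i _ hi
      rw [Finset.mem_range] at hi
      rw [if_neg (by omega), zero_mul]
  rw [hfin]
  exact le_of_tendsto' hlim hineq

end Pool.Agent.MP58366f
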