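import Pool.Agent.MP58366f.C_Total
import Pool.Agent.MP58366f.C_Fourier
import Pool.Agent.MP58366f.C_Coef

/-!
MP_58366f_an, part C10: the counterexample.
-/

open Metric Set Filter Topology

namespace Pool.Agent.MP58366f

lemma bl_rot {u : ℂ} (hu : ‖u‖ = 1) (w z : ℂ) : bl (u * w) z = bl w (starRingEnd ℂ u * z) := by
  have h1 : starRingEnd ℂ u * u = 1 := by
    rw [mul_comm, Complex.mul_conj, Complex.normSq_eq_norm_sq, hu]; simp
  unfold bl
  rw [norm_mul, hu, one_mul, map_mul]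
  have h2 : u * w - z = u * (w - starRingEnd ℂ u * z) := by
    rw [mul_sub, ← mul_assoc, mul_comm u (starRingEnd ℂ u), h1, one_mul]
  have h3 : 1 - starRingEnd ℂ u * starRingEnd ℂ w * z =
      1 - starRingEnd ℂ w * (starRingEnd ℂ u * z) := by ring
  rw [h2, h3]
  calc starRingEnd ℂ u * starRingEnd ℂ w / (‖w‖ : ℂ) *
      (u * (w - starRingEnd ℂ u * z) / (1 - starRingEnd ℂ w * (starRingEnd ℂ u * z)))
      = (starRingEnd ℂ u * u) * (starRingEnd ℂ w / (‖w‖ : ℂ) *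
        ((w - starRingEnd ℂ u * z) / (1 - starRingEnd ℂ w * (starRingEnd ℂ u * z)))) := by ring
    _ = _ := by rw [h1, one_mul]

/-- the rotation -/
noncomputable def rot (c : ℝ) : ℂ := Complex.exp ((c : ℂ) * Complex.I)

lemma norm_rot (c : ℝ) : ‖rot c‖ = 1 := Complex.norm_exp_ofReal_mul_I _

lemma norm_rot_sub_one (c : ℝ) (hc : 0 ≤ c) : ‖rot c - 1‖ ≤ c := by
  have h1 := norm_ez_sub_one_sq 0 c
  have h2 : ez 0 c = rot c := by unfold ez rot; simp
  rw [h2, sub_zero] at h1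
  refine le_of_sq_le_sq ?_ hc
  rw [h1]
  have := Real.one_sub_sq_div_two_le_cos (x := c)
  linarith

lemma conj_rot_mul (c s : ℝ) : starRingEnd ℂ (rot c) * Complex.exp ((s : ℂ) * Complex.I) =
    ez c s := by
  unfold rot ez
  rw [← Complex.exp_conj, ← Complex.exp_add]
  congr 1
  rw [map_mul, Complex.conj_ofReal, Complex.conj_I]
  push_cast
  ring

lemma bl_diff' {w : ℂ} {ρ : ℝ} (hρ : ρ * ‖w‖ < 1) : DifferentiableOn ℂ (bl w) (ball 0 ρ) := by
  unfold bl
  refine DifferentiableOn.mul (differentiableOn_const _)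
    (DifferentiableOn.div (by fun_prop) (by fun_prop) fun z hz => ?_)
  rw [mem_ball_zero_iff] at hz
  intro h
  have h1 : starRingEnd ℂ w * z = 1 := (sub_eq_zero.1 h).symm
  have h2 : ‖starRingEnd ℂ w * z‖ < 1 := by
    rw [norm_mul, RCLike.norm_conj]
    calc ‖w‖ * ‖z‖ ≤ ‖w‖ * ρ := mul_le_mul_of_nonneg_left hz.le (norm_nonneg _)
      _ < 1 := by linarith
  rw [h1, norm_one] at h2
  exact lt_irrefl _ h2

theorem counterexample : ∃ F : ℂ → ℂ, DifferentiableOn ℂ F (ball (0 : ℂ) 1) ∧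
    (∀ z ∈ ball (0 : ℂ) 1, ‖F z‖ ≤ 1) ∧
    (∀ᵐ θ : ℝ ∂MeasureTheory.volume, ∃ w : ℂ, ‖w‖ = 1 ∧
      Tendsto (fun r : ℝ => F ((r : ℂ) * Complex.exp ((θ : ℂ) * Complex.I)))
        (𝓝[<] (1 : ℝ)) (𝓝 w)) ∧
    (∀ f : ℂ → ℂ, DifferentiableOn ℂ f (ball (0 : ℂ) 1) →
      Summable (fun n : ℕ => ‖iteratedDeriv n f 0 / (n.factorial : ℂ)‖ ^ (4 : ℝ)) →
      Summable (fun n : ℕ =>
        ‖iteratedDeriv n (fun z => F z * f z) 0 / (n.factorial : ℂ)‖ ^ (4 : ℝ))) ∧
    ∀ K : ℕ, ∀ η : ℝ, 0 < η → ∃ (σ : ℂ) (r : Fin K → ℝ), ‖σ‖ = 1 ∧ Function.Injective r ∧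
      (∀ i, 0 < r i ∧ r i < 1) ∧ (∀ i j, |r i - r j| ≤ η * (1 - r i)) ∧
      ∀ i, F (σ * (r i : ℂ)) = 0 := by
  obtain ⟨CB, e, hCB, he, a, Hm, n, w, ha, hac, haa, hHa, hL⟩ := choose_data
  obtain ⟨Ct, hCt, htot⟩ := total_bound CB hCB
  have htot' := htot e a Hm n w ha hac haa hHa hL
  set Z : (k : ℕ) → Fin (n k) → ℂ := fun k j => rot (cc k) * w k j with hZ
  have hrot0 : ∀ c, rot c ≠ 0 := fun c h => by
    have := norm_rot c
    rw [h, norm_zero] at this
    exact zero_ne_one this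
  have hZn : ∀ k j, ‖Z k j‖ = ‖w k j‖ := fun k j => by
    simp only [hZ]; rw [norm_mul, norm_rot, one_mul]
  have hpow : ∀ k : ℕ, (1 / 2 ^ k : ℝ) = (1 / 2) ^ k := fun k => by rw [one_div_pow]
  have hG : Good n Z (fun k => 1 / 2 ^ k) (fun k => cc k + 1 / 2 ^ k) := by
    refine ⟨?_, ?_, ?_, ?_, ?_, ?_⟩
    · intro k j
      exact mul_ne_zero (hrot0 _) ((hL k).1 j).1
    · intro k j
      rw [hZn]; exact ((hL k).1 j).2.1
    · intro k
      simp only [hZn]
      exact (hL k).2.1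
    · intro k j
      have h1 : Z k j - 1 = (rot (cc k) - 1) + rot (cc k) * (w k j - 1) := by
        simp only [hZ]; ring
      rw [h1]
      refine (norm_add_le _ _).trans ?_
      rw [norm_mul, norm_rot, one_mul]
      exact add_le_add (norm_rot_sub_one _ (cc_pos k).le) ((hL k).1 j).2.2
    · simp only [hpow]
      exact summable_geometric_two
    · have h1 : Tendsto (fun k : ℕ => (1 / 2 ^ k : ℝ)) atTop (𝓝 0) := by
        simp only [hpow]
        exact tendsto_pow_atTop_nhds_zero_of_lt_one (by norm_num) (by norm_num)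
      have h2 : Tendsto cc atTop (𝓝 0) := by
        have h3 : Tendsto (fun k : ℕ => (1 / 4 : ℝ) * (1 / 16) ^ k) atTop (𝓝 (1 / 4 * 0)) :=
          (tendsto_pow_atTop_nhds_zero_of_lt_one (by norm_num) (by norm_num)).const_mul _
        rw [mul_zero] at h3
        refine h3.congr fun k => ?_
        unfold cc
        rw [one_div_pow]; ring
      simpa using h2.add h1
  set G : ℕ → ℂ → ℂ := fun K z => ∏ k ∈ Finset.range K, uu n Z k z with hGdef
  have hGd : ∀ K, DifferentiableOn ℂ (G K) (ball 0 1) := fun K =>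
    DifferentiableOn.fun_finsetProd fun k _ => uu_diff hG k
  have hρ : ∀ K, ∃ ρ : ℝ, 1 < ρ ∧ DifferentiableOn ℂ (G K) (ball 0 ρ) := by
    intro K
    have h1 : ∀ᶠ ρ : ℝ in 𝓝[>] 1, ∀ k ∈ Finset.range K, ∀ j, ρ * ‖Z k j‖ < 1 := by
      rw [Filter.eventually_all_finset]
      intro k _
      rw [Filter.eventually_all]
      intro j
      have h2 : Tendsto (fun ρ : ℝ => ρ * ‖Z k j‖) (𝓝[>] 1) (𝓝 (1 * ‖Z k j‖)) :=
        (tendsto_id.mono_left nhdsWithin_le_nhds).mul_const _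
      rw [one_mul] at h2
      exact h2.eventually_lt_const (hG.lt k j)
    obtain ⟨ρ, hρ1, hρ2⟩ := (h1.and self_mem_nhdsWithin).exists
    refine ⟨ρ, hρ2, ?_⟩
    refine DifferentiableOn.fun_finsetProd fun k hk => ?_
    unfold uu
    exact DifferentiableOn.fun_finsetProd fun j _ => bl_diff' (hρ1 k hk j)
  have hGe : ∀ K (s : ℝ), G K (Complex.exp ((s : ℂ) * Complex.I)) =
      ∏ k ∈ Finset.range K, UU (w k) (cc k) s := by
    intro K s
    simp only [hGdef]
    refine Finset.prod_congr rfl fun k _ => ?_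
    unfold uu UU
    refine Finset.prod_congr rfl fun j _ => ?_
    simp only [hZ]
    rw [bl_rot (norm_rot _), conj_rot_mul]
  refine ⟨FF n Z, FF_diff hG, ?_, FF_radial hG, ?_, ?_⟩
  · intro z hz
    rw [mem_ball_zero_iff] at hz
    refine FF_norm_le hG hz.le ?_
    rintro rfl
    rw [norm_one] at hz
    exact lt_irrefl _ hz
  · refine multiplier_of_partial hGd (FF_diff hG) (FF_unif hG (by norm_num)) (C := Ct ^ 4) ?_
    intro K R b
    obtain ⟨ρ, hρ1, hρ2⟩ := hρ K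
    obtain ⟨N₀, hN₀⟩ := htot' K
    refine coef_ineq hρ1 hρ2 (N₀ := N₀) (fun N _ hN => ?_) R b
    refine (hN₀ N hN).congr fun j => ?_
    unfold sym
    exact (hGe K _).symm
  · intro K η hη
    obtain ⟨K', hK', heK'⟩ : ∃ K', K ≤ K' ∧ e K' ≤ η := by
      have h1 := he.eventually_le_const hη
      obtain ⟨K', hK'1, hK'2⟩ := (h1.and (eventually_ge_atTop K)).exists
      exact ⟨K', hK'2, hK'1⟩
    obtain ⟨r, hr1, hr2, hr3⟩ := (hL K').2.2.1
    refine ⟨rot (cc K'), fun i => r (Fin.castLE hK' i), norm_rot _, ?_, ?_, ?_, ?_⟩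
    · intro i j hij
      exact Fin.castLE_injective hK' (hr1 hij)
    · intro i
      exact ⟨(hr2 _).1, (hr2 _).2.1⟩
    · intro i j
      refine (hr3 _ _).trans ?_
      exact mul_le_mul_of_nonneg_right heK' (by linarith [(hr2 (Fin.castLE hK' i)).2.1])
    · intro i
      obtain ⟨j, hj⟩ := (hr2 (Fin.castLE hK' i)).2.2
      have h1 := FF_zero hG K' j
      simp only [hZ] at h1
      rw [hj] at h1
      exact h1

end Pool.Agent.MP58366f
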