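import Pool.Agent.MP58366f.Interface
import Pool.Agent.MP58366f.C_Cluster

/-!
MP_58366f_an, part C2: the infinite Blaschke product.
-/

open Metric Set Filter Topology

namespace Pool.Agent.MP58366f

lemma one_sub_ne {w z : ℂ} (hw : ‖w‖ < 1) (hz : ‖z‖ ≤ 1) : 1 - starRingEnd ℂ w * z ≠ 0 := by
  intro h
  have h1 : starRingEnd ℂ w * z = 1 := (sub_eq_zero.1 h).symm
  have h2 : ‖starRingEnd ℂ w * z‖ < 1 := by
    rw [norm_mul, RCLike.norm_conj]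
    calc ‖w‖ * ‖z‖ ≤ ‖w‖ * 1 := mul_le_mul_of_nonneg_left hz (norm_nonneg _)
      _ < 1 := by linarith
  rw [h1, norm_one] at h2
  exact lt_irrefl _ h2

lemma one_sub_bl {w z : ℂ} (hw0 : w ≠ 0) (hw : ‖w‖ < 1) (hz : ‖z‖ ≤ 1) :
    1 - bl w z = (1 - (‖w‖ : ℂ)) * ((‖w‖ : ℂ) + starRingEnd ℂ w * z) /
      ((‖w‖ : ℂ) * (1 - starRingEnd ℂ w * z)) := by
  have h1 := one_sub_ne hw hz
  have h2 : (‖w‖ : ℂ) ≠ 0 := by
    rw [Ne, Complex.ofReal_eq_zero]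
    exact (norm_pos_iff.2 hw0).ne'
  have h3 : starRingEnd ℂ w * w = (‖w‖ : ℂ) ^ 2 := by
    rw [mul_comm, Complex.mul_conj, Complex.normSq_eq_norm_sq]
    push_cast; ring
  unfold bl
  field_simp
  linear_combination -h3

lemma norm_bl_sub_one {w z : ℂ} (hw0 : w ≠ 0) (hw : ‖w‖ < 1) (hz : ‖z‖ ≤ 1) :
    ‖bl w z - 1‖ ≤ 2 * (1 - ‖w‖) / ‖1 - starRingEnd ℂ w * z‖ := by
  have hpos : 0 < ‖w‖ := norm_pos_iff.2 hw0
  have h1 : 0 < ‖1 - starRingEnd ℂ w * z‖ := norm_pos_iff.2 (one_sub_ne hw hz)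
  rw [norm_sub_rev, one_sub_bl hw0 hw hz, norm_div, norm_mul, norm_mul]
  have h2 : ‖(1 : ℂ) - (‖w‖ : ℂ)‖ = 1 - ‖w‖ := by
    rw [← Complex.ofReal_one, ← Complex.ofReal_sub, Complex.norm_real, Real.norm_of_nonneg]
    linarith
  have h3 : ‖(‖w‖ : ℂ) + starRingEnd ℂ w * z‖ ≤ 2 * ‖w‖ := by
    refine (norm_add_le _ _).trans ?_
    rw [norm_mul, RCLike.norm_conj, Complex.norm_real, Real.norm_of_nonneg hpos.le]
    nlinarith
  rw [h2, Complex.norm_real, Real.norm_of_nonneg hpos.le]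
  rw [div_le_div_iff₀ (by positivity) h1]
  have h4 : 0 ≤ 1 - ‖w‖ := by linarith
  calc (1 - ‖w‖) * ‖(‖w‖ : ℂ) + starRingEnd ℂ w * z‖ * ‖1 - starRingEnd ℂ w * z‖
      ≤ (1 - ‖w‖) * (2 * ‖w‖) * ‖1 - starRingEnd ℂ w * z‖ := by gcongr
    _ = _ := by ring

lemma norm_bl_eq {w z : ℂ} (hw0 : w ≠ 0) : ‖bl w z‖ = ‖w - z‖ / ‖1 - starRingEnd ℂ w * z‖ := by
  have hpos : 0 < ‖w‖ := norm_pos_iff.2 hw0
  unfold bl
  rw [norm_mul, norm_div, norm_div, RCLike.norm_conj, Complex.norm_real,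
    Real.norm_of_nonneg hpos.le, div_self hpos.ne', one_mul]

lemma sq_identity (w z : ℂ) : ‖1 - starRingEnd ℂ w * z‖ ^ 2 - ‖w - z‖ ^ 2 =
    (1 - ‖w‖ ^ 2) * (1 - ‖z‖ ^ 2) := by
  simp only [← Complex.normSq_eq_norm_sq, Complex.normSq_apply]
  simp
  ring

lemma norm_bl_le {w z : ℂ} (hw0 : w ≠ 0) (hw : ‖w‖ < 1) (hz : ‖z‖ ≤ 1) : ‖bl w z‖ ≤ 1 := by
  rw [norm_bl_eq hw0]
  have h1 : 0 < ‖1 - starRingEnd ℂ w * z‖ := norm_pos_iff.2 (one_sub_ne hw hz)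
  rw [div_le_one h1]
  have h2 := sq_identity w z
  have h3 : 0 ≤ (1 - ‖w‖ ^ 2) * (1 - ‖z‖ ^ 2) := by
    have := norm_nonneg w
    have := norm_nonneg z
    apply mul_nonneg <;> nlinarith
  exact le_of_sq_le_sq (by linarith) h1.le

lemma norm_bl_one {w z : ℂ} (hw0 : w ≠ 0) (hw : ‖w‖ < 1) (hz : ‖z‖ = 1) : ‖bl w z‖ = 1 := by
  rw [norm_bl_eq hw0]
  have h1 : 0 < ‖1 - starRingEnd ℂ w * z‖ := norm_pos_iff.2 (one_sub_ne hw hz.le)
  rw [div_eq_one_iff_eq h1.ne']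
  have h2 := sq_identity w z
  rw [hz] at h2
  have h3 : ‖w - z‖ ^ 2 = ‖1 - starRingEnd ℂ w * z‖ ^ 2 := by linarith
  exact (sq_eq_sq₀ (norm_nonneg _) (norm_nonneg _)).1 h3

lemma bl_self (w : ℂ) : bl w w = 0 := by simp [bl]

lemma bl_cont {w : ℂ} (hw : ‖w‖ < 1) : ContinuousOn (bl w) {z | ‖z‖ ≤ 1} := by
  unfold bl
  refine ContinuousOn.mul continuousOn_const
    (ContinuousOn.div (by fun_prop) (by fun_prop) fun z hz => one_sub_ne hw hz)

lemma bl_diff {w : ℂ} (hw : ‖w‖ < 1) : DifferentiableOn ℂ (bl w) (ball (0 : ℂ) 1) := by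
  unfold bl
  refine DifferentiableOn.mul (differentiableOn_const _)
    (DifferentiableOn.div (by fun_prop) (by fun_prop) fun z hz => one_sub_ne hw ?_)
  rw [mem_ball_zero_iff] at hz
  exact hz.le

lemma norm_one_sub_ge {w z : ℂ} (hz : ‖z‖ ≤ 1) :
    ‖z - 1‖ - ‖w - 1‖ ≤ ‖1 - starRingEnd ℂ w * z‖ := by
  have h1 : 1 - starRingEnd ℂ w * z = (1 - z) + z * (1 - starRingEnd ℂ w) := by ring
  have h2 : ‖1 - starRingEnd ℂ w‖ = ‖w - 1‖ := by
    have : (1 : ℂ) - starRingEnd ℂ w = starRingEnd ℂ (1 - w) := by simp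
    rw [this, RCLike.norm_conj, norm_sub_rev]
  rw [h1]
  have h3 := norm_sub_le_norm_add (1 - z) (z * (1 - starRingEnd ℂ w))
  rw [norm_mul, h2, norm_sub_rev 1 z] at h3
  have h4 : ‖z‖ * ‖w - 1‖ ≤ ‖w - 1‖ := by
    have := norm_nonneg (w - 1)
    nlinarith
  linarith

section prod
variable (n : ℕ → ℕ) (Z : (k : ℕ) → Fin (n k) → ℂ)

/-- the `k`-th finite Blaschke product -/
noncomputable def uu (k : ℕ) (z : ℂ) : ℂ := ∏ j, bl (Z k j) z

/-- the infinite Blaschke product -/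
noncomputable def FF (z : ℂ) : ℂ := ∏' k, uu n Z k z

/-- the data -/
structure Good (ε d : ℕ → ℝ) : Prop where
  pos : ∀ k j, Z k j ≠ 0
  lt : ∀ k j, ‖Z k j‖ < 1
  sum : ∀ k, ∑ j, (1 - ‖Z k j‖) ≤ ε k
  near : ∀ k j, ‖Z k j - 1‖ ≤ d k
  summ : Summable ε
  lim : Tendsto d atTop (𝓝 0)

/-- the compact sets -/
def KK (δ : ℝ) : Set ℂ := {z | ‖z‖ ≤ 1 ∧ δ ≤ ‖z - 1‖}

lemma isCompact_KK (δ : ℝ) : IsCompact (KK δ) := by
  have h1 : KK δ = closedBall (0 : ℂ) 1 ∩ {z | δ ≤ ‖z - 1‖} := by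
    ext z; simp [KK]
  rw [h1]
  exact (isCompact_closedBall _ _).inter_right (isClosed_le continuous_const (by fun_prop))

variable {n Z} {ε d : ℕ → ℝ} (hG : Good n Z ε d)

include hG

lemma uu_norm_le {k : ℕ} {z : ℂ} (hz : ‖z‖ ≤ 1) : ‖uu n Z k z‖ ≤ 1 := by
  unfold uu
  rw [norm_prod]
  exact Finset.prod_le_one (fun _ _ => norm_nonneg _) fun j _ =>
    norm_bl_le (hG.pos k j) (hG.lt k j) hz

lemma uu_norm_one {k : ℕ} {z : ℂ} (hz : ‖z‖ = 1) : ‖uu n Z k z‖ = 1 := by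
  unfold uu
  rw [norm_prod]
  exact Finset.prod_eq_one fun j _ => norm_bl_one (hG.pos k j) (hG.lt k j) hz

lemma uu_cont (k : ℕ) : ContinuousOn (uu n Z k) {z | ‖z‖ ≤ 1} := by
  unfold uu
  exact continuousOn_finsetProd _ fun j _ => bl_cont (hG.lt k j)

lemma uu_diff (k : ℕ) : DifferentiableOn ℂ (uu n Z k) (ball (0 : ℂ) 1) := by
  unfold uu
  exact DifferentiableOn.fun_finsetProd fun j _ => bl_diff (hG.lt k j)

lemma uu_sub_one {δ : ℝ} (hδ : 0 < δ) {k : ℕ} (hk : d k ≤ δ / 2) (hk' : 4 * ε k / δ ≤ 1) {z : ℂ}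
    (hz : z ∈ KK δ) : ‖uu n Z k z - 1‖ ≤ 8 / δ * ε k := by
  have h1 : ∀ j, ‖bl (Z k j) z - 1‖ ≤ 4 / δ * (1 - ‖Z k j‖) := by
    intro j
    refine (norm_bl_sub_one (hG.pos k j) (hG.lt k j) hz.1).trans ?_
    have h2 : δ / 2 ≤ ‖1 - starRingEnd ℂ (Z k j) * z‖ := by
      have := norm_one_sub_ge (w := Z k j) hz.1
      have h3 := hG.near k j
      have h4 := hz.2
      linarith
    have h5 : 0 ≤ 1 - ‖Z k j‖ := by linarith [hG.lt k j]
    calc 2 * (1 - ‖Z k j‖) / ‖1 - starRingEnd ℂ (Z k j) * z‖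
        ≤ 2 * (1 - ‖Z k j‖) / (δ / 2) := by gcongr
      _ = 4 / δ * (1 - ‖Z k j‖) := by field_simp; ring
  have h2 : ∑ j, ‖bl (Z k j) z - 1‖ ≤ 4 * ε k / δ := by
    calc ∑ j, ‖bl (Z k j) z - 1‖ ≤ ∑ j, 4 / δ * (1 - ‖Z k j‖) := Finset.sum_le_sum fun j _ => h1 j
      _ = 4 / δ * ∑ j, (1 - ‖Z k j‖) := by rw [Finset.mul_sum]
      _ ≤ 4 / δ * ε k := by gcongr; exact hG.sum k
      _ = 4 * ε k / δ := by ring
  have h3 := Finset.norm_prod_one_add_sub_one_le Finset.univ (fun j => bl (Z k j) z - 1)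
  simp only [add_sub_cancel] at h3
  have h4 : (0 : ℝ) ≤ ∑ j, ‖bl (Z k j) z - 1‖ := Finset.sum_nonneg fun _ _ => norm_nonneg _
  have h5 := Real.abs_exp_sub_one_le (x := ∑ j, ‖bl (Z k j) z - 1‖)
    (by rw [abs_of_nonneg h4]; linarith)
  rw [abs_of_nonneg h4] at h5
  have h6 := (le_abs_self _).trans h5
  unfold uu
  calc ‖∏ j, bl (Z k j) z - 1‖ ≤ _ := h3
    _ ≤ 2 * ∑ j, ‖bl (Z k j) z - 1‖ := h6
    _ ≤ 2 * (4 * ε k / δ) := by linarith
    _ = _ := by ring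

lemma FF_unif {δ : ℝ} (hδ : 0 < δ) :
    TendstoUniformlyOn (fun K z => ∏ k ∈ Finset.range K, uu n Z k z) (FF n Z) atTop (KK δ) := by
  have h1 : HasProdUniformlyOn (fun k z => 1 + (uu n Z k z - 1))
      (fun z => ∏' k, (1 + (uu n Z k z - 1))) (KK δ) := by
    refine Summable.hasProdUniformlyOn_nat_one_add (isCompact_KK δ)
      (u := fun k => 8 / δ * ε k) (hG.summ.mul_left _) ?_ ?_
    · have e1 : ∀ᶠ k in atTop, d k ≤ δ / 2 := hG.lim.eventually_le_const (by linarith)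
      have e2 : ∀ᶠ k in atTop, 4 * ε k / δ ≤ 1 := by
        have : Tendsto (fun k => 4 * ε k / δ) atTop (𝓝 (4 * 0 / δ)) :=
          (hG.summ.tendsto_atTop_zero.const_mul 4).div_const δ
        rw [mul_zero, zero_div] at this
        exact this.eventually_le_const one_pos
      filter_upwards [e1, e2] with k hk hk' z hz
      exact uu_sub_one hG hδ hk hk' hz
    · intro k
      exact (((uu_cont hG k).mono fun z hz => hz.1).sub continuousOn_const)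
  simp only [add_sub_cancel] at h1
  exact h1.tendstoUniformlyOn_finsetRange

lemma FF_tendsto {z : ℂ} (hz : ‖z‖ ≤ 1) (hz1 : z ≠ 1) :
    Tendsto (fun K => ∏ k ∈ Finset.range K, uu n Z k z) atTop (𝓝 (FF n Z z)) := by
  have hδ : 0 < ‖z - 1‖ := norm_pos_iff.2 (sub_ne_zero.2 hz1)
  exact (FF_unif hG hδ).tendsto_at ⟨hz, le_rfl⟩

lemma FF_norm_le {z : ℂ} (hz : ‖z‖ ≤ 1) (hz1 : z ≠ 1) : ‖FF n Z z‖ ≤ 1 := by
  refine le_of_tendsto' (FF_tendsto hG hz hz1).norm fun K => ?_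
  rw [norm_prod]
  exact Finset.prod_le_one (fun _ _ => norm_nonneg _) fun k _ => uu_norm_le hG hz

lemma FF_norm_one {z : ℂ} (hz : ‖z‖ = 1) (hz1 : z ≠ 1) : ‖FF n Z z‖ = 1 := by
  refine tendsto_nhds_unique (FF_tendsto hG hz.le hz1).norm ?_
  have : (fun K => ‖∏ k ∈ Finset.range K, uu n Z k z‖) = fun _ => 1 := by
    funext K
    rw [norm_prod]
    exact Finset.prod_eq_one fun k _ => uu_norm_one hG hz
  rw [this]
  exact tendsto_const_nhds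

lemma FF_zero (k : ℕ) (j : Fin (n k)) : FF n Z (Z k j) = 0 := by
  have h1 : Z k j ≠ 1 := by
    intro h
    have := hG.lt k j
    rw [h, norm_one] at this
    exact lt_irrefl _ this
  refine tendsto_nhds_unique (FF_tendsto hG (hG.lt k j).le h1) ?_
  refine tendsto_const_nhds.congr' ?_
  filter_upwards [eventually_gt_atTop k] with K hK
  symm
  refine Finset.prod_eq_zero (Finset.mem_range.2 hK) ?_
  unfold uu
  exact Finset.prod_eq_zero (Finset.mem_univ j) (bl_self _)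

lemma FF_diff : DifferentiableOn ℂ (FF n Z) (ball (0 : ℂ) 1) := by
  have h1 : TendstoLocallyUniformlyOn (fun K z => ∏ k ∈ Finset.range K, uu n Z k z) (FF n Z)
      atTop (ball (0 : ℂ) 1) := by
    rw [tendstoLocallyUniformlyOn_iff_forall_isCompact isOpen_ball]
    intro S hS hSc
    obtain ⟨δ, hδ, hsub⟩ : ∃ δ : ℝ, 0 < δ ∧ S ⊆ KK δ := by
      by_cases hne : S.Nonempty
      · obtain ⟨x, hx, hmin⟩ := hSc.exists_isMinOn hne (f := fun z : ℂ => ‖z - 1‖) (by fun_prop)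
        refine ⟨‖x - 1‖, ?_, ?_⟩
        · refine norm_pos_iff.2 (sub_ne_zero.2 ?_)
          rintro rfl
          have := hS hx
          simp at this
        · intro z hz
          refine ⟨?_, hmin hz⟩
          have := hS hz
          rw [mem_ball_zero_iff] at this
          exact this.le
      · rw [not_nonempty_iff_eq_empty] at hne
        exact ⟨1, one_pos, by simp [hne]⟩
    exact (FF_unif hG hδ).mono hsub
  refine h1.differentiableOn ?_ isOpen_ball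
  refine Eventually.of_forall fun K => ?_
  exact DifferentiableOn.fun_finsetProd fun k _ => uu_diff hG k

lemma FF_contAt {z : ℂ} (hz : ‖z‖ ≤ 1) (hz1 : z ≠ 1) :
    ContinuousWithinAt (FF n Z) {z | ‖z‖ ≤ 1} z := by
  have hδ : 0 < ‖z - 1‖ / 2 := by
    have := norm_pos_iff.2 (sub_ne_zero.2 hz1)
    linarith
  have h1 : ContinuousOn (FF n Z) (KK (‖z - 1‖ / 2)) := by
    refine (FF_unif hG hδ).continuousOn (Frequently.of_forall fun K => ?_)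
    exact continuousOn_finsetProd _ fun k _ => (uu_cont hG k).mono fun z hz => hz.1
  have h2 : ContinuousWithinAt (FF n Z) (KK (‖z - 1‖ / 2)) z := h1 z ⟨hz, by linarith⟩
  refine h2.mono_of_mem_nhdsWithin ?_
  rw [mem_nhdsWithin]
  refine ⟨{x | ‖z - 1‖ / 2 < ‖x - 1‖}, isOpen_lt continuous_const (by fun_prop), ?_, ?_⟩
  · rw [mem_ofPred_eq]; linarith
  · rintro x ⟨hx, hx'⟩
    exact ⟨hx', le_of_lt hx⟩

lemma FF_radial : ∀ᵐ θ : ℝ ∂MeasureTheory.volume, ∃ w : ℂ, ‖w‖ = 1 ∧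
    Tendsto (fun r : ℝ => FF n Z ((r : ℂ) * Complex.exp ((θ : ℂ) * Complex.I)))
      (𝓝[<] (1 : ℝ)) (𝓝 w) := by
  have hcount : {θ : ℝ | Complex.exp ((θ : ℂ) * Complex.I) = 1}.Countable := by
    have : {θ : ℝ | Complex.exp ((θ : ℂ) * Complex.I) = 1} ⊆
        range (fun m : ℤ => (m : ℝ) * (2 * Real.pi)) := by
      intro θ hθ
      rw [mem_ofPred_eq, Complex.exp_eq_one_iff] at hθ
      obtain ⟨m, hm⟩ := hθ
      refine ⟨m, ?_⟩
      have h1 : (θ : ℂ) * Complex.I = ((m : ℂ) * (2 * Real.pi)) * Complex.I := by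
        rw [hm]; ring
      have h2 := mul_right_cancel₀ Complex.I_ne_zero h1
      have h3 : (θ : ℂ) = ((m * (2 * Real.pi) : ℝ) : ℂ) := by
        rw [h2]; push_cast; ring
      exact (Complex.ofReal_injective h3).symm
    exact (countable_range _).mono this
  have hae : ∀ᵐ θ : ℝ ∂MeasureTheory.volume, θ ∉ {θ : ℝ | Complex.exp ((θ : ℂ) * Complex.I) = 1} :=
    MeasureTheory.measure_eq_zero_iff_ae_notMem.1 (hcount.measure_zero _)
  filter_upwards [hae] with θ hθ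
  set ζ : ℂ := Complex.exp ((θ : ℂ) * Complex.I) with hζ
  have hζ1 : ‖ζ‖ = 1 := Complex.norm_exp_ofReal_mul_I θ
  refine ⟨FF n Z ζ, FF_norm_one hG hζ1 hθ, ?_⟩
  have h1 := (FF_contAt hG hζ1.le hθ).tendsto
  have h2 : Tendsto (fun r : ℝ => (r : ℂ) * ζ) (𝓝[<] (1 : ℝ)) (𝓝[{z | ‖z‖ ≤ 1}] ζ) := by
    refine tendsto_nhdsWithin_iff.2 ⟨?_, ?_⟩
    · have : Tendsto (fun r : ℝ => (r : ℂ) * ζ) (𝓝 (1 : ℝ)) (𝓝 (((1 : ℝ) : ℂ) * ζ)) :=
        (Continuous.tendsto (by fun_prop) 1)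
      rw [Complex.ofReal_one, one_mul] at this
      exact this.mono_left nhdsWithin_le_nhds
    · have hmem : Ioo (0 : ℝ) 1 ∈ 𝓝[<] (1 : ℝ) := Ioo_mem_nhdsLT one_pos
      filter_upwards [hmem] with r hr
      rw [norm_mul, hζ1, mul_one, Complex.norm_real, Real.norm_of_nonneg hr.1.le]
      exact hr.2.le
  exact h1.comp h2

end prod

end Pool.Agent.MP58366f
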