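import Pool.Agent.MP58366f.C_Cut
import Pool.Agent.MP58366f.C_Product

/-!
MP_58366f_an, part C6: the part of a window factor away from the window is a tiny multiplier.
-/

open Metric Set Filter Topology

namespace Pool.Agent.MP58366f

/-- the point `e^{i(s-c)}` -/
noncomputable def ez (c s : ℝ) : ℂ := Complex.exp (((s - c : ℝ) : ℂ) * Complex.I)

lemma norm_ez (c s : ℝ) : ‖ez c s‖ = 1 := Complex.norm_exp_ofReal_mul_I _

lemma ez_periodic (c s : ℝ) : ez c (s + 2 * Real.pi) = ez c s := by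
  unfold ez
  have : (((s + 2 * Real.pi - c : ℝ) : ℂ) * Complex.I) =
      ((s - c : ℝ) : ℂ) * Complex.I + 2 * Real.pi * Complex.I := by push_cast; ring
  rw [this, Complex.exp_add, Complex.exp_two_pi_mul_I, mul_one]

lemma hasDerivAt_ez (c s : ℝ) : HasDerivAt (ez c) (Complex.I * ez c s) s := by
  unfold ez
  have h1 : HasDerivAt (fun s : ℝ => (((s - c : ℝ) : ℂ) * Complex.I)) Complex.I s := by
    have := (((hasDerivAt_id s).sub_const c).ofReal_comp).mul_const Complex.I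
    simpa using this
  have := h1.cexp
  rwa [mul_comm] at this

lemma norm_ez_sub_one_sq (c s : ℝ) : ‖ez c s - 1‖ ^ 2 = 2 * (1 - Real.cos (s - c)) := by
  unfold ez
  generalize s - c = x
  rw [Complex.exp_mul_I, ← Complex.ofReal_cos, ← Complex.ofReal_sin, ← Complex.normSq_eq_norm_sq,
    Complex.normSq_apply]
  simp only [Complex.sub_re, Complex.add_re, Complex.ofReal_re, Complex.mul_re, Complex.I_re,
    mul_zero, Complex.ofReal_im, Complex.I_im, mul_one, sub_self, add_zero, Complex.one_re,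
    Complex.sub_im, Complex.add_im, Complex.mul_im, Complex.one_im, zero_add, sub_zero]
  nlinarith [Real.sin_sq_add_cos_sq x]

lemma den_ge {a c s : ℝ} {w : ℂ} (ha : 0 < a) (hw : ‖w - 1‖ ≤ a / 4) (h : 1 < 8 * yy a c s) :
    a / 4 ≤ ‖1 - starRingEnd ℂ w * ez c s‖ := by
  have h1 := norm_one_sub_ge (w := w) (z := ez c s) (norm_ez c s).le
  have h2 : a / 2 ≤ ‖ez c s - 1‖ := by
    refine le_of_sq_le_sq ?_ (norm_nonneg _)
    rw [norm_ez_sub_one_sq]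
    unfold yy at h
    rw [← mul_div_assoc, lt_div_iff₀ (by positivity)] at h
    nlinarith
  linarith

/-- the derivative of `(1-p)⁻¹` -/
noncomputable def dd (w : ℂ) (c s : ℝ) : ℂ :=
  Complex.I * (starRingEnd ℂ w * ez c s) / (1 - starRingEnd ℂ w * ez c s) ^ 2

/-- the second derivative of `(1-p)⁻¹` -/
noncomputable def dd' (w : ℂ) (c s : ℝ) : ℂ :=
  -((starRingEnd ℂ w * ez c s) / (1 - starRingEnd ℂ w * ez c s) ^ 2) -
    2 * (starRingEnd ℂ w * ez c s) ^ 2 / (1 - starRingEnd ℂ w * ez c s) ^ 3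

lemma hasDerivAt_inv {w : ℂ} (hw : ‖w‖ < 1) (c s : ℝ) :
    HasDerivAt (fun s => (1 - starRingEnd ℂ w * ez c s)⁻¹) (dd w c s) s := by
  have h0 := one_sub_ne (z := ez c s) hw (norm_ez c s).le
  have h1 := ((hasDerivAt_ez c s).const_mul (starRingEnd ℂ w)).const_sub 1
  have h2 := h1.inv h0
  refine h2.congr_deriv ?_
  unfold dd
  ring

lemma hasDerivAt_dd {w : ℂ} (hw : ‖w‖ < 1) (c s : ℝ) : HasDerivAt (dd w c) (dd' w c s) s := by
  have h0 := one_sub_ne (z := ez c s) hw (norm_ez c s).le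
  have h1 : HasDerivAt (fun s => starRingEnd ℂ w * ez c s)
      (Complex.I * (starRingEnd ℂ w * ez c s)) s :=
    ((hasDerivAt_ez c s).const_mul (starRingEnd ℂ w)).congr_deriv (by ring)
  have h2 := (h1.const_mul Complex.I).div ((h1.const_sub 1).pow 2) (pow_ne_zero 2 h0)
  refine h2.congr_deriv ?_
  unfold dd'
  simp only [Pi.pow_apply]
  generalize starRingEnd ℂ w * ez c s = p at *
  have hI : Complex.I ^ 2 = -1 := Complex.I_sq
  field_simp
  linear_combination (p - p ^ 3) * hI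

/-- the coefficient -/
noncomputable def kw (w : ℂ) : ℂ := -(((1 - ‖w‖ : ℝ) : ℂ) / (‖w‖ : ℂ) * (1 + (‖w‖ : ℂ)))

lemma bl_sub_one_eq {w : ℂ} (hw0 : w ≠ 0) (hw : ‖w‖ < 1) (c s : ℝ) :
    bl w (ez c s) - 1 = ((1 - ‖w‖ : ℝ) : ℂ) / (‖w‖ : ℂ) +
      kw w * (1 - starRingEnd ℂ w * ez c s)⁻¹ := by
  have h0 := one_sub_ne (z := ez c s) hw (norm_ez c s).le
  have h1 := one_sub_bl hw0 hw (norm_ez c s).le
  have h2 : (‖w‖ : ℂ) ≠ 0 := by
    rw [Ne, Complex.ofReal_eq_zero]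
    exact (norm_pos_iff.2 hw0).ne'
  have h3 : bl w (ez c s) - 1 = -(1 - bl w (ez c s)) := by ring
  rw [h3, h1]
  unfold kw
  push_cast
  field_simp
  ring

lemma hasDerivAt_bl {w : ℂ} (hw0 : w ≠ 0) (hw : ‖w‖ < 1) (c s : ℝ) :
    HasDerivAt (fun s => bl w (ez c s) - 1) (kw w * dd w c s) s := by
  have h1 := ((hasDerivAt_inv hw c s).const_mul (kw w)).const_add
    (((1 - ‖w‖ : ℝ) : ℂ) / (‖w‖ : ℂ))
  refine h1.congr_of_eventuallyEq ?_
  exact Eventually.of_forall fun x => bl_sub_one_eq hw0 hw c x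

lemma norm_kw {w : ℂ} (hw : ‖w‖ < 1) (hw2 : 1 / 2 ≤ ‖w‖) : ‖kw w‖ ≤ 4 * (1 - ‖w‖) := by
  unfold kw
  rw [norm_neg, norm_mul, norm_div, Complex.norm_real, Complex.norm_real,
    Real.norm_of_nonneg (by linarith), Real.norm_of_nonneg (by linarith)]
  have h1 : ‖(1 : ℂ) + (‖w‖ : ℂ)‖ ≤ 2 := by
    refine (norm_add_le _ _).trans ?_
    rw [norm_one, Complex.norm_real, Real.norm_of_nonneg (by linarith)]
    linarith
  have h2 : (1 - ‖w‖) / ‖w‖ ≤ 2 * (1 - ‖w‖) := by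
    rw [div_le_iff₀ (by linarith)]
    nlinarith
  have h3 : 0 ≤ (1 - ‖w‖) / ‖w‖ := div_nonneg (by linarith) (by linarith)
  calc (1 - ‖w‖) / ‖w‖ * ‖(1 : ℂ) + (‖w‖ : ℂ)‖ ≤ (2 * (1 - ‖w‖)) * 2 := by
        apply mul_le_mul h2 h1 (norm_nonneg _) (by linarith)
    _ = _ := by ring

lemma norm_dd {w : ℂ} (hw : ‖w‖ < 1) {κ c s : ℝ} (hκ : 0 < κ)
    (h : κ ≤ ‖1 - starRingEnd ℂ w * ez c s‖) : ‖dd w c s‖ ≤ 1 / κ ^ 2 := by
  unfold dd
  rw [norm_div, norm_mul, norm_mul, Complex.norm_I, RCLike.norm_conj, norm_ez, norm_pow, one_mul,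
    mul_one]
  have h1 : ‖w‖ ≤ 1 := hw.le
  gcongr

lemma norm_dd' {w : ℂ} (hw : ‖w‖ < 1) {κ c s : ℝ} (hκ : 0 < κ) (hκ1 : κ ≤ 1)
    (h : κ ≤ ‖1 - starRingEnd ℂ w * ez c s‖) : ‖dd' w c s‖ ≤ 3 / κ ^ 3 := by
  unfold dd'
  refine (norm_sub_le _ _).trans ?_
  have h1 : ‖w‖ ≤ 1 := hw.le
  have e1 : ‖-((starRingEnd ℂ w * ez c s) / (1 - starRingEnd ℂ w * ez c s) ^ 2)‖ ≤ 1 / κ ^ 3 := by
    rw [norm_neg, norm_div, norm_mul, RCLike.norm_conj, norm_ez, norm_pow, mul_one]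
    calc ‖w‖ / ‖1 - starRingEnd ℂ w * ez c s‖ ^ 2 ≤ 1 / κ ^ 2 := by gcongr
      _ ≤ 1 / κ ^ 3 := by
        apply one_div_le_one_div_of_le (by positivity)
        nlinarith [pow_pos hκ 2]
  have e2 : ‖2 * (starRingEnd ℂ w * ez c s) ^ 2 / (1 - starRingEnd ℂ w * ez c s) ^ 3‖ ≤
      2 / κ ^ 3 := by
    rw [norm_div, norm_mul, norm_pow, norm_mul, RCLike.norm_conj, norm_ez, norm_pow, mul_one]
    have : ‖(2 : ℂ)‖ = 2 := by simp
    rw [this]
    have h2 : 2 * ‖w‖ ^ 2 ≤ 2 := by nlinarith [norm_nonneg w]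
    gcongr
  calc _ ≤ 1 / κ ^ 3 + 2 / κ ^ 3 := add_le_add e1 e2
    _ = 3 / κ ^ 3 := by ring

lemma q_M4 (a : ℝ) (ha : 0 < a) (ha1 : a ≤ 1) : ∃ Q : ℝ, 0 < Q ∧ ∀ (c : ℝ) (w : ℂ), w ≠ 0 →
    ‖w‖ < 1 → ‖w - 1‖ ≤ a / 4 → ∀ (N : ℕ) [NeZero N],
      M4 (sym N fun s => (bl w (ez c s) - 1) * (eta 8 a c s : ℂ)) (Q * (1 - ‖w‖)) := by
  obtain ⟨C, hC, hker⟩ := ker_bound_periodic
  obtain ⟨B, hB, hder⟩ := eta_derivs
  set κ := a / 4 with hκ
  have hκ0 : 0 < κ := by positivity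
  have hκ1 : κ ≤ 1 := by rw [hκ]; linarith
  set Kq : ℝ := 4 * (3 / κ ^ 3) + 2 * (4 * (1 / κ ^ 2) * (B * 8 / a ^ 2)) +
    2 / κ * (5 * B * 8 / a ^ 2) + 2 / κ with hKq
  have hKq0 : 0 < Kq := by positivity
  refine ⟨C * (2 * Kq), by positivity, fun c w hw0 hw hw1 N _ => ?_⟩
  have hw2 : 1 / 2 ≤ ‖w‖ := by
    have h1 : ‖(1 : ℂ)‖ ≤ ‖w‖ + ‖w - 1‖ := by
      calc ‖(1 : ℂ)‖ = ‖w - (w - 1)‖ := by ring_nf
        _ ≤ _ := norm_sub_le _ _
    rw [norm_one] at h1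
    linarith
  obtain ⟨E1, E2, hE1, hE2, hb1, hb2, hz1, hz2⟩ := hder 8 a c (by norm_num) ha
  set H : ℝ → ℂ := fun s => (bl w (ez c s) - 1) * (eta 8 a c s : ℂ) with hH
  set H1 : ℝ → ℂ := fun s => kw w * dd w c s * (eta 8 a c s : ℂ) +
    (bl w (ez c s) - 1) * (E1 s : ℂ) with hH1
  set H2 : ℝ → ℂ := fun s => (kw w * dd' w c s * (eta 8 a c s : ℂ) +
    kw w * dd w c s * (E1 s : ℂ)) + (kw w * dd w c s * (E1 s : ℂ) +
    (bl w (ez c s) - 1) * (E2 s : ℂ)) with hH2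
  have hd1 : ∀ s, HasDerivAt H (H1 s) s := fun s =>
    (hasDerivAt_bl hw0 hw c s).mul ((hE1 s).ofReal_comp)
  have hd2 : ∀ s, HasDerivAt H1 (H2 s) s := fun s =>
    (((hasDerivAt_dd hw c s).const_mul (kw w)).mul ((hE1 s).ofReal_comp)).add
      ((hasDerivAt_bl hw0 hw c s).mul ((hE2 s).ofReal_comp))
  have h1w : 0 ≤ 1 - ‖w‖ := by linarith
  have hgn : ∀ s, κ ≤ ‖1 - starRingEnd ℂ w * ez c s‖ →
      ‖bl w (ez c s) - 1‖ ≤ 2 / κ * (1 - ‖w‖) := by
    intro s hs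
    refine (norm_bl_sub_one hw0 hw (norm_ez c s).le).trans ?_
    calc 2 * (1 - ‖w‖) / ‖1 - starRingEnd ℂ w * ez c s‖ ≤ 2 * (1 - ‖w‖) / κ := by gcongr
      _ = _ := by ring
  have hkw := norm_kw hw hw2
  have hbH : ∀ s, ‖H s‖ ≤ Kq * (1 - ‖w‖) := by
    intro s
    simp only [hH]
    by_cases h : 8 * yy a c s ≤ 1
    · rw [eta_eq_zero h]
      simp only [Complex.ofReal_zero, mul_zero, norm_zero]
      positivity
    · push Not at h
      have hs := den_ge (c := c) ha hw1 h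
      rw [norm_mul, Complex.norm_real, Real.norm_of_nonneg (eta_nonneg _ _ _ _)]
      have h3 := eta_le_one 8 a c s
      have h4 := eta_nonneg 8 a c s
      have h5 := hgn s hs
      have h6 : 2 / κ ≤ Kq := by
        rw [hKq]
        have : 0 ≤ 4 * (3 / κ ^ 3) + 2 * (4 * (1 / κ ^ 2) * (B * 8 / a ^ 2)) +
          2 / κ * (5 * B * 8 / a ^ 2) := by positivity
        linarith
      calc ‖bl w (ez c s) - 1‖ * eta 8 a c s ≤ (2 / κ * (1 - ‖w‖)) * 1 := by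
            apply mul_le_mul h5 h3 h4 (by positivity)
        _ = 2 / κ * (1 - ‖w‖) := mul_one _
        _ ≤ Kq * (1 - ‖w‖) := by gcongr
  have hbH2 : ∀ s, ‖H2 s‖ ≤ Kq * (1 - ‖w‖) := by
    intro s
    simp only [hH2]
    by_cases h : 8 * yy a c s ≤ 1
    · rw [eta_eq_zero h, (hz1 s h).1, (hz1 s h).2]
      simp only [Complex.ofReal_zero, mul_zero, add_zero, norm_zero]
      positivity
    · push Not at h
      have hs := den_ge (c := c) ha hw1 h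
      have h3 := eta_le_one 8 a c s
      have h4 := eta_nonneg 8 a c s
      have h5 := hgn s hs
      have h6 := norm_dd hw hκ0 hs
      have h7 := norm_dd' hw hκ0 hκ1 hs
      have n1 : ‖(eta 8 a c s : ℂ)‖ ≤ 1 := by
        rw [Complex.norm_real, Real.norm_of_nonneg h4]; exact h3
      have n2 : ‖(E1 s : ℂ)‖ ≤ B * 8 / a ^ 2 := by
        rw [Complex.norm_real, Real.norm_eq_abs]; exact hb1 s
      have n3 : ‖(E2 s : ℂ)‖ ≤ 5 * B * 8 / a ^ 2 := by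
        rw [Complex.norm_real, Real.norm_eq_abs]; exact hb2 s
      have m1 : ‖kw w * dd' w c s * (eta 8 a c s : ℂ)‖ ≤ 4 * (1 - ‖w‖) * (3 / κ ^ 3) * 1 := by
        rw [norm_mul, norm_mul]; gcongr
      have m2 : ‖kw w * dd w c s * (E1 s : ℂ)‖ ≤
          4 * (1 - ‖w‖) * (1 / κ ^ 2) * (B * 8 / a ^ 2) := by
        rw [norm_mul, norm_mul]; gcongr
      have m3 : ‖(bl w (ez c s) - 1) * (E2 s : ℂ)‖ ≤ 2 / κ * (1 - ‖w‖) * (5 * B * 8 / a ^ 2) := by
        rw [norm_mul]; gcongr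
      calc _ ≤ ‖kw w * dd' w c s * (eta 8 a c s : ℂ)‖ + ‖kw w * dd w c s * (E1 s : ℂ)‖ +
            (‖kw w * dd w c s * (E1 s : ℂ)‖ + ‖(bl w (ez c s) - 1) * (E2 s : ℂ)‖) :=
            (norm_add_le _ _).trans (add_le_add (norm_add_le _ _) (norm_add_le _ _))
        _ ≤ 4 * (1 - ‖w‖) * (3 / κ ^ 3) * 1 + 4 * (1 - ‖w‖) * (1 / κ ^ 2) * (B * 8 / a ^ 2) +
            (4 * (1 - ‖w‖) * (1 / κ ^ 2) * (B * 8 / a ^ 2) +
              2 / κ * (1 - ‖w‖) * (5 * B * 8 / a ^ 2)) := by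
            exact add_le_add (add_le_add m1 m2) (add_le_add m2 m3)
        _ = (Kq - 2 / κ) * (1 - ‖w‖) := by rw [hKq]; ring
        _ ≤ Kq * (1 - ‖w‖) := by
            have : 0 < 2 / κ := by positivity
            gcongr
            linarith
  have hsd := second_diff hd1 hd2 hbH2
  have hM := (hker N H (2 * (Kq * (1 - ‖w‖))) (by positivity) ?_ ?_ ?_).2
  · exact hM.mono (le_of_eq (by ring))
  · intro s
    simp only [hH]
    rw [ez_periodic, eta_periodic]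
  · intro s
    have := hbH s
    have h9 : 0 ≤ Kq * (1 - ‖w‖) := by positivity
    linarith
  · intro s t
    refine (hsd s t).trans (le_of_eq ?_)
    ring

lemma eta_M4 (a : ℝ) (ha : 0 < a) : ∃ Q : ℝ, 0 < Q ∧ ∀ (c : ℝ) (N : ℕ) [NeZero N],
    M4 (sym N fun s => (eta 4 a c s : ℂ)) Q := by
  obtain ⟨C, hC, hker⟩ := ker_bound_periodic
  obtain ⟨B, hB, hder⟩ := eta_derivs
  set A : ℝ := 1 + 2 * (5 * B * 4 / a ^ 2) with hA
  have hA0 : 0 < A := by positivity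
  refine ⟨C * A, by positivity, fun c N _ => ?_⟩
  obtain ⟨E1, E2, hE1, hE2, hb1, hb2, hz1, hz2⟩ := hder 4 a c (by norm_num) ha
  have hsd := second_diff (H := fun s => (eta 4 a c s : ℂ)) (fun s => (hE1 s).ofReal_comp)
    (fun s => (hE2 s).ofReal_comp) (A := 5 * B * 4 / a ^ 2) (fun s => by
      rw [Complex.norm_real, Real.norm_eq_abs]; exact hb2 s)
  refine (hker N (fun s => (eta 4 a c s : ℂ)) A hA0.le ?_ ?_ ?_).2
  · intro s
    rw [eta_periodic]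
  · intro s
    rw [Complex.norm_real, Real.norm_of_nonneg (eta_nonneg _ _ _ _)]
    have := eta_le_one 4 a c s
    have : 0 ≤ 2 * (5 * B * 4 / a ^ 2) := by positivity
    linarith
  · intro s t
    refine (hsd s t).trans ?_
    apply mul_le_mul_of_nonneg_right _ (sq_nonneg t)
    linarith

lemma prod_sub_one_M4 {N : ℕ} [NeZero N] {ι : Type*} (S : Finset ι) (q : ι → ZMod N → ℂ)
    (m : ι → ℝ) (hm : ∀ i ∈ S, 0 ≤ m i) (h : ∀ i ∈ S, M4 (q i) (m i)) :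
    M4 (fun j => ∏ i ∈ S, (1 + q i j) - 1) (∏ i ∈ S, (1 + m i) - 1) ∧
      1 ≤ ∏ i ∈ S, (1 + m i) := by
  classical
  induction S using Finset.induction_on with
  | empty =>
    simp only [Finset.prod_empty, sub_self, le_refl, and_true]
    have := M4_const (N := N) 0
    simpa using this
  | insert b S hb ih =>
    obtain ⟨i1, i2⟩ := ih (fun i hi => hm i (Finset.mem_insert_of_mem hi))
      (fun i hi => h i (Finset.mem_insert_of_mem hi))
    have hmb := hm b (Finset.mem_insert_self _ _)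
    have hqb := h b (Finset.mem_insert_self _ _)
    rw [Finset.prod_insert hb]
    refine ⟨?_, by nlinarith⟩
    have h1 : M4 (fun j => 1 + q b j) (1 + m b) := M4_one.add hqb
    have h2 := (i1.mul (by linarith) h1).add hqb
    refine (h2.congr fun j => ?_).mono (le_of_eq ?_)
    · rw [Finset.prod_insert hb]; ring
    · ring

lemma prod_M4 {N : ℕ} [NeZero N] {ι : Type*} (S : Finset ι) (q : ι → ZMod N → ℂ)
    (m : ι → ℝ) (hm : ∀ i ∈ S, 0 ≤ m i) (h : ∀ i ∈ S, M4 (q i) (m i)) :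
    M4 (fun j => ∏ i ∈ S, q i j) (∏ i ∈ S, m i) := by
  classical
  induction S using Finset.induction_on with
  | empty =>
    simp only [Finset.prod_empty]
    exact M4_one
  | insert b S hb ih =>
    have i1 := ih (fun i hi => hm i (Finset.mem_insert_of_mem hi))
      (fun i hi => h i (Finset.mem_insert_of_mem hi))
    have hmb := hm b (Finset.mem_insert_self _ _)
    have hqb := h b (Finset.mem_insert_self _ _)
    rw [Finset.prod_insert hb]
    refine (hqb.mul hmb i1).congr fun j => ?_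
    rw [Finset.prod_insert hb]

/-- the product of the factors of a window -/
noncomputable def UU {n : ℕ} (w : Fin n → ℂ) (c s : ℝ) : ℂ := ∏ j, bl (w j) (ez c s)

lemma rho_M4 (a : ℝ) (ha : 0 < a) (ha1 : a ≤ 1) (δ : ℝ) (hδ : 0 < δ) : ∃ ε₀ : ℝ, 0 < ε₀ ∧
    ∀ (c : ℝ) (n : ℕ) (w : Fin n → ℂ), (∀ j, w j ≠ 0 ∧ ‖w j‖ < 1 ∧ ‖w j - 1‖ ≤ ε₀) →
      ∑ j, (1 - ‖w j‖) ≤ ε₀ → ∀ (N : ℕ) [NeZero N],
      M4 (sym N fun s => (UU w c s - 1) * (eta 4 a c s : ℂ)) δ := by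
  obtain ⟨Q, hQ, hq⟩ := q_M4 a ha ha1
  obtain ⟨P, hP, hp⟩ := eta_M4 a ha
  refine ⟨min (a / 4) (min (1 / Q) (δ / (2 * Q * P))), by positivity,
    fun c n w hw hsum N _ => ?_⟩
  have hs1 : ∑ j, (1 - ‖w j‖) ≤ 1 / Q := hsum.trans ((min_le_right _ _).trans (min_le_left _ _))
  have hs2 : ∑ j, (1 - ‖w j‖) ≤ δ / (2 * Q * P) :=
    hsum.trans ((min_le_right _ _).trans (min_le_right _ _))
  set m : Fin n → ℝ := fun j => Q * (1 - ‖w j‖) with hm
  have hm0 : ∀ j ∈ (Finset.univ : Finset (Fin n)), 0 ≤ m j := fun j _ =>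
    mul_nonneg hQ.le (by linarith [(hw j).2.1])
  set q : Fin n → ZMod N → ℂ := fun j =>
    sym N fun s => (bl (w j) (ez c s) - 1) * (eta 8 a c s : ℂ) with hq'
  have h1 := prod_sub_one_M4 (N := N) Finset.univ q m hm0 (fun j _ =>
    hq c (w j) (hw j).1 (hw j).2.1 ((hw j).2.2.trans (min_le_left _ _)) N)
  have hsm : ∑ j, m j = Q * ∑ j, (1 - ‖w j‖) := by rw [Finset.mul_sum]
  have hsm1 : ∑ j, m j ≤ 1 := by
    rw [hsm]
    calc Q * ∑ j, (1 - ‖w j‖) ≤ Q * (1 / Q) := by gcongr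
      _ = 1 := by field_simp
  have hsm0 : 0 ≤ ∑ j, m j := Finset.sum_nonneg hm0
  have h2 : ∏ j, (1 + m j) - 1 ≤ 2 * ∑ j, m j := by
    have h3 : ∏ j, (1 + m j) ≤ Real.exp (∑ j, m j) := by
      rw [Real.exp_sum]
      refine Finset.prod_le_prod (fun j hj => by linarith [hm0 j hj]) fun j _ => ?_
      rw [add_comm]; exact Real.add_one_le_exp _
    have h4 := Real.abs_exp_sub_one_le (x := ∑ j, m j) (by rw [abs_of_nonneg hsm0]; exact hsm1)
    rw [abs_of_nonneg hsm0] at h4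
    linarith [le_abs_self (Real.exp (∑ j, m j) - 1)]
  have h3 := (h1.1.mono h2).mul (by linarith) (hp c N)
  refine (h3.congr fun j => ?_).mono ?_
  · simp only [hq', sym]
    set s := 2 * Real.pi * (j.valMinAbs : ℝ) / N
    by_cases h : 4 * yy a c s ≤ 1
    · rw [eta_eq_zero h]; simp
    · push Not at h
      have h8 : eta 8 a c s = 1 := eta_eq_one (by linarith)
      rw [h8]
      unfold UU
      simp
  · rw [hsm]
    calc 2 * (Q * ∑ j, (1 - ‖w j‖)) * P ≤ 2 * (Q * (δ / (2 * Q * P))) * P := by gcongr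
      _ = δ := by field_simp

end Pool.Agent.MP58366f
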