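import Pool.Agent.MP58366f.C_Choose

/-!
MP_58366f_an, part C9: the uniform multiplier bound for the finite products.
-/

open Metric Set Filter Topology

namespace Pool.Agent.MP58366f

lemma prod_one_add_of_disjoint {ι : Type*} (S : Finset ι) (f : ι → ℂ)
    (h : ∀ i ∈ S, ∀ j ∈ S, f i ≠ 0 → f j ≠ 0 → i = j) :
    ∏ i ∈ S, (1 + f i) = 1 + ∑ i ∈ S, f i := by
  classical
  induction S using Finset.induction_on with
  | empty => simp
  | insert b S hb ih =>
    rw [Finset.prod_insert hb, Finset.sum_insert hb,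
      ih fun i hi j hj => h i (Finset.mem_insert_of_mem hi) j (Finset.mem_insert_of_mem hj)]
    by_cases hfb : f b = 0
    · rw [hfb]; ring
    · have h1 : ∑ i ∈ S, f i = 0 := by
        refine Finset.sum_eq_zero fun i hi => ?_
        by_contra hfi
        have := h i (Finset.mem_insert_of_mem hi) b (Finset.mem_insert_self _ _) hfi hfb
        exact hb (this ▸ hi)
      rw [h1]; ring

lemma cc_anti {j k : ℕ} (h : j < k) : cc k ≤ cc j / 16 := by
  obtain ⟨m, rfl⟩ : ∃ m, k = j + 1 + m := ⟨k - (j + 1), by omega⟩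
  unfold cc
  rw [pow_add, pow_add, pow_one]
  have h1 : (1 : ℝ) ≤ 16 ^ m := one_le_pow₀ (by norm_num)
  have h2 : (0 : ℝ) < 16 ^ j := by positivity
  rw [div_div, div_div, div_div]
  apply one_div_le_one_div_of_le (by positivity)
  nlinarith

lemma total_bound (CB : ℝ) (hCB : 0 < CB) : ∃ Ct : ℝ, 0 < Ct ∧ ∀ (e : ℕ → ℝ) (a Hm : ℕ → ℝ)
    (n : ℕ → ℕ) (w : (k : ℕ) → Fin (n k) → ℂ), (∀ k, 0 < a k) →
      (∀ k, a k ≤ cc k / 16) → (∀ k, a (k + 1) ≤ a k / 16) →
      (∀ k, ∀ j < k, Hm j * a k ^ (3 / 4 : ℝ) ≤ 1 / 2 ^ (k - j)) →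
      (∀ k, Level CB e k (a k) (cc k) (n k) (w k) (Hm k)) →
      ∀ K : ℕ, ∃ N₀ : ℕ, ∀ (N : ℕ) [NeZero N], N₀ ≤ N →
        M4 (sym N fun s => ∏ k ∈ Finset.range K, UU (w k) (cc k) s) Ct := by
  obtain ⟨Cθ, hCθ, hcut⟩ := cut_M4
  set Cb := (CB + 1) * Cθ with hCb
  have hCb0 : 0 ≤ Cb := by positivity
  obtain ⟨Cg, hCg, hglue⟩ := glue Cb hCb0
  refine ⟨Real.exp 2 * (1 + Cg), by positivity,
    fun e a Hm n w ha hac haa hHa hL K => ?_⟩
  have ha64 : ∀ k, a k ≤ 1 / 64 := fun k => by linarith [hac k, cc_le k]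
  have hw : ∀ k j, w k j ≠ 0 ∧ ‖w k j‖ < 1 := fun k j => ⟨((hL k).1 j).1, ((hL k).1 j).2.1⟩
  -- the thresholds
  have hNk : ∀ k, ∃ N₀ : ℕ, ∀ (N : ℕ) [NeZero N], N₀ ≤ N →
      M4 (sym N fun s => UU (w k) (cc k) s) CB ∧ 100 ≤ N * a k := by
    intro k
    obtain ⟨N₀, hN₀⟩ := (hL k).2.2.2.1
    obtain ⟨N₁, hN₁⟩ := exists_nat_ge (100 / a k)
    refine ⟨max N₀ N₁, fun N _ hN => ⟨hN₀ N ((le_max_left _ _).trans hN), ?_⟩⟩
    have h1 : (N₁ : ℝ) ≤ N := by exact_mod_cast (le_max_right _ _).trans hN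
    have h2 := hN₁.trans h1
    rwa [div_le_iff₀ (ha k)] at h2
  choose Nk hNk using hNk
  refine ⟨∑ k ∈ Finset.range K, Nk k, fun N _ hN => ?_⟩
  have hNK : ∀ k < K, M4 (sym N fun s => UU (w k) (cc k) s) CB ∧ 100 ≤ N * a k := by
    intro k hk
    refine hNk k N (le_trans ?_ hN)
    exact Finset.single_le_sum (f := Nk) (fun _ _ => Nat.zero_le _) (Finset.mem_range.2 hk)
  have hN0 : (0 : ℝ) < N := Nat.cast_pos.2 (Nat.pos_of_ne_zero (NeZero.ne N))
  have hbM : ∀ k < K, M4 (sym N (beta (w k) (a k) (cc k))) Cb := by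
    intro k hk
    refine beta_M4 hCB (w k) (a k) (cc k) (hNK k hk).1 ?_
    exact hcut N (a k) (cc k) (ha k) (ha64 k) (cc_pos k).le (cc_le k)
      (by nlinarith [(hNK k hk).2])
  -- supports
  have hsupp : ∀ k, ∀ j : ZMod N, sym N (beta (w k) (a k) (cc k)) j ≠ 0 →
      |2 * Real.pi * (j.valMinAbs : ℝ) / N - cc k| ≤ 2 * a k := by
    intro k j hj
    exact beta_supp (w k) (ha k) (ha64 k) (cc_pos k).le (cc_le k) (angle_le N j) hj
  have hdisj : ∀ j : ZMod N, ∀ k k', sym N (beta (w k) (a k) (cc k)) j ≠ 0 →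
      sym N (beta (w k') (a k') (cc k')) j ≠ 0 → k = k' := by
    intro j
    have main : ∀ k k', k < k' → sym N (beta (w k) (a k) (cc k)) j ≠ 0 →
      sym N (beta (w k') (a k') (cc k')) j ≠ 0 → False := by
      intro k k' hkk h1 h2
      have e1 := abs_le.1 (hsupp k j h1)
      have e2 := abs_le.1 (hsupp k' j h2)
      have e3 := cc_anti hkk
      have e4 := hac k
      have e5 := hac k'
      have e6 := cc_pos k
      linarith [e1.1, e1.2, e2.1, e2.2]
    intro k k' h1 h2
    rcases lt_trichotomy k k' with h | h | h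
    · exact (main k k' h h1 h2).elim
    · exact h
    · exact (main k' k h h2 h1).elim
  -- gluing on a subset
  have hsub : ∀ T ⊆ Finset.range K,
      M4 (fun j => ∏ k ∈ T, (1 + sym N (beta (w k) (a k) (cc k)) j)) (1 + Cg) := by
    intro T hT
    have h1 := hglue N K cc a Hm
      (fun k j => if k ∈ T then sym N (beta (w k) (a k) (cc k)) j else 0) ha hac
      (fun k => (cc_succ k).le) (cc_le 0) haa ?_ ?_ ?_ ?_ ?_ (fun k hk => (hNK k hk).2)
    · refine (M4_one.add h1).congr fun j => ?_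
      rw [prod_one_add_of_disjoint _ _ fun i _ k _ hi hk => hdisj j i k hi hk]
      congr 1
      rw [← Finset.sum_filter]
      congr 1
      ext k
      simp only [Finset.mem_filter, Finset.mem_range]
      constructor
      · exact fun h => h.2
      · exact fun h => ⟨Finset.mem_range.1 (hT h), h⟩
    · intro k hk j hj
      split_ifs at hj with h
      · exact hsupp k j hj
      · exact absurd rfl hj
    · intro k hk
      by_cases h : k ∈ T
      · refine (hbM k hk).congr fun j => ?_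
        rw [if_pos h]
      · have := (M4_const (N := N) 0).mono (C' := Cb) (by simpa using hCb0)
        refine this.congr fun j => ?_
        rw [if_neg h]
    · intro k hk j
      split_ifs
      · exact norm_beta (w k) (hw k) _ _ _
      · simp
    · intro k hk
      have h2 := (hL k).2.2.2.2.2 N
      by_cases h : k ∈ T
      · simp only [if_pos h]
        exact h2
      · simp only [if_neg h]
        refine le_trans ?_ h2
        refine Finset.sum_le_sum fun x _ => ?_
        have h3 : ker (fun _ : ZMod N => (0 : ℂ)) x = 0 := by simp [ker]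
        rw [h3, norm_zero, zero_mul]
        exact mul_nonneg (norm_nonneg _) (Real.rpow_nonneg (abs_nonneg _) _)
    · intro k j hj
      exact hHa k j hj
  -- the sum over subsets
  have hfin : M4 (fun j => ∑ t ∈ (Finset.range K).powerset,
      (∏ k ∈ t, sym N (rho (w k) (a k) (cc k)) j) *
        ∏ k ∈ Finset.range K \ t, (1 + sym N (beta (w k) (a k) (cc k)) j))
      (∑ t ∈ (Finset.range K).powerset, (∏ k ∈ t, (1 / 2 ^ k : ℝ)) * (1 + Cg)) := by
    refine M4.sum (N := N) _ fun t _ => ?_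
    have h1 := prod_M4 (N := N) t (fun k => sym N (rho (w k) (a k) (cc k)))
      (fun k => (1 / 2 ^ k : ℝ)) (fun k _ => by positivity) fun k _ => (hL k).2.2.2.2.1 N
    exact h1.mul (Finset.prod_nonneg fun k _ => by positivity) (hsub _ Finset.sdiff_subset)
  refine (hfin.congr fun j => ?_).mono ?_
  · rw [← Finset.prod_add]
    unfold sym
    exact Finset.prod_congr rfl fun k _ => (UU_split (w k) (a k) (cc k) _).symm
  · rw [← Finset.sum_mul]
    refine mul_le_mul_of_nonneg_right ?_ (by positivity)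
    have h1 : ∑ t ∈ (Finset.range K).powerset, ∏ k ∈ t, (1 / 2 ^ k : ℝ) =
        ∏ k ∈ Finset.range K, ((1 / 2 ^ k : ℝ) + 1) := by
      rw [Finset.prod_add]
      simp
    rw [h1]
    calc ∏ k ∈ Finset.range K, ((1 / 2 ^ k : ℝ) + 1) ≤
          ∏ k ∈ Finset.range K, Real.exp (1 / 2 ^ k) :=
          Finset.prod_le_prod (fun k _ => by positivity) fun k _ => Real.add_one_le_exp _
      _ = Real.exp (∑ k ∈ Finset.range K, (1 / 2 ^ k : ℝ)) := by rw [Real.exp_sum]
      _ ≤ Real.exp 2 := by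
        apply Real.exp_le_exp.2
        have h2 : ∑ k ∈ Finset.range K, (1 / 2 ^ k : ℝ) = ∑ k ∈ Finset.range K, ((1 / 2 : ℝ)) ^ k := by
          refine Finset.sum_congr rfl fun k _ => ?_
          rw [one_div_pow]
        rw [h2]
        have h3 := (summable_geometric_two).sum_le_tsum (Finset.range K) fun k _ => by positivity
        rwa [tsum_geometric_two] at h3

end Pool.Agent.MP58366f
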