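import Mathlib
import Pool.Agent.MP58366f.Basic

namespace Pool.Agent.MP58366f
open scoped BigOperators
open Finset

noncomputable section

variable {N : ℕ} [NeZero N]

/-- the `ℓ⁴` norm -/
def n4 (f : ZMod N → ℂ) : ℝ := (∑ x, ‖f x‖ ^ (4 : ℝ)) ^ (1 / (4 : ℝ))

lemma n4_nonneg (f : ZMod N → ℂ) : 0 ≤ n4 f :=
  Real.rpow_nonneg (Finset.sum_nonneg (fun _ _ => Real.rpow_nonneg (norm_nonneg _) _)) _

lemma n4_pow (f : ZMod N → ℂ) : n4 f ^ 4 = ∑ x, ‖f x‖ ^ 4 := by
  unfold n4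
  rw [← Real.rpow_natCast, ← Real.rpow_mul]
  · norm_num
  · exact Finset.sum_nonneg (fun _ _ => Real.rpow_nonneg (norm_nonneg _) _)

lemma n4_mono {f g : ZMod N → ℂ} (h : ∀ x, ‖f x‖ ≤ ‖g x‖) : n4 f ≤ n4 g := by
  unfold n4
  apply Real.rpow_le_rpow
  · exact Finset.sum_nonneg (fun _ _ => Real.rpow_nonneg (norm_nonneg _) _)
  · exact Finset.sum_le_sum (fun x _ => Real.rpow_le_rpow (norm_nonneg _) (h x) (by norm_num))
  · norm_num

lemma n4_congr {f g : ZMod N → ℂ} (h : ∀ x, ‖f x‖ = ‖g x‖) : n4 f = n4 g :=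
  le_antisymm (n4_mono fun x => (h x).le) (n4_mono fun x => (h x).ge)

lemma n4_add_le (f g : ZMod N → ℂ) : n4 (fun x => f x + g x) ≤ n4 f + n4 g := by
  have h := Real.Lp_add_le (univ : Finset (ZMod N)) (fun x => ‖f x‖) (fun x => ‖g x‖) (p := 4) (by norm_num)
  simp only [abs_norm] at h
  refine le_trans ?_ h
  unfold n4
  apply Real.rpow_le_rpow
  · exact Finset.sum_nonneg (fun _ _ => Real.rpow_nonneg (norm_nonneg _) _)
  · apply Finset.sum_le_sum; intro x _
    apply Real.rpow_le_rpow (norm_nonneg _) _ (by norm_num)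
    exact le_trans (norm_add_le _ _) (le_abs_self _)
  · norm_num

lemma n4_const_mul (c : ℂ) (f : ZMod N → ℂ) : n4 (fun x => c * f x) = ‖c‖ * n4 f := by
  unfold n4
  have : ∀ x, ‖c * f x‖ ^ (4 : ℝ) = ‖c‖ ^ (4 : ℝ) * ‖f x‖ ^ (4 : ℝ) := by
    intro x; rw [norm_mul, Real.mul_rpow (norm_nonneg _) (norm_nonneg _)]
  simp_rw [this]
  rw [← Finset.mul_sum, Real.mul_rpow (Real.rpow_nonneg (norm_nonneg _) _)
    (Finset.sum_nonneg (fun _ _ => Real.rpow_nonneg (norm_nonneg _) _)), ← Real.rpow_mul (norm_nonneg _)]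
  norm_num

lemma n4_zero : n4 (fun _ : ZMod N => (0 : ℂ)) = 0 := by
  have := n4_const_mul (N := N) 0 (fun _ => 0)
  simpa using this

lemma n4_sum_le {ι : Type*} (s : Finset ι) (f : ι → ZMod N → ℂ) :
    n4 (fun x => ∑ i ∈ s, f i x) ≤ ∑ i ∈ s, n4 (f i) := by
  classical
  induction s using Finset.induction_on with
  | empty => simp [n4_zero]
  | insert a s ha ih =>
    rw [Finset.sum_insert ha]
    refine le_trans ?_ (add_le_add le_rfl ih)
    refine le_trans (le_of_eq ?_) (n4_add_le _ _)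
    congr 1; funext x; rw [Finset.sum_insert ha]

/-- shifting does not change the norm -/
lemma n4_shift (f : ZMod N → ℂ) (y : ZMod N) : n4 (fun x => f (x - y)) = n4 f := by
  unfold n4
  congr 1
  exact Fintype.sum_equiv (Equiv.subRight y) _ _ (fun x => by simp)

lemma n4_neg_arg (f : ZMod N → ℂ) : n4 (fun x => f (-x)) = n4 f := by
  unfold n4
  congr 1
  exact Fintype.sum_equiv (Equiv.neg (ZMod N)) _ _ (fun x => by simp)

/-- `h` is an `ℓ⁴` multiplier with norm at most `C` -/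
def M4 (h : ZMod N → ℂ) (C : ℝ) : Prop := ∀ f, n4 (Top h f) ≤ C * n4 f

lemma M4.mono {h : ZMod N → ℂ} {C C' : ℝ} (H : M4 h C) (hC : C ≤ C') : M4 h C' := fun f =>
  le_trans (H f) (mul_le_mul_of_nonneg_right hC (n4_nonneg f))

lemma M4.mul {h₁ h₂ : ZMod N → ℂ} {C₁ C₂ : ℝ} (hC : 0 ≤ C₁) (H₁ : M4 h₁ C₁) (H₂ : M4 h₂ C₂) :
    M4 (fun j => h₁ j * h₂ j) (C₁ * C₂) := by
  intro f
  rw [Top_mul, mul_assoc]
  exact le_trans (H₁ _) (mul_le_mul_of_nonneg_left (H₂ f) hC)

lemma M4.add {h₁ h₂ : ZMod N → ℂ} {C₁ C₂ : ℝ} (H₁ : M4 h₁ C₁) (H₂ : M4 h₂ C₂) :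
    M4 (fun j => h₁ j + h₂ j) (C₁ + C₂) := by
  intro f
  have : Top (fun j => h₁ j + h₂ j) f = fun x => Top h₁ f x + Top h₂ f x := by
    funext x; exact Top_add _ _ _ _
  rw [this, add_mul]
  exact le_trans (n4_add_le _ _) (add_le_add (H₁ f) (H₂ f))

lemma M4.const_mul {h : ZMod N → ℂ} {C : ℝ} (c : ℂ) (H : M4 h C) :
    M4 (fun j => c * h j) (‖c‖ * C) := by
  intro f
  have : Top (fun j => c * h j) f = fun x => c * Top h f x := by
    funext x; exact Top_const_mul _ _ _ _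
  rw [this, n4_const_mul, mul_assoc]
  exact mul_le_mul_of_nonneg_left (H f) (norm_nonneg _)

lemma M4.congr {h₁ h₂ : ZMod N → ℂ} {C : ℝ} (H : M4 h₁ C) (e : ∀ j, h₁ j = h₂ j) : M4 h₂ C := by
  have : h₁ = h₂ := funext e
  rwa [← this]

lemma M4.sum {ι : Type*} (s : Finset ι) {h : ι → ZMod N → ℂ} {C : ι → ℝ}
    (H : ∀ i ∈ s, M4 (h i) (C i)) : M4 (fun j => ∑ i ∈ s, h i j) (∑ i ∈ s, C i) := by
  intro f
  have : Top (fun j => ∑ i ∈ s, h i j) f = fun x => ∑ i ∈ s, Top (h i) f x := by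
    funext x; exact Top_sum _ _ _ _
  rw [this, Finset.sum_mul]
  exact le_trans (n4_sum_le _ _) (Finset.sum_le_sum (fun i hi => H i hi f))

lemma M4_one : M4 (fun _ : ZMod N => (1 : ℂ)) 1 := by
  intro f; rw [Top_one, one_mul]

lemma M4_const (c : ℂ) : M4 (fun _ : ZMod N => c) ‖c‖ := by
  have := (M4_one (N := N)).const_mul c
  simpa using this

lemma Top_eq_sum_shift (h f : ZMod N → ℂ) (x : ZMod N) : Top h f x = ∑ y, ker h y * f (x - y) := by
  unfold Top
  exact Fintype.sum_equiv (Equiv.subLeft x) _ _ (fun y => by simp)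

lemma M4_of_ker {h : ZMod N → ℂ} {A : ℝ} (H : ∑ x, ‖ker h x‖ ≤ A) : M4 h A := by
  intro f
  have h1 : Top h f = fun x => ∑ y, ker h y * f (x - y) := by
    funext x; exact Top_eq_sum_shift _ _ _
  rw [h1]
  refine le_trans (n4_sum_le _ _) ?_
  have h2 : ∀ y, n4 (fun x => ker h y * f (x - y)) = ‖ker h y‖ * n4 f := by
    intro y
    rw [n4_const_mul (ker h y) (fun x => f (x - y)), n4_shift]
  simp_rw [h2]
  rw [← Finset.sum_mul]
  exact mul_le_mul_of_nonneg_right H (n4_nonneg _)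

/-- translating a symbol -/
lemma ker_translate (h : ZMod N → ℂ) (c x : ZMod N) :
    ker (fun j => h (j - c)) x = ec (-(c * x)) * ker h x := by
  have h1 : ∑ j, h (j - c) * ec (-(j * x)) = ec (-(c * x)) * ∑ j, h j * ec (-(j * x)) := by
    rw [Finset.mul_sum]
    refine Fintype.sum_equiv (Equiv.subRight c) _ _ ?_
    intro j
    simp only [Equiv.subRight_apply]
    have : ec (-(j * x)) = ec (-(c * x)) * ec (-((j - c) * x)) := by
      rw [← ec_add]; congr 1; ring
    rw [this]; ring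
  unfold ker
  rw [h1]; ring

lemma Top_translate (h f : ZMod N → ℂ) (c x : ZMod N) :
    Top (fun j => h (j - c)) f x = ec (-(c * x)) * Top h (fun y => ec (c * y) * f y) x := by
  unfold Top
  rw [Finset.mul_sum]
  apply Finset.sum_congr rfl; intro y _
  rw [ker_translate]
  have : ec (-(c * (x - y))) = ec (-(c * x)) * ec (c * y) := by
    rw [← ec_add]; congr 1; ring
  rw [this]; ring

lemma M4.translate {h : ZMod N → ℂ} {C : ℝ} (H : M4 h C) (c : ZMod N) :
    M4 (fun j => h (j - c)) C := by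
  intro f
  have h1 : n4 (Top (fun j => h (j - c)) f) = n4 (Top h (fun y => ec (c * y) * f y)) := by
    apply n4_congr; intro x
    rw [Top_translate, norm_mul, norm_ec, one_mul]
  have h2 : n4 (fun y => ec (c * y) * f y) = n4 f := by
    apply n4_congr; intro x
    rw [norm_mul, norm_ec, one_mul]
  rw [h1]
  exact le_trans (H _) (le_of_eq (by rw [h2]))

lemma ker_neg_arg (h : ZMod N → ℂ) (x : ZMod N) : ker (fun j => h (-j)) x = ker h (-x) := by
  unfold ker; congr 1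
  refine Fintype.sum_equiv (Equiv.neg (ZMod N)) _ _ ?_
  intro j; simp

lemma M4.neg_arg {h : ZMod N → ℂ} {C : ℝ} (H : M4 h C) : M4 (fun j => h (-j)) C := by
  intro f
  have h1 : n4 (Top (fun j => h (-j)) f) = n4 (Top h (fun y => f (-y))) := by
    rw [← n4_neg_arg (Top h fun y => f (-y))]
    apply n4_congr; intro x
    congr 1
    unfold Top
    refine Fintype.sum_equiv (Equiv.neg (ZMod N)) _ _ ?_
    intro y
    simp only [Equiv.neg_apply, neg_neg]
    rw [ker_neg_arg]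
    congr 2; ring
  rw [h1]
  exact le_trans (H _) (le_of_eq (by rw [n4_neg_arg]))

lemma ker_conj (h : ZMod N → ℂ) (x : ZMod N) :
    ker (fun j => (starRingEnd ℂ) (h j)) x = (starRingEnd ℂ) (ker h (-x)) := by
  unfold ker
  rw [map_mul, map_inv₀, Complex.conj_natCast, map_sum]
  congr 1
  apply Finset.sum_congr rfl; intro j _
  rw [map_mul, ← ec_neg]
  congr 2; ring

/-- `conj` combined with reflection preserves the multiplier norm -/
lemma M4.conj_neg {h : ZMod N → ℂ} {C : ℝ} (H : M4 h C) :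
    M4 (fun j => (starRingEnd ℂ) (h (-j))) C := by
  intro f
  have h1 : n4 (Top (fun j => (starRingEnd ℂ) (h (-j))) f)
      = n4 (Top h (fun y => (starRingEnd ℂ) (f y))) := by
    apply n4_congr; intro x
    have : Top (fun j => (starRingEnd ℂ) (h (-j))) f x
        = (starRingEnd ℂ) (Top h (fun y => (starRingEnd ℂ) (f y)) x) := by
      unfold Top
      rw [map_sum]
      apply Finset.sum_congr rfl; intro y _
      rw [map_mul, Complex.conj_conj]
      congr 1
      rw [ker_neg_arg (fun j => (starRingEnd ℂ) (h j)), ker_conj, neg_neg]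
    rw [this]; simp
  have h2 : n4 (fun y => (starRingEnd ℂ) (f y)) = n4 f := by
    apply n4_congr; intro x; simp
  rw [h1]
  exact le_trans (H _) (le_of_eq (by rw [h2]))

lemma M4.conj {h : ZMod N → ℂ} {C : ℝ} (H : M4 h C) :
    M4 (fun j => (starRingEnd ℂ) (h j)) C := by
  have := H.conj_neg.neg_arg
  simpa using this

lemma norm_Top_sq_sum_le {h : ZMod N → ℂ} {A : ℝ} (hA : ∀ j, ‖h j‖ ≤ A) (f : ZMod N → ℂ) :
    ∑ x, ‖Top h f x‖ ^ 2 ≤ A ^ 2 * ∑ x, ‖f x‖ ^ 2 := by
  rw [parseval_sq, parseval_sq f]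
  rw [← mul_assoc, mul_comm (A ^ 2), mul_assoc]
  apply mul_le_mul_of_nonneg_left _ (by positivity)
  rw [Finset.mul_sum]
  apply Finset.sum_le_sum; intro j _
  rw [FT_Top, norm_mul, mul_pow]
  apply mul_le_mul_of_nonneg_right _ (by positivity)
  exact pow_le_pow_left₀ (norm_nonneg _) (hA j) 2

end

end Pool.Agent.MP58366f
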