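import Mathlib
import Pool.Agent.MP58366f.Basic
import Pool.Agent.MP58366f.MNorm

/-!
Basic definitions for MP_58366f: sampling, normalised Blaschke factors, size on `ZMod N`.
-/

namespace Pool.Agent.MP58366f
open scoped BigOperators
open Finset Filter Topology

noncomputable section

/-- sampling a function of the angle on the `N`-th roots of unity -/
def sym (N : ℕ) (H : ℝ → ℂ) (j : ZMod N) : ℂ := H (2 * Real.pi * (j.valMinAbs : ℝ) / N)

/-- normalised Blaschke factor, equal to 1 far away from `w` -/
def bl (w z : ℂ) : ℂ := (starRingEnd ℂ w / (‖w‖ : ℂ)) * ((w - z) / (1 - starRingEnd ℂ w * z))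

/-- the size of `x : ZMod N` -/
def nz {N : ℕ} (x : ZMod N) : ℝ := |(x.valMinAbs : ℝ)|

lemma sym_mul (N : ℕ) (H G : ℝ → ℂ) (j : ZMod N) :
    sym N (fun s => H s * G s) j = sym N H j * sym N G j := rfl

lemma sym_add (N : ℕ) (H G : ℝ → ℂ) (j : ZMod N) :
    sym N (fun s => H s + G s) j = sym N H j + sym N G j := rfl

end

end Pool.Agent.MP58366f
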