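import Mathlib
import Pool.Agent.MP58366f.Defs

/-!
An explicit piecewise quadratic cut-off function `thet`: equal to `1` on `|x| ≤ 1`, to `0` for
`2 ≤ |x|`, with second differences at most `32 t ^ 2`.
-/

namespace Pool.Agent.MP58366f
open scoped BigOperators
open Finset

noncomputable section

/-- squared positive part -/
def sp (x : ℝ) : ℝ := (max x 0) ^ 2

lemma sp_second (x t : ℝ) : |sp (x + t) - 2 * sp x + sp (x - t)| ≤ 2 * t ^ 2 := by
  unfold sp
  rw [abs_le]
  rcases max_cases (x + t) 0 with ⟨h1, h1'⟩ | ⟨h1, h1'⟩ <;>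
  rcases max_cases x 0 with ⟨h2, h2'⟩ | ⟨h2, h2'⟩ <;>
  rcases max_cases (x - t) 0 with ⟨h3, h3'⟩ | ⟨h3, h3'⟩ <;>
  rw [h1, h2, h3] <;> constructor <;> nlinarith [sq_nonneg (x + t), sq_nonneg (x - t), sq_nonneg x, sq_nonneg t]

/-- smooth step from `0` to `1` on `[0,1]` -/
def stp (x : ℝ) : ℝ := 2 * sp x - 4 * sp (x - 1 / 2) + 2 * sp (x - 1)

lemma stp_of_nonpos {x : ℝ} (hx : x ≤ 0) : stp x = 0 := by
  unfold stp sp
  rw [max_eq_right hx, max_eq_right (by linarith : x - 1 / 2 ≤ 0), max_eq_right (by linarith : x - 1 ≤ 0)]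
  norm_num

lemma stp_of_one_le {x : ℝ} (hx : 1 ≤ x) : stp x = 1 := by
  unfold stp sp
  rw [max_eq_left (by linarith : 0 ≤ x), max_eq_left (by linarith : 0 ≤ x - 1 / 2),
    max_eq_left (by linarith : 0 ≤ x - 1)]
  ring

lemma stp_mem (x : ℝ) : 0 ≤ stp x ∧ stp x ≤ 1 := by
  rcases le_or_gt x 0 with h | h
  · rw [stp_of_nonpos h]; norm_num
  rcases le_or_gt 1 x with h1 | h1
  · rw [stp_of_one_le h1]; norm_num
  unfold stp sp
  rw [max_eq_left h.le, max_eq_right (by linarith : x - 1 ≤ 0)]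
  rcases le_or_gt x (1 / 2) with h2 | h2
  · rw [max_eq_right (by linarith : x - 1 / 2 ≤ 0)]
    constructor <;> nlinarith
  · rw [max_eq_left (by linarith : 0 ≤ x - 1 / 2)]
    constructor <;> nlinarith

lemma stp_second (x t : ℝ) : |stp (x + t) - 2 * stp x + stp (x - t)| ≤ 16 * t ^ 2 := by
  have h1 := sp_second x t
  have h2 := sp_second (x - 1 / 2) t
  have h3 := sp_second (x - 1) t
  unfold stp
  rw [abs_le] at *
  have e1 : x + t - 1 / 2 = x - 1 / 2 + t := by ring
  have e2 : x - t - 1 / 2 = x - 1 / 2 - t := by ring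
  have e3 : x + t - 1 = x - 1 + t := by ring
  have e4 : x - t - 1 = x - 1 - t := by ring
  rw [e1, e2, e3, e4]
  constructor <;> linarith [h1.1, h1.2, h2.1, h2.2, h3.1, h3.2]

/-- cut-off function: `1` on `[-1,1]`, `0` outside `[-2,2]` -/
def thet (x : ℝ) : ℝ := stp (x + 2) - stp (x - 1)

lemma thet_eq_one {x : ℝ} (hx : |x| ≤ 1) : thet x = 1 := by
  rw [abs_le] at hx
  unfold thet
  rw [stp_of_one_le (by linarith), stp_of_nonpos (by linarith)]; norm_num

lemma thet_eq_zero {x : ℝ} (hx : 2 ≤ |x|) : thet x = 0 := by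
  unfold thet
  rcases le_abs'.mp hx with h | h
  · rw [stp_of_nonpos (by linarith), stp_of_nonpos (by linarith)]; norm_num
  · rw [stp_of_one_le (by linarith), stp_of_one_le (by linarith)]; norm_num

lemma thet_mem (x : ℝ) : 0 ≤ thet x ∧ thet x ≤ 1 := by
  unfold thet
  rcases le_or_gt x 0 with h | h
  · rw [stp_of_nonpos (by linarith : x - 1 ≤ 0)]
    have := stp_mem (x + 2)
    constructor <;> linarith [this.1, this.2]
  · rw [stp_of_one_le (by linarith : 1 ≤ x + 2)]
    have := stp_mem (x - 1)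
    constructor <;> linarith [this.1, this.2]

lemma abs_thet_le (x : ℝ) : |thet x| ≤ 1 := by
  rw [abs_le]; constructor <;> linarith [(thet_mem x).1, (thet_mem x).2]

lemma thet_second (x t : ℝ) : |thet (x + t) - 2 * thet x + thet (x - t)| ≤ 32 * t ^ 2 := by
  have h1 := stp_second (x + 2) t
  have h2 := stp_second (x - 1) t
  unfold thet
  rw [abs_le] at *
  have e1 : x + t + 2 = x + 2 + t := by ring
  have e2 : x - t + 2 = x + 2 - t := by ring
  have e3 : x + t - 1 = x - 1 + t := by ring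
  have e4 : x - t - 1 = x - 1 - t := by ring
  rw [e1, e2, e3, e4]
  constructor <;> linarith [h1.1, h1.2, h2.1, h2.2]

/-- rescaled version -/
lemma thet_scaled_second {r : ℝ} (_hr : 0 < r) (c x t : ℝ) :
    ‖((thet ((x + t - c) / r) : ℝ) : ℂ) - 2 * ((thet ((x - c) / r) : ℝ) : ℂ) + ((thet ((x - t - c) / r) : ℝ) : ℂ)‖
      ≤ 32 * t ^ 2 / r ^ 2 := by
  have h := thet_second ((x - c) / r) (t / r)
  have e1 : (x - c) / r + t / r = (x + t - c) / r := by ring
  have e2 : (x - c) / r - t / r = (x - t - c) / r := by ring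
  rw [e1, e2] at h
  have e3 : ((thet ((x + t - c) / r) : ℝ) : ℂ) - 2 * ((thet ((x - c) / r) : ℝ) : ℂ) + ((thet ((x - t - c) / r) : ℝ) : ℂ)
      = ((thet ((x + t - c) / r) - 2 * thet ((x - c) / r) + thet ((x - t - c) / r) : ℝ) : ℂ) := by
    push_cast; ring
  rw [e3, Complex.norm_real, Real.norm_eq_abs]
  refine le_trans h (le_of_eq ?_)
  rw [div_pow]; ring

end

end Pool.Agent.MP58366f
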