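import Mathlib
import Pool.Agent.MP58366f.Defs

set_option linter.unusedSectionVars false

namespace Pool.Agent.MP58366f
open scoped BigOperators
open Finset

noncomputable section

variable {N : ℕ} [NeZero N]

lemma nz_nonneg (x : ZMod N) : 0 ≤ nz x := abs_nonneg _

lemma nz_eq_natAbs (x : ZMod N) : nz x = (x.valMinAbs.natAbs : ℝ) := by
  unfold nz; rw [← Int.cast_abs, Int.abs_eq_natAbs]; simp

lemma nz_add_le (x y : ZMod N) : nz (x + y) ≤ nz x + nz y := by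
  rw [nz_eq_natAbs, nz_eq_natAbs, nz_eq_natAbs]
  have h1 := ZMod.natAbs_valMinAbs_add_le x y
  have h2 := Int.natAbs_add_le x.valMinAbs y.valMinAbs
  exact_mod_cast le_trans h1 h2

lemma nz_neg (x : ZMod N) : nz (-x) = nz x := by
  rw [nz_eq_natAbs, nz_eq_natAbs, ZMod.natAbs_valMinAbs_neg]

lemma nz_sub_comm (x y : ZMod N) : nz (x - y) = nz (y - x) := by
  rw [← nz_neg, neg_sub]

lemma nz_le_half (x : ZMod N) : nz x ≤ N / 2 := by
  rw [nz_eq_natAbs]
  have h := ZMod.natAbs_valMinAbs_le x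
  have h2 : (x.valMinAbs.natAbs : ℝ) ≤ ((N / 2 : ℕ) : ℝ) := by exact_mod_cast h
  exact le_trans h2 (by exact_mod_cast Nat.cast_div_le)

/-- comparing sums over `ZMod N` with sums over `ℕ` -/
lemma sum_nz_le (g : ℕ → ℝ) (hg : ∀ n, 0 ≤ g n) :
    ∑ x : ZMod N, g x.valMinAbs.natAbs ≤ 2 * ∑ n ∈ range (N + 1), g n := by
  classical
  have h1 : ∑ x : ZMod N, g x.valMinAbs.natAbs
      = ∑ n ∈ range (N + 1), ∑ x ∈ univ.filter (fun x : ZMod N => x.valMinAbs.natAbs = n), g n := by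
    rw [← Finset.sum_fiberwise_of_maps_to (s := univ) (t := range (N + 1))
      (g := fun x : ZMod N => x.valMinAbs.natAbs)]
    · apply Finset.sum_congr rfl; intro n _
      apply Finset.sum_congr rfl; intro x hx
      rw [(Finset.mem_filter.mp hx).2]
    · intro x _
      have := ZMod.natAbs_valMinAbs_le x
      rw [mem_range]; omega
  rw [h1, Finset.mul_sum]
  apply Finset.sum_le_sum; intro n _
  rw [Finset.sum_const, nsmul_eq_mul]
  apply mul_le_mul_of_nonneg_right _ (hg n)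
  have h2 : (univ.filter (fun x : ZMod N => x.valMinAbs.natAbs = n)).card ≤ 2 := by
    have : univ.filter (fun x : ZMod N => x.valMinAbs.natAbs = n)
        ⊆ {((n : ℤ) : ZMod N), ((-(n : ℤ) : ℤ) : ZMod N)} := by
      intro x hx
      rw [Finset.mem_filter] at hx
      have h3 : x.valMinAbs = n ∨ x.valMinAbs = -(n : ℤ) := by
        have := hx.2; omega
      rw [Finset.mem_insert, Finset.mem_singleton]
      rcases h3 with h3 | h3
      · left; rw [← h3]; exact (ZMod.coe_valMinAbs x).symm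
      · right; rw [← h3]; exact (ZMod.coe_valMinAbs x).symm
    exact le_trans (Finset.card_le_card this) (Finset.card_le_two)
  exact_mod_cast h2

lemma rpow_step {γ t : ℝ} (hγ : 0 < γ) (ht : 1 < t) :
    γ * t ^ (-(γ + 1)) ≤ (t - 1) ^ (-γ) - t ^ (-γ) := by
  have ht0 : 0 < t := by linarith
  have ht1 : 0 < t - 1 := by linarith
  have h1 : (t - 1) ^ (-γ) = t ^ (-γ) * ((1 - 1 / t)) ^ (-γ) := by
    rw [← Real.mul_rpow ht0.le]
    · congr 1; field_simp
    · rw [sub_nonneg, div_le_one ht0]; linarith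
  have hy : 0 < 1 - 1 / t := by rw [sub_pos, div_lt_one ht0]; exact ht
  have h2 : 1 + γ / t ≤ (1 - 1 / t) ^ (-γ) := by
    rw [Real.rpow_def_of_pos hy]
    have h3 : Real.log (1 - 1 / t) ≤ (1 - 1 / t) - 1 := Real.log_le_sub_one_of_pos hy
    have h4 : γ / t ≤ Real.log (1 - 1 / t) * -γ := by
      have : Real.log (1 - 1 / t) ≤ -(1 / t) := by linarith
      have := mul_le_mul_of_nonneg_right this hγ.le
      calc γ / t = (1 / t) * γ := by ring
        _ ≤ Real.log (1 - 1 / t) * -γ := by nlinarith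
    calc 1 + γ / t ≤ 1 + Real.log (1 - 1 / t) * -γ := by linarith
      _ ≤ Real.exp (Real.log (1 - 1 / t) * -γ) := by
        have := Real.add_one_le_exp (Real.log (1 - 1 / t) * -γ); linarith
  rw [h1]
  have h5 : t ^ (-(γ + 1)) = t ^ (-γ) * t⁻¹ := by
    rw [show -(γ + 1) = -γ + (-1) by ring, Real.rpow_add ht0, Real.rpow_neg_one]
  rw [h5]
  have h6 : 0 < t ^ (-γ) := Real.rpow_pos_of_pos ht0 _
  have h7 : γ * (t ^ (-γ) * t⁻¹) = t ^ (-γ) * (γ / t) := by ring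
  rw [h7]
  have : t ^ (-γ) * (1 + γ / t) ≤ t ^ (-γ) * (1 - 1 / t) ^ (-γ) := mul_le_mul_of_nonneg_left h2 h6.le
  linarith

lemma sum_rpow_le {γ L : ℝ} (hγ : 0 < γ) (hL : 1 ≤ L) (m : ℕ) :
    ∑ n ∈ range m, (L + n) ^ (-(γ + 1)) ≤ (1 + 1 / γ) * L ^ (-γ) := by
  have key : ∀ m : ℕ, ∑ n ∈ range m, (L + (n + 1 : ℕ)) ^ (-(γ + 1))
      ≤ (1 / γ) * (L ^ (-γ) - (L + m) ^ (-γ)) := by
    intro m
    induction m with
    | zero => simp
    | succ m ih =>
      rw [Finset.sum_range_succ]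
      have h := rpow_step (t := L + (m + 1 : ℕ)) hγ (by push_cast; linarith [Nat.cast_nonneg (α := ℝ) m])
      have h2 : L + ((m + 1 : ℕ) : ℝ) - 1 = L + m := by push_cast; ring
      rw [h2] at h
      have h3 : (L + ((m + 1 : ℕ) : ℝ)) ^ (-(γ + 1)) ≤ (1 / γ) * ((L + m) ^ (-γ) - (L + ((m + 1 : ℕ) : ℝ)) ^ (-γ)) := by
        rw [one_div, ← div_eq_inv_mul, le_div_iff₀ hγ]; linarith
      calc _ ≤ (1 / γ) * (L ^ (-γ) - (L + m) ^ (-γ)) + (1 / γ) * ((L + m) ^ (-γ) - (L + ((m + 1 : ℕ) : ℝ)) ^ (-γ)) :=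
            add_le_add ih h3
        _ = _ := by ring
  have hL0 : 0 < L := by linarith
  cases m with
  | zero => simp; positivity
  | succ m =>
    rw [Finset.sum_range_succ']
    have h1 := key m
    have h2 : (L + ((0 : ℕ) : ℝ)) ^ (-(γ + 1)) ≤ L ^ (-γ) := by
      simp only [Nat.cast_zero, add_zero]
      exact Real.rpow_le_rpow_of_exponent_le hL (by linarith)
    have h3 : 0 ≤ (L + m) ^ (-γ) := Real.rpow_nonneg (by positivity) _
    have h4 : 0 < 1 / γ := by positivity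
    have : (1 / γ) * (L ^ (-γ) - (L + m) ^ (-γ)) ≤ (1 / γ) * L ^ (-γ) := by
      apply mul_le_mul_of_nonneg_left _ h4.le; linarith
    calc _ ≤ (1 / γ) * L ^ (-γ) + L ^ (-γ) := add_le_add (le_trans h1 this) h2
      _ = _ := by ring

/-- the basic averaging kernel at scale `L` -/
def aL (L : ℝ) (x : ZMod N) : ℝ := L ^ (1 / 2 : ℝ) * (L + nz x) ^ (-(3 / 2) : ℝ)

/-- the faster decaying kernel -/
def bL (L : ℝ) (x : ZMod N) : ℝ := L / (L + nz x) ^ 2

lemma aL_nonneg {L : ℝ} (hL : 0 ≤ L) (x : ZMod N) : 0 ≤ aL L x :=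
  mul_nonneg (Real.rpow_nonneg hL _) (Real.rpow_nonneg (by linarith [nz_nonneg x]) _)

lemma aL_pos {L : ℝ} (hL : 0 < L) (x : ZMod N) : 0 < aL L x :=
  mul_pos (Real.rpow_pos_of_pos hL _) (Real.rpow_pos_of_pos (by linarith [nz_nonneg x]) _)

lemma aL_neg (L : ℝ) (x : ZMod N) : aL L (-x) = aL L x := by unfold aL; rw [nz_neg]

lemma sum_aL_le {L : ℝ} (hL : 1 ≤ L) : ∑ x : ZMod N, aL L x ≤ 6 := by
  have hL0 : 0 < L := by linarith
  unfold aL
  rw [← Finset.mul_sum]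
  have h1 : ∑ x : ZMod N, (L + nz x) ^ (-(3 / 2) : ℝ) ≤ 2 * ∑ n ∈ range (N + 1), (L + n) ^ (-(3 / 2) : ℝ) := by
    simp_rw [nz_eq_natAbs]
    exact sum_nz_le (fun n => (L + n) ^ (-(3 / 2) : ℝ)) (fun n => Real.rpow_nonneg (by positivity) _)
  have h2 := sum_rpow_le (γ := 1 / 2) (by norm_num) hL (N + 1)
  have h3 : (-((1:ℝ) / 2 + 1)) = (-(3 / 2) : ℝ) := by norm_num
  rw [h3] at h2
  calc L ^ (1 / 2 : ℝ) * ∑ x : ZMod N, (L + nz x) ^ (-(3 / 2) : ℝ)
      ≤ L ^ (1 / 2 : ℝ) * (2 * ((1 + 1 / (1 / 2)) * L ^ (-(1 / 2) : ℝ))) := by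
        apply mul_le_mul_of_nonneg_left _ (by positivity)
        exact le_trans h1 (by linarith)
    _ = 6 * (L ^ (1 / 2 : ℝ) * L ^ (-(1 / 2) : ℝ)) := by ring
    _ = 6 := by rw [← Real.rpow_add hL0]; norm_num

lemma bL_nonneg {L : ℝ} (hL : 0 ≤ L) (x : ZMod N) : 0 ≤ bL L x :=
  div_nonneg hL (by positivity)

lemma bL_le_aL {L : ℝ} (hL : 0 < L) (x : ZMod N) : bL L x ≤ aL L x := by
  unfold bL aL
  have hx := nz_nonneg x
  have hp : 0 < L + nz x := by linarith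
  have h1 : (L + nz x) ^ (-(3 / 2) : ℝ) = (L + nz x) ^ (1 / 2 : ℝ) / (L + nz x) ^ 2 := by
    rw [eq_div_iff (by positivity), ← Real.rpow_natCast, ← Real.rpow_add hp]; norm_num
  rw [h1, ← mul_div_assoc]
  apply div_le_div_of_nonneg_right _ (by positivity)
  calc L = L ^ (1 / 2 : ℝ) * L ^ (1 / 2 : ℝ) := by rw [← Real.rpow_add hL]; norm_num
    _ ≤ L ^ (1 / 2 : ℝ) * (L + nz x) ^ (1 / 2 : ℝ) := by
      apply mul_le_mul_of_nonneg_left _ (by positivity)
      exact Real.rpow_le_rpow hL.le (by linarith) (by norm_num)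

lemma sum_bL_mul_le {L : ℝ} (hL : 1 ≤ L) :
    ∑ x : ZMod N, bL L x * nz x ^ (3 / 4 : ℝ) ≤ 10 * L ^ (3 / 4 : ℝ) := by
  have hL0 : 0 < L := by linarith
  have h0 : ∀ x : ZMod N, bL L x * nz x ^ (3 / 4 : ℝ) ≤ L * (L + nz x) ^ (-(5 / 4) : ℝ) := by
    intro x
    have hx := nz_nonneg x
    have hp : 0 < L + nz x := by linarith
    unfold bL
    have h1 : (L + nz x) ^ (-(5 / 4) : ℝ) = (L + nz x) ^ (3 / 4 : ℝ) / (L + nz x) ^ 2 := by
      rw [eq_div_iff (by positivity), ← Real.rpow_natCast, ← Real.rpow_add hp]; norm_num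
    rw [h1, div_mul_eq_mul_div, ← mul_div_assoc]
    apply div_le_div_of_nonneg_right _ (by positivity)
    apply mul_le_mul_of_nonneg_left _ hL0.le
    exact Real.rpow_le_rpow hx (by linarith) (by norm_num)
  refine le_trans (Finset.sum_le_sum (fun x _ => h0 x)) ?_
  rw [← Finset.mul_sum]
  have h1 : ∑ x : ZMod N, (L + nz x) ^ (-(5 / 4) : ℝ) ≤ 2 * ∑ n ∈ range (N + 1), (L + n) ^ (-(5 / 4) : ℝ) := by
    simp_rw [nz_eq_natAbs]
    exact sum_nz_le (fun n => (L + n) ^ (-(5 / 4) : ℝ)) (fun n => Real.rpow_nonneg (by positivity) _)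
  have h2 := sum_rpow_le (γ := 1 / 4) (by norm_num) hL (N + 1)
  have h3 : (-((1:ℝ) / 4 + 1)) = (-(5 / 4) : ℝ) := by norm_num
  rw [h3] at h2
  calc L * ∑ x : ZMod N, (L + nz x) ^ (-(5 / 4) : ℝ)
      ≤ L * (2 * ((1 + 1 / (1 / 4)) * L ^ (-(1 / 4) : ℝ))) := by
        apply mul_le_mul_of_nonneg_left _ (by positivity)
        exact le_trans h1 (by linarith)
    _ = 10 * (L ^ (1 : ℝ) * L ^ (-(1 / 4) : ℝ)) := by rw [Real.rpow_one]; ring
    _ = 10 * L ^ (3 / 4 : ℝ) := by rw [← Real.rpow_add hL0]; norm_num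

end

end Pool.Agent.MP58366f
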