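import Mathlib
import Pool.Agent.MP58366f.Kernels
import Pool.Agent.MP58366f.Cutoff

set_option linter.unusedSectionVars false

namespace Pool.Agent.MP58366f
open scoped BigOperators
open Finset

noncomputable section

variable {N : ℕ} [NeZero N]

/-- cyclic second difference -/
def sd (h : ZMod N → ℂ) (j : ZMod N) : ℂ := h (j + 1) - 2 * h j + h (j - 1)

lemma ker_sd (h : ZMod N → ℂ) (x : ZMod N) :
    ker (sd h) x = (ec x - 2 + ec (-x)) * ker h x := by
  have e1 : ker (fun j => h (j + 1)) x = ec x * ker h x := by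
    have := ker_translate h (-1) x
    simp only [sub_neg_eq_add, neg_mul, one_mul, neg_neg] at this
    exact this
  have e2 : ker (fun j => h (j - 1)) x = ec (-x) * ker h x := by
    have := ker_translate h 1 x
    simpa using this
  have e3 : sd h = fun j => (h (j + 1) + (-2) * h j) + h (j - 1) := by
    funext j; unfold sd; ring
  rw [e3, ker_add (fun j => h (j + 1) + (-2) * h j), ker_add (fun j => h (j + 1)), ker_const_mul, e1, e2]
  ring

lemma ec_eq_exp (x : ZMod N) :
    ec x = Complex.exp (((2 * Real.pi * (x.valMinAbs : ℝ) / N : ℝ) : ℂ) * Complex.I) := by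
  have h := ZMod.stdAddChar_coe (N := N) x.valMinAbs
  rw [ZMod.coe_valMinAbs] at h
  rw [show ec x = ZMod.stdAddChar x from rfl, h]
  congr 1
  push_cast
  ring

lemma norm_ec_sub_two (x : ZMod N) : 16 * nz x ^ 2 / N ^ 2 ≤ ‖ec x - 2 + ec (-x)‖ := by
  have hN : (0:ℝ) < N := by exact_mod_cast NeZero.pos N
  set t : ℝ := 2 * Real.pi * (x.valMinAbs : ℝ) / N with ht
  have h1 : ec x - 2 + ec (-x) = ((2 * Real.cos t - 2 : ℝ) : ℂ) := by
    rw [ec_neg, ec_eq_exp, ← ht, ← Complex.exp_conj]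
    rw [map_mul, Complex.conj_I, Complex.conj_ofReal]
    push_cast
    rw [Complex.cos]
    ring_nf
  rw [h1, Complex.norm_real, Real.norm_eq_abs]
  have h2 : Real.cos t = 1 - 2 * Real.sin (t / 2) ^ 2 := by
    have := Real.cos_two_mul (t / 2)
    rw [show 2 * (t / 2) = t by ring] at this
    have h3 := Real.sin_sq_add_cos_sq (t / 2)
    linarith
  have h3 : |2 * Real.cos t - 2| = 4 * Real.sin (t / 2) ^ 2 := by
    rw [h2]
    rw [show 2 * (1 - 2 * Real.sin (t / 2) ^ 2) - 2 = -(4 * Real.sin (t / 2) ^ 2) by ring, abs_neg,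
      abs_of_nonneg (by positivity)]
  rw [h3]
  have h4 : nz x ≤ N / 2 := nz_le_half x
  have h5 : |t / 2| = Real.pi * nz x / N := by
    rw [ht]; unfold nz
    rw [show 2 * Real.pi * (x.valMinAbs : ℝ) / N / 2 = Real.pi * (x.valMinAbs : ℝ) / N by ring]
    rw [abs_div, abs_mul, abs_of_pos Real.pi_pos, abs_of_pos hN]
  have h6 : |t / 2| ≤ Real.pi / 2 := by
    rw [h5, div_le_iff₀ hN]
    nlinarith [Real.pi_pos]
  have h7 := Real.mul_abs_le_abs_sin h6
  rw [h5] at h7
  have h8 : 2 * nz x / N ≤ |Real.sin (t / 2)| := by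
    refine le_trans (le_of_eq ?_) h7
    field_simp
  have h9 : 0 ≤ 2 * nz x / N := by have := nz_nonneg x; positivity
  have h10 := pow_le_pow_left₀ h9 h8 2
  rw [sq_abs] at h10
  calc 16 * nz x ^ 2 / N ^ 2 = 4 * (2 * nz x / N) ^ 2 := by ring
    _ ≤ 4 * Real.sin (t / 2) ^ 2 := by linarith

lemma norm_ker_le (h : ZMod N → ℂ) (x : ZMod N) : ‖ker h x‖ ≤ (N : ℝ)⁻¹ * ∑ j, ‖h j‖ := by
  unfold ker
  rw [norm_mul, norm_inv, Complex.norm_natCast]
  apply mul_le_mul_of_nonneg_left _ (by positivity)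
  refine le_trans (norm_sum_le _ _) ?_
  apply Finset.sum_le_sum; intro j _
  rw [norm_mul, norm_ec, mul_one]

/-- the basic kernel bound from bounds of `h` and its second differences -/
lemma ker_bound_core (h : ZMod N → ℂ) {L P : ℝ} (hL : 1 ≤ L) (hP : 0 ≤ P)
    (h1 : ∑ j, ‖h j‖ ≤ N * P / L) (h2 : ∑ j, ‖sd h j‖ ≤ P * L / N) (x : ZMod N) :
    ‖ker h x‖ ≤ 4 * P * bL L x := by
  have hN : (0:ℝ) < N := by exact_mod_cast NeZero.pos N
  have hL0 : 0 < L := by linarith
  have hx := nz_nonneg x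
  have a1 : ‖ker h x‖ ≤ P / L := by
    refine le_trans (norm_ker_le h x) ?_
    calc (N : ℝ)⁻¹ * ∑ j, ‖h j‖ ≤ (N : ℝ)⁻¹ * (N * P / L) := mul_le_mul_of_nonneg_left h1 (by positivity)
      _ = P / L := by field_simp
  have a2 : ‖ec x - 2 + ec (-x)‖ * ‖ker h x‖ ≤ P * L / N ^ 2 := by
    rw [← norm_mul, ← ker_sd]
    refine le_trans (norm_ker_le _ x) ?_
    calc (N : ℝ)⁻¹ * ∑ j, ‖sd h j‖ ≤ (N : ℝ)⁻¹ * (P * L / N) := mul_le_mul_of_nonneg_left h2 (by positivity)
      _ = P * L / N ^ 2 := by field_simp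
  have a3 : 16 * nz x ^ 2 * ‖ker h x‖ ≤ P * L := by
    have := mul_le_mul_of_nonneg_right (norm_ec_sub_two x) (norm_nonneg (ker h x))
    have h3 := le_trans this a2
    rw [div_mul_eq_mul_div, div_le_div_iff_of_pos_right (by positivity)] at h3
    exact h3
  unfold bL
  rw [← mul_div_assoc, le_div_iff₀ (by positivity)]
  rcases le_total (nz x) L with hx' | hx'
  · have a4 : ‖ker h x‖ * L ≤ P := by rwa [le_div_iff₀ hL0] at a1
    calc ‖ker h x‖ * (L + nz x) ^ 2 ≤ ‖ker h x‖ * (L + L) ^ 2 := by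
          apply mul_le_mul_of_nonneg_left _ (norm_nonneg _)
          apply pow_le_pow_left₀ (by linarith); linarith
      _ = 4 * (‖ker h x‖ * L) * L := by ring
      _ ≤ 4 * P * L := by nlinarith
  · calc ‖ker h x‖ * (L + nz x) ^ 2 ≤ ‖ker h x‖ * (nz x + nz x) ^ 2 := by
          apply mul_le_mul_of_nonneg_left _ (norm_nonneg _)
          apply pow_le_pow_left₀ (by linarith); linarith
      _ = 4 * nz x ^ 2 * ‖ker h x‖ := by ring
      _ ≤ 4 * P * L := by nlinarith [mul_nonneg hP hL0.le]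

lemma valMinAbs_bound (j : ZMod N) : -(N : ℤ) < 2 * j.valMinAbs ∧ 2 * j.valMinAbs ≤ N := by
  have h := ZMod.valMinAbs_mem_Ioc j
  constructor
  · have := h.1; linarith
  · have := h.2; linarith

lemma valMinAbs_add_one (j : ZMod N) :
    (j + 1).valMinAbs = j.valMinAbs + 1 ∨
      ((j + 1).valMinAbs = j.valMinAbs + 1 - N ∧ (N : ℤ) < 2 * (j.valMinAbs + 1)) := by
  have h1 := valMinAbs_bound j
  have h2 := valMinAbs_bound (j + 1)
  have hN : 0 < N := NeZero.pos N
  have h3 : (((j + 1).valMinAbs - (j.valMinAbs + 1) : ℤ) : ZMod N) = 0 := by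
    push_cast; simp
  rw [ZMod.intCast_zmod_eq_zero_iff_dvd] at h3
  obtain ⟨c, hc⟩ := h3
  have hc1 : c < 1 := by
    by_contra hh
    push Not at hh
    have : (N : ℤ) * 1 ≤ N * c := mul_le_mul_of_nonneg_left hh (by positivity)
    omega
  have hc2 : -2 < c := by
    by_contra hh
    push Not at hh
    have : (N : ℤ) * c ≤ N * (-2) := mul_le_mul_of_nonneg_left hh (by positivity)
    omega
  have hc3 : c = 0 ∨ c = -1 := by omega
  rcases hc3 with hc3 | hc3
  · left; rw [hc3] at hc; omega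
  · right; rw [hc3] at hc; constructor <;> omega

lemma valMinAbs_sub_one (j : ZMod N) :
    (j - 1).valMinAbs = j.valMinAbs - 1 ∨
      ((j - 1).valMinAbs = j.valMinAbs - 1 + N ∧ 2 * (j.valMinAbs - 1) ≤ -(N : ℤ)) := by
  have h1 := valMinAbs_bound j
  have h2 := valMinAbs_bound (j - 1)
  have hN : 0 < N := NeZero.pos N
  have h3 : (((j - 1).valMinAbs - (j.valMinAbs - 1) : ℤ) : ZMod N) = 0 := by
    push_cast; simp
  rw [ZMod.intCast_zmod_eq_zero_iff_dvd] at h3
  obtain ⟨c, hc⟩ := h3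
  have hc1 : c < 2 := by
    by_contra hh
    push Not at hh
    have : (N : ℤ) * 2 ≤ N * c := mul_le_mul_of_nonneg_left hh (by positivity)
    omega
  have hc2 : -1 < c := by
    by_contra hh
    push Not at hh
    have : (N : ℤ) * c ≤ N * (-1) := mul_le_mul_of_nonneg_left hh (by positivity)
    omega
  have hc3 : c = 0 ∨ c = 1 := by omega
  rcases hc3 with hc3 | hc3
  · left; rw [hc3] at hc; omega
  · right; rw [hc3] at hc; constructor <;> omega

/-- counting sample points in an interval -/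
lemma card_near (x₀ ρ : ℝ) (hρ : 0 ≤ ρ) :
    ((univ.filter (fun j : ZMod N => |2 * Real.pi * (j.valMinAbs : ℝ) / N - x₀| ≤ ρ)).card : ℝ)
      ≤ ρ * N / Real.pi + 1 := by
  classical
  have hN : (0:ℝ) < N := by exact_mod_cast NeZero.pos N
  have hpi := Real.pi_pos
  set a : ℤ := ⌈(x₀ - ρ) * N / (2 * Real.pi)⌉ with ha
  set b : ℤ := ⌊(x₀ + ρ) * N / (2 * Real.pi)⌋ with hb
  have h1 : (univ.filter (fun j : ZMod N => |2 * Real.pi * (j.valMinAbs : ℝ) / N - x₀| ≤ ρ)).card
      ≤ (Finset.Icc a b).card := by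
    apply Finset.card_le_card_of_injOn (fun j : ZMod N => j.valMinAbs)
    · intro j hj
      simp only [Finset.coe_filter, Finset.mem_univ, true_and, Set.mem_ofPred_eq] at hj
      rw [abs_le] at hj
      simp only [Finset.coe_Icc, Set.mem_Icc]
      have e : (j.valMinAbs : ℝ) = (2 * Real.pi * (j.valMinAbs : ℝ) / N) * N / (2 * Real.pi) := by
        field_simp
      constructor
      · rw [ha, Int.ceil_le, e]
        apply div_le_div_of_nonneg_right _ (by positivity)
        apply mul_le_mul_of_nonneg_right _ hN.le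
        linarith [hj.1]
      · rw [hb, Int.le_floor, e]
        apply div_le_div_of_nonneg_right _ (by positivity)
        apply mul_le_mul_of_nonneg_right _ hN.le
        linarith [hj.2]
    · intro x _ y _ hxy
      exact ZMod.injective_valMinAbs hxy
  have h2 : ((Finset.Icc a b).card : ℝ) ≤ ρ * N / Real.pi + 1 := by
    rw [Int.card_Icc]
    rcases le_total 0 (b + 1 - a) with h | h
    · have : (((b + 1 - a).toNat : ℤ) : ℝ) = ((b + 1 - a : ℤ) : ℝ) := by rw [Int.toNat_of_nonneg h]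
      rw [show (((b + 1 - a).toNat : ℕ) : ℝ) = (((b + 1 - a).toNat : ℤ) : ℝ) by push_cast; rfl, this]
      push_cast
      have h3 : (b : ℝ) ≤ (x₀ + ρ) * N / (2 * Real.pi) := Int.floor_le _
      have h4 : (x₀ - ρ) * N / (2 * Real.pi) ≤ (a : ℝ) := Int.le_ceil _
      have h5 : (x₀ + ρ) * N / (2 * Real.pi) - (x₀ - ρ) * N / (2 * Real.pi) = ρ * N / Real.pi := by
        field_simp; ring
      linarith
    · rw [Int.toNat_of_nonpos h]
      simp only [Nat.cast_zero]
      positivity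
  exact le_trans (by exact_mod_cast h1) h2

/-- bounding a sum by support size times sup -/
lemma sum_le_card_mul {g : ZMod N → ℝ} {x₀ ρ B : ℝ} (hρ : 0 ≤ ρ) (hB : 0 ≤ B)
    (h0 : ∀ j : ZMod N, ρ < |2 * Real.pi * (j.valMinAbs : ℝ) / N - x₀| → g j = 0) (h1 : ∀ j, g j ≤ B) :
    ∑ j, g j ≤ (ρ * N / Real.pi + 1) * B := by
  classical
  have e : ∑ j, g j = ∑ j ∈ univ.filter (fun j : ZMod N => |2 * Real.pi * (j.valMinAbs : ℝ) / N - x₀| ≤ ρ), g j := by
    symm
    apply Finset.sum_subset (Finset.filter_subset _ _)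
    intro j _ hj
    apply h0
    simp only [Finset.mem_filter, Finset.mem_univ, true_and, not_le] at hj
    exact hj
  rw [e]
  refine le_trans (Finset.sum_le_card_nsmul _ _ B (fun j _ => h1 j)) ?_
  rw [nsmul_eq_mul]
  exact mul_le_mul_of_nonneg_right (card_near x₀ ρ hρ) hB

lemma sd_sym_eq (hN6 : 6 ≤ N) {H : ℝ → ℂ} (hH : ∀ s, 2 < |s| → H s = 0) (j : ZMod N) :
    sd (sym N H) j = H (2 * Real.pi * (j.valMinAbs : ℝ) / N + 2 * Real.pi / N)
      - 2 * H (2 * Real.pi * (j.valMinAbs : ℝ) / N) + H (2 * Real.pi * (j.valMinAbs : ℝ) / N - 2 * Real.pi / N) := by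
  have hN : (0:ℝ) < N := by exact_mod_cast NeZero.pos N
  have hN6' : (6:ℝ) ≤ N := by exact_mod_cast hN6
  have hpi := Real.pi_gt_three
  have hb := valMinAbs_bound j
  have hb1 : -(N:ℝ) < 2 * (j.valMinAbs : ℝ) := by exact_mod_cast hb.1
  have hb2 : 2 * (j.valMinAbs : ℝ) ≤ (N : ℝ) := by exact_mod_cast hb.2
  have e1 : sym N H (j + 1) = H (2 * Real.pi * (j.valMinAbs : ℝ) / N + 2 * Real.pi / N) := by
    unfold sym
    rcases valMinAbs_add_one j with h | ⟨h, h'⟩
    · rw [h]; push_cast; congr 1; field_simp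
    · have h'' : (N:ℝ) < 2 * ((j.valMinAbs : ℝ) + 1) := by exact_mod_cast h'
      rw [h]
      rw [hH, hH]
      · rw [lt_abs]; left
        rw [← add_div, lt_div_iff₀ hN]
        nlinarith
      · rw [lt_abs]; right
        push_cast
        rw [← neg_div, lt_div_iff₀ hN]
        nlinarith
  have e2 : sym N H (j - 1) = H (2 * Real.pi * (j.valMinAbs : ℝ) / N - 2 * Real.pi / N) := by
    unfold sym
    rcases valMinAbs_sub_one j with h | ⟨h, h'⟩
    · rw [h]; push_cast; congr 1; field_simp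
    · have h'' : 2 * ((j.valMinAbs : ℝ) - 1) ≤ -(N:ℝ) := by exact_mod_cast h'
      rw [h]
      rw [hH, hH]
      · rw [lt_abs]; right
        rw [← sub_div, ← neg_div, lt_div_iff₀ hN]
        nlinarith
      · rw [lt_abs]; left
        push_cast
        rw [lt_div_iff₀ hN]
        nlinarith
  unfold sd
  rw [e1, e2]
  rfl

lemma sum_bL_le {L : ℝ} (hL : 1 ≤ L) : ∑ x : ZMod N, bL L x ≤ 6 :=
  le_trans (Finset.sum_le_sum (fun x _ => bL_le_aL (by linarith) x)) (sum_aL_le hL)

/-- localized kernel bound -/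
theorem ker_bound_loc (H : ℝ → ℂ) {x₀ r A : ℝ} (hr : 0 < r) (hr1 : r ≤ 1) (hx₀ : |x₀| ≤ 1)
    (hNr : 1 ≤ N * r) (hA : 0 ≤ A) (h0 : ∀ s, r < |s - x₀| → H s = 0) (h1 : ∀ s, ‖H s‖ ≤ A)
    (h2 : ∀ s t : ℝ, ‖H (s + t) - 2 * H s + H (s - t)‖ ≤ A * t ^ 2 / r ^ 2) (x : ZMod N) :
    ‖ker (sym N H) x‖ ≤ 640 * A * bL r⁻¹ x := by
  have hN : (0:ℝ) < N := by exact_mod_cast NeZero.pos N
  have hpi3 := Real.pi_gt_three
  have hpi4 := Real.pi_lt_d2
  have hL : 1 ≤ r⁻¹ := (one_le_inv₀ hr).mpr hr1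
  have hfar : ∀ s, 2 < |s| → H s = 0 := by
    intro s hs
    apply h0
    have : |s| ≤ |s - x₀| + |x₀| := by
      have := abs_add_le (s - x₀) x₀
      rwa [sub_add_cancel] at this
    linarith
  have key : ‖ker (sym N H) x‖ ≤ 4 * (160 * A) * bL r⁻¹ x := by
    apply ker_bound_core (sym N H) hL (by positivity)
    · -- sum of the values
      have b1 : ∑ j : ZMod N, ‖sym N H j‖ ≤ (r * N / Real.pi + 1) * A := by
        apply sum_le_card_mul (x₀ := x₀) hr.le hA
        · intro j hj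
          unfold sym
          rw [h0 _ hj]; simp
        · intro j; exact h1 _
      refine le_trans b1 ?_
      have b2 : r * N / Real.pi ≤ r * N := by
        rw [div_le_iff₀ Real.pi_pos]
        nlinarith [mul_pos hr hN]
      have b3 : (N:ℝ) * (160 * A) / r⁻¹ = 160 * (r * N) * A := by
        field_simp
      rw [b3]
      apply mul_le_mul_of_nonneg_right _ hA
      nlinarith [mul_pos hr hN]
    · -- sum of second differences
      by_cases hN6 : 6 ≤ N
      · have b1 : ∑ j : ZMod N, ‖sd (sym N H) j‖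
            ≤ ((r + 2 * Real.pi / N) * N / Real.pi + 1) * (A * (2 * Real.pi / N) ^ 2 / r ^ 2) := by
          apply sum_le_card_mul (x₀ := x₀) (by positivity) (by positivity)
          · intro j hj
            rw [sd_sym_eq hN6 hfar]
            set s := 2 * Real.pi * (j.valMinAbs : ℝ) / N
            set t := 2 * Real.pi / (N:ℝ) with ht
            have ht0 : 0 < t := by positivity
            rw [h0 (s + t), h0 s, h0 (s - t)]
            · simp
            · have := abs_add_le (s - t - x₀) t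
              rw [abs_of_pos ht0, show s - t - x₀ + t = s - x₀ by ring] at this
              linarith
            · linarith
            · have := abs_sub (s + t - x₀) t
              rw [abs_of_pos ht0, show s + t - x₀ - t = s - x₀ by ring] at this
              linarith
          · intro j
            rw [sd_sym_eq hN6 hfar]
            exact h2 _ _
        refine le_trans b1 ?_
        have b2 : (r + 2 * Real.pi / N) * N / Real.pi + 1 = r * N / Real.pi + 3 := by
          field_simp; ring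
        have b3 : r * N / Real.pi + 3 ≤ 4 * (r * N) := by
          have : r * N / Real.pi ≤ r * N := by
            rw [div_le_iff₀ Real.pi_pos]
            nlinarith [mul_pos hr hN]
          nlinarith
        rw [b2]
        calc (r * N / Real.pi + 3) * (A * (2 * Real.pi / N) ^ 2 / r ^ 2)
            ≤ 4 * (r * N) * (A * (2 * Real.pi / N) ^ 2 / r ^ 2) :=
              mul_le_mul_of_nonneg_right b3 (by positivity)
          _ = 16 * Real.pi ^ 2 * A * (1 / (r * N)) := by field_simp; ring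
          _ ≤ 160 * A * (1 / (r * N)) := by
              apply mul_le_mul_of_nonneg_right _ (by positivity)
              apply mul_le_mul_of_nonneg_right _ hA
              nlinarith
          _ = 160 * A * r⁻¹ / N := by field_simp
      · push Not at hN6
        have hN5 : (N:ℝ) ≤ 5 := by
          have : N ≤ 5 := by omega
          exact_mod_cast this
        have b1 : ∑ j : ZMod N, ‖sd (sym N H) j‖ ≤ ∑ j : ZMod N, 4 * A := by
          apply Finset.sum_le_sum; intro j _
          unfold sd sym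
          refine le_trans (norm_add_le _ _) ?_
          have c1 := h1 (2 * Real.pi * ((j + 1).valMinAbs : ℝ) / N)
          have c2 := h1 (2 * Real.pi * ((j).valMinAbs : ℝ) / N)
          have c3 := h1 (2 * Real.pi * ((j - 1).valMinAbs : ℝ) / N)
          have c4 := norm_sub_le (H (2 * Real.pi * ((j + 1).valMinAbs : ℝ) / N)) (2 * H (2 * Real.pi * ((j).valMinAbs : ℝ) / N))
          rw [norm_mul] at c4
          simp only [Complex.norm_ofNat] at c4
          linarith
        refine le_trans b1 ?_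
        rw [Finset.sum_const, Finset.card_univ, ZMod.card, nsmul_eq_mul]
        rw [le_div_iff₀ hN]
        have c5 : (N:ℝ) * (4 * A) * N ≤ 100 * A := by
          have : (N:ℝ) * N ≤ 25 := by nlinarith
          nlinarith
        have c6 : 100 * A ≤ 160 * A * r⁻¹ := by nlinarith
        linarith
  calc _ ≤ _ := key
    _ = _ := by ring

theorem M4_loc (H : ℝ → ℂ) {x₀ r A : ℝ} (hr : 0 < r) (hr1 : r ≤ 1) (hx₀ : |x₀| ≤ 1)
    (hNr : 1 ≤ N * r) (hA : 0 ≤ A) (h0 : ∀ s, r < |s - x₀| → H s = 0) (h1 : ∀ s, ‖H s‖ ≤ A)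
    (h2 : ∀ s t : ℝ, ‖H (s + t) - 2 * H s + H (s - t)‖ ≤ A * t ^ 2 / r ^ 2) :
    M4 (sym N H) (3840 * A) := by
  have hL : 1 ≤ r⁻¹ := (one_le_inv₀ hr).mpr hr1
  apply M4_of_ker
  calc ∑ x, ‖ker (sym N H) x‖ ≤ ∑ x : ZMod N, 640 * A * bL r⁻¹ x :=
        Finset.sum_le_sum (fun x _ => ker_bound_loc H hr hr1 hx₀ hNr hA h0 h1 h2 x)
    _ = 640 * A * ∑ x : ZMod N, bL r⁻¹ x := by rw [Finset.mul_sum]
    _ ≤ 640 * A * 6 := mul_le_mul_of_nonneg_left (sum_bL_le hL) (by positivity)
    _ = 3840 * A := by ring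

/-- A5: a localized function with second differences bounded at scale `r`. -/
theorem ker_bound_proof : ∃ C : ℝ, 0 < C ∧ ∀ (N : ℕ) [NeZero N] (H : ℝ → ℂ) (x₀ r A : ℝ),
    0 < r → r ≤ 1 → |x₀| ≤ 1 → 1 ≤ N * r → 0 ≤ A →
    (∀ s, r < |s - x₀| → H s = 0) → (∀ s, ‖H s‖ ≤ A) →
    (∀ s t : ℝ, ‖H (s + t) - 2 * H s + H (s - t)‖ ≤ A * t ^ 2 / r ^ 2) →
    (∀ x : ZMod N, ‖ker (sym N H) x‖ ≤ C * A * (r⁻¹ / (r⁻¹ + nz x) ^ 2)) ∧ M4 (sym N H) (C * A) := by
  refine ⟨3840, by norm_num, ?_⟩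
  intro N _ H x₀ r A hr hr1 hx₀ hNr hA h0 h1 h2
  refine ⟨?_, M4_loc H hr hr1 hx₀ hNr hA h0 h1 h2⟩
  intro x
  refine le_trans (ker_bound_loc H hr hr1 hx₀ hNr hA h0 h1 h2 x) ?_
  have : 0 ≤ A * bL r⁻¹ x := mul_nonneg hA (bL_nonneg (by positivity) x)
  unfold bL at this
  unfold bL
  linarith

/-- A5, periodic version -/
theorem ker_bound_periodic_proof : ∃ C : ℝ, 0 < C ∧ ∀ (N : ℕ) [NeZero N] (H : ℝ → ℂ) (A : ℝ),
    0 ≤ A → (∀ s, H (s + 2 * Real.pi) = H s) → (∀ s, ‖H s‖ ≤ A) →
    (∀ s t : ℝ, ‖H (s + t) - 2 * H s + H (s - t)‖ ≤ A * t ^ 2) →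
    (∀ x : ZMod N, ‖ker (sym N H) x‖ ≤ C * A * (1 / (1 + nz x) ^ 2)) ∧ M4 (sym N H) (C * A) := by
  refine ⟨960, by norm_num, ?_⟩
  intro N _ H A hA hper h1 h2
  have hN : (0:ℝ) < N := by exact_mod_cast NeZero.pos N
  have hpi3 := Real.pi_gt_three
  have hpi4 := Real.pi_lt_d2
  have hsd : ∀ j : ZMod N, sd (sym N H) j = H (2 * Real.pi * (j.valMinAbs : ℝ) / N + 2 * Real.pi / N)
      - 2 * H (2 * Real.pi * (j.valMinAbs : ℝ) / N) + H (2 * Real.pi * (j.valMinAbs : ℝ) / N - 2 * Real.pi / N) := by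
    intro j
    have e1 : sym N H (j + 1) = H (2 * Real.pi * (j.valMinAbs : ℝ) / N + 2 * Real.pi / N) := by
      unfold sym
      rcases valMinAbs_add_one j with h | ⟨h, h'⟩
      · rw [h]; push_cast; congr 1; field_simp
      · rw [h, ← hper]; congr 1; push_cast; field_simp; ring
    have e2 : sym N H (j - 1) = H (2 * Real.pi * (j.valMinAbs : ℝ) / N - 2 * Real.pi / N) := by
      unfold sym
      rcases valMinAbs_sub_one j with h | ⟨h, h'⟩
      · rw [h]; push_cast; congr 1; field_simp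
      · rw [h, ← hper (2 * Real.pi * (j.valMinAbs : ℝ) / N - 2 * Real.pi / N)]
        congr 1; push_cast; field_simp
    unfold sd
    rw [e1, e2]
    rfl
  have key : ∀ x : ZMod N, ‖ker (sym N H) x‖ ≤ 4 * (40 * A) * bL 1 x := by
    intro x
    apply ker_bound_core (sym N H) le_rfl (by positivity)
    · have b1 : ∑ j : ZMod N, ‖sym N H j‖ ≤ ∑ j : ZMod N, A :=
        Finset.sum_le_sum (fun j _ => h1 _)
      refine le_trans b1 ?_
      rw [Finset.sum_const, Finset.card_univ, ZMod.card, nsmul_eq_mul]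
      nlinarith [mul_nonneg hN.le hA]
    · have b1 : ∑ j : ZMod N, ‖sd (sym N H) j‖ ≤ ∑ j : ZMod N, A * (2 * Real.pi / N) ^ 2 := by
        apply Finset.sum_le_sum; intro j _
        rw [hsd]; exact h2 _ _
      refine le_trans b1 ?_
      rw [Finset.sum_const, Finset.card_univ, ZMod.card, nsmul_eq_mul]
      rw [le_div_iff₀ hN]
      calc (N:ℝ) * (A * (2 * Real.pi / N) ^ 2) * N = 4 * Real.pi ^ 2 * A := by field_simp; ring
        _ ≤ 40 * A * 1 := by
          rw [mul_one]
          apply mul_le_mul_of_nonneg_right _ hA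
          nlinarith
  constructor
  · intro x
    refine le_trans (key x) ?_
    have : 0 ≤ A * bL 1 x := mul_nonneg hA (bL_nonneg (by positivity) x)
    unfold bL at this
    unfold bL
    linarith
  · apply M4_of_ker
    calc ∑ x, ‖ker (sym N H) x‖ ≤ ∑ x : ZMod N, 4 * (40 * A) * bL 1 x :=
          Finset.sum_le_sum (fun x _ => key x)
      _ = 4 * (40 * A) * ∑ x : ZMod N, bL 1 x := by rw [Finset.mul_sum]
      _ ≤ 4 * (40 * A) * 6 := mul_le_mul_of_nonneg_left (sum_bL_le le_rfl) (by positivity)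
      _ = 960 * A := by ring

end

end Pool.Agent.MP58366f
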