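import Mathlib
import Pool.Agent.MP58366f.Kernels

set_option linter.unusedSectionVars false

namespace Pool.Agent.MP58366f
open scoped BigOperators
open Finset

noncomputable section

variable {N : ℕ} [NeZero N]

/-- comparing values of `(L+·)^(-3/2)` -/
lemma rpow_half_le {a b : ℝ} (ha : 0 < a) (hb : 0 < b) (h : b ≤ 2 * a) :
    a ^ (-(3 / 2) : ℝ) ≤ 8 * b ^ (-(3 / 2) : ℝ) := by
  have h1 : (b / 2) ≤ a := by linarith
  have h2 : a ^ (-(3 / 2) : ℝ) ≤ (b / 2) ^ (-(3 / 2) : ℝ) :=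
    Real.rpow_le_rpow_of_nonpos (by positivity) h1 (by norm_num)
  refine le_trans h2 ?_
  rw [Real.div_rpow hb.le (by norm_num)]
  rw [div_eq_mul_inv, mul_comm]
  apply mul_le_mul_of_nonneg_right _ (Real.rpow_nonneg hb.le _)
  rw [← Real.rpow_neg (by norm_num)]
  norm_num
  calc (2:ℝ) ^ (3 / 2 : ℝ) ≤ 2 ^ (3 : ℝ) := Real.rpow_le_rpow_of_exponent_le (by norm_num) (by norm_num)
    _ = 8 := by norm_num

lemma aL_mul_le {L L' : ℝ} (hL : 1 ≤ L) (hLL : L ≤ L') (x y : ZMod N) :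
    aL L y * aL L' (x - y) ≤ 8 * aL L' x * (aL L y + aL L' (x - y)) := by
  have hL' : 1 ≤ L' := le_trans hL hLL
  have hL0 : 0 < L := by linarith
  have hL0' : 0 < L' := by linarith
  have p1 := aL_nonneg (N := N) hL0.le y
  have p2 := aL_nonneg (N := N) hL0'.le (x - y)
  have p3 := aL_nonneg (N := N) hL0'.le x
  have hx := nz_nonneg x
  have hy := nz_nonneg y
  have hxy := nz_nonneg (x - y)
  have htri : nz x ≤ nz y + nz (x - y) := by
    have := nz_add_le y (x - y)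
    rwa [add_sub_cancel] at this
  -- a bound of the second factor suffices in two cases
  have good : aL L' (x - y) ≤ 8 * aL L' x → aL L y * aL L' (x - y) ≤ 8 * aL L' x * (aL L y + aL L' (x - y)) := by
    intro h
    calc aL L y * aL L' (x - y) ≤ aL L y * (8 * aL L' x) := mul_le_mul_of_nonneg_left h p1
      _ ≤ 8 * aL L' x * (aL L y + aL L' (x - y)) := by nlinarith [mul_nonneg p3 p2]
  by_cases h1 : nz x ≤ 2 * nz (x - y)
  · apply good
    unfold aL
    have := rpow_half_le (a := L' + nz (x - y)) (b := L' + nz x) (by linarith) (by linarith) (by linarith)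
    have h3 : 0 ≤ L' ^ (1 / 2 : ℝ) := by positivity
    nlinarith [mul_le_mul_of_nonneg_left this h3]
  · push Not at h1
    have h2 : nz x ≤ 2 * nz y := by linarith
    by_cases h3 : nz x ≤ L'
    · apply good
      unfold aL
      have := rpow_half_le (a := L' + nz (x - y)) (b := L' + nz x) (by linarith) (by linarith) (by linarith)
      have h3 : 0 ≤ L' ^ (1 / 2 : ℝ) := by positivity
      nlinarith [mul_le_mul_of_nonneg_left this h3]
    · push Not at h3
      have h4 : aL L y ≤ 8 * aL L' x := by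
        unfold aL
        have e1 : L ^ (1 / 2 : ℝ) ≤ L' ^ (1 / 2 : ℝ) := Real.rpow_le_rpow hL0.le hLL (by norm_num)
        have hb : (L' + nz x) / 4 ≤ L + nz y := by linarith
        have e2 : (L + nz y) ^ (-(3 / 2) : ℝ) ≤ ((L' + nz x) / 4) ^ (-(3 / 2) : ℝ) :=
          Real.rpow_le_rpow_of_nonpos (by positivity) hb (by norm_num)
        have e3 : ((L' + nz x) / 4) ^ (-(3 / 2) : ℝ) = 8 * (L' + nz x) ^ (-(3 / 2) : ℝ) := by
          rw [Real.div_rpow (by linarith) (by norm_num), div_eq_mul_inv, mul_comm]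
          congr 1
          rw [← Real.rpow_neg (by norm_num), neg_neg]
          rw [show (4:ℝ) = 2 ^ (2:ℝ) by norm_num, ← Real.rpow_mul (by norm_num)]
          norm_num
        calc L ^ (1 / 2 : ℝ) * (L + nz y) ^ (-(3 / 2) : ℝ)
            ≤ L' ^ (1 / 2 : ℝ) * (8 * (L' + nz x) ^ (-(3 / 2) : ℝ)) := by
              apply mul_le_mul e1 (by rw [← e3]; exact e2) (Real.rpow_nonneg (by linarith) _) (by positivity)
          _ = _ := by ring
      calc aL L y * aL L' (x - y) ≤ (8 * aL L' x) * aL L' (x - y) := mul_le_mul_of_nonneg_right h4 p2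
        _ ≤ 8 * aL L' x * (aL L y + aL L' (x - y)) := by nlinarith [mul_nonneg p3 p1]

lemma conv_aL_le {L L' : ℝ} (hL : 1 ≤ L) (hLL : L ≤ L') (x : ZMod N) :
    ∑ y, aL L y * aL L' (x - y) ≤ 96 * aL L' x := by
  have hL' : 1 ≤ L' := le_trans hL hLL
  calc ∑ y, aL L y * aL L' (x - y) ≤ ∑ y, 8 * aL L' x * (aL L y + aL L' (x - y)) :=
        Finset.sum_le_sum (fun y _ => aL_mul_le hL hLL x y)
    _ = 8 * aL L' x * (∑ y, aL L y + ∑ y, aL L' (x - y)) := by
        rw [← Finset.mul_sum, Finset.sum_add_distrib]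
    _ = 8 * aL L' x * (∑ y, aL L y + ∑ y : ZMod N, aL L' y) := by
        congr 2
        exact Fintype.sum_equiv (Equiv.subLeft x) _ _ (fun y => by simp)
    _ ≤ 8 * aL L' x * (6 + 6) := by
        apply mul_le_mul_of_nonneg_left
        · exact add_le_add (sum_aL_le hL) (sum_aL_le hL')
        · have := aL_nonneg (N := N) (show (0:ℝ) ≤ L' by linarith) x
          linarith
    _ = 96 * aL L' x := by ring

lemma conv_aL_le'' {L L' : ℝ} (hL : 1 ≤ L) (h : L ≤ L') (x x' : ZMod N) :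
    ∑ y, aL L (x - y) * aL L' (x' - y) ≤ 96 * aL L' (x - x') := by
  have e : ∑ y, aL L (x - y) * aL L' (x' - y) = ∑ y, aL L y * aL L' ((x - x') - y) := by
    refine Fintype.sum_equiv (Equiv.subLeft x) _ _ ?_
    intro y
    simp only [Equiv.subLeft_apply]
    rw [← aL_neg L' (x' - y)]
    congr 2; ring
  rw [e]
  exact conv_aL_le hL h _

lemma conv_aL_le' {L L' : ℝ} (hL : 1 ≤ L) (hL' : 1 ≤ L') (x x' : ZMod N) :
    ∑ y, aL L (x - y) * aL L' (x' - y) ≤ 96 * (aL L (x - x') + aL L' (x - x')) := by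
  have p1 := aL_nonneg (N := N) (show (0:ℝ) ≤ L by linarith) (x - x')
  have p2 := aL_nonneg (N := N) (show (0:ℝ) ≤ L' by linarith) (x - x')
  rcases le_total L L' with h | h
  · have := conv_aL_le'' hL h x x'
    linarith
  · have := conv_aL_le'' hL' h x' x
    have e : ∑ y, aL L (x - y) * aL L' (x' - y) = ∑ y, aL L' (x' - y) * aL L (x - y) := by
      apply Finset.sum_congr rfl; intros; ring
    rw [e]
    have e2 : aL L (x' - x) = aL L (x - x') := by rw [← aL_neg L (x' - x)]; congr 1; ring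
    rw [e2] at this
    linarith

/-- Cauchy–Schwarz in the form used below -/
lemma cs_sum (f g : ZMod N → ℝ) :
    ∑ x, f x * g x ≤ Real.sqrt (∑ x, f x ^ 2) * Real.sqrt (∑ x, g x ^ 2) := by
  have h := Finset.sum_mul_sq_le_sq_mul_sq univ f g
  have h1 : ∑ x, f x * g x ≤ Real.sqrt ((∑ x, f x ^ 2) * ∑ x, g x ^ 2) := by
    apply Real.le_sqrt_of_sq_le
    exact h
  rwa [Real.sqrt_mul (Finset.sum_nonneg (fun _ _ => sq_nonneg _))] at h1

/-- linearised maximal inequality (TT* argument) -/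
lemma maximal_lin (L : ZMod N → ℝ) (hL : ∀ x, 1 ≤ L x) (h : ZMod N → ℝ) (_hh : ∀ x, 0 ≤ h x) :
    ∑ x, (∑ y, aL (L x) (x - y) * h y) ^ 2 ≤ 192 ^ 2 * ∑ x, h x ^ 2 := by
  have hL0 : ∀ x, 0 ≤ L x := fun x => by linarith [hL x]
  -- adjoint bound
  have adj : ∀ g : ZMod N → ℝ, (∀ x, 0 ≤ g x) →
      Real.sqrt (∑ y, (∑ x, aL (L x) (x - y) * g x) ^ 2) ≤ 192 * Real.sqrt (∑ x, g x ^ 2) := by
    intro g hg
    set Bg : ZMod N → ℝ := fun y => ∑ x, aL (L x) (x - y) * g x with hBg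
    have h1 : ∑ y, Bg y ^ 2 ≤ 192 * ∑ x', g x' * Bg x' := by
      have e1 : ∀ y, Bg y ^ 2 = ∑ x, ∑ x', g x * g x' * (aL (L x) (x - y) * aL (L x') (x' - y)) := by
        intro y
        rw [sq, hBg]; simp only
        rw [Finset.sum_mul_sum]
        apply Finset.sum_congr rfl; intro x _
        apply Finset.sum_congr rfl; intro x' _
        ring
      calc ∑ y, Bg y ^ 2 = ∑ x, ∑ x', g x * g x' * ∑ y, (aL (L x) (x - y) * aL (L x') (x' - y)) := by
            simp_rw [e1]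
            rw [Finset.sum_comm]
            apply Finset.sum_congr rfl; intro x _
            rw [Finset.sum_comm]
            apply Finset.sum_congr rfl; intro x' _
            rw [Finset.mul_sum]
        _ ≤ ∑ x, ∑ x', g x * g x' * (96 * (aL (L x) (x - x') + aL (L x') (x - x'))) := by
            apply Finset.sum_le_sum; intro x _
            apply Finset.sum_le_sum; intro x' _
            exact mul_le_mul_of_nonneg_left (conv_aL_le' (hL x) (hL x') x x') (mul_nonneg (hg x) (hg x'))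
        _ = 96 * (∑ x, ∑ x', g x * g x' * aL (L x) (x - x')) + 96 * ∑ x, ∑ x', g x * g x' * aL (L x') (x - x') := by
            rw [Finset.mul_sum, Finset.mul_sum, ← Finset.sum_add_distrib]
            apply Finset.sum_congr rfl; intro x _
            rw [Finset.mul_sum, Finset.mul_sum, ← Finset.sum_add_distrib]
            apply Finset.sum_congr rfl; intro x' _
            ring
        _ = 96 * (∑ x', g x' * Bg x') + 96 * ∑ x', g x' * Bg x' := by
            congr 2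
            · rw [Finset.sum_comm]
              apply Finset.sum_congr rfl; intro x' _
              rw [hBg]; simp only
              rw [Finset.mul_sum]
              apply Finset.sum_congr rfl; intro x _
              ring
            · apply Finset.sum_congr rfl; intro x _
              rw [hBg]; simp only
              rw [Finset.mul_sum]
              apply Finset.sum_congr rfl; intro x' _
              rw [← aL_neg (L x') (x - x'), neg_sub]
              ring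
        _ = 192 * ∑ x', g x' * Bg x' := by ring
    have h2 := cs_sum g Bg
    set S := Real.sqrt (∑ y, Bg y ^ 2) with hS
    set G := Real.sqrt (∑ x, g x ^ 2) with hG
    have hS0 : 0 ≤ S := Real.sqrt_nonneg _
    have hS2 : S ^ 2 = ∑ y, Bg y ^ 2 := Real.sq_sqrt (Finset.sum_nonneg (fun _ _ => sq_nonneg _))
    have h3 : S ^ 2 ≤ 192 * (G * S) := by rw [hS2]; linarith
    by_cases hz : S = 0
    · rw [hz]; positivity
    · have hSp : 0 < S := lt_of_le_of_ne hS0 (Ne.symm hz)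
      nlinarith
  set Bh : ZMod N → ℝ := fun x => ∑ y, aL (L x) (x - y) * h y with hBh
  have hBh0 : ∀ x, 0 ≤ Bh x := fun x =>
    Finset.sum_nonneg (fun y _ => mul_nonneg (aL_nonneg (hL0 x) _) (_hh y))
  have h1 : ∑ x, Bh x ^ 2 = ∑ y, h y * ∑ x, aL (L x) (x - y) * Bh x := by
    have e1 : ∀ x, Bh x ^ 2 = ∑ y, h y * (aL (L x) (x - y) * Bh x) := by
      intro x
      rw [sq]
      nth_rewrite 1 [hBh]
      simp only
      rw [Finset.sum_mul]
      apply Finset.sum_congr rfl; intros; ring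
    simp_rw [e1]
    rw [Finset.sum_comm]
    apply Finset.sum_congr rfl; intro y _
    rw [Finset.mul_sum]
  have h2 := cs_sum h (fun y => ∑ x, aL (L x) (x - y) * Bh x)
  rw [← h1] at h2
  have h3 := adj Bh hBh0
  set S := Real.sqrt (∑ x, Bh x ^ 2) with hS
  set H := Real.sqrt (∑ x, h x ^ 2) with hH
  have hS0 : 0 ≤ S := Real.sqrt_nonneg _
  have hH0 : 0 ≤ H := Real.sqrt_nonneg _
  have hS2 : S ^ 2 = ∑ y, Bh y ^ 2 := Real.sq_sqrt (Finset.sum_nonneg (fun _ _ => sq_nonneg _))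
  have hH2 : H ^ 2 = ∑ y, h y ^ 2 := Real.sq_sqrt (Finset.sum_nonneg (fun _ _ => sq_nonneg _))
  have h4 : S ^ 2 ≤ H * (192 * S) := by
    rw [hS2]; exact le_trans h2 (mul_le_mul_of_nonneg_left h3 hH0)
  have h5 : S ≤ 192 * H := by
    by_cases hz : S = 0
    · rw [hz]; positivity
    · have hSp : 0 < S := lt_of_le_of_ne hS0 (Ne.symm hz)
      nlinarith
  calc ∑ x, Bh x ^ 2 = S ^ 2 := hS2.symm
    _ ≤ (192 * H) ^ 2 := pow_le_pow_left₀ hS0 h5 2
    _ = 192 ^ 2 * ∑ x, h x ^ 2 := by rw [mul_pow, hH2]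

/-- maximal inequality for a finite family of scales -/
lemma maximal_ineq {K : ℕ} (L : ℕ → ℝ) (hL : ∀ k < K, 1 ≤ L k) (h : ZMod N → ℝ) (hh : ∀ x, 0 ≤ h x)
    (S : ℕ → ZMod N → ℝ) (hS : ∀ k < K, ∀ x, 0 ≤ S k x) :
    ∑ k ∈ range K, ∑ x, (∑ y, aL (L k) (x - y) * h y) * S k x
      ≤ 192 * (Real.sqrt (∑ x, h x ^ 2) * Real.sqrt (∑ x, (∑ k ∈ range K, S k x) ^ 2)) := by
  classical
  rcases Nat.eq_zero_or_pos K with hK | hK
  · subst hK; simp
  have hne : (range K).Nonempty := ⟨0, by simpa using hK⟩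
  -- choose the maximising scale at every point
  have hex : ∀ x : ZMod N, ∃ k ∈ range K, ∀ k' ∈ range K,
      ∑ y, aL (L k') (x - y) * h y ≤ ∑ y, aL (L k) (x - y) * h y := fun x =>
    Finset.exists_max_image (range K) (fun k => ∑ y, aL (L k) (x - y) * h y) hne
  choose κ hκ1 hκ2 using hex
  have h1 := maximal_lin (fun x => L (κ x)) (fun x => hL _ (mem_range.mp (hκ1 x))) h hh
  set M : ZMod N → ℝ := fun x => ∑ y, aL (L (κ x)) (x - y) * h y with hM
  have h2 : ∑ k ∈ range K, ∑ x, (∑ y, aL (L k) (x - y) * h y) * S k x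
      ≤ ∑ x, M x * ∑ k ∈ range K, S k x := by
    rw [Finset.sum_comm]
    apply Finset.sum_le_sum; intro x _
    rw [Finset.mul_sum]
    apply Finset.sum_le_sum; intro k hk
    exact mul_le_mul_of_nonneg_right (hκ2 x k hk) (hS k (mem_range.mp hk) x)
  refine le_trans h2 (le_trans (cs_sum _ _) ?_)
  rw [← mul_assoc]
  apply mul_le_mul_of_nonneg_right _ (Real.sqrt_nonneg _)
  calc Real.sqrt (∑ x, M x ^ 2) ≤ Real.sqrt (192 ^ 2 * ∑ x, h x ^ 2) := Real.sqrt_le_sqrt h1
    _ = 192 * Real.sqrt (∑ x, h x ^ 2) := by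
      rw [Real.sqrt_mul (by positivity), Real.sqrt_sq (by norm_num)]

/-- square root of the weight -/
def wL (L : ℝ) (x : ZMod N) : ℝ := L ^ (1 / 4 : ℝ) * (L + nz x) ^ (-(3 / 4) : ℝ)

lemma wL_nonneg {L : ℝ} (hL : 0 ≤ L) (x : ZMod N) : 0 ≤ wL L x :=
  mul_nonneg (Real.rpow_nonneg hL _) (Real.rpow_nonneg (by linarith [nz_nonneg x]) _)

lemma wL_sq {L : ℝ} (hL : 0 ≤ L) (x : ZMod N) : wL L x ^ 2 = aL L x := by
  unfold wL aL
  have hx := nz_nonneg x
  rw [mul_pow, ← Real.rpow_natCast, ← Real.rpow_mul hL, ← Real.rpow_natCast, ← Real.rpow_mul (by linarith)]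
  norm_num

lemma abs_rpow_sub_le {a b : ℝ} (ha : 0 ≤ a) (hb : 0 ≤ b) :
    |a ^ (3 / 4 : ℝ) - b ^ (3 / 4 : ℝ)| ≤ |a - b| ^ (3 / 4 : ℝ) := by
  wlog h : b ≤ a generalizing a b
  · rw [abs_sub_comm, abs_sub_comm a b]
    exact this hb ha (by linarith [not_le.mp h])
  have h1 : a ^ (3 / 4 : ℝ) ≤ b ^ (3 / 4 : ℝ) + (a - b) ^ (3 / 4 : ℝ) := by
    have := Real.rpow_add_le_add_rpow (p := 3 / 4) hb (sub_nonneg.mpr h) (by norm_num) (by norm_num)
    rwa [add_sub_cancel] at this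
  have h2 : b ^ (3 / 4 : ℝ) ≤ a ^ (3 / 4 : ℝ) := Real.rpow_le_rpow hb h (by norm_num)
  rw [abs_of_nonneg (by linarith), abs_of_nonneg (by linarith)]
  linarith

/-- relative smoothness of the weight -/
lemma wL_sub_le {L : ℝ} (hL : 0 < L) (y z : ZMod N) :
    |wL L y - wL L z| ≤ (nz (y - z) / L) ^ (3 / 4 : ℝ) * wL L z := by
  have hy := nz_nonneg y
  have hz := nz_nonneg z
  have hyz := nz_nonneg (y - z)
  set A := L + nz y with hA
  set B := L + nz z with hB
  have hA0 : 0 < A := by linarith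
  have hB0 : 0 < B := by linarith
  have hAB : |A - B| ≤ nz (y - z) := by
    rw [abs_le]
    have h1 := nz_add_le (y - z) z
    have h2 := nz_add_le (z - y) y
    rw [sub_add_cancel] at h1 h2
    rw [nz_sub_comm z y] at h2
    constructor <;> linarith
  have hAp : 0 < A ^ (3 / 4 : ℝ) := Real.rpow_pos_of_pos hA0 _
  have hBp : 0 < B ^ (3 / 4 : ℝ) := Real.rpow_pos_of_pos hB0 _
  have hLp : 0 < L ^ (3 / 4 : ℝ) := Real.rpow_pos_of_pos hL _
  have e1 : wL L y - wL L z = L ^ (1 / 4 : ℝ) * (B ^ (3 / 4 : ℝ) - A ^ (3 / 4 : ℝ)) / (A ^ (3 / 4 : ℝ) * B ^ (3 / 4 : ℝ)) := by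
    unfold wL
    rw [show (-(3 / 4) : ℝ) = -((3 : ℝ) / 4) by norm_num, Real.rpow_neg hA0.le, Real.rpow_neg hB0.le]
    field_simp
  have e2 : (nz (y - z) / L) ^ (3 / 4 : ℝ) * wL L z
      = L ^ (1 / 4 : ℝ) * nz (y - z) ^ (3 / 4 : ℝ) / (L ^ (3 / 4 : ℝ) * B ^ (3 / 4 : ℝ)) := by
    unfold wL
    rw [show (-(3 / 4) : ℝ) = -((3 : ℝ) / 4) by norm_num, ← hB, Real.rpow_neg hB0.le,
      Real.div_rpow hyz hL.le]
    field_simp
  rw [e1, e2, abs_div, abs_mul, abs_of_nonneg (show (0:ℝ) ≤ L ^ (1 / 4 : ℝ) by positivity),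
    abs_of_pos (mul_pos hAp hBp)]
  apply div_le_div₀
  · positivity
  · apply mul_le_mul_of_nonneg_left _ (by positivity)
    refine le_trans (abs_rpow_sub_le hB0.le hA0.le) ?_
    apply Real.rpow_le_rpow (abs_nonneg _) _ (by norm_num)
    rw [abs_sub_comm]; exact hAB
  · exact mul_pos hLp hBp
  · apply mul_le_mul_of_nonneg_right _ hBp.le
    exact Real.rpow_le_rpow hL.le (by linarith) (by norm_num)

/-- Young's inequality `ℓ¹ * ℓ² → ℓ²` -/
lemma young_sq (κ g : ZMod N → ℝ) (hκ : ∀ x, 0 ≤ κ x) :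
    ∑ x, (∑ y, κ (x - y) * g y) ^ 2 ≤ (∑ x, κ x) ^ 2 * ∑ x, g x ^ 2 := by
  have e0 : ∀ x, ∑ y, κ (x - y) = ∑ y, κ y := fun x =>
    Fintype.sum_equiv (Equiv.subLeft x) _ _ (fun y => by simp)
  have h1 : ∀ x, (∑ y, κ (x - y) * g y) ^ 2 ≤ (∑ y, κ y) * ∑ y, κ (x - y) * g y ^ 2 := by
    intro x
    have h := Finset.sum_mul_sq_le_sq_mul_sq univ (fun y => Real.sqrt (κ (x - y))) (fun y => Real.sqrt (κ (x - y)) * g y)
    have e1 : ∀ y, Real.sqrt (κ (x - y)) * (Real.sqrt (κ (x - y)) * g y) = κ (x - y) * g y := by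
      intro y; rw [← mul_assoc, Real.mul_self_sqrt (hκ _)]
    have e2 : ∀ y, Real.sqrt (κ (x - y)) ^ 2 = κ (x - y) := fun y => Real.sq_sqrt (hκ _)
    have e3 : ∀ y, (Real.sqrt (κ (x - y)) * g y) ^ 2 = κ (x - y) * g y ^ 2 := by
      intro y; rw [mul_pow, e2]
    simp_rw [e1, e2, e3] at h
    rwa [e0] at h
  calc ∑ x, (∑ y, κ (x - y) * g y) ^ 2 ≤ ∑ x, (∑ y, κ y) * ∑ y, κ (x - y) * g y ^ 2 :=
        Finset.sum_le_sum (fun x _ => h1 x)
    _ = (∑ y, κ y) * ∑ y, (∑ x, κ (x - y)) * g y ^ 2 := by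
        rw [← Finset.mul_sum, Finset.sum_comm]
        congr 1
        apply Finset.sum_congr rfl; intro y _
        rw [Finset.sum_mul]
    _ = (∑ x, κ x) ^ 2 * ∑ x, g x ^ 2 := by
        have : ∀ y : ZMod N, ∑ x, κ (x - y) = ∑ x, κ x := fun y =>
          Fintype.sum_equiv (Equiv.subRight y) _ _ (fun x => by simp)
        simp_rw [this]
        rw [← Finset.mul_sum, sq, mul_assoc]

/-- pointwise Jensen: the square of an average is at most 6 times the average of squares -/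
lemma aL_jensen {L : ℝ} (hL : 1 ≤ L) (g : ZMod N → ℝ) (x : ZMod N) :
    (∑ y, aL L (x - y) * g y) ^ 2 ≤ 6 * ∑ y, aL L (x - y) * g y ^ 2 := by
  have hL0 : (0:ℝ) ≤ L := by linarith
  have h := Finset.sum_mul_sq_le_sq_mul_sq univ (fun y => Real.sqrt (aL L (x - y))) (fun y => Real.sqrt (aL L (x - y)) * g y)
  have e1 : ∀ y, Real.sqrt (aL L (x - y)) * (Real.sqrt (aL L (x - y)) * g y) = aL L (x - y) * g y := by
    intro y; rw [← mul_assoc, Real.mul_self_sqrt (aL_nonneg hL0 _)]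
  have e2 : ∀ y, Real.sqrt (aL L (x - y)) ^ 2 = aL L (x - y) := fun y => Real.sq_sqrt (aL_nonneg hL0 _)
  have e3 : ∀ y, (Real.sqrt (aL L (x - y)) * g y) ^ 2 = aL L (x - y) * g y ^ 2 := by
    intro y; rw [mul_pow, e2]
  simp_rw [e1, e2, e3] at h
  have e0 : ∑ y, aL L (x - y) = ∑ y : ZMod N, aL L y :=
    Fintype.sum_equiv (Equiv.subLeft x) _ _ (fun y => by simp)
  rw [e0] at h
  refine le_trans h ?_
  apply mul_le_mul_of_nonneg_right (sum_aL_le hL)
  exact Finset.sum_nonneg (fun y _ => mul_nonneg (aL_nonneg hL0 _) (sq_nonneg _))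

end

end Pool.Agent.MP58366f
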