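import Mathlib
import Pool.Agent.MP58366f.KerBound
import Pool.Agent.MP58366f.Maximal

set_option linter.unusedSectionVars false

namespace Pool.Agent.MP58366f
open scoped BigOperators
open Finset

noncomputable section

variable {N : ℕ} [NeZero N]

/-- low frequency cut-off: `1` for `|s| ≤ ρ`, `0` for `|s| ≥ 2ρ` -/
def cut (N : ℕ) (ρ : ℝ) : ZMod N → ℂ := sym N (fun s => ((thet (s / ρ) : ℝ) : ℂ))

lemma cut_eq_one {ρ : ℝ} (hρ : 0 < ρ) {j : ZMod N} (h : |2 * Real.pi * (j.valMinAbs : ℝ) / N| ≤ ρ) :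
    cut N ρ j = 1 := by
  unfold cut sym
  dsimp only
  rw [thet_eq_one]
  · simp
  · rw [abs_div, abs_of_pos hρ, div_le_one hρ]; exact h

lemma cut_eq_zero {ρ : ℝ} (hρ : 0 < ρ) {j : ZMod N} (h : 2 * ρ ≤ |2 * Real.pi * (j.valMinAbs : ℝ) / N|) :
    cut N ρ j = 0 := by
  unfold cut sym
  dsimp only
  rw [thet_eq_zero]
  · simp
  · rw [abs_div, abs_of_pos hρ, le_div_iff₀ hρ]; exact h

lemma norm_cut_le (ρ : ℝ) (j : ZMod N) : ‖cut N ρ j‖ ≤ 1 := by
  unfold cut sym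
  rw [Complex.norm_real]; exact abs_thet_le _

/-- the constant of the cut-off kernels -/
def Cpsi : ℝ := 81920

lemma Cpsi_pos : 0 < Cpsi := by unfold Cpsi; norm_num

lemma norm_ker_cut_le_b {ρ : ℝ} (hρ : 0 < ρ) (h1 : 2 * ρ ≤ 1) (h2 : 1 ≤ N * (2 * ρ)) (x : ZMod N) :
    ‖ker (cut N ρ) x‖ ≤ Cpsi * bL (2 * ρ)⁻¹ x := by
  have := ker_bound_loc (N := N) (fun s => ((thet (s / ρ) : ℝ) : ℂ)) (x₀ := 0) (r := 2 * ρ) (A := 128)
    (by linarith) h1 (by norm_num) h2 (by norm_num) ?_ ?_ ?_ x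
  · unfold Cpsi
    calc _ ≤ _ := this
      _ = _ := by norm_num
  · intro s hs
    rw [sub_zero] at hs
    rw [thet_eq_zero]
    · simp
    · rw [abs_div, abs_of_pos hρ, le_div_iff₀ hρ]; exact hs.le
  · intro s
    rw [Complex.norm_real]
    exact le_trans (abs_thet_le _) (by norm_num)
  · intro s t
    have h := thet_scaled_second hρ 0 s t
    simp only [sub_zero] at h
    refine le_trans h (le_of_eq ?_)
    field_simp; ring

lemma norm_ker_cut_le {ρ : ℝ} (hρ : 0 < ρ) (h1 : 2 * ρ ≤ 1) (h2 : 1 ≤ N * (2 * ρ)) (x : ZMod N) :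
    ‖ker (cut N ρ) x‖ ≤ Cpsi * aL (2 * ρ)⁻¹ x :=
  le_trans (norm_ker_cut_le_b hρ h1 h2 x)
    (mul_le_mul_of_nonneg_left (bL_le_aL (by positivity) x) Cpsi_pos.le)

/-- symmetric double sums -/
lemma sum_sym_gt (a : ℕ → ℕ → ℝ) (hs : ∀ i k, a i k = a k i) (K : ℕ) :
    ∑ k ∈ range K, ∑ i ∈ range K, a k i
      = ∑ k ∈ range K, a k k + 2 * ∑ k ∈ range K, ∑ i ∈ range K, if k < i then a k i else 0 := by
  induction K with
  | zero => simp
  | succ K ih =>
    have e1 : ∑ k ∈ range (K + 1), ∑ i ∈ range (K + 1), a k i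
        = (∑ k ∈ range K, ∑ i ∈ range K, a k i) + 2 * (∑ k ∈ range K, a k K) + a K K := by
      rw [Finset.sum_range_succ]
      simp_rw [Finset.sum_range_succ]
      rw [Finset.sum_add_distrib]
      have : ∑ i ∈ range K, a K i = ∑ k ∈ range K, a k K := Finset.sum_congr rfl (fun i _ => hs _ _)
      rw [this]; ring
    have e2 : ∑ k ∈ range (K + 1), ∑ i ∈ range (K + 1), (if k < i then a k i else 0)
        = (∑ k ∈ range K, ∑ i ∈ range K, if k < i then a k i else 0) + ∑ k ∈ range K, a k K := by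
      rw [Finset.sum_range_succ]
      have z : ∑ i ∈ range (K + 1), (if K < i then a K i else 0) = 0 := by
        apply Finset.sum_eq_zero; intro i hi
        rw [mem_range] at hi
        rw [if_neg (by omega)]
      rw [z, add_zero, ← Finset.sum_add_distrib]
      apply Finset.sum_congr rfl; intro k hk
      rw [mem_range] at hk
      rw [Finset.sum_range_succ, if_pos hk]
    rw [e1, e2, Finset.sum_range_succ, ih]; ring

lemma sum_sym_lt (a : ℕ → ℕ → ℝ) (hs : ∀ i k, a i k = a k i) (K : ℕ) :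
    ∑ k ∈ range K, ∑ i ∈ range K, a k i
      = ∑ k ∈ range K, a k k + 2 * ∑ k ∈ range K, ∑ i ∈ range k, a i k := by
  induction K with
  | zero => simp
  | succ K ih =>
    have e1 : ∑ k ∈ range (K + 1), ∑ i ∈ range (K + 1), a k i
        = (∑ k ∈ range K, ∑ i ∈ range K, a k i) + 2 * (∑ k ∈ range K, a k K) + a K K := by
      rw [Finset.sum_range_succ]
      simp_rw [Finset.sum_range_succ]
      rw [Finset.sum_add_distrib]
      have : ∑ i ∈ range K, a K i = ∑ k ∈ range K, a k K := Finset.sum_congr rfl (fun i _ => hs _ _)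
      rw [this]; ring
    rw [e1, Finset.sum_range_succ, Finset.sum_range_succ, ih]; ring

/-- expansion of the square of a sum -/
lemma norm_sq_sum_eq (z : ℕ → ℂ) (K : ℕ) :
    ‖∑ k ∈ range K, z k‖ ^ 2 = ∑ k ∈ range K, ‖z k‖ ^ 2
      + 2 * (∑ k ∈ range K, z k * (starRingEnd ℂ) (∑ i ∈ range K, if k < i then z i else 0)).re := by
  have h1 : ∀ w : ℂ, ‖w‖ ^ 2 = (w * (starRingEnd ℂ) w).re := by
    intro w; rw [Complex.mul_conj, Complex.ofReal_re, Complex.normSq_eq_norm_sq]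
  have h2 : ‖∑ k ∈ range K, z k‖ ^ 2
      = ∑ k ∈ range K, ∑ i ∈ range K, (z k * (starRingEnd ℂ) (z i)).re := by
    rw [h1, map_sum, Finset.sum_mul_sum, Complex.re_sum]
    apply Finset.sum_congr rfl; intro k _
    rw [Complex.re_sum]
  rw [h2, sum_sym_gt (fun k i => (z k * (starRingEnd ℂ) (z i)).re)]
  · congr 1
    · apply Finset.sum_congr rfl; intro k _; exact (h1 _).symm
    · congr 1
      rw [Complex.re_sum]
      apply Finset.sum_congr rfl; intro k _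
      rw [map_sum, Finset.mul_sum, Complex.re_sum]
      apply Finset.sum_congr rfl; intro i _
      split_ifs <;> simp
  · intro i k
    simp only [Complex.mul_re, Complex.conj_re, Complex.conj_im]
    ring

/-- Pythagoras for a pairwise orthogonal family -/
lemma sum_norm_sq_of_orth (g : ℕ → ZMod N → ℂ) (K : ℕ)
    (H : ∀ k < K, ∀ i < k, ∑ x, g i x * (starRingEnd ℂ) (g k x) = 0) :
    ∑ x, ‖∑ k ∈ range K, g k x‖ ^ 2 = ∑ k ∈ range K, ∑ x, ‖g k x‖ ^ 2 := by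
  induction K with
  | zero => simp
  | succ K ih =>
    rw [Finset.sum_range_succ, ← ih (fun k hk i hi => H k (by omega) i hi)]
    have h1 : ∀ x, ‖∑ k ∈ range (K + 1), g k x‖ ^ 2 = ‖∑ k ∈ range K, g k x‖ ^ 2 + ‖g K x‖ ^ 2
        + 2 * ((∑ k ∈ range K, g k x) * (starRingEnd ℂ) (g K x)).re := by
      intro x
      rw [Finset.sum_range_succ, Complex.sq_norm, Complex.sq_norm, Complex.sq_norm, Complex.normSq_add]
    simp_rw [h1]
    rw [Finset.sum_add_distrib, Finset.sum_add_distrib, ← Finset.mul_sum, ← Complex.re_sum]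
    have h2 : ∑ x, (∑ k ∈ range K, g k x) * (starRingEnd ℂ) (g K x) = 0 := by
      simp_rw [Finset.sum_mul]
      rw [Finset.sum_comm]
      apply Finset.sum_eq_zero; intro k hk
      exact H K (by omega) k (mem_range.mp hk)
    rw [h2]; simp

/-- value of `valMinAbs` on differences -/
lemma valMinAbs_sub_of_lt {a b : ZMod N} (h1 : -(N : ℤ) < 2 * (a.valMinAbs - b.valMinAbs))
    (h2 : 2 * (a.valMinAbs - b.valMinAbs) ≤ N) : (a - b).valMinAbs = a.valMinAbs - b.valMinAbs := by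
  rw [ZMod.valMinAbs_spec]
  constructor
  · push_cast; simp
  · constructor <;> linarith

/-- hypotheses on a lacunary family with decreasing frequencies -/
structure LacSpec (N K : ℕ) (y Y : ℕ → ℝ) (f : ℕ → ZMod N → ℂ) [NeZero N] : Prop where
  ypos : ∀ k, 0 < y k
  yY : ∀ k, y k ≤ Y k
  step : ∀ k, Y (k + 1) ≤ y k / 4
  top : Y 0 ≤ N / 8
  one_le : ∀ k < K, 1 ≤ y k
  spec : ∀ k < K, ∀ j, FT (f k) j ≠ 0 → y k ≤ (j.valMinAbs : ℝ) ∧ (j.valMinAbs : ℝ) ≤ Y k

lemma LacSpec.lt {K : ℕ} {y Y : ℕ → ℝ} {f : ℕ → ZMod N → ℂ} (h : LacSpec N K y Y f) {k i : ℕ}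
    (hki : k < i) : Y i ≤ y k / 4 := by
  induction i, hki using Nat.le_induction with
  | base => exact h.step k
  | succ i hi ih =>
    have h1 := h.step i
    have h2 := h.yY i
    have h3 := h.ypos i
    have h4 := h.ypos (i + 1)
    linarith

lemma LacSpec.y_anti {K : ℕ} {y Y : ℕ → ℝ} {f : ℕ → ZMod N → ℂ} (h : LacSpec N K y Y f) {k i : ℕ}
    (hki : k ≤ i) : y i ≤ y k := by
  rcases Nat.lt_or_ge k i with h' | h'
  · have h1 := h.lt h'
    have h2 := h.yY i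
    have h3 := h.ypos k
    linarith
  · rw [Nat.le_antisymm hki h']

lemma LacSpec.Y_le {K : ℕ} {y Y : ℕ → ℝ} {f : ℕ → ZMod N → ℂ} (h : LacSpec N K y Y f) (k : ℕ) :
    Y k ≤ N / 8 := by
  rcases Nat.eq_zero_or_pos k with h' | h'
  · rw [h']; exact h.top
  · have h1 := h.lt h'
    have h2 := h.yY 0
    have h3 := h.ypos 0
    have h4 := h.top
    linarith

/-- the tail `F_{>k}` -/
def tail (K : ℕ) (f : ℕ → ZMod N → ℂ) (k : ℕ) (x : ZMod N) : ℂ :=
  ∑ i ∈ range K, if k < i then f i x else 0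

lemma FT_tail (K : ℕ) (f : ℕ → ZMod N → ℂ) (k : ℕ) (j : ZMod N) :
    FT (tail K f k) j = ∑ i ∈ range K, if k < i then FT (f i) j else 0 := by
  unfold tail
  rw [FT_sum (range K) (fun i x => if k < i then f i x else 0)]
  apply Finset.sum_congr rfl; intro i _
  split_ifs
  · rfl
  · unfold FT; simp

/-- scale attached to the `k`-th frequency -/
def rhoK (N : ℕ) (y : ℕ → ℝ) (k : ℕ) : ℝ := 2 * Real.pi * (y k / 4) / N

lemma tail_eq_Top {K : ℕ} {y Y : ℕ → ℝ} {f : ℕ → ZMod N → ℂ} (h : LacSpec N K y Y f) (k : ℕ) :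
    tail K f k = Top (cut N (rhoK N y k)) (fun x => ∑ i ∈ range K, f i x) := by
  have hN : (0:ℝ) < N := by exact_mod_cast NeZero.pos N
  have hpi := Real.pi_pos
  have hyk := h.ypos k
  have hρ : 0 < rhoK N y k := by unfold rhoK; positivity
  apply FT_injective; intro j
  rw [FT_Top, FT_tail, FT_sum (range K) f, Finset.mul_sum]
  apply Finset.sum_congr rfl; intro i hi
  rw [mem_range] at hi
  by_cases hj : FT (f i) j = 0
  · rw [hj]; simp
  · obtain ⟨h1, h2⟩ := h.spec i hi j hj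
    have hyi := h.ypos i
    have hpos : |2 * Real.pi * (j.valMinAbs : ℝ) / N| = 2 * Real.pi * (j.valMinAbs : ℝ) / N := by
      rw [abs_of_nonneg]
      have : 0 ≤ (j.valMinAbs : ℝ) := by linarith
      positivity
    by_cases hki : k < i
    · rw [if_pos hki, cut_eq_one hρ, one_mul]
      rw [hpos]
      unfold rhoK
      apply div_le_div_of_nonneg_right _ hN.le
      apply mul_le_mul_of_nonneg_left _ (by positivity)
      linarith [h.lt hki]
    · rw [if_neg hki, cut_eq_zero hρ, zero_mul]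
      rw [hpos]
      unfold rhoK
      rw [← mul_div_assoc]
      apply div_le_div_of_nonneg_right _ hN.le
      have := h.y_anti (not_lt.mp hki)
      nlinarith

lemma norm_tail_le {K : ℕ} {y Y : ℕ → ℝ} {f : ℕ → ZMod N → ℂ} (h : LacSpec N K y Y f) {k : ℕ}
    (hk : k < K) (x : ZMod N) :
    1 ≤ (2 * rhoK N y k)⁻¹ ∧ ‖tail K f k x‖ ^ 2 ≤ Cpsi ^ 2 *
      (6 * ∑ z, aL (2 * rhoK N y k)⁻¹ (x - z) * ‖∑ i ∈ range K, f i z‖ ^ 2) := by
  have hN : (0:ℝ) < N := by exact_mod_cast NeZero.pos N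
  have hpi := Real.pi_gt_three
  have hpi4 := Real.pi_lt_d2
  have hyk := h.ypos k
  have hρ : 0 < rhoK N y k := by unfold rhoK; positivity
  have hy1 := h.one_le k hk
  have hyN : y k ≤ N / 8 := le_trans (h.yY k) (h.Y_le k)
  have h1 : 2 * rhoK N y k ≤ 1 := by
    unfold rhoK
    rw [← mul_div_assoc, div_le_iff₀ hN]
    nlinarith
  have h2 : 1 ≤ N * (2 * rhoK N y k) := by
    unfold rhoK
    have : (N:ℝ) * (2 * (2 * Real.pi * (y k / 4) / N)) = Real.pi * y k := by field_simp; ring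
    rw [this]; nlinarith
  have h3 : 1 ≤ (2 * rhoK N y k)⁻¹ := (one_le_inv₀ (by linarith)).mpr h1
  refine ⟨h3, ?_⟩
  have h4 : ‖tail K f k x‖ ≤ Cpsi * ∑ z, aL (2 * rhoK N y k)⁻¹ (x - z) * ‖∑ i ∈ range K, f i z‖ := by
    rw [tail_eq_Top h]
    unfold Top
    refine le_trans (norm_sum_le _ _) ?_
    rw [Finset.mul_sum]
    apply Finset.sum_le_sum; intro z _
    rw [norm_mul, ← mul_assoc]
    exact mul_le_mul_of_nonneg_right (norm_ker_cut_le hρ h1 h2 _) (norm_nonneg _)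
  have h5 := pow_le_pow_left₀ (norm_nonneg _) h4 2
  rw [mul_pow] at h5
  refine le_trans h5 ?_
  apply mul_le_mul_of_nonneg_left _ (by positivity)
  exact aL_jensen h3 (fun z => ‖∑ i ∈ range K, f i z‖) x

lemma spec_prod {K : ℕ} {y Y : ℕ → ℝ} {f : ℕ → ZMod N → ℂ} (h : LacSpec N K y Y f) {k : ℕ}
    (hk : k < K) {j : ZMod N}
    (hj : FT (fun x => f k x * (starRingEnd ℂ) (tail K f k x)) j ≠ 0) :
    (3 / 4) * y k ≤ (j.valMinAbs : ℝ) ∧ (j.valMinAbs : ℝ) ≤ Y k := by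
  have hN : (0:ℝ) < N := by exact_mod_cast NeZero.pos N
  obtain ⟨a, b, ha, hb, hab⟩ := FT_mul_conj_ne_zero hj
  rw [FT_tail] at hb
  obtain ⟨i, hi, hb⟩ := Finset.exists_ne_zero_of_sum_ne_zero hb
  rw [mem_range] at hi
  have hki : k < i := by
    by_contra hc
    rw [if_neg hc] at hb
    exact hb rfl
  rw [if_pos hki] at hb
  obtain ⟨a1, a2⟩ := h.spec k hk a ha
  obtain ⟨b1, b2⟩ := h.spec i hi b hb
  have hyi := h.ypos i
  have hyk := h.ypos k
  have hlt := h.lt hki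
  have hYk := h.Y_le k
  have hv : j.valMinAbs = a.valMinAbs - b.valMinAbs := by
    rw [hab]
    apply valMinAbs_sub_of_lt
    · have : -(N:ℝ) < 2 * ((a.valMinAbs : ℝ) - b.valMinAbs) := by linarith
      exact_mod_cast this
    · have : 2 * ((a.valMinAbs : ℝ) - b.valMinAbs) ≤ (N:ℝ) := by linarith
      exact_mod_cast this
  rw [hv]
  push_cast
  constructor <;> linarith

/-- the constant of the upper estimate -/
def CU : ℝ := 4 + 64 * (1152 * Cpsi ^ 2) ^ 2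

lemma CU_pos : 0 < CU := by unfold CU; positivity

/-- A6: upper square function estimate -/
theorem upper {K : ℕ} {y Y : ℕ → ℝ} {f : ℕ → ZMod N → ℂ} (h : LacSpec N K y Y f) :
    ∑ x, ‖∑ k ∈ range K, f k x‖ ^ 4 ≤ CU * ∑ x, (∑ k ∈ range K, ‖f k x‖ ^ 2) ^ 2 := by
  set F : ZMod N → ℂ := fun x => ∑ k ∈ range K, f k x with hF
  set S : ZMod N → ℝ := fun x => ∑ k ∈ range K, ‖f k x‖ ^ 2 with hS
  set g : ℕ → ZMod N → ℂ := fun k x => f k x * (starRingEnd ℂ) (tail K f k x) with hg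
  have e1 : ∀ x, ‖F x‖ ^ 2 = S x + 2 * (∑ k ∈ range K, g k x).re := fun x =>
    norm_sq_sum_eq (fun k => f k x) K
  have orth : ∑ x, ‖∑ k ∈ range K, g k x‖ ^ 2 = ∑ k ∈ range K, ∑ x, ‖g k x‖ ^ 2 := by
    apply sum_norm_sq_of_orth
    intro k hk i hi
    apply orth_of_disjoint
    intro j
    by_contra hc
    push Not at hc
    obtain ⟨c1, c2⟩ := spec_prod h (lt_trans hi hk) hc.1
    obtain ⟨d1, d2⟩ := spec_prod h hk hc.2
    have := h.lt hi
    have := h.ypos i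
    linarith
  have bound : ∑ k ∈ range K, ∑ x, ‖g k x‖ ^ 2
      ≤ Cpsi ^ 2 * 6 * (192 * (Real.sqrt (∑ x, (‖F x‖ ^ 2) ^ 2) * Real.sqrt (∑ x, S x ^ 2))) := by
    have b1 : ∀ k ∈ range K, ∑ x, ‖g k x‖ ^ 2 ≤ Cpsi ^ 2 * 6 *
        ∑ x, (∑ z, aL (2 * rhoK N y k)⁻¹ (x - z) * ‖F z‖ ^ 2) * ‖f k x‖ ^ 2 := by
      intro k hk
      rw [Finset.mul_sum]
      apply Finset.sum_le_sum; intro x _
      have := (norm_tail_le h (mem_range.mp hk) x).2
      rw [hg]; simp only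
      rw [norm_mul, RCLike.norm_conj, mul_pow]
      calc ‖f k x‖ ^ 2 * ‖tail K f k x‖ ^ 2
          ≤ ‖f k x‖ ^ 2 * (Cpsi ^ 2 * (6 * ∑ z, aL (2 * rhoK N y k)⁻¹ (x - z) * ‖F z‖ ^ 2)) :=
            mul_le_mul_of_nonneg_left this (by positivity)
        _ = _ := by ring
    refine le_trans (Finset.sum_le_sum b1) ?_
    rw [← Finset.mul_sum]
    apply mul_le_mul_of_nonneg_left _ (by positivity)
    exact maximal_ineq (fun k => (2 * rhoK N y k)⁻¹) (fun k hk => (norm_tail_le h hk 0).1)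
      (fun z => ‖F z‖ ^ 2) (fun z => by positivity) (fun k x => ‖f k x‖ ^ 2) (fun k _ x => by positivity)
  set u := Real.sqrt (∑ x, (‖F x‖ ^ 2) ^ 2) with hu
  set v := Real.sqrt (∑ x, S x ^ 2) with hv
  have hu0 : 0 ≤ u := Real.sqrt_nonneg _
  have hv0 : 0 ≤ v := Real.sqrt_nonneg _
  have hu2 : u ^ 2 = ∑ x, (‖F x‖ ^ 2) ^ 2 := Real.sq_sqrt (Finset.sum_nonneg (fun _ _ => sq_nonneg _))
  have hv2 : v ^ 2 = ∑ x, S x ^ 2 := Real.sq_sqrt (Finset.sum_nonneg (fun _ _ => sq_nonneg _))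
  have b2 : u ^ 2 ≤ 2 * v ^ 2 + 8 * ∑ x, ‖∑ k ∈ range K, g k x‖ ^ 2 := by
    rw [hu2, hv2, Finset.mul_sum, Finset.mul_sum, ← Finset.sum_add_distrib]
    apply Finset.sum_le_sum; intro x _
    rw [e1]
    have h1 : (∑ k ∈ range K, g k x).re ^ 2 ≤ ‖∑ k ∈ range K, g k x‖ ^ 2 := by
      rw [← sq_abs]
      exact pow_le_pow_left₀ (abs_nonneg _) (Complex.abs_re_le_norm _) 2
    nlinarith [sq_nonneg (S x - 2 * (∑ k ∈ range K, g k x).re)]
  rw [orth] at b2
  have b3 : u ^ 2 ≤ 2 * v ^ 2 + 8 * (1152 * Cpsi ^ 2) * (u * v) := by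
    linarith
  set C := 1152 * Cpsi ^ 2 with hC
  have b4 : u ^ 2 ≤ CU * v ^ 2 := by
    unfold CU
    nlinarith [sq_nonneg (u - 8 * C * v)]
  have e2 : ∑ x, ‖F x‖ ^ 4 = ∑ x, (‖F x‖ ^ 2) ^ 2 := by
    apply Finset.sum_congr rfl; intros; ring
  rw [e2, ← hu2, ← hv2]
  exact b4

end

end Pool.Agent.MP58366f
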