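import Mathlib
import Pool.Agent.MP58366f.Upper

set_option linter.unusedSectionVars false

namespace Pool.Agent.MP58366f
open scoped BigOperators
open Finset

noncomputable section

variable {N : ℕ} [NeZero N]

/-- hypotheses of the lower square function estimate -/
structure LowHyp (N K : ℕ) (L : ℕ → ℝ) (h ψ : ℕ → ZMod N → ℂ) (B1 B2 B3 : ℝ) [NeZero N] : Prop where
  L1 : ∀ k < K, 1 ≤ L k
  B1n : 0 ≤ B1
  B2n : 0 ≤ B2
  B3n : 0 ≤ B3
  sq : ∀ j, ∑ k ∈ range K, ‖h k j‖ ^ 2 ≤ B1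
  mom : ∀ k < K, ∀ j < k, ∑ x, ‖ker (h j) x‖ * (nz x / L k) ^ (3 / 4 : ℝ) ≤ B2 / 2 ^ (k - j)
  kpsi : ∀ k < K, ∀ x, ‖ker (ψ k) x‖ ≤ B3 * aL (L k) x
  psi1 : ∀ k < K, ∀ a b, h k a ≠ 0 → h k b ≠ 0 → ψ k (a - b) = 1

lemma bessel_sum {K k : ℕ} (hk : k ≤ K) {h : ℕ → ZMod N → ℂ} {B1 : ℝ}
    (sqh : ∀ j, ∑ k ∈ range K, ‖h k j‖ ^ 2 ≤ B1) (f : ZMod N → ℂ) :
    ∑ j ∈ range k, ∑ x, ‖Top (h j) f x‖ ^ 2 ≤ B1 * ∑ x, ‖f x‖ ^ 2 := by
  have hN : (0:ℝ) < N := by exact_mod_cast NeZero.pos N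
  have e0 : ∀ j ∈ range k, ∑ x, ‖Top (h j) f x‖ ^ 2 = (N : ℝ)⁻¹ * ∑ i, ‖FT (Top (h j) f) i‖ ^ 2 :=
    fun j _ => parseval_sq _
  rw [Finset.sum_congr rfl e0, parseval_sq f]
  rw [← Finset.mul_sum, Finset.sum_comm, ← mul_assoc, mul_comm B1, mul_assoc]
  apply mul_le_mul_of_nonneg_left _ (by positivity)
  rw [Finset.mul_sum]
  apply Finset.sum_le_sum; intro i _
  have e : ∀ j, ‖FT (Top (h j) f) i‖ ^ 2 = ‖h j i‖ ^ 2 * ‖FT f i‖ ^ 2 := by
    intro j; rw [FT_Top, norm_mul, mul_pow]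
  simp_rw [e]
  rw [← Finset.sum_mul]
  apply mul_le_mul_of_nonneg_right _ (by positivity)
  refine le_trans ?_ (sqh i)
  apply Finset.sum_le_sum_of_subset_of_nonneg
  · intro a ha; rw [mem_range] at *; omega
  · intros; positivity

lemma sum_geom_le (B2 : ℝ) (k : ℕ) : ∑ j ∈ range k, (B2 / 2 ^ (k - j)) ^ 2 ≤ B2 ^ 2 := by
  have e : ∀ j ∈ range k, (B2 / 2 ^ (k - j)) ^ 2 ≤ B2 ^ 2 * ((1 / 2) ^ (k - j)) := by
    intro j _
    rw [div_pow, div_eq_mul_inv]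
    apply mul_le_mul_of_nonneg_left _ (by positivity)
    rw [one_div, inv_pow]
    apply inv_anti₀ (by positivity)
    have : (1:ℝ) ≤ 2 ^ (k - j) := one_le_pow₀ (by norm_num)
    nlinarith
  refine le_trans (Finset.sum_le_sum e) ?_
  rw [← Finset.mul_sum]
  have h2 : ∑ j ∈ range k, ((1:ℝ) / 2) ^ (k - j) ≤ 1 := by
    have h3 : ∀ k : ℕ, ∑ j ∈ range k, ((1:ℝ) / 2) ^ (k - j) = 1 - (1 / 2) ^ k := by
      intro k
      induction k with
      | zero => simp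
      | succ k ih =>
        rw [Finset.sum_range_succ]
        have : ∑ j ∈ range k, ((1:ℝ) / 2) ^ (k + 1 - j) = (1 / 2) * ∑ j ∈ range k, ((1:ℝ) / 2) ^ (k - j) := by
          rw [Finset.mul_sum]
          apply Finset.sum_congr rfl; intro j hj
          rw [mem_range] at hj
          rw [← pow_succ']; congr 1; omega
        rw [this, ih]
        simp only [Nat.add_sub_cancel_left, pow_one]
        ring
    rw [h3]
    have : (0:ℝ) ≤ (1 / 2) ^ k := by positivity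
    linarith
  calc B2 ^ 2 * ∑ j ∈ range k, ((1:ℝ) / 2) ^ (k - j) ≤ B2 ^ 2 * 1 :=
        mul_le_mul_of_nonneg_left h2 (by positivity)
    _ = B2 ^ 2 := mul_one _

/-- local Bessel inequality -/
lemma local_bessel {K : ℕ} {L : ℕ → ℝ} {h ψ : ℕ → ZMod N → ℂ} {B1 B2 B3 : ℝ}
    (H : LowHyp N K L h ψ B1 B2 B3) (f : ZMod N → ℂ) {k : ℕ} (hk : k < K) (z₀ : ZMod N) :
    ∑ j ∈ range k, ∑ x, aL (L k) (x - z₀) * ‖Top (h j) f x‖ ^ 2
      ≤ (2 * B1 + 2 * B2 ^ 2) * ∑ x, aL (L k) (x - z₀) * ‖f x‖ ^ 2 := by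
  have hL1 := H.L1 k hk
  have hL0 : 0 < L k := by linarith
  set w : ZMod N → ℝ := fun x => wL (L k) (x - z₀) with hw
  have hw0 : ∀ x, 0 ≤ w x := fun x => wL_nonneg hL0.le _
  have hw2 : ∀ x, w x ^ 2 = aL (L k) (x - z₀) := fun x => wL_sq hL0.le _
  set wf : ZMod N → ℂ := fun x => (w x : ℂ) * f x with hwf
  have hwf2 : ∑ x, ‖wf x‖ ^ 2 = ∑ x, aL (L k) (x - z₀) * ‖f x‖ ^ 2 := by
    apply Finset.sum_congr rfl; intro x _
    rw [hwf]; simp only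
    rw [norm_mul, mul_pow, Complex.norm_real, Real.norm_eq_abs, sq_abs, hw2]
  rw [← hwf2]
  set R : ℕ → ZMod N → ℂ := fun j x => ∑ z, ker (h j) (x - z) * (((w x : ℂ) - (w z : ℂ)) * f z) with hR
  have e1 : ∀ j x, (w x : ℂ) * Top (h j) f x = Top (h j) wf x + R j x := by
    intro j x
    rw [hR]; simp only
    unfold Top
    rw [Finset.mul_sum, ← Finset.sum_add_distrib]
    apply Finset.sum_congr rfl; intro z _
    rw [hwf]; simp only; ring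
  have e2 : ∀ j x, aL (L k) (x - z₀) * ‖Top (h j) f x‖ ^ 2 ≤ 2 * ‖Top (h j) wf x‖ ^ 2 + 2 * ‖R j x‖ ^ 2 := by
    intro j x
    have : aL (L k) (x - z₀) * ‖Top (h j) f x‖ ^ 2 = ‖(w x : ℂ) * Top (h j) f x‖ ^ 2 := by
      rw [norm_mul, mul_pow, Complex.norm_real, Real.norm_eq_abs, sq_abs, hw2]
    rw [this, e1]
    have h1 := norm_add_le (Top (h j) wf x) (R j x)
    have h2 := pow_le_pow_left₀ (norm_nonneg _) h1 2
    nlinarith [sq_nonneg (‖Top (h j) wf x‖ - ‖R j x‖)]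
  have e3 : ∀ j ∈ range k, ∑ x, ‖R j x‖ ^ 2 ≤ (B2 / 2 ^ (k - j)) ^ 2 * ∑ x, ‖wf x‖ ^ 2 := by
    intro j hj
    rw [mem_range] at hj
    set κ : ZMod N → ℝ := fun x => ‖ker (h j) x‖ * (nz x / L k) ^ (3 / 4 : ℝ) with hκ
    have hκ0 : ∀ x, 0 ≤ κ x := fun x =>
      mul_nonneg (norm_nonneg _) (Real.rpow_nonneg (div_nonneg (nz_nonneg x) hL0.le) _)
    have b1 : ∀ x, ‖R j x‖ ≤ ∑ z, κ (x - z) * ‖wf z‖ := by
      intro x
      rw [hR]; simp only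
      refine le_trans (norm_sum_le _ _) ?_
      apply Finset.sum_le_sum; intro z _
      rw [norm_mul, norm_mul, hκ]; simp only
      rw [mul_assoc]
      apply mul_le_mul_of_nonneg_left _ (norm_nonneg _)
      have h1 : ‖((w x : ℂ) - (w z : ℂ))‖ = |w x - w z| := by
        rw [← Complex.ofReal_sub, Complex.norm_real, Real.norm_eq_abs]
      have h2 : |w x - w z| ≤ (nz (x - z) / L k) ^ (3 / 4 : ℝ) * w z := by
        have := wL_sub_le hL0 (x - z₀) (z - z₀)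
        rwa [sub_sub_sub_cancel_right] at this
      have h3 : ‖wf z‖ = w z * ‖f z‖ := by
        rw [hwf]; simp only
        rw [norm_mul, Complex.norm_real, Real.norm_eq_abs, abs_of_nonneg (hw0 z)]
      rw [h1, h3, ← mul_assoc]
      exact mul_le_mul_of_nonneg_right h2 (norm_nonneg _)
    have b2 : ∑ x, ‖R j x‖ ^ 2 ≤ ∑ x, (∑ z, κ (x - z) * ‖wf z‖) ^ 2 :=
      Finset.sum_le_sum (fun x _ => pow_le_pow_left₀ (norm_nonneg _) (b1 x) 2)
    refine le_trans b2 (le_trans (young_sq κ (fun z => ‖wf z‖) hκ0) ?_)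
    apply mul_le_mul_of_nonneg_right _ (Finset.sum_nonneg (fun _ _ => by positivity))
    exact pow_le_pow_left₀ (Finset.sum_nonneg (fun x _ => hκ0 x)) (H.mom k hk j hj) 2
  have e4 : ∑ j ∈ range k, ∑ x, aL (L k) (x - z₀) * ‖Top (h j) f x‖ ^ 2
      ≤ 2 * (∑ j ∈ range k, ∑ x, ‖Top (h j) wf x‖ ^ 2) + 2 * ∑ j ∈ range k, ∑ x, ‖R j x‖ ^ 2 := by
    rw [Finset.mul_sum, Finset.mul_sum, ← Finset.sum_add_distrib]
    apply Finset.sum_le_sum; intro j _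
    rw [Finset.mul_sum, Finset.mul_sum, ← Finset.sum_add_distrib]
    exact Finset.sum_le_sum (fun x _ => e2 j x)
  have e5 := bessel_sum hk.le H.sq wf
  have e6 : ∑ j ∈ range k, ∑ x, ‖R j x‖ ^ 2 ≤ B2 ^ 2 * ∑ x, ‖wf x‖ ^ 2 := by
    refine le_trans (Finset.sum_le_sum e3) ?_
    rw [← Finset.sum_mul]
    exact mul_le_mul_of_nonneg_right (sum_geom_le B2 k) (Finset.sum_nonneg (fun _ _ => by positivity))
  linarith

lemma sq_norm_le_conv {K : ℕ} {L : ℕ → ℝ} {h ψ : ℕ → ZMod N → ℂ} {B1 B2 B3 : ℝ}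
    (H : LowHyp N K L h ψ B1 B2 B3) (f : ZMod N → ℂ) {k : ℕ} (hk : k < K) (x : ZMod N) :
    ‖Top (h k) f x‖ ^ 2 ≤ B3 * ∑ y, aL (L k) (x - y) * ‖Top (h k) f y‖ ^ 2 := by
  set q : ZMod N → ℂ := fun x => Top (h k) f x * (starRingEnd ℂ) (Top (h k) f x) with hq
  have hqn : ∀ x, ‖q x‖ = ‖Top (h k) f x‖ ^ 2 := by
    intro x; rw [hq]; simp only
    rw [norm_mul, RCLike.norm_conj, sq]
  have e1 : Top (ψ k) q = q := by
    have : Top (ψ k) q = Top (fun _ => 1) q := by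
      apply Top_congr_on
      intro j hj
      obtain ⟨a, b, ha, hb, hab⟩ := FT_mul_conj_ne_zero hj
      rw [FT_Top] at ha hb
      rw [hab]
      exact H.psi1 k hk a b (left_ne_zero_of_mul ha) (left_ne_zero_of_mul hb)
    rw [this, Top_one]
  rw [← hqn x]
  nth_rewrite 1 [← e1]
  unfold Top
  refine le_trans (norm_sum_le _ _) ?_
  rw [Finset.mul_sum]
  apply Finset.sum_le_sum; intro y _
  rw [norm_mul, ← mul_assoc, hqn]
  exact mul_le_mul_of_nonneg_right (H.kpsi k hk _) (by positivity)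

/-- A7: lower square function estimate -/
theorem lower {K : ℕ} {L : ℕ → ℝ} {h ψ : ℕ → ZMod N → ℂ} {B1 B2 B3 : ℝ}
    (H : LowHyp N K L h ψ B1 B2 B3) (f : ZMod N → ℂ) :
    ∑ x, (∑ k ∈ range K, ‖Top (h k) f x‖ ^ 2) ^ 2
      ≤ ∑ k ∈ range K, ∑ x, ‖Top (h k) f x‖ ^ 4
        + 2 * B3 * (2 * B1 + 2 * B2 ^ 2) * 192 *
          (Real.sqrt (∑ x, (‖f x‖ ^ 2) ^ 2)
            * Real.sqrt (∑ x, (∑ k ∈ range K, ‖Top (h k) f x‖ ^ 2) ^ 2)) := by
  set T : ℕ → ZMod N → ℝ := fun k x => ‖Top (h k) f x‖ ^ 2 with hT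
  have hT0 : ∀ k x, 0 ≤ T k x := fun k x => by rw [hT]; positivity
  have e1 : ∑ x, (∑ k ∈ range K, T k x) ^ 2
      = ∑ k ∈ range K, ∑ x, ‖Top (h k) f x‖ ^ 4 + 2 * ∑ k ∈ range K, ∑ j ∈ range k, ∑ x, T j x * T k x := by
    have a1 : ∀ x, (∑ k ∈ range K, T k x) ^ 2
        = ∑ k ∈ range K, ‖Top (h k) f x‖ ^ 4 + 2 * ∑ k ∈ range K, ∑ j ∈ range k, T j x * T k x := by
      intro x
      rw [sq, Finset.sum_mul_sum, sum_sym_lt (fun k i => T k x * T i x) (fun i k => by ring)]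
      congr 1
      apply Finset.sum_congr rfl; intro k _
      rw [hT]; ring
    simp_rw [a1]
    rw [Finset.sum_add_distrib, ← Finset.mul_sum, Finset.sum_comm]
    congr 2
    rw [Finset.sum_comm]
    apply Finset.sum_congr rfl; intro k _
    rw [Finset.sum_comm]
  have e2 : ∀ k ∈ range K, ∑ j ∈ range k, ∑ x, T j x * T k x
      ≤ B3 * (2 * B1 + 2 * B2 ^ 2) * ∑ y, (∑ x, aL (L k) (y - x) * ‖f x‖ ^ 2) * T k y := by
    intro k hk
    rw [mem_range] at hk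
    have b1 : ∀ j ∈ range k, ∑ x, T j x * T k x ≤ B3 * ∑ y, T k y * ∑ x, aL (L k) (x - y) * T j x := by
      intro j _
      calc ∑ x, T j x * T k x ≤ ∑ x, T j x * (B3 * ∑ y, aL (L k) (x - y) * T k y) := by
            apply Finset.sum_le_sum; intro x _
            exact mul_le_mul_of_nonneg_left (sq_norm_le_conv H f hk x) (hT0 _ _)
        _ = B3 * ∑ y, T k y * ∑ x, aL (L k) (x - y) * T j x := by
            simp_rw [Finset.mul_sum]
            rw [Finset.sum_comm]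
            apply Finset.sum_congr rfl; intro y _
            apply Finset.sum_congr rfl; intro x _
            ring
    refine le_trans (Finset.sum_le_sum b1) ?_
    rw [← Finset.mul_sum, Finset.sum_comm, mul_assoc]
    apply mul_le_mul_of_nonneg_left _ H.B3n
    rw [Finset.mul_sum]
    apply Finset.sum_le_sum; intro y _
    rw [← Finset.mul_sum]
    have b2 := local_bessel H f hk y
    have b3 : ∑ x, aL (L k) (x - y) * ‖f x‖ ^ 2 = ∑ x, aL (L k) (y - x) * ‖f x‖ ^ 2 := by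
      apply Finset.sum_congr rfl; intro x _
      rw [← aL_neg (L k) (x - y), neg_sub]
    rw [b3] at b2
    calc T k y * ∑ j ∈ range k, ∑ x, aL (L k) (x - y) * T j x
        ≤ T k y * ((2 * B1 + 2 * B2 ^ 2) * ∑ x, aL (L k) (y - x) * ‖f x‖ ^ 2) :=
          mul_le_mul_of_nonneg_left b2 (hT0 _ _)
      _ = _ := by ring
  have e3 : ∑ k ∈ range K, ∑ j ∈ range k, ∑ x, T j x * T k x
      ≤ B3 * (2 * B1 + 2 * B2 ^ 2) * (192 * (Real.sqrt (∑ x, (‖f x‖ ^ 2) ^ 2)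
            * Real.sqrt (∑ x, (∑ k ∈ range K, T k x) ^ 2))) := by
    refine le_trans (Finset.sum_le_sum e2) ?_
    rw [← Finset.mul_sum]
    apply mul_le_mul_of_nonneg_left
    · exact maximal_ineq L H.L1 (fun x => ‖f x‖ ^ 2) (fun x => by positivity) T (fun k _ x => hT0 k x)
    · have := H.B1n
      have := H.B3n
      positivity
  rw [e1]
  rw [e1] at e3
  linarith

/-- consequence: if the diagonal is bounded by `D‖f‖₄⁴` then the square function is bounded -/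
theorem lower' {K : ℕ} {L : ℕ → ℝ} {h ψ : ℕ → ZMod N → ℂ} {B1 B2 B3 D : ℝ}
    (H : LowHyp N K L h ψ B1 B2 B3) (_hD : 0 ≤ D) (f : ZMod N → ℂ)
    (diag : ∑ k ∈ range K, ∑ x, ‖Top (h k) f x‖ ^ 4 ≤ D * ∑ x, ‖f x‖ ^ 4) :
    ∑ x, (∑ k ∈ range K, ‖Top (h k) f x‖ ^ 2) ^ 2
      ≤ (2 * D + (2 * B3 * (2 * B1 + 2 * B2 ^ 2) * 192) ^ 2) * ∑ x, ‖f x‖ ^ 4 := by
  have h1 := lower H f
  have e2 : ∑ x, ‖f x‖ ^ 4 = ∑ x, (‖f x‖ ^ 2) ^ 2 := by
    apply Finset.sum_congr rfl; intros; ring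
  rw [e2] at diag ⊢
  set C := 2 * B3 * (2 * B1 + 2 * B2 ^ 2) * 192 with hC
  set u := Real.sqrt (∑ x, (‖f x‖ ^ 2) ^ 2) with hu
  set v := Real.sqrt (∑ x, (∑ k ∈ range K, ‖Top (h k) f x‖ ^ 2) ^ 2) with hv
  have hu2 : u ^ 2 = ∑ x, (‖f x‖ ^ 2) ^ 2 := Real.sq_sqrt (Finset.sum_nonneg (fun _ _ => sq_nonneg _))
  have hv2 : v ^ 2 = ∑ x, (∑ k ∈ range K, ‖Top (h k) f x‖ ^ 2) ^ 2 :=
    Real.sq_sqrt (Finset.sum_nonneg (fun _ _ => sq_nonneg _))
  rw [← hv2] at h1 ⊢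
  rw [← hu2] at diag ⊢
  nlinarith [sq_nonneg (v - C * u)]

end

end Pool.Agent.MP58366f
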