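import Mathlib
import Pool.Agent.MP58366f.Lower

set_option linter.unusedSectionVars false

namespace Pool.Agent.MP58366f
open scoped BigOperators
open Finset

noncomputable section

variable {N : ℕ} [NeZero N]

/-- from the inequality between fourth powers to the one between norms -/
lemma n4_le_of_pow {f g : ZMod N → ℂ} {D A : ℝ} (hD : 0 ≤ D) (hA : 0 ≤ A)
    (h : ∑ x, ‖f x‖ ^ 4 ≤ D * A ^ 4 * ∑ x, ‖g x‖ ^ 4) : n4 f ≤ (1 + D) * A * n4 g := by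
  rw [← n4_pow, ← n4_pow] at h
  have hg := n4_nonneg g
  apply le_of_pow_le_pow_left₀ (n := 4) (by norm_num) (by positivity)
  refine le_trans h ?_
  rw [mul_pow, mul_pow]
  apply mul_le_mul_of_nonneg_right _ (by positivity)
  apply mul_le_mul_of_nonneg_right _ (by positivity)
  have h1 : (1:ℝ) ≤ 1 + D := by linarith
  have h2 : (1 + D) ^ 1 ≤ (1 + D) ^ 4 := pow_le_pow_right₀ h1 (by norm_num)
  linarith

/-- diagonal terms are controlled by the kernels -/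
lemma diag_bound {K : ℕ} {L : ℕ → ℝ} {h : ℕ → ZMod N → ℂ} {B : ℝ} (hL : ∀ k < K, 1 ≤ L k)
    (_hB : 0 ≤ B) (hk : ∀ k < K, ∀ x, ‖ker (h k) x‖ ≤ B * aL (L k) x) (f : ZMod N → ℂ) :
    ∑ k ∈ range K, ∑ x, ‖Top (h k) f x‖ ^ 4 ≤ 6 * B ^ 2 * 192 *
      (Real.sqrt (∑ x, (‖f x‖ ^ 2) ^ 2)
            * Real.sqrt (∑ x, (∑ k ∈ range K, ‖Top (h k) f x‖ ^ 2) ^ 2)) := by
  have b1 : ∀ k ∈ range K, ∑ x, ‖Top (h k) f x‖ ^ 4
      ≤ 6 * B ^ 2 * ∑ x, (∑ y, aL (L k) (x - y) * ‖f y‖ ^ 2) * ‖Top (h k) f x‖ ^ 2 := by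
    intro k hkK
    rw [mem_range] at hkK
    rw [Finset.mul_sum]
    apply Finset.sum_le_sum; intro x _
    have h1 : ‖Top (h k) f x‖ ≤ B * ∑ y, aL (L k) (x - y) * ‖f y‖ := by
      unfold Top
      refine le_trans (norm_sum_le _ _) ?_
      rw [Finset.mul_sum]
      apply Finset.sum_le_sum; intro y _
      rw [norm_mul, ← mul_assoc]
      exact mul_le_mul_of_nonneg_right (hk k hkK _) (norm_nonneg _)
    have h2 := pow_le_pow_left₀ (norm_nonneg _) h1 2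
    rw [mul_pow] at h2
    have h3 := aL_jensen (hL k hkK) (fun y => ‖f y‖) x
    have h4 : ‖Top (h k) f x‖ ^ 2 ≤ B ^ 2 * (6 * ∑ y, aL (L k) (x - y) * ‖f y‖ ^ 2) :=
      le_trans h2 (mul_le_mul_of_nonneg_left h3 (by positivity))
    calc ‖Top (h k) f x‖ ^ 4 = ‖Top (h k) f x‖ ^ 2 * ‖Top (h k) f x‖ ^ 2 := by ring
      _ ≤ (B ^ 2 * (6 * ∑ y, aL (L k) (x - y) * ‖f y‖ ^ 2)) * ‖Top (h k) f x‖ ^ 2 :=
        mul_le_mul_of_nonneg_right h4 (by positivity)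
      _ = _ := by ring
  refine le_trans (Finset.sum_le_sum b1) ?_
  rw [← Finset.mul_sum, mul_assoc (6 * B ^ 2)]
  apply mul_le_mul_of_nonneg_left _ (by positivity)
  exact maximal_ineq L hL (fun x => ‖f x‖ ^ 2) (fun x => by positivity)
    (fun k x => ‖Top (h k) f x‖ ^ 2) (fun k _ x => by positivity)

/-- lower estimate when the kernels are bounded -/
theorem lower_ker {K : ℕ} {L : ℕ → ℝ} {h ψ : ℕ → ZMod N → ℂ} {B B1 B2 B3 : ℝ}
    (H : LowHyp N K L h ψ B1 B2 B3) (hB : 0 ≤ B)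
    (hk : ∀ k < K, ∀ x, ‖ker (h k) x‖ ≤ B * aL (L k) x) (f : ZMod N → ℂ) :
    ∑ x, (∑ k ∈ range K, ‖Top (h k) f x‖ ^ 2) ^ 2
      ≤ (6 * B ^ 2 * 192 + 2 * B3 * (2 * B1 + 2 * B2 ^ 2) * 192) ^ 2 * ∑ x, ‖f x‖ ^ 4 := by
  have h1 := lower H f
  have h2 := diag_bound H.L1 hB hk f
  have e2 : ∑ x, ‖f x‖ ^ 4 = ∑ x, (‖f x‖ ^ 2) ^ 2 := by
    apply Finset.sum_congr rfl; intros; ring
  rw [e2]
  have hC0 : 0 ≤ 6 * B ^ 2 * 192 + 2 * B3 * (2 * B1 + 2 * B2 ^ 2) * 192 := by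
    have := H.B1n
    have := H.B3n
    positivity
  set C := 6 * B ^ 2 * 192 + 2 * B3 * (2 * B1 + 2 * B2 ^ 2) * 192 with hC
  set u := Real.sqrt (∑ x, (‖f x‖ ^ 2) ^ 2) with hu
  set v := Real.sqrt (∑ x, (∑ k ∈ range K, ‖Top (h k) f x‖ ^ 2) ^ 2) with hv
  have hu2 : u ^ 2 = ∑ x, (‖f x‖ ^ 2) ^ 2 := Real.sq_sqrt (Finset.sum_nonneg (fun _ _ => sq_nonneg _))
  have hv2 : v ^ 2 = ∑ x, (∑ k ∈ range K, ‖Top (h k) f x‖ ^ 2) ^ 2 :=
    Real.sq_sqrt (Finset.sum_nonneg (fun _ _ => sq_nonneg _))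
  have hu0 : 0 ≤ u := Real.sqrt_nonneg _
  have hv0 : 0 ≤ v := Real.sqrt_nonneg _
  rw [← hv2] at h1 ⊢
  rw [← hu2]
  have h3 : v ^ 2 ≤ C * (u * v) := by
    calc v ^ 2 ≤ 6 * B ^ 2 * 192 * (u * v) + 2 * B3 * (2 * B1 + 2 * B2 ^ 2) * 192 * (u * v) := by linarith
      _ = C * (u * v) := by rw [hC]; ring
  have h4 : v ≤ C * u := by
    by_cases hz : v = 0
    · rw [hz]; positivity
    · have hvp : 0 < v := lt_of_le_of_ne hv0 (Ne.symm hz)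
      nlinarith
  calc v ^ 2 ≤ (C * u) ^ 2 := pow_le_pow_left₀ hv0 h4 2
    _ = C ^ 2 * u ^ 2 := by ring

/-- at most one nonzero term -/
lemma sum_sq_le_of_disjoint {K : ℕ} {h : ℕ → ZMod N → ℂ} {A : ℝ}
    (hA : ∀ k < K, ∀ j, ‖h k j‖ ≤ A)
    (hd : ∀ k < K, ∀ i < k, ∀ j, h i j = 0 ∨ h k j = 0) (j : ZMod N) :
    ∑ k ∈ range K, ‖h k j‖ ^ 2 ≤ A ^ 2 := by
  by_cases hex : ∃ k < K, h k j ≠ 0
  · obtain ⟨k, hk, hkj⟩ := hex
    rw [Finset.sum_eq_single k]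
    · exact pow_le_pow_left₀ (norm_nonneg _) (hA k hk j) 2
    · intro i hi hik
      rw [mem_range] at hi
      have : h i j = 0 := by
        rcases lt_or_gt_of_ne hik with h' | h'
        · rcases hd k hk i h' j with h'' | h''
          · exact h''
          · exact absurd h'' hkj
        · rcases hd i hi k h' j with h'' | h''
          · exact absurd h'' hkj
          · exact h''
      rw [this]; simp
    · intro hk'; exact absurd (mem_range.mpr hk) hk'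
  · push Not at hex
    rw [Finset.sum_eq_zero]
    · positivity
    · intro k hk
      rw [hex k (mem_range.mp hk)]; simp

lemma ratio_pow {r : ℕ → ℝ} (_hr0 : ∀ k, 0 < r k) (hr : ∀ k, r (k + 1) ≤ r k / 16) {j k : ℕ} (hjk : j ≤ k) :
    r k ≤ r j / 16 ^ (k - j) := by
  induction k, hjk using Nat.le_induction with
  | base => simp
  | succ k hk ih =>
    have := hr k
    rw [Nat.succ_sub hk, pow_succ]
    calc r (k + 1) ≤ r k / 16 := this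
      _ ≤ (r j / 16 ^ (k - j)) / 16 := by
        apply div_le_div_of_nonneg_right ih (by norm_num)
      _ = _ := by field_simp

lemma ratio_rpow {r : ℕ → ℝ} (hr0 : ∀ k, 0 < r k) (hr : ∀ k, r (k + 1) ≤ r k / 16) {j k : ℕ} (hjk : j ≤ k) :
    (r k / r j) ^ (3 / 4 : ℝ) ≤ 1 / 2 ^ (k - j) := by
  have h1 := ratio_pow hr0 hr hjk
  have hj := hr0 j
  have hk := hr0 k
  have h2 : r k / r j ≤ (1 / 16) ^ (k - j) := by
    rw [div_le_iff₀ hj]
    calc r k ≤ r j / 16 ^ (k - j) := h1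
      _ = (1 / 16) ^ (k - j) * r j := by rw [one_div, inv_pow]; field_simp
  calc (r k / r j) ^ (3 / 4 : ℝ) ≤ ((1 / 16) ^ (k - j)) ^ (3 / 4 : ℝ) :=
        Real.rpow_le_rpow (by positivity) h2 (by norm_num)
    _ = ((1 / 16) ^ (3 / 4 : ℝ)) ^ (k - j) := by
        rw [← Real.rpow_natCast, ← Real.rpow_natCast, ← Real.rpow_mul (by norm_num),
          ← Real.rpow_mul (by norm_num), mul_comm]
    _ = (1 / 8) ^ (k - j) := by
        congr 1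
        rw [show (1 / 16 : ℝ) = (1 / 2) ^ (4 : ℝ) by norm_num, ← Real.rpow_mul (by norm_num)]
        norm_num
    _ ≤ (1 / 2) ^ (k - j) := pow_le_pow_left₀ (by norm_num) (by norm_num) _
    _ = 1 / 2 ^ (k - j) := by rw [one_div, inv_pow, one_div]

lemma bL_scale {L c : ℝ} (hL : 0 < L) (hc : 1 ≤ c) (x : ZMod N) : bL (c * L) x ≤ c * bL L x := by
  unfold bL
  have hx := nz_nonneg x
  rw [mul_div_assoc]
  apply mul_le_mul_of_nonneg_left _ (by linarith)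
  apply div_le_div_of_nonneg_left hL.le (by positivity)
  apply pow_le_pow_left₀ (by positivity)
  nlinarith

/-- moment bound from the kernel bound -/
lemma mom_of_bL {L : ℕ → ℝ} {h : ZMod N → ℂ} {B : ℝ} (hB : 0 ≤ B) {j k : ℕ} (hLj : 1 ≤ L j) (hLk : 0 < L k)
    (hk : ∀ x, ‖ker h x‖ ≤ B * bL (L j) x) :
    ∑ x, ‖ker h x‖ * (nz x / L k) ^ (3 / 4 : ℝ) ≤ 10 * B * (L j / L k) ^ (3 / 4 : ℝ) := by
  have h1 : ∀ x : ZMod N, ‖ker h x‖ * (nz x / L k) ^ (3 / 4 : ℝ)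
      ≤ B * (L k ^ (3 / 4 : ℝ))⁻¹ * (bL (L j) x * nz x ^ (3 / 4 : ℝ)) := by
    intro x
    rw [Real.div_rpow (nz_nonneg x) hLk.le, div_eq_mul_inv]
    have hn : 0 ≤ nz x ^ (3 / 4 : ℝ) := Real.rpow_nonneg (nz_nonneg x) _
    have hl : 0 ≤ (L k ^ (3 / 4 : ℝ))⁻¹ := by positivity
    calc ‖ker h x‖ * (nz x ^ (3 / 4 : ℝ) * (L k ^ (3 / 4 : ℝ))⁻¹)
        ≤ (B * bL (L j) x) * (nz x ^ (3 / 4 : ℝ) * (L k ^ (3 / 4 : ℝ))⁻¹) :=
          mul_le_mul_of_nonneg_right (hk x) (mul_nonneg hn hl)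
      _ = _ := by ring
  refine le_trans (Finset.sum_le_sum (fun x _ => h1 x)) ?_
  rw [← Finset.mul_sum]
  calc B * (L k ^ (3 / 4 : ℝ))⁻¹ * ∑ x : ZMod N, (bL (L j) x * nz x ^ (3 / 4 : ℝ))
      ≤ B * (L k ^ (3 / 4 : ℝ))⁻¹ * (10 * L j ^ (3 / 4 : ℝ)) :=
        mul_le_mul_of_nonneg_left (sum_bL_mul_le hLj) (by positivity)
    _ = 10 * B * (L j / L k) ^ (3 / 4 : ℝ) := by
        rw [Real.div_rpow (by linarith) hLk.le]; field_simp

end

end Pool.Agent.MP58366f
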