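import Mathlib
import Pool.Agent.MP58366f.Lac

set_option linter.unusedSectionVars false

namespace Pool.Agent.MP58366f
open scoped BigOperators
open Finset

noncomputable section

variable {N : ℕ} [NeZero N]

/-- lacunary pieces with good kernels -/
theorem lac_pieces {K : ℕ} {r : ℕ → ℝ} {h : ℕ → ZMod N → ℂ} {A B : ℝ} (hA : 0 ≤ A) (hB : 0 ≤ B)
    (hr0 : ∀ k, 0 < r k) (hr : ∀ k, r (k + 1) ≤ r k / 64) (hr8 : r 0 ≤ 1 / 8)
    (hN100 : ∀ k < K, 100 ≤ N * r k)
    (hs : ∀ k < K, ∀ m, h k m ≠ 0 → r k * N / (6 * Real.pi) ≤ (m.valMinAbs : ℝ) ∧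
      (m.valMinAbs : ℝ) ≤ 3 * r k * N / (2 * Real.pi))
    (hb : ∀ k < K, ∀ m, ‖h k m‖ ≤ A)
    (hk : ∀ k < K, ∀ x, ‖ker (h k) x‖ ≤ B * A * bL (6 * r k)⁻¹ x) :
    M4 (fun j => ∑ k ∈ range K, h k j)
      ((1 + CU * (6 * B ^ 2 * 192 + 2 * Cpsi * (2 + 2 * (10 * B) ^ 2) * 192) ^ 2) * A) := by
  have hN : (0:ℝ) < N := by exact_mod_cast NeZero.pos N
  have hpi := Real.pi_gt_three
  have hpi4 := Real.pi_lt_d2
  have hr16 : ∀ k, r (k + 1) ≤ r k / 16 := fun k => by linarith [hr k, hr0 k]
  have hanti : ∀ {j k : ℕ}, j ≤ k → r k ≤ r j / 16 ^ (k - j) := fun h => ratio_pow hr0 hr16 h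
  have hanti1 : ∀ {j k : ℕ}, j < k → r k ≤ r j / 16 := by
    intro j k hjk
    refine le_trans (hanti hjk.le) ?_
    apply div_le_div_of_nonneg_left (hr0 j).le (by norm_num)
    calc (16:ℝ) = 16 ^ 1 := (pow_one _).symm
      _ ≤ 16 ^ (k - j) := pow_le_pow_right₀ (by norm_num) (by omega)
  have hrk8 : ∀ k, r k ≤ 1 / 8 := by
    intro k
    rcases Nat.eq_zero_or_pos k with h0 | h0
    · rw [h0]; exact hr8
    · have := hanti1 h0
      linarith [hr0 0]
  set L : ℕ → ℝ := fun k => (6 * r k)⁻¹ with hL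
  have hL1 : ∀ k, 1 ≤ L k := by
    intro k
    have := hrk8 k
    have := hr0 k
    exact (one_le_inv₀ (by positivity)).mpr (by linarith)
  set y : ℕ → ℝ := fun k => r k * N / (6 * Real.pi) with hy
  set Y : ℕ → ℝ := fun k => 3 * r k * N / (2 * Real.pi) with hY
  have hLow : LowHyp N K L h (fun k => cut N (3 * r k)) (A ^ 2) (10 * (B * A)) Cpsi := by
    refine ⟨fun k _ => hL1 k, by positivity, by positivity, Cpsi_pos.le, ?_, ?_, ?_, ?_⟩
    · apply sum_sq_le_of_disjoint hb
      intro k hkK i hik j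
      by_contra hc
      push Not at hc
      obtain ⟨c1, c2⟩ := hs i (lt_trans hik hkK) j hc.1
      obtain ⟨d1, d2⟩ := hs k hkK j hc.2
      have h1 : r i * N / (6 * Real.pi) ≤ 3 * r k * N / (2 * Real.pi) := le_trans c1 d2
      rw [div_le_div_iff₀ (by positivity) (by positivity)] at h1
      have h2 := hanti1 hik
      have h3 : r i * N * (2 * Real.pi) ≤ 18 * r k * N * Real.pi := by linarith
      have h4 : r i ≤ 9 * r k := by
        by_contra hc'
        push Not at hc'
        have h5 : 9 * r k * (N * Real.pi) < r i * (N * Real.pi) :=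
          mul_lt_mul_of_pos_right hc' (by positivity)
        nlinarith
      linarith [hr0 i]
    · intro k hkK j hjk
      have hj := hr0 j
      have hk' := hr0 k
      have h1 := mom_of_bL (N := N) (L := L) (h := h j) (B := B * A) (by positivity) (j := j) (k := k) (hL1 j)
        (by linarith [hL1 k]) (hk j (lt_trans hjk hkK))
      refine le_trans h1 ?_
      have h2 : L j / L k = r k / r j := by
        rw [hL]; simp only; field_simp
      rw [h2, div_eq_mul_one_div (10 * (B * A))]
      exact mul_le_mul_of_nonneg_left (ratio_rpow hr0 hr16 hjk.le) (by positivity)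
    · intro k hkK x
      have hk' := hr0 k
      have h1 := norm_ker_cut_le (N := N) (ρ := 3 * r k) (by positivity) (by linarith [hrk8 k])
        (by nlinarith [hN100 k hkK]) x
      rw [show 2 * (3 * r k) = 6 * r k by ring] at h1
      exact h1
    · intro k hkK a b ha hb'
      obtain ⟨a1, a2⟩ := hs k hkK a ha
      obtain ⟨b1, b2⟩ := hs k hkK b hb'
      have hk' := hr0 k
      apply cut_eq_one (by positivity)
      have hy0 : 0 < r k * N / (6 * Real.pi) := by positivity
      have hYb : 3 * r k * N / (2 * Real.pi) ≤ N / 8 := by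
        rw [div_le_div_iff₀ (by positivity) (by positivity)]
        nlinarith [hrk8 k]
      have hv : (a - b).valMinAbs = a.valMinAbs - b.valMinAbs := by
        apply valMinAbs_sub_of_lt
        · have : -(N:ℝ) < 2 * ((a.valMinAbs : ℝ) - b.valMinAbs) := by linarith
          exact_mod_cast this
        · have : 2 * ((a.valMinAbs : ℝ) - b.valMinAbs) ≤ (N:ℝ) := by linarith
          exact_mod_cast this
      rw [hv, abs_div, abs_mul, abs_of_pos (show (0:ℝ) < 2 * Real.pi by positivity), abs_of_pos hN]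
      rw [div_le_iff₀ hN]
      have h5 : |(((a.valMinAbs - b.valMinAbs : ℤ)) : ℝ)| ≤ 3 * r k * N / (2 * Real.pi) := by
        push_cast
        rw [abs_le]
        constructor <;> linarith
      rw [le_div_iff₀ (by positivity)] at h5
      linarith
  intro f
  have hTop : Top (fun j => ∑ k ∈ range K, h k j) f = fun x => ∑ k ∈ range K, Top (h k) f x := by
    funext x; exact Top_sum _ _ _ _
  rw [hTop]
  have hSpec : LacSpec N K y Y (fun k => Top (h k) f) := by
    refine ⟨?_, ?_, ?_, ?_, ?_, ?_⟩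
    · intro k; have := hr0 k; rw [hy]; positivity
    · intro k; have := hr0 k
      rw [hy, hY]; simp only
      rw [div_le_div_iff₀ (by positivity) (by positivity)]
      nlinarith [mul_pos this hN, mul_pos (mul_pos this hN) Real.pi_pos]
    · intro k
      have h1 := hr k
      have h2 := hr0 k
      rw [hy, hY]; simp only
      rw [div_div, div_le_div_iff₀ (by positivity) (by positivity)]
      calc 3 * r (k + 1) * N * (6 * Real.pi * 4) ≤ 3 * (r k / 64) * N * (6 * Real.pi * 4) := by
            apply mul_le_mul_of_nonneg_right _ (by positivity)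
            apply mul_le_mul_of_nonneg_right _ hN.le
            linarith
        _ = r k * N * (2 * Real.pi) * (36 / 64) := by ring
        _ ≤ r k * N * (2 * Real.pi) * 1 := by
            apply mul_le_mul_of_nonneg_left (by norm_num) (by positivity)
        _ = _ := by ring
    · rw [hY]; simp only
      rw [div_le_div_iff₀ (by positivity) (by positivity)]
      nlinarith
    · intro k hkK
      have := hN100 k hkK
      rw [hy]; simp only
      rw [le_div_iff₀ (by positivity)]
      nlinarith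
    · intro k hkK j hj
      rw [FT_Top] at hj
      exact hs k hkK j (left_ne_zero_of_mul hj)
  have hu := upper hSpec
  have hkA : ∀ k < K, ∀ x, ‖ker (h k) x‖ ≤ B * A * aL (L k) x := by
    intro k hkK x
    refine le_trans (hk k hkK x) ?_
    apply mul_le_mul_of_nonneg_left _ (by positivity)
    exact bL_le_aL (by linarith [hL1 k]) x
  have hl := lower_ker hLow (by positivity) hkA f
  apply n4_le_of_pow (D := CU * (6 * B ^ 2 * 192 + 2 * Cpsi * (2 + 2 * (10 * B) ^ 2) * 192) ^ 2)
    (mul_nonneg CU_pos.le (by positivity)) hA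
  refine le_trans hu ?_
  refine le_trans (mul_le_mul_of_nonneg_left hl CU_pos.le) (le_of_eq ?_)
  ring

/-- the centre `c` nearest to `e` -/
lemma exists_centre (N : ℕ) [NeZero N] (e : ℝ) : ∃ c : ℤ, |(c : ℝ) - e * N / (2 * Real.pi)| ≤ 1 / 2 := by
  refine ⟨round (e * N / (2 * Real.pi)), ?_⟩
  rw [abs_sub_comm]
  exact abs_sub_round _

/-- position of a translated sample point -/
lemma valMinAbs_sub_int {j : ZMod N} {c : ℤ} (h : |(j.valMinAbs : ℝ) - c| < N / 2) :
    (j - (c : ZMod N)).valMinAbs = j.valMinAbs - c := by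
  rw [ZMod.valMinAbs_spec]
  rw [abs_lt] at h
  constructor
  · push_cast; simp
  · constructor
    · have : (-(N:ℝ)) < ((j.valMinAbs - c : ℤ) : ℝ) * 2 := by push_cast; linarith
      exact_mod_cast this
    · have : ((j.valMinAbs - c : ℤ) : ℝ) * 2 ≤ (N:ℝ) := by push_cast; linarith
      exact_mod_cast this

lemma sum_mod8 {M : Type*} [AddCommMonoid M] (L : ℕ) (G : ℕ → M) :
    ∑ l ∈ range L, G l = ∑ i ∈ range 8, ∑ q ∈ range ((L + 7 - i) / 8), G (8 * q + i) := by
  rw [← Finset.sum_fiberwise_of_maps_to (s := range L) (t := range 8) (g := fun l => l % 8)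
    (fun l _ => by rw [mem_range]; omega)]
  apply Finset.sum_congr rfl
  intro i hi
  rw [mem_range] at hi
  apply Finset.sum_nbij' (fun l => l / 8) (fun q => 8 * q + i)
  · intro l hl
    rw [mem_filter, mem_range] at hl
    rw [mem_range]
    omega
  · intro q hq
    rw [mem_range] at hq
    rw [mem_filter, mem_range]
    omega
  · intro l hl
    rw [mem_filter, mem_range] at hl
    omega
  · intro q hq
    omega
  · intro l hl
    rw [mem_filter, mem_range] at hl
    congr 1
    omega

/-- the constant of one residue class -/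
def CM1 : ℝ := 1 + CU * (6 * (23040:ℝ) ^ 2 * 192 + 2 * Cpsi * (2 + 2 * (10 * 23040) ^ 2) * 192) ^ 2

lemma CM1_pos : 0 < CM1 := by
  unfold CM1
  have := CU_pos
  positivity

/-- one residue class of dyadic pieces -/
theorem mikhlin_class {L : ℕ} {e r₀ A : ℝ} {g : ℕ → ℝ → ℂ} (hr₀ : 0 < r₀) (hr8 : r₀ ≤ 1 / 8)
    (he : |e| ≤ 1) (hN100 : 100 ≤ N * (r₀ / 2 ^ L)) (hA : 0 ≤ A)
    (hs : ∀ l < L, ∀ s, g l s ≠ 0 → (r₀ / 2 ^ l) / 2 ≤ s - e ∧ s - e ≤ 2 * (r₀ / 2 ^ l))
    (hb : ∀ l < L, ∀ s, ‖g l s‖ ≤ A)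
    (hd : ∀ l < L, ∀ s t : ℝ, ‖g l (s + t) - 2 * g l s + g l (s - t)‖ ≤ A * t ^ 2 / (r₀ / 2 ^ l) ^ 2)
    (i : ℕ) :
    M4 (fun j : ZMod N => ∑ q ∈ range ((L + 7 - i) / 8), sym N (g (8 * q + i)) j) (CM1 * A) := by
  have hN : (0:ℝ) < N := by exact_mod_cast NeZero.pos N
  have hpi := Real.pi_gt_three
  have hpi4 := Real.pi_lt_d2
  obtain ⟨c, hc⟩ := exists_centre N e
  set K := (L + 7 - i) / 8 with hK
  have hlt : ∀ q < K, 8 * q + i < L := by intro q hq; omega
  set r : ℕ → ℝ := fun q => r₀ / 2 ^ (8 * q + i) with hr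
  have hr0 : ∀ q, 0 < r q := fun q => by rw [hr]; positivity
  have hrle : ∀ q, r q ≤ r₀ := by
    intro q
    rw [hr]; simp only
    apply div_le_self hr₀.le
    exact one_le_pow₀ (by norm_num)
  have hrL : ∀ q < K, r₀ / 2 ^ L ≤ r q := by
    intro q hq
    rw [hr]; simp only
    apply div_le_div_of_nonneg_left hr₀.le (by positivity)
    exact pow_le_pow_right₀ (by norm_num) (hlt q hq).le
  have hN100' : ∀ q < K, 100 ≤ N * r q := by
    intro q hq
    exact le_trans hN100 (mul_le_mul_of_nonneg_left (hrL q hq) hN.le)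
  set h : ℕ → ZMod N → ℂ := fun q m => sym N (g (8 * q + i)) (m + (c : ZMod N)) with hh
  have main : M4 (fun j => ∑ q ∈ range K, h q j) (CM1 * A) := by
    unfold CM1
    apply lac_pieces hA (by norm_num) hr0 _ (le_trans (hrle 0) hr8) hN100'
    · -- localisation
      intro q hq m hm
      rw [hh] at hm
      simp only [sym] at hm
      set j : ZMod N := m + (c : ZMod N) with hj
      obtain ⟨h1, h2⟩ := hs _ (hlt q hq) _ hm
      have hrq : r₀ / 2 ^ (8 * q + i) = r q := rfl
      rw [hrq] at h1 h2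
      have h100 := hN100' q hq
      have hrq8 : r q ≤ 1 / 8 := le_trans (hrle q) hr8
      have hc' := abs_le.mp hc
      -- rescale to integers
      have e1 : (j.valMinAbs : ℝ) - e * N / (2 * Real.pi)
          = (2 * Real.pi * (j.valMinAbs : ℝ) / N - e) * (N / (2 * Real.pi)) := by
        field_simp
      have hpos : 0 < N / (2 * Real.pi) := by positivity
      have h3 : r q / 2 * (N / (2 * Real.pi)) ≤ (j.valMinAbs : ℝ) - e * N / (2 * Real.pi) := by
        rw [e1]; exact mul_le_mul_of_nonneg_right h1 hpos.le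
      have h4 : (j.valMinAbs : ℝ) - e * N / (2 * Real.pi) ≤ 2 * r q * (N / (2 * Real.pi)) := by
        rw [e1]; exact mul_le_mul_of_nonneg_right h2 hpos.le
      have h5 : 15 ≤ r q * (N / (2 * Real.pi)) := by
        rw [← mul_div_assoc, le_div_iff₀ (by positivity)]
        nlinarith
      have h6 : r q * (N / (2 * Real.pi)) ≤ N / 32 := by
        rw [← mul_div_assoc, div_le_div_iff₀ (by positivity) (by positivity)]
        nlinarith
      have h7 : (j - (c : ZMod N)).valMinAbs = j.valMinAbs - c := by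
        apply valMinAbs_sub_int
        rw [abs_lt]
        constructor <;> linarith [hc'.1, hc'.2]
      have h8 : j - (c : ZMod N) = m := by rw [hj]; ring
      rw [h8] at h7
      rw [h7]
      push_cast
      have e2 : r q * N / (6 * Real.pi) = (r q * (N / (2 * Real.pi))) / 3 := by field_simp; ring
      have e3 : 3 * r q * N / (2 * Real.pi) = 3 * (r q * (N / (2 * Real.pi))) := by field_simp
      rw [e2, e3]
      constructor <;> linarith [hc'.1, hc'.2]
    · intro q hq m
      exact hb _ (hlt q hq) _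
    · intro q hq x
      have e1 : ‖ker (h q) x‖ = ‖ker (sym N (g (8 * q + i))) x‖ := by
        have h1 : h q = fun m => sym N (g (8 * q + i)) (m - (-(c : ZMod N))) := by
          funext m; rw [hh]; simp
        rw [h1, ker_translate, norm_mul, norm_ec, one_mul]
      rw [e1]
      have hrq8 : r q ≤ 1 / 8 := le_trans (hrle q) hr8
      have h100 := hN100' q hq
      have hrq0 := hr0 q
      have h2 := ker_bound_loc (N := N) (g (8 * q + i)) (x₀ := e) (r := 6 * r q) (A := 36 * A)
        (by linarith [hr0 q]) (by linarith) he (by nlinarith [hr0 q]) (by linarith) ?_ ?_ ?_ x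
      · calc _ ≤ _ := h2
          _ = _ := by ring
      · intro s hs'
        by_contra hne
        obtain ⟨a1, a2⟩ := hs _ (hlt q hq) s hne
        have hrq : r₀ / 2 ^ (8 * q + i) = r q := rfl
        rw [hrq] at a1 a2
        rw [abs_of_nonneg (by linarith)] at hs'
        linarith
      · intro s
        have := hb _ (hlt q hq) s
        linarith
      · intro s t
        refine le_trans (hd _ (hlt q hq) s t) (le_of_eq ?_)
        have hrq : r₀ / 2 ^ (8 * q + i) = r q := rfl
        rw [hrq]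
        field_simp; ring
    · intro q
      rw [hr]; simp only
      rw [show 8 * (q + 1) + i = (8 * q + i) + 8 by ring, pow_add, div_div]
      apply div_le_div_of_nonneg_left hr₀.le (by positivity)
      apply mul_le_mul_of_nonneg_left _ (by positivity)
      norm_num
  have := main.translate (c : ZMod N)
  apply this.congr
  intro j
  apply Finset.sum_congr rfl; intro q _
  rw [hh]; simp

/-- A8 -/
theorem mikhlin_proof : ∃ C : ℝ, 0 < C ∧ ∀ (N : ℕ) [NeZero N] (L : ℕ) (e r₀ A : ℝ) (g : ℕ → ℝ → ℂ),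
    0 < r₀ → r₀ ≤ 1 / 8 → |e| ≤ 1 → 100 ≤ N * (r₀ / 2 ^ L) → 0 ≤ A →
    (∀ l < L, ∀ s, g l s ≠ 0 → (r₀ / 2 ^ l) / 2 ≤ s - e ∧ s - e ≤ 2 * (r₀ / 2 ^ l)) →
    (∀ l < L, ∀ s, ‖g l s‖ ≤ A) →
    (∀ l < L, ∀ s t : ℝ, ‖g l (s + t) - 2 * g l s + g l (s - t)‖ ≤ A * t ^ 2 / (r₀ / 2 ^ l) ^ 2) →
    M4 (sym N (fun s => ∑ l ∈ range L, g l s)) (C * A) := by
  refine ⟨8 * CM1, by linarith [CM1_pos], ?_⟩
  intro N _ L e r₀ A g hr₀ hr8 he hN100 hA hs hb hd
  have h1 := M4.sum (range 8) (h := fun i (j : ZMod N) => ∑ q ∈ range ((L + 7 - i) / 8), sym N (g (8 * q + i)) j)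
    (C := fun _ => CM1 * A) (fun i _ => mikhlin_class hr₀ hr8 he hN100 hA hs hb hd i)
  have h2 : ∑ i ∈ range 8, CM1 * A = 8 * CM1 * A := by
    rw [Finset.sum_const, card_range, nsmul_eq_mul]; push_cast; ring
  rw [h2] at h1
  apply h1.congr
  intro j
  exact (sum_mod8 L (fun l => g l (2 * Real.pi * (j.valMinAbs : ℝ) / N))).symm

/-- A8, pieces to the left of `e` -/
theorem mikhlin_left_proof : ∃ C : ℝ, 0 < C ∧ ∀ (N : ℕ) [NeZero N] (L : ℕ) (e r₀ A : ℝ) (g : ℕ → ℝ → ℂ),
    0 < r₀ → r₀ ≤ 1 / 8 → |e| ≤ 1 → 100 ≤ N * (r₀ / 2 ^ L) → 0 ≤ A →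
    (∀ l < L, ∀ s, g l s ≠ 0 → (r₀ / 2 ^ l) / 2 ≤ e - s ∧ e - s ≤ 2 * (r₀ / 2 ^ l)) →
    (∀ l < L, ∀ s, ‖g l s‖ ≤ A) →
    (∀ l < L, ∀ s t : ℝ, ‖g l (s + t) - 2 * g l s + g l (s - t)‖ ≤ A * t ^ 2 / (r₀ / 2 ^ l) ^ 2) →
    M4 (sym N (fun s => ∑ l ∈ range L, g l s)) (C * A) := by
  obtain ⟨C, hC, H⟩ := mikhlin_proof
  refine ⟨C, hC, ?_⟩
  intro N _ L e r₀ A g hr₀ hr8 he hN100 hA hs hb hd
  have hN : (0:ℝ) < N := by exact_mod_cast NeZero.pos N
  have hpi := Real.pi_gt_three
  have h1 := H N L (-e) r₀ A (fun l s => g l (-s)) hr₀ hr8 (by rwa [abs_neg]) hN100 hA ?_ ?_ ?_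
  · have h2 := h1.neg_arg
    apply h2.congr
    intro j
    unfold sym
    simp only
    by_cases hj : 2 * j.valMinAbs = N
    · -- both values vanish
      have hv : (2 * (j.valMinAbs : ℝ)) = N := by exact_mod_cast hj
      have hneg : -j = j := by
        have : j + j = 0 := by
          have h3 : ((2 * j.valMinAbs : ℤ) : ZMod N) = ((N : ℤ) : ZMod N) := by rw [hj]
          push_cast at h3
          rw [ZMod.natCast_self] at h3
          rw [← two_mul]; simpa using h3
        exact neg_eq_of_add_eq_zero_left this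
      rw [hneg]
      have hpi' : 2 * Real.pi * (j.valMinAbs : ℝ) / N = Real.pi := by
        rw [div_eq_iff hN.ne']
        linear_combination Real.pi * hv
      rw [hpi']
      rw [Finset.sum_eq_zero, Finset.sum_eq_zero]
      · intro l hl
        by_contra hne
        obtain ⟨a1, a2⟩ := hs l (mem_range.mp hl) _ hne
        have : 0 < r₀ / 2 ^ l := by positivity
        have := (abs_le.mp he).2
        linarith
      · intro l hl
        by_contra hne
        obtain ⟨a1, a2⟩ := hs l (mem_range.mp hl) _ hne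
        have h4 : r₀ / 2 ^ l ≤ r₀ := div_le_self hr₀.le (one_le_pow₀ (by norm_num))
        have := (abs_le.mp he).1
        linarith
    · have hneg : (-j).valMinAbs = -j.valMinAbs := by
        rw [ZMod.valMinAbs_spec]
        have hb := valMinAbs_bound j
        constructor
        · push_cast; simp
        · constructor
          · have : 2 * j.valMinAbs < N := lt_of_le_of_ne hb.2 hj
            linarith
          · linarith [hb.1]
      rw [hneg]
      apply Finset.sum_congr rfl; intro l _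
      congr 1
      push_cast; ring
  · intro l hl s hne
    have := hs l hl (-s) hne
    constructor <;> linarith [this.1, this.2]
  · intro l hl s; exact hb l hl _
  · intro l hl s t
    have := hd l hl (-s) (-t)
    rw [neg_sq] at this
    refine le_trans (le_of_eq ?_) this
    congr 3
    · congr 1; ring
    · ring

end

end Pool.Agent.MP58366f
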