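import Mathlib
import Pool.Agent.MP58366f.Mikhlin

set_option linter.unusedSectionVars false

namespace Pool.Agent.MP58366f
open scoped BigOperators
open Finset

noncomputable section

variable {N : ℕ} [NeZero N]

/-- geometric data of the gluing theorem -/
structure GlueData (N K : ℕ) (c a : ℕ → ℝ) [NeZero N] : Prop where
  apos : ∀ k, 0 < a k
  ac : ∀ k, a k ≤ c k / 16
  cstep : ∀ k, c (k + 1) ≤ c k / 16
  c0 : c 0 ≤ 1 / 4
  astep : ∀ k, a (k + 1) ≤ a k / 16
  big : ∀ k < K, 100 ≤ N * a k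

lemma GlueData.cpos {K : ℕ} {c a : ℕ → ℝ} (G : GlueData N K c a) (k : ℕ) : 0 < c k := by
  have h1 := G.apos k
  have h2 := G.ac k
  linarith

lemma GlueData.clt {K : ℕ} {c a : ℕ → ℝ} (G : GlueData N K c a) {i k : ℕ} (h : i < k) :
    c k ≤ c i / 16 := by
  have h1 := ratio_pow G.cpos G.cstep h.le
  refine le_trans h1 ?_
  apply div_le_div_of_nonneg_left (G.cpos i).le (by norm_num)
  calc (16:ℝ) = 16 ^ 1 := (pow_one _).symm
    _ ≤ 16 ^ (k - i) := pow_le_pow_right₀ (by norm_num) (by omega)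

lemma GlueData.c_le {K : ℕ} {c a : ℕ → ℝ} (G : GlueData N K c a) (k : ℕ) : c k ≤ 1 / 4 := by
  rcases Nat.eq_zero_or_pos k with h | h
  · rw [h]; exact G.c0
  · have h1 := G.clt h
    have h2 := G.cpos 0
    have h3 := G.c0
    linarith

lemma GlueData.a_le {K : ℕ} {c a : ℕ → ℝ} (G : GlueData N K c a) (k : ℕ) : a k ≤ 1 / 64 := by
  have h1 := G.ac k
  have h2 := G.c_le k
  linarith

/-- nearest integer centre -/
def ctr (N : ℕ) (c : ℕ → ℝ) (k : ℕ) : ℤ := round (c k * N / (2 * Real.pi))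

lemma ctr_spec (N : ℕ) (c : ℕ → ℝ) (k : ℕ) : |((ctr N c k : ℤ) : ℝ) - c k * N / (2 * Real.pi)| ≤ 1 / 2 := by
  unfold ctr
  rw [abs_sub_comm]
  exact abs_sub_round _

/-- the auxiliary cut-offs -/
def Pk (N : ℕ) [NeZero N] (c a : ℕ → ℝ) (k : ℕ) (j : ZMod N) : ℂ :=
  cut N (3 * a k) (j - (ctr N c k : ZMod N))

lemma Pk_eq_one {K : ℕ} {c a : ℕ → ℝ} (G : GlueData N K c a) {k : ℕ} (hk : k < K) {j : ZMod N}
    (hj : |2 * Real.pi * (j.valMinAbs : ℝ) / N - c k| ≤ 2 * a k) : Pk N c a k j = 1 := by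
  have hN : (0:ℝ) < N := by exact_mod_cast NeZero.pos N
  have hpi := Real.pi_gt_three
  have hpi4 := Real.pi_lt_d2
  have ha := G.apos k
  have hbig := G.big k hk
  have hc := abs_le.mp (ctr_spec N c k)
  have ha64 := G.a_le k
  unfold Pk
  apply cut_eq_one (by positivity)
  -- rescale
  have e1 : (j.valMinAbs : ℝ) - c k * N / (2 * Real.pi)
      = (2 * Real.pi * (j.valMinAbs : ℝ) / N - c k) * (N / (2 * Real.pi)) := by field_simp
  have hpos : 0 < N / (2 * Real.pi) := by positivity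
  have h1 := abs_le.mp hj
  set u := a k * (N / (2 * Real.pi)) with hu
  have h15 : 15 ≤ u := by
    rw [hu, ← mul_div_assoc, le_div_iff₀ (by positivity)]
    nlinarith
  have huN : u ≤ N / 300 := by
    rw [hu, ← mul_div_assoc, div_le_div_iff₀ (by positivity) (by norm_num)]
    nlinarith
  have h2 : -(2 * u) ≤ (j.valMinAbs : ℝ) - c k * N / (2 * Real.pi) := by
    rw [e1]
    calc -(2 * u) = (-(2 * a k)) * (N / (2 * Real.pi)) := by rw [hu]; ring
      _ ≤ _ := mul_le_mul_of_nonneg_right h1.1 hpos.le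
  have h3 : (j.valMinAbs : ℝ) - c k * N / (2 * Real.pi) ≤ 2 * u := by
    rw [e1]
    calc _ ≤ (2 * a k) * (N / (2 * Real.pi)) := mul_le_mul_of_nonneg_right h1.2 hpos.le
      _ = _ := by rw [hu]; ring
  have hv : (j - ((ctr N c k : ℤ) : ZMod N)).valMinAbs = j.valMinAbs - ctr N c k := by
    apply valMinAbs_sub_int
    rw [abs_lt]
    constructor <;> linarith [hc.1, hc.2]
  rw [hv, abs_div, abs_mul, abs_of_pos (show (0:ℝ) < 2 * Real.pi by positivity), abs_of_pos hN,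
    div_le_iff₀ hN]
  have h4 : |((j.valMinAbs - ctr N c k : ℤ) : ℝ)| ≤ 3 * u := by
    push_cast
    rw [abs_le]
    constructor <;> linarith [hc.1, hc.2]
  calc 2 * Real.pi * |((j.valMinAbs - ctr N c k : ℤ) : ℝ)| ≤ 2 * Real.pi * (3 * u) :=
        mul_le_mul_of_nonneg_left h4 (by positivity)
    _ = 3 * a k * N := by rw [hu]; field_simp

/-- localisation of the cut-offs: relative position and absolute position -/
lemma Pk_supp {K : ℕ} {c a : ℕ → ℝ} (G : GlueData N K c a) {k : ℕ} (hk : k < K) {j : ZMod N}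
    (hj : Pk N c a k j ≠ 0) :
    nz (j - ((ctr N c k : ℤ) : ZMod N)) ≤ 6 * a k * (N / (2 * Real.pi)) ∧
    9 / 16 * (c k * (N / (2 * Real.pi))) ≤ (j.valMinAbs : ℝ) ∧
    (j.valMinAbs : ℝ) ≤ 23 / 16 * (c k * (N / (2 * Real.pi))) := by
  have hN : (0:ℝ) < N := by exact_mod_cast NeZero.pos N
  have hpi := Real.pi_gt_three
  have hpi4 := Real.pi_lt_d2
  have ha := G.apos k
  have hac := G.ac k
  have hcp := G.cpos k
  have hbig := G.big k hk
  have hc := abs_le.mp (ctr_spec N c k)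
  have ha64 := G.a_le k
  have hc4 := G.c_le k
  set m : ZMod N := j - ((ctr N c k : ℤ) : ZMod N) with hm
  have h1 : |2 * Real.pi * (m.valMinAbs : ℝ) / N| ≤ 2 * (3 * a k) := by
    by_contra hcon
    push Not at hcon
    exact hj (cut_eq_zero (by positivity) hcon.le)
  have h2 : nz m ≤ 6 * a k * (N / (2 * Real.pi)) := by
    unfold nz
    rw [abs_div, abs_mul, abs_of_pos (show (0:ℝ) < 2 * Real.pi by positivity), abs_of_pos hN,
      div_le_iff₀ hN] at h1
    rw [← mul_div_assoc, le_div_iff₀ (by positivity)]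
    linarith
  refine ⟨h2, ?_⟩
  set u := a k * (N / (2 * Real.pi)) with hu
  set w := c k * (N / (2 * Real.pi)) with hw
  have h15 : 15 ≤ u := by
    rw [hu, ← mul_div_assoc, le_div_iff₀ (by positivity)]
    nlinarith
  have huw : u ≤ w / 16 := by
    rw [hu, hw]
    have := mul_le_mul_of_nonneg_right hac (show 0 ≤ (N:ℝ) / (2 * Real.pi) by positivity)
    linarith
  have hwN : w ≤ N / 24 := by
    rw [hw, ← mul_div_assoc, div_le_div_iff₀ (by positivity) (by norm_num)]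
    nlinarith
  have hcw : c k * N / (2 * Real.pi) = w := by rw [hw]; ring
  rw [hcw] at hc
  have h2' : |(m.valMinAbs : ℝ)| ≤ 6 * u := by
    have : nz m = |(m.valMinAbs : ℝ)| := rfl
    rw [← this]; linarith
  have h3 := abs_le.mp h2'
  have hv : j.valMinAbs = m.valMinAbs + ctr N c k := by
    rw [ZMod.valMinAbs_spec]
    constructor
    · push_cast
      rw [hm]; ring
    · constructor
      · have : (-(N:ℝ)) < ((m.valMinAbs + ctr N c k : ℤ) : ℝ) * 2 := by push_cast; linarith [hc.1]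
        exact_mod_cast this
      · have : ((m.valMinAbs + ctr N c k : ℤ) : ℝ) * 2 ≤ (N:ℝ) := by push_cast; linarith [hc.2]
        exact_mod_cast this
  rw [hv]
  push_cast
  constructor <;> linarith [hc.1, hc.2]

lemma norm_ker_Pk {K : ℕ} {c a : ℕ → ℝ} (G : GlueData N K c a) {k : ℕ} (hk : k < K) (x : ZMod N) :
    ‖ker (Pk N c a k) x‖ ≤ 4 * Cpsi * bL (24 * a k)⁻¹ x := by
  have ha := G.apos k
  have ha64 := G.a_le k
  have hbig := G.big k hk
  have e1 : ‖ker (Pk N c a k) x‖ = ‖ker (cut N (3 * a k)) x‖ := by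
    have h1 : Pk N c a k = fun j => cut N (3 * a k) (j - (ctr N c k : ZMod N)) := rfl
    rw [h1, ker_translate, norm_mul, norm_ec, one_mul]
  rw [e1]
  have h2 := norm_ker_cut_le_b (N := N) (ρ := 3 * a k) (by positivity) (by linarith)
    (by nlinarith) x
  refine le_trans h2 ?_
  have h3 := bL_scale (N := N) (L := (24 * a k)⁻¹) (c := 4) (by positivity) (by norm_num) x
  have h4 : (2 * (3 * a k))⁻¹ = 4 * (24 * a k)⁻¹ := by field_simp; norm_num
  rw [h4]
  calc Cpsi * bL (4 * (24 * a k)⁻¹) x ≤ Cpsi * (4 * bL (24 * a k)⁻¹ x) :=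
        mul_le_mul_of_nonneg_left h3 Cpsi_pos.le
    _ = _ := by ring

/-- the cut-offs have disjoint supports -/
lemma Pk_disj {K : ℕ} {c a : ℕ → ℝ} (G : GlueData N K c a) {k : ℕ} (hk : k < K) {i : ℕ} (hi : i < k)
    (j : ZMod N) : Pk N c a i j = 0 ∨ Pk N c a k j = 0 := by
  have hN : (0:ℝ) < N := by exact_mod_cast NeZero.pos N
  by_contra hcon
  push Not at hcon
  obtain ⟨_, h1, _⟩ := Pk_supp G (lt_trans hi hk) hcon.1
  obtain ⟨_, _, h2⟩ := Pk_supp G hk hcon.2
  have h3 := G.clt hi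
  have h4 := G.cpos i
  have hpos : 0 < (N:ℝ) / (2 * Real.pi) := by have := Real.pi_pos; positivity
  have h5 : 9 / 16 * (c i * (N / (2 * Real.pi))) ≤ 23 / 16 * (c i / 16 * (N / (2 * Real.pi))) := by
    refine le_trans h1 (le_trans h2 ?_)
    have := mul_le_mul_of_nonneg_right h3 hpos.le
    linarith
  have h6 : 0 < c i * (N / (2 * Real.pi)) := by positivity
  linarith

lemma cut_diff {K : ℕ} {c a : ℕ → ℝ} (G : GlueData N K c a) {k : ℕ} (hk : k < K) {x y : ZMod N}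
    (hx : Pk N c a k x ≠ 0) (hy : Pk N c a k y ≠ 0) : cut N (12 * a k) (x - y) = 1 := by
  have hN : (0:ℝ) < N := by exact_mod_cast NeZero.pos N
  have hpi := Real.pi_pos
  have ha := G.apos k
  obtain ⟨h1, _, _⟩ := Pk_supp G hk hx
  obtain ⟨h2, _, _⟩ := Pk_supp G hk hy
  apply cut_eq_one (by positivity)
  rw [abs_div, abs_mul, abs_of_pos (show (0:ℝ) < 2 * Real.pi by positivity), abs_of_pos hN,
      div_le_iff₀ hN]
  have h3 : nz (x - y) ≤ 12 * a k * (N / (2 * Real.pi)) := by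
    have e : x - y = (x - ((ctr N c k : ℤ) : ZMod N)) + (((ctr N c k : ℤ) : ZMod N) - y) := by ring
    rw [e]
    refine le_trans (nz_add_le _ _) ?_
    rw [nz_sub_comm _ y]
    linarith
  have h4 : |((x - y).valMinAbs : ℝ)| ≤ 12 * a k * (N / (2 * Real.pi)) := h3
  calc 2 * Real.pi * |((x - y).valMinAbs : ℝ)| ≤ 2 * Real.pi * (12 * a k * (N / (2 * Real.pi))) :=
        mul_le_mul_of_nonneg_left h4 (by positivity)
    _ = 12 * a k * N := by field_simp

lemma L_one {K : ℕ} {c a : ℕ → ℝ} (G : GlueData N K c a) (k : ℕ) : 1 ≤ (24 * a k)⁻¹ := by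
  have ha := G.apos k
  have ha64 := G.a_le k
  exact (one_le_inv₀ (by positivity)).mpr (by linarith)

lemma kpsi_glue {K : ℕ} {c a : ℕ → ℝ} (G : GlueData N K c a) {k : ℕ} (hk : k < K) (x : ZMod N) :
    ‖ker (cut N (12 * a k)) x‖ ≤ Cpsi * aL (24 * a k)⁻¹ x := by
  have ha := G.apos k
  have ha64 := G.a_le k
  have hbig := G.big k hk
  have h1 := norm_ker_cut_le (N := N) (ρ := 12 * a k) (by positivity) (by linarith)
    (by nlinarith) x
  rw [show 2 * (12 * a k) = 24 * a k by ring] at h1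
  exact h1

/-- the square function of the cut-offs -/
lemma Pk_square {K : ℕ} {c a : ℕ → ℝ} (G : GlueData N K c a) (f : ZMod N → ℂ) :
    ∑ x, (∑ k ∈ range K, ‖Top (Pk N c a k) f x‖ ^ 2) ^ 2
      ≤ (6 * (4 * Cpsi) ^ 2 * 192 + 2 * Cpsi * (2 * 1 + 2 * (10 * (4 * Cpsi)) ^ 2) * 192) ^ 2
        * ∑ x, ‖f x‖ ^ 4 := by
  have hC := Cpsi_pos
  have hLow : LowHyp N K (fun k => (24 * a k)⁻¹) (Pk N c a) (fun k => cut N (12 * a k)) 1
      (10 * (4 * Cpsi)) Cpsi := by
    refine ⟨fun k _ => L_one G k, by norm_num, by positivity, hC.le, ?_, ?_, ?_, ?_⟩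
    · intro j
      have := sum_sq_le_of_disjoint (K := K) (h := Pk N c a) (A := 1) (fun k _ j => norm_cut_le _ _)
        (fun k hk i hi j => Pk_disj G hk hi j) j
      simpa using this
    · intro k hk j hj
      have h1 := mom_of_bL (N := N) (L := fun k => (24 * a k)⁻¹) (h := Pk N c a j) (B := 4 * Cpsi)
        (by positivity) (j := j) (k := k) (L_one G j)
        (by have := G.apos k; positivity) (norm_ker_Pk G (lt_trans hj hk))
      refine le_trans h1 ?_
      have h2 : (24 * a j)⁻¹ / (24 * a k)⁻¹ = a k / a j := by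
        have := G.apos k
        have := G.apos j
        field_simp
      rw [h2, div_eq_mul_one_div (10 * (4 * Cpsi))]
      exact mul_le_mul_of_nonneg_left (ratio_rpow G.apos G.astep hj.le) (by positivity)
    · intro k hk x; exact kpsi_glue G hk x
    · intro k hk x y hx hy; exact cut_diff G hk hx hy
  apply lower_ker hLow (by positivity)
  intro k hk x
  refine le_trans (norm_ker_Pk G hk x) ?_
  apply mul_le_mul_of_nonneg_left _ (by positivity)
  exact bL_le_aL (by have := G.apos k; positivity) x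

/-- the constant of the cut-off square function -/
def CP : ℝ := (6 * (4 * Cpsi) ^ 2 * 192 + 2 * Cpsi * (2 * 1 + 2 * (10 * (4 * Cpsi)) ^ 2) * 192) ^ 2

lemma CP_nonneg : 0 ≤ CP := by unfold CP; positivity

/-- A9 -/
theorem glue_core {K : ℕ} {c a Hm : ℕ → ℝ} {β : ℕ → ZMod N → ℂ} {Cb : ℝ} (_hCb : 0 ≤ Cb)
    (G : GlueData N K c a)
    (hs : ∀ k < K, ∀ j, β k j ≠ 0 → |2 * Real.pi * (j.valMinAbs : ℝ) / N - c k| ≤ 2 * a k)
    (hM : ∀ k < K, M4 (β k) Cb) (hb : ∀ k < K, ∀ j, ‖β k j‖ ≤ 2)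
    (hm : ∀ k < K, ∑ x, ‖ker (β k) x‖ * nz x ^ (3 / 4 : ℝ) ≤ Hm k)
    (hH : ∀ k, ∀ j < k, Hm j * a k ^ (3 / 4 : ℝ) ≤ 1 / 2 ^ (k - j)) :
    M4 (fun j => ∑ k ∈ range K, β k j)
      (1 + CU * (2 * (Cb ^ 4 * CP) + (2 * Cpsi * (2 * 2 ^ 2 + 2 * 24 ^ 2) * 192) ^ 2)) := by
  have hN : (0:ℝ) < N := by exact_mod_cast NeZero.pos N
  have hpi := Real.pi_gt_three
  have hpi4 := Real.pi_lt_d2
  have hC := Cpsi_pos
  have hPβ : ∀ k < K, ∀ j, β k j ≠ 0 → Pk N c a k j = 1 := fun k hk j hj => Pk_eq_one G hk (hs k hk j hj)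
  have hPβ' : ∀ k < K, ∀ j, β k j ≠ 0 → Pk N c a k j ≠ 0 := by
    intro k hk j hj; rw [hPβ k hk j hj]; exact one_ne_zero
  have hLow : LowHyp N K (fun k => (24 * a k)⁻¹) β (fun k => cut N (12 * a k)) (2 ^ 2)
      24 Cpsi := by
    refine ⟨fun k _ => L_one G k, by norm_num, by norm_num, hC.le, ?_, ?_, ?_, ?_⟩
    · apply sum_sq_le_of_disjoint hb
      intro k hk i hi j
      rcases Pk_disj G hk hi j with h | h
      · left; by_contra hne; exact hPβ' i (lt_trans hi hk) j hne h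
      · right; by_contra hne; exact hPβ' k hk j hne h
    · intro k hk j hj
      have ha := G.apos k
      have e1 : ∀ x : ZMod N, ‖ker (β j) x‖ * (nz x / (24 * a k)⁻¹) ^ (3 / 4 : ℝ)
          = (24 * a k) ^ (3 / 4 : ℝ) * (‖ker (β j) x‖ * nz x ^ (3 / 4 : ℝ)) := by
        intro x
        rw [div_inv_eq_mul, Real.mul_rpow (nz_nonneg x) (by positivity)]
        ring
      simp_rw [e1]
      rw [← Finset.mul_sum]
      have h24 : (24 : ℝ) ^ (3 / 4 : ℝ) ≤ 24 := by
        calc (24 : ℝ) ^ (3 / 4 : ℝ) ≤ 24 ^ (1 : ℝ) :=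
              Real.rpow_le_rpow_of_exponent_le (by norm_num) (by norm_num)
          _ = 24 := Real.rpow_one _
      have hHj := hm j (lt_trans hj hk)
      have hH' := hH k j hj
      have hap : 0 ≤ a k ^ (3 / 4 : ℝ) := by positivity
      rw [Real.mul_rpow (by norm_num) ha.le]
      calc 24 ^ (3 / 4 : ℝ) * a k ^ (3 / 4 : ℝ) * ∑ x, ‖ker (β j) x‖ * nz x ^ (3 / 4 : ℝ)
          ≤ 24 ^ (3 / 4 : ℝ) * a k ^ (3 / 4 : ℝ) * Hm j := mul_le_mul_of_nonneg_left hHj (by positivity)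
        _ = 24 ^ (3 / 4 : ℝ) * (Hm j * a k ^ (3 / 4 : ℝ)) := by ring
        _ ≤ 24 ^ (3 / 4 : ℝ) * (1 / 2 ^ (k - j)) := mul_le_mul_of_nonneg_left hH' (by positivity)
        _ ≤ 24 * (1 / 2 ^ (k - j)) := mul_le_mul_of_nonneg_right h24 (by positivity)
        _ = 24 / 2 ^ (k - j) := by ring
    · intro k hk x; exact kpsi_glue G hk x
    · intro k hk x y hx hy; exact cut_diff G hk (hPβ' k hk x hx) (hPβ' k hk y hy)
  intro f
  have hTop : Top (fun j => ∑ k ∈ range K, β k j) f = fun x => ∑ k ∈ range K, Top (β k) f x := by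
    funext x; exact Top_sum _ _ _ _
  rw [hTop]
  -- the diagonal terms
  have hdiag : ∑ k ∈ range K, ∑ x, ‖Top (β k) f x‖ ^ 4 ≤ (Cb ^ 4 * CP) * ∑ x, ‖f x‖ ^ 4 := by
    have b1 : ∀ k ∈ range K, ∑ x, ‖Top (β k) f x‖ ^ 4 ≤ Cb ^ 4 * ∑ x, ‖Top (Pk N c a k) f x‖ ^ 4 := by
      intro k hk
      rw [mem_range] at hk
      have e1 : Top (β k) f = Top (β k) (Top (Pk N c a k) f) := by
        rw [← Top_mul]
        congr 1
        funext j
        by_cases hj : β k j = 0
        · rw [hj]; ring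
        · rw [hPβ k hk j hj]; ring
      rw [e1, ← n4_pow, ← n4_pow, ← mul_pow]
      exact pow_le_pow_left₀ (n4_nonneg _) (hM k hk _) 4
    refine le_trans (Finset.sum_le_sum b1) ?_
    rw [← Finset.mul_sum, mul_assoc]
    apply mul_le_mul_of_nonneg_left _ (by positivity)
    refine le_trans ?_ (Pk_square G f)
    rw [Finset.sum_comm]
    apply Finset.sum_le_sum; intro x _
    have b2 : ∀ k ∈ range K, ‖Top (Pk N c a k) f x‖ ^ 4
        ≤ ‖Top (Pk N c a k) f x‖ ^ 2 * ∑ i ∈ range K, ‖Top (Pk N c a i) f x‖ ^ 2 := by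
      intro k hk
      have := Finset.single_le_sum (f := fun i => ‖Top (Pk N c a i) f x‖ ^ 2) (fun i _ => by positivity) hk
      calc ‖Top (Pk N c a k) f x‖ ^ 4 = ‖Top (Pk N c a k) f x‖ ^ 2 * ‖Top (Pk N c a k) f x‖ ^ 2 := by ring
        _ ≤ _ := mul_le_mul_of_nonneg_left this (by positivity)
    refine le_trans (Finset.sum_le_sum b2) ?_
    rw [← Finset.sum_mul, sq]
  have hl := lower' hLow (mul_nonneg (by positivity) CP_nonneg) f hdiag
  have hSpec : LacSpec N K (fun k => 7 / 8 * (c k * (N / (2 * Real.pi))))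
      (fun k => 9 / 8 * (c k * (N / (2 * Real.pi)))) (fun k => Top (β k) f) := by
    have hpos : 0 < (N:ℝ) / (2 * Real.pi) := by positivity
    refine ⟨?_, ?_, ?_, ?_, ?_, ?_⟩
    · intro k; have := G.cpos k; positivity
    · intro k; have := G.cpos k
      have : 0 < c k * (N / (2 * Real.pi)) := by positivity
      linarith
    · intro k; have h1 := G.cstep k
      have h2 := G.cpos k
      have h3 := mul_le_mul_of_nonneg_right h1 hpos.le
      have : 0 < c k * (N / (2 * Real.pi)) := by positivity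
      linarith
    · have h1 := G.c0
      have h2 : c 0 * (N / (2 * Real.pi)) ≤ N / 24 := by
        rw [← mul_div_assoc, div_le_div_iff₀ (by positivity) (by norm_num)]
        nlinarith
      linarith
    · intro k hk
      have h1 := G.big k hk
      have h2 := G.ac k
      have h3 : 15 ≤ c k * (N / (2 * Real.pi)) := by
        rw [← mul_div_assoc, le_div_iff₀ (by positivity)]
        nlinarith [G.cpos k]
      linarith
    · intro k hk j hj
      rw [FT_Top] at hj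
      have h1 := abs_le.mp (hs k hk j (left_ne_zero_of_mul hj))
      have h2 := G.ac k
      have e1 : (j.valMinAbs : ℝ) = (2 * Real.pi * (j.valMinAbs : ℝ) / N) * (N / (2 * Real.pi)) := by
        field_simp
      rw [e1]
      constructor
      · rw [← mul_assoc]
        apply mul_le_mul_of_nonneg_right _ hpos.le
        linarith
      · rw [← mul_assoc]
        apply mul_le_mul_of_nonneg_right _ hpos.le
        linarith
  have hu := upper hSpec
  have h1 : n4 (fun x => ∑ k ∈ range K, Top (β k) f x)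
      ≤ (1 + CU * (2 * (Cb ^ 4 * CP) + (2 * Cpsi * (2 * 2 ^ 2 + 2 * 24 ^ 2) * 192) ^ 2)) * 1 * n4 f := by
    apply n4_le_of_pow _ (by norm_num)
    · refine le_trans hu ?_
      refine le_trans (mul_le_mul_of_nonneg_left hl CU_pos.le) (le_of_eq ?_)
      ring
    · have := CU_pos
      have := CP_nonneg
      positivity
  rw [mul_one] at h1
  exact h1

/-- A9, in the form of the interface -/
theorem glue_proof : ∀ Cb : ℝ, 0 ≤ Cb → ∃ C : ℝ, 0 < C ∧ ∀ (N : ℕ) [NeZero N] (K : ℕ) (c a Hm : ℕ → ℝ)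
    (β : ℕ → ZMod N → ℂ),
    (∀ k, 0 < a k) → (∀ k, a k ≤ c k / 16) → (∀ k, c (k + 1) ≤ c k / 16) → c 0 ≤ 1 / 4 →
    (∀ k, a (k + 1) ≤ a k / 16) →
    (∀ k < K, ∀ j, β k j ≠ 0 → |2 * Real.pi * (j.valMinAbs : ℝ) / N - c k| ≤ 2 * a k) →
    (∀ k < K, M4 (β k) Cb) → (∀ k < K, ∀ j, ‖β k j‖ ≤ 2) →
    (∀ k < K, ∑ x, ‖ker (β k) x‖ * nz x ^ (3 / 4 : ℝ) ≤ Hm k) →
    (∀ k, ∀ j < k, Hm j * a k ^ (3 / 4 : ℝ) ≤ 1 / 2 ^ (k - j)) →
    (∀ k < K, 100 ≤ N * a k) →
    M4 (fun j => ∑ k ∈ range K, β k j) C := by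
  intro Cb hCb
  refine ⟨1 + CU * (2 * (Cb ^ 4 * CP) + (2 * Cpsi * (2 * 2 ^ 2 + 2 * 24 ^ 2) * 192) ^ 2), ?_, ?_⟩
  · have := CU_pos
    have := CP_nonneg
    positivity
  · intro N _ K c a Hm β h1 h2 h3 h4 h5 h6 h7 h8 h9 h10 h11
    exact glue_core hCb ⟨h1, h2, h3, h4, h5, h11⟩ h6 h7 h8 h9 h10

end

end Pool.Agent.MP58366f
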