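import Mathlib
import Pool.Agent.MP58366f.Glue

/-!
Part A for MP_58366f (frozen negation S04730), p = 4: kernel bounds, dyadic pieces, gluing (all proved).
-/

namespace Pool.Agent.MP58366f
open scoped BigOperators
open Finset Filter Topology

noncomputable section

/-- A5: a localized function with second differences bounded at scale `r`. -/
theorem ker_bound : ∃ C : ℝ, 0 < C ∧ ∀ (N : ℕ) [NeZero N] (H : ℝ → ℂ) (x₀ r A : ℝ),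
    0 < r → r ≤ 1 → |x₀| ≤ 1 → 1 ≤ N * r → 0 ≤ A →
    (∀ s, r < |s - x₀| → H s = 0) → (∀ s, ‖H s‖ ≤ A) →
    (∀ s t : ℝ, ‖H (s + t) - 2 * H s + H (s - t)‖ ≤ A * t ^ 2 / r ^ 2) →
    (∀ x : ZMod N, ‖ker (sym N H) x‖ ≤ C * A * (r⁻¹ / (r⁻¹ + nz x) ^ 2)) ∧ M4 (sym N H) (C * A) :=
  ker_bound_proof

/-- A5, periodic version (for the far piece) -/
theorem ker_bound_periodic : ∃ C : ℝ, 0 < C ∧ ∀ (N : ℕ) [NeZero N] (H : ℝ → ℂ) (A : ℝ),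
    0 ≤ A → (∀ s, H (s + 2 * Real.pi) = H s) → (∀ s, ‖H s‖ ≤ A) →
    (∀ s t : ℝ, ‖H (s + t) - 2 * H s + H (s - t)‖ ≤ A * t ^ 2) →
    (∀ x : ZMod N, ‖ker (sym N H) x‖ ≤ C * A * (1 / (1 + nz x) ^ 2)) ∧ M4 (sym N H) (C * A) :=
  ker_bound_periodic_proof

/-- A8: dyadic pieces to the right of `e` -/
theorem mikhlin : ∃ C : ℝ, 0 < C ∧ ∀ (N : ℕ) [NeZero N] (L : ℕ) (e r₀ A : ℝ) (g : ℕ → ℝ → ℂ),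
    0 < r₀ → r₀ ≤ 1 / 8 → |e| ≤ 1 → 100 ≤ N * (r₀ / 2 ^ L) → 0 ≤ A →
    (∀ l < L, ∀ s, g l s ≠ 0 → (r₀ / 2 ^ l) / 2 ≤ s - e ∧ s - e ≤ 2 * (r₀ / 2 ^ l)) →
    (∀ l < L, ∀ s, ‖g l s‖ ≤ A) →
    (∀ l < L, ∀ s t : ℝ, ‖g l (s + t) - 2 * g l s + g l (s - t)‖ ≤ A * t ^ 2 / (r₀ / 2 ^ l) ^ 2) →
    M4 (sym N (fun s => ∑ l ∈ range L, g l s)) (C * A) :=
  mikhlin_proof

/-- A8, dyadic pieces to the left of `e` -/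
theorem mikhlin_left : ∃ C : ℝ, 0 < C ∧ ∀ (N : ℕ) [NeZero N] (L : ℕ) (e r₀ A : ℝ) (g : ℕ → ℝ → ℂ),
    0 < r₀ → r₀ ≤ 1 / 8 → |e| ≤ 1 → 100 ≤ N * (r₀ / 2 ^ L) → 0 ≤ A →
    (∀ l < L, ∀ s, g l s ≠ 0 → (r₀ / 2 ^ l) / 2 ≤ e - s ∧ e - s ≤ 2 * (r₀ / 2 ^ l)) →
    (∀ l < L, ∀ s, ‖g l s‖ ≤ A) →
    (∀ l < L, ∀ s t : ℝ, ‖g l (s + t) - 2 * g l s + g l (s - t)‖ ≤ A * t ^ 2 / (r₀ / 2 ^ l) ^ 2) →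
    M4 (sym N (fun s => ∑ l ∈ range L, g l s)) (C * A) :=
  mikhlin_left_proof

/-- A9: gluing of super-lacunary windows -/
theorem glue : ∀ Cb : ℝ, 0 ≤ Cb → ∃ C : ℝ, 0 < C ∧ ∀ (N : ℕ) [NeZero N] (K : ℕ) (c a Hm : ℕ → ℝ)
    (β : ℕ → ZMod N → ℂ),
    (∀ k, 0 < a k) → (∀ k, a k ≤ c k / 16) → (∀ k, c (k + 1) ≤ c k / 16) → c 0 ≤ 1 / 4 →
    (∀ k, a (k + 1) ≤ a k / 16) →
    (∀ k < K, ∀ j, β k j ≠ 0 → |2 * Real.pi * (j.valMinAbs : ℝ) / N - c k| ≤ 2 * a k) →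
    (∀ k < K, M4 (β k) Cb) → (∀ k < K, ∀ j, ‖β k j‖ ≤ 2) →
    (∀ k < K, ∑ x, ‖ker (β k) x‖ * nz x ^ (3 / 4 : ℝ) ≤ Hm k) →
    (∀ k, ∀ j < k, Hm j * a k ^ (3 / 4 : ℝ) ≤ 1 / 2 ^ (k - j)) →
    (∀ k < K, 100 ≤ N * a k) →
    M4 (fun j => ∑ k ∈ range K, β k j) C :=
  glue_proof

end

end Pool.Agent.MP58366f
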