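import Mathlib
import Pool.Agent.MP58366f.Basic
import Pool.Agent.MP58366f.MNorm
import Pool.Agent.MP58366f.PartA

/-!
Part B of MP_58366f: existence of windows (finite Blaschke products localised near 1).
-/

set_option autoImplicit false

section part1
open Complex Polynomial

namespace Vb

noncomputable def aa (K i : ℕ) : ℝ := ((K:ℝ) + i + 1) / (200 * (K:ℝ)^2)

noncomputable def Pf (K M q : ℕ) (z : ℂ) : ℂ :=
  (∏ i ∈ Finset.range K, (z ^ M - (aa K i : ℂ))) - (1 - z ^ q) / 4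

noncomputable def Qf (K M q : ℕ) (z : ℂ) : ℂ :=
  (∏ i ∈ Finset.range K, (1 - (aa K i : ℂ) * z ^ M)) - (z ^ (K*M) - z ^ (K*M - q)) / 4

noncomputable def Pp (K M q : ℕ) : ℂ[X] :=
  (∏ i ∈ Finset.range K, (X ^ M - C (aa K i : ℂ))) - C (1/4) * (1 - X ^ q)

lemma aa_nonneg (K i : ℕ) : 0 ≤ aa K i := by unfold aa; positivity

lemma aa_le {K i : ℕ} (hi : i < K) : aa K i ≤ 1 / (100 * K) := by
  have hK : (0:ℝ) < K := by exact_mod_cast (lt_of_le_of_lt (Nat.zero_le _) hi)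
  have hi' : (i:ℝ) + 1 ≤ K := by exact_mod_cast hi
  unfold aa
  rw [div_le_div_iff₀ (by positivity) (by positivity)]
  nlinarith [hK, hi', mul_pos hK hK]

lemma aa_sum (K : ℕ) : ∑ i ∈ Finset.range K, aa K i ≤ 1/100 := by
  rcases Nat.eq_zero_or_pos K with rfl | hK
  · simp
  have hK' : (0:ℝ) < K := by exact_mod_cast hK
  calc ∑ i ∈ Finset.range K, aa K i ≤ ∑ i ∈ Finset.range K, 1 / (100 * (K:ℝ)) :=
        Finset.sum_le_sum fun i hi => aa_le (Finset.mem_range.1 hi)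
    _ = 1/100 := by simp; field_simp

lemma Pp_eval (K M q : ℕ) (z : ℂ) : (Pp K M q).eval z = Pf K M q z := by
  unfold Pp Pf
  simp [Polynomial.eval_prod]
  ring

lemma Pp_monic {K M q : ℕ} (hM : 0 < M) (hq : q < K * M) :
    (Pp K M q).Monic ∧ (Pp K M q).natDegree = K * M := by
  have h1 : (∏ i ∈ Finset.range K, ((X:ℂ[X]) ^ M - C (aa K i : ℂ))).Monic :=
    Polynomial.monic_prod_of_monic _ _ fun i _ => Polynomial.monic_X_pow_sub_C _ hM.ne'
  have h2 : (∏ i ∈ Finset.range K, ((X:ℂ[X]) ^ M - C (aa K i : ℂ))).natDegree = K * M := by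
    rw [Polynomial.natDegree_prod_of_monic _ _ fun i _ => Polynomial.monic_X_pow_sub_C _ hM.ne']
    simp [Polynomial.natDegree_X_pow_sub_C]
  have h3 : (C (1/4 : ℂ) * (1 - (X:ℂ[X]) ^ q)).natDegree ≤ q := by
    refine (Polynomial.natDegree_C_mul_le _ _).trans ?_
    refine (Polynomial.natDegree_sub_le _ _).trans ?_
    simp
  have h4 : (C (1/4 : ℂ) * (1 - (X:ℂ[X]) ^ q)).degree <
      (∏ i ∈ Finset.range K, ((X:ℂ[X]) ^ M - C (aa K i : ℂ))).degree := by
    apply Polynomial.degree_lt_degree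
    rw [h2]; exact lt_of_le_of_lt h3 hq
  refine ⟨h1.sub_of_left h4, ?_⟩
  unfold Pp
  rw [Polynomial.natDegree_sub_eq_left_of_natDegree_lt (by rw [h2]; exact lt_of_le_of_lt h3 hq), h2]

lemma A_norm {K M : ℕ} {z : ℂ} (hz : ‖z‖ ≤ 1) :
    ‖(∏ i ∈ Finset.range K, (1 - (aa K i : ℂ) * z ^ M)) - 1‖ ≤ 1/50 := by
  have h := Finset.norm_prod_one_add_sub_one_le (Finset.range K) (fun i => - ((aa K i : ℂ) * z ^ M))
  simp only [← sub_eq_add_neg] at h
  refine h.trans ?_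
  have h2 : ∑ i ∈ Finset.range K, ‖-((aa K i : ℂ) * z ^ M)‖ ≤ 1/100 := by
    refine le_trans (Finset.sum_le_sum fun i _ => ?_) (aa_sum K)
    rw [norm_neg, norm_mul, norm_pow, Complex.norm_real, Real.norm_of_nonneg (aa_nonneg K i)]
    exact mul_le_of_le_one_right (aa_nonneg K i) (pow_le_one₀ (norm_nonneg _) hz)
  have h3 : Real.exp (∑ i ∈ Finset.range K, ‖-((aa K i : ℂ) * z ^ M)‖) ≤ Real.exp (1/100) :=
    Real.exp_le_exp.2 h2
  have h4 : Real.exp (1/100) ≤ 1 + 1/50 := by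
    have := Real.exp_bound_div_one_sub_of_interval (x := 1/100) (by norm_num) (by norm_num)
    refine this.trans (by norm_num)
  linarith

lemma Q_norm {K M q : ℕ} {z : ℂ} (hz : ‖z‖ ≤ 1) : ‖Qf K M q z - 1‖ ≤ 13/25 := by
  have h1 := A_norm (K := K) (M := M) hz
  have h2 : ‖(z ^ (K*M) - z ^ (K*M - q)) / 4‖ ≤ 1/2 := by
    rw [norm_div]
    have h3 : ‖z ^ (K*M) - z ^ (K*M - q)‖ ≤ 2 := by
      refine (norm_sub_le _ _).trans ?_
      rw [norm_pow, norm_pow]
      have := pow_le_one₀ (n := K*M) (norm_nonneg _) hz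
      have := pow_le_one₀ (n := K*M-q) (norm_nonneg _) hz
      linarith
    have : ‖(4:ℂ)‖ = 4 := by simp
    rw [this]; linarith
  unfold Qf
  have : (∏ i ∈ Finset.range K, (1 - (aa K i : ℂ) * z ^ M)) - (z ^ (K*M) - z ^ (K*M - q)) / 4 - 1
      = ((∏ i ∈ Finset.range K, (1 - (aa K i : ℂ) * z ^ M)) - 1) - (z ^ (K*M) - z ^ (K*M - q)) / 4 := by
    ring
  rw [this]
  refine (norm_sub_le _ _).trans ?_
  linarith

/-- reflection identity -/
lemma PQ_refl {K M q : ℕ} (hq : q ≤ K * M) {z : ℂ} (hz : z ≠ 0) :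
    Qf K M q z = z ^ (K*M) * (starRingEnd ℂ) (Pf K M q (1 / (starRingEnd ℂ) z)) := by
  unfold Qf Pf
  simp only [map_sub, map_prod, map_div₀, map_one, map_pow, Complex.conj_conj, Complex.conj_ofReal]
  have h4 : (starRingEnd ℂ) 4 = 4 := by
    have := Complex.conj_ofReal 4
    simpa using this
  rw [h4, mul_sub]
  congr 1
  · rw [mul_comm K M, pow_mul]
    have : (z ^ M) ^ K = ∏ i ∈ Finset.range K, z ^ M := by simp
    rw [this, ← Finset.prod_mul_distrib]
    refine Finset.prod_congr rfl fun i _ => ?_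
    rw [one_div, inv_pow]
    have := pow_ne_zero M hz
    field_simp
  · have : z ^ (K*M) = z ^ (K*M - q) * z ^ q := by rw [← pow_add]; congr 1; omega
    rw [this, one_div, inv_pow]
    have := pow_ne_zero q hz
    field_simp

lemma P_zero_ne {K M q : ℕ} (hK : 0 < K) (hM : 0 < M) (hq : 0 < q) : Pf K M q 0 ≠ 0 := by
  unfold Pf
  rw [zero_pow hM.ne', zero_pow hq.ne']
  intro h
  have h1 : ‖∏ i ∈ Finset.range K, ((0:ℂ) - (aa K i : ℂ))‖ ≤ 1/100 := by
    rw [norm_prod]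
    have h2 : ∏ i ∈ Finset.range K, ‖(0:ℂ) - (aa K i : ℂ)‖ ≤ ∏ i ∈ Finset.range K, (1/100 : ℝ) := by
      refine Finset.prod_le_prod (fun i _ => norm_nonneg _) fun i hi => ?_
      rw [zero_sub, norm_neg, Complex.norm_real, Real.norm_of_nonneg (aa_nonneg K i)]
      refine (aa_le (Finset.mem_range.1 hi)).trans ?_
      have : (1:ℝ) ≤ K := by exact_mod_cast hK
      rw [div_le_div_iff₀ (by positivity) (by positivity)]
      linarith
    refine h2.trans ?_
    rw [Finset.prod_const, Finset.card_range]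
    calc (1/100:ℝ)^K ≤ (1/100)^1 := pow_le_pow_of_le_one (by norm_num) (by norm_num) hK
      _ = 1/100 := by norm_num
  have h3 : (∏ i ∈ Finset.range K, ((0:ℂ) - (aa K i : ℂ))) = 1/4 := by
    linear_combination h
  rw [h3] at h1
  norm_num at h1

lemma P_ne_of_one_le {K M q : ℕ} (hq : q ≤ K * M) {z : ℂ} (hz : 1 ≤ ‖z‖) : Pf K M q z ≠ 0 := by
  intro h
  have hz0 : z ≠ 0 := by rintro rfl; simp at hz; linarith
  set w : ℂ := 1 / (starRingEnd ℂ) z with hw
  have hw0 : w ≠ 0 := by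
    rw [hw]; simp [hz0]
  have hwz : 1 / (starRingEnd ℂ) w = z := by rw [hw]; simp
  have hw1 : ‖w‖ ≤ 1 := by
    rw [hw, norm_div, norm_one, RCLike.norm_conj]
    exact (div_le_one (by linarith)).2 hz
  have := PQ_refl (M := M) hq hw0
  rw [hwz, h] at this
  simp at this
  have h2 := Q_norm (K := K) (M := M) (q := q) hw1
  rw [this] at h2
  norm_num at h2

/-- The zeros. -/
noncomputable def Zr (K M q : ℕ) : Multiset ℂ := (Pp K M q).roots

lemma Zr_card {K M q : ℕ} (hM : 0 < M) (hq : q < K * M) : (Zr K M q).card = K * M := by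
  unfold Zr
  rw [IsAlgClosed.card_roots_eq_natDegree, (Pp_monic hM hq).2]

lemma mem_Zr {K M q : ℕ} (hM : 0 < M) (hq : q < K * M) {z : ℂ} : z ∈ Zr K M q ↔ Pf K M q z = 0 := by
  unfold Zr
  rw [Polynomial.mem_roots (Pp_monic hM hq).1.ne_zero, Polynomial.IsRoot.def, Pp_eval]

lemma Pf_eq_prod {K M q : ℕ} (hM : 0 < M) (hq : q < K * M) (z : ℂ) :
    Pf K M q z = ((Zr K M q).map fun w => z - w).prod := by
  rw [← Pp_eval]
  exact (IsAlgClosed.splits _).eval_eq_prod_roots_of_monic (Pp_monic hM hq).1 z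

lemma Zr_bd {K M q : ℕ} (hK : 0 < K) (hM : 0 < M) (hq0 : 0 < q) (hq : q < K * M) {z : ℂ}
    (hz : z ∈ Zr K M q) : z ≠ 0 ∧ ‖z‖ < 1 := by
  rw [mem_Zr hM hq] at hz
  constructor
  · rintro rfl; exact P_zero_ne hK hM hq0 hz
  · by_contra h
    push Not at h
    exact P_ne_of_one_le hq.le h hz

lemma Qf_eq_prod {K M q : ℕ} (hM : 0 < M) (hq : q < K * M) (z : ℂ) :
    Qf K M q z = ((Zr K M q).map fun w => 1 - (starRingEnd ℂ) w * z).prod := by
  rcases eq_or_ne z 0 with rfl | hz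
  · unfold Qf
    have h1 : K * M ≠ 0 := by omega
    have h2 : K * M - q ≠ 0 := by omega
    simp [hM.ne', h1, h2]
  · rw [PQ_refl hq.le hz, Pf_eq_prod hM hq, ← Zr_card hM hq]
    rw [map_multiset_prod, Multiset.map_map]
    have : z ^ (Zr K M q).card = ((Zr K M q).map fun _ => z).prod := by simp
    rw [this, ← Multiset.prod_map_mul]
    congr 1
    refine Multiset.map_congr rfl fun w _ => ?_
    simp
    field_simp

end Vb
end part1

section part2
open Complex Polynomial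

namespace Vb

noncomputable def tq (w ζ : ℂ) : ℝ := (1 - ‖w‖^2) * (1 - ‖ζ‖^2) / ‖1 - (starRingEnd ℂ) w * ζ‖^2

lemma norm_sq_id (w ζ : ℂ) : ‖1 - (starRingEnd ℂ) w * ζ‖^2 - ‖ζ - w‖^2 = (1 - ‖w‖^2) * (1 - ‖ζ‖^2) := by
  rw [← Complex.normSq_eq_norm_sq, ← Complex.normSq_eq_norm_sq, ← Complex.normSq_eq_norm_sq,
    ← Complex.normSq_eq_norm_sq]
  simp only [Complex.normSq_apply, Complex.sub_re, Complex.sub_im, Complex.mul_re, Complex.mul_im,
    Complex.conj_re, Complex.conj_im, Complex.one_re, Complex.one_im]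
  ring

lemma one_sub_ne {w ζ : ℂ} (hw : ‖w‖ < 1) (hζ : ‖ζ‖ ≤ 1) : 1 - (starRingEnd ℂ) w * ζ ≠ 0 := by
  intro h
  have h1 : (starRingEnd ℂ) w * ζ = 1 := by linear_combination -h
  have h2 : ‖(starRingEnd ℂ) w * ζ‖ = 1 := by rw [h1]; simp
  rw [norm_mul, RCLike.norm_conj] at h2
  have : ‖w‖ * ‖ζ‖ ≤ ‖w‖ := mul_le_of_le_one_right (norm_nonneg _) hζ
  linarith

lemma tq_nonneg {w ζ : ℂ} (hw : ‖w‖ < 1) (hζ : ‖ζ‖ ≤ 1) : 0 ≤ tq w ζ := by
  unfold tq
  have := norm_nonneg w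
  have := norm_nonneg ζ
  apply div_nonneg (mul_nonneg _ _) (by positivity)
  · nlinarith
  · nlinarith

lemma norm_sq_eq {w ζ : ℂ} (hw : ‖w‖ < 1) (hζ : ‖ζ‖ ≤ 1) :
    ‖ζ - w‖^2 = ‖1 - (starRingEnd ℂ) w * ζ‖^2 * (1 - tq w ζ) := by
  have h := one_sub_ne hw hζ
  have h2 : ‖1 - (starRingEnd ℂ) w * ζ‖^2 ≠ 0 := by positivity
  unfold tq
  rw [← norm_sq_id, mul_sub, mul_one, mul_div_cancel₀ _ h2]
  ring

lemma prod_le_exp (W : Multiset ℂ) (ζ : ℂ) (hW : ∀ w ∈ W, ‖w‖ < 1) (hζ : ‖ζ‖ ≤ 1) :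
    ‖(W.map fun w => ζ - w).prod‖^2 ≤
      ‖(W.map fun w => 1 - (starRingEnd ℂ) w * ζ).prod‖^2 * Real.exp (-(W.map fun w => tq w ζ).sum) := by
  induction W using Multiset.induction_on with
  | empty => simp
  | cons w W ih =>
    have ih' := ih fun w hw => hW w (Multiset.mem_cons_of_mem hw)
    simp only [Multiset.map_cons, Multiset.prod_cons, Multiset.sum_cons, norm_mul, mul_pow, neg_add,
      Real.exp_add]
    have hw := hW w (Multiset.mem_cons_self w W)
    rw [norm_sq_eq hw hζ]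
    have h1 : 1 - tq w ζ ≤ Real.exp (-(tq w ζ)) := by
      have := Real.add_one_le_exp (-(tq w ζ)); linarith
    have h2 : 0 ≤ 1 - tq w ζ := by
      have h3 := norm_sq_eq hw hζ
      have h4 : 0 < ‖1 - (starRingEnd ℂ) w * ζ‖^2 := by
        have := one_sub_ne hw hζ; positivity
      by_contra h5
      push Not at h5
      have : ‖1 - (starRingEnd ℂ) w * ζ‖^2 * (1 - tq w ζ) < 0 := mul_neg_of_pos_of_neg h4 h5
      have : 0 ≤ ‖ζ - w‖^2 := by positivity
      linarith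
    calc ‖1 - (starRingEnd ℂ) w * ζ‖ ^ 2 * (1 - tq w ζ) * ‖(W.map fun w => ζ - w).prod‖ ^ 2
        ≤ ‖1 - (starRingEnd ℂ) w * ζ‖ ^ 2 * Real.exp (-(tq w ζ)) *
          (‖(W.map fun w => 1 - (starRingEnd ℂ) w * ζ).prod‖^2 *
            Real.exp (-(W.map fun w => tq w ζ).sum)) := by
          apply mul_le_mul _ ih' (by positivity) (by positivity)
          exact mul_le_mul_of_nonneg_left h1 (by positivity)
      _ = _ := by ring

lemma exp_five : Real.exp (-5) ≤ 7/1000 := by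
  have h1 : (2.7:ℝ) ≤ Real.exp 1 := by
    have := Real.exp_one_gt_d9; linarith
  have h2 : Real.exp (-5) = (Real.exp 1 ^ 5)⁻¹ := by
    rw [← Real.exp_nat_mul, ← Real.exp_neg]; norm_num
  rw [h2]
  have h3 : (2.7:ℝ)^5 ≤ Real.exp 1 ^ 5 := pow_le_pow_left₀ (by norm_num) h1 5
  have h4 : (1000/7:ℝ) ≤ Real.exp 1 ^ 5 := by
    refine le_trans (by norm_num) h3
  have h5 : (Real.exp 1 ^ 5)⁻¹ ≤ (1000/7:ℝ)⁻¹ := inv_anti₀ (by norm_num) h4
  refine h5.trans (by norm_num)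

lemma sum_tq {K M q : ℕ} (hK : 0 < K) (hM : 0 < M) (hq0 : 0 < q) (hq : q < K * M) {ζ : ℂ}
    (hζ : ‖ζ‖ ≤ 1) (hP : 3/20 ≤ ‖Pf K M q ζ‖) :
    ((Zr K M q).map fun w => tq w ζ).sum ≤ 5 := by
  have h := prod_le_exp (Zr K M q) ζ (fun w hw => (Zr_bd hK hM hq0 hq hw).2) hζ
  rw [← Pf_eq_prod hM hq, ← Qf_eq_prod hM hq] at h
  have hQ : ‖Qf K M q ζ‖ ≤ 38/25 := by
    have := Q_norm (K := K) (M := M) (q := q) hζ
    calc ‖Qf K M q ζ‖ = ‖(Qf K M q ζ - 1) + 1‖ := by ring_nf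
      _ ≤ ‖Qf K M q ζ - 1‖ + ‖(1:ℂ)‖ := norm_add_le _ _
      _ ≤ 38/25 := by rw [norm_one]; linarith
  by_contra hlt
  push Not at hlt
  have h1 : Real.exp (-((Zr K M q).map fun w => tq w ζ).sum) ≤ 7/1000 :=
    (Real.exp_le_exp.2 (by linarith)).trans exp_five
  have h2 : (3/20:ℝ)^2 ≤ ‖Pf K M q ζ‖^2 := pow_le_pow_left₀ (by norm_num) hP 2
  have h3 : ‖Qf K M q ζ‖^2 ≤ (38/25:ℝ)^2 := pow_le_pow_left₀ (norm_nonneg _) hQ 2
  have h4 : ‖Qf K M q ζ‖^2 * Real.exp (-((Zr K M q).map fun w => tq w ζ).sum) ≤ (38/25:ℝ)^2 * (7/1000) :=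
    mul_le_mul h3 h1 (Real.exp_pos _).le (by norm_num)
  norm_num at h4 h2
  linarith

/-! ### lower bounds for `P` -/

lemma exp_e5 : Real.exp 5 ≤ 150 := by
  have h1 : Real.exp 1 ≤ 2.72 := by
    have := Real.exp_one_lt_d9; linarith
  have h2 : Real.exp 5 = Real.exp 1 ^ 5 := by
    rw [← Real.exp_nat_mul]; norm_num
  rw [h2]
  have h3 : Real.exp 1 ^ 5 ≤ (2.72:ℝ)^5 := pow_le_pow_left₀ (Real.exp_pos _).le h1 5
  refine h3.trans (by norm_num)

lemma exp_m72 : Real.exp (-(7/2)) ≤ 1/29 := by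
  have h1 : (2.7:ℝ) ≤ Real.exp 1 := by
    have := Real.exp_one_gt_d9; linarith
  have h2 : (3/2:ℝ) ≤ Real.exp (1/2) := by
    have := Real.add_one_le_exp (1/2:ℝ); linarith
  have h3 : Real.exp (7/2) = Real.exp 1 ^ 3 * Real.exp (1/2) := by
    rw [← Real.exp_nat_mul, ← Real.exp_add]; norm_num
  have h4 : (29:ℝ) ≤ Real.exp (7/2) := by
    rw [h3]
    have h5 : (2.7:ℝ)^3 ≤ Real.exp 1 ^ 3 := pow_le_pow_left₀ (by norm_num) h1 3
    calc (29:ℝ) ≤ (2.7)^3 * (3/2) := by norm_num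
      _ ≤ _ := mul_le_mul h5 h2 (by norm_num) (by positivity)
  rw [Real.exp_neg, one_div]
  exact inv_anti₀ (by norm_num) h4

lemma exp_m32 : Real.exp (-(3/2)) ≤ 1/4 := by
  have h1 : (2.7:ℝ) ≤ Real.exp 1 := by
    have := Real.exp_one_gt_d9; linarith
  have h2 : (3/2:ℝ) ≤ Real.exp (1/2) := by
    have := Real.add_one_le_exp (1/2:ℝ); linarith
  have h3 : Real.exp (3/2) = Real.exp 1 * Real.exp (1/2) := by
    rw [← Real.exp_add]; norm_num
  have h4 : (4:ℝ) ≤ Real.exp (3/2) := by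
    rw [h3]
    calc (4:ℝ) ≤ (2.7) * (3/2) := by norm_num
      _ ≤ _ := mul_le_mul h1 h2 (by norm_num) (by positivity)
  rw [Real.exp_neg, one_div]
  exact inv_anti₀ (by norm_num) h4

lemma A_small {K M : ℕ} (hK : 0 < K) {z : ℂ} {h : ℝ} (hz : ‖z‖ = 1 - h)
    (hD : 5 ≤ K * M * h) : ‖∏ i ∈ Finset.range K, (z ^ M - (aa K i : ℂ))‖ ≤ 1/29 := by
  have hK' : (0:ℝ) < K := by exact_mod_cast hK
  rw [norm_prod]
  have ht : ‖z‖^M ≤ Real.exp (-(5/K)) := by
    have h3 : ‖z‖ ≤ Real.exp (-h) := by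
      rw [hz]; have := Real.add_one_le_exp (-h); linarith
    calc ‖z‖^M ≤ (Real.exp (-h))^M := pow_le_pow_left₀ (norm_nonneg _) h3 M
      _ = Real.exp (-(M*h)) := by rw [← Real.exp_nat_mul]; ring_nf
      _ ≤ Real.exp (-(5/K)) := by
          apply Real.exp_le_exp.2
          rw [neg_le_neg_iff, div_le_iff₀ hK']
          linarith
  have hfac : ∀ i ∈ Finset.range K, ‖z ^ M - (aa K i : ℂ)‖ ≤
      Real.exp (-(5/K)) * Real.exp (Real.exp 5 * aa K i) := by
    intro i _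
    have ha := aa_nonneg K i
    calc ‖z ^ M - (aa K i : ℂ)‖ ≤ ‖z ^ M‖ + ‖(aa K i : ℂ)‖ := norm_sub_le _ _
      _ = ‖z‖^M + aa K i := by rw [norm_pow, Complex.norm_real, Real.norm_of_nonneg ha]
      _ ≤ Real.exp (-(5/K)) + Real.exp (-(5/K)) * (Real.exp 5 * aa K i) := by
          have h5 : 1 ≤ Real.exp (-(5/K)) * Real.exp 5 := by
            rw [← Real.exp_add]
            apply Real.one_le_exp
            have : (5:ℝ)/K ≤ 5 := by
              rw [div_le_iff₀ hK']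
              have : (1:ℝ) ≤ K := by exact_mod_cast hK
              linarith
            linarith
          have h6 : aa K i ≤ Real.exp (-(5/K)) * Real.exp 5 * aa K i := le_mul_of_one_le_left ha h5
          linarith
      _ = Real.exp (-(5/K)) * (Real.exp 5 * aa K i + 1) := by ring
      _ ≤ _ := mul_le_mul_of_nonneg_left (Real.add_one_le_exp _) (Real.exp_pos _).le
  refine (Finset.prod_le_prod (fun i _ => norm_nonneg _) hfac).trans ?_
  rw [Finset.prod_mul_distrib, Finset.prod_const, Finset.card_range, ← Real.exp_nat_mul,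
    ← Real.exp_sum, ← Finset.mul_sum, ← Real.exp_add]
  refine le_trans (Real.exp_le_exp.2 ?_) exp_m72
  have h7 : (K:ℝ) * -(5/K) = -5 := by field_simp
  rw [h7]
  have h8 : Real.exp 5 * ∑ i ∈ Finset.range K, aa K i ≤ 150 * (1/100) :=
    mul_le_mul exp_e5 (aa_sum K) (Finset.sum_nonneg fun i _ => aa_nonneg K i) (by norm_num)
  linarith

lemma P_lower {K M q : ℕ} (hK : 0 < K) {s h : ℝ} (h0 : 0 ≤ h) (h1 : h ≤ 1)
    (hD : 5 ≤ K * M * h) (hg : Real.cos (q * s) ≤ 0 ∨ 3/2 ≤ q * h) :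
    3/20 ≤ ‖Pf K M q ((1 - h : ℝ) * exp (s * I))‖ := by
  set z : ℂ := (1 - h : ℝ) * exp (s * I) with hz
  have hn : ‖z‖ = 1 - h := by
    rw [hz, norm_mul, Complex.norm_real, Complex.norm_exp_ofReal_mul_I, mul_one,
      Real.norm_of_nonneg (by linarith)]
  have hA := A_small hK hn hD
  have h4 : ‖(4:ℂ)‖ = 4 := by simp
  have hB : 3/4 ≤ ‖1 - z^q‖ := by
    rcases hg with hg | hg
    · have h2 : 1 ≤ (1 - z^q).re := by
        have h3 : z^q = (((1-h)^q * Real.cos (q*s) : ℝ) : ℂ) + (((1-h)^q * Real.sin (q*s) : ℝ) : ℂ) * I := by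
          rw [hz, mul_pow, ← Complex.exp_nat_mul]
          have h5 : (q:ℂ) * (s * I) = ((q * s : ℝ) : ℂ) * I := by push_cast; ring
          rw [h5, Complex.exp_mul_I, ← Complex.ofReal_cos, ← Complex.ofReal_sin]
          push_cast; ring
        rw [h3]
        simp only [Complex.sub_re, Complex.one_re, Complex.add_re, Complex.ofReal_re, Complex.mul_re,
          Complex.I_re, Complex.I_im, Complex.ofReal_im, mul_zero, zero_mul, sub_zero, add_zero]
        have h6 : 0 ≤ (1-h)^q := pow_nonneg (by linarith) q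
        nlinarith [mul_nonneg h6 (neg_nonneg.2 hg)]
      have := Complex.re_le_norm (1 - z^q)
      linarith
    · have h2 : ‖z^q‖ ≤ 1/4 := by
        rw [norm_pow, hn]
        have h3 : 1 - h ≤ Real.exp (-h) := by
          have := Real.add_one_le_exp (-h); linarith
        calc (1-h)^q ≤ (Real.exp (-h))^q := pow_le_pow_left₀ (by linarith) h3 q
          _ = Real.exp (-(q*h)) := by rw [← Real.exp_nat_mul]; ring_nf
          _ ≤ Real.exp (-(3/2)) := Real.exp_le_exp.2 (by linarith)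
          _ ≤ 1/4 := exp_m32
      have h3 : ‖(1:ℂ)‖ - ‖z^q‖ ≤ ‖1 - z^q‖ := norm_sub_norm_le _ _
      rw [norm_one] at h3
      linarith
  have hC : ‖(1 - z^q)/4‖ = ‖1 - z^q‖/4 := by rw [norm_div, h4]
  have hD' : ‖(1 - z^q)/4‖ - ‖∏ i ∈ Finset.range K, (z ^ M - (aa K i : ℂ))‖ ≤
      ‖(1 - z^q)/4 - ∏ i ∈ Finset.range K, (z ^ M - (aa K i : ℂ))‖ := norm_sub_norm_le _ _
  rw [norm_sub_rev] at hD'
  unfold Pf
  rw [hC] at hD'
  linarith

/-! ### location of the zeros -/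

lemma Zr_pow_le {K M q : ℕ} (hK : 0 < K) (hM : 0 < M) (hq0 : 0 < q) (hq : q < K * M) {z : ℂ}
    (hz : z ∈ Zr K M q) : ‖z‖ ^ (K*M) ≤ 3/4 := by
  have hz' := Zr_bd hK hM hq0 hq hz
  rw [mem_Zr hM hq] at hz
  by_contra hlt
  push Not at hlt
  have hn1 : ‖z‖ ≤ 1 := hz'.2.le
  have ht1 : ‖z‖^M ≤ 1 := pow_le_one₀ (norm_nonneg _) hn1
  have ht : 3/4 < ‖z‖^M := by
    have : ‖z‖^(K*M) ≤ ‖z‖^M := pow_le_pow_of_le_one (norm_nonneg _) hn1 (Nat.le_mul_of_pos_left M hK)
    linarith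
  have ht0 : 0 < ‖z‖^M := by linarith
  have hA : ‖∏ i ∈ Finset.range K, (z ^ M - (aa K i : ℂ))‖ ≤ 1/2 := by
    have h1 : ∏ i ∈ Finset.range K, (z ^ M - (aa K i : ℂ)) = (1 - z^q)/4 := by
      unfold Pf at hz; linear_combination hz
    rw [h1, norm_div]
    have h4 : ‖(4:ℂ)‖ = 4 := by simp
    rw [h4]
    have h5 : ‖1 - z^q‖ ≤ 2 := by
      refine (norm_sub_le _ _).trans ?_
      rw [norm_one, norm_pow]
      have := pow_le_one₀ (n := q) (norm_nonneg _) hn1
      linarith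
    linarith
  -- lower bound
  have hlow : ∀ s : Finset ℕ, (‖z‖^M)^(s.card) * (1 - ∑ i ∈ s, aa K i / ‖z‖^M) ≤ ‖∏ i ∈ s, (z ^ M - (aa K i : ℂ))‖ := by
    intro s
    have h1 : ∏ i ∈ s, (z ^ M - (aa K i : ℂ)) = ∏ i ∈ s, (z ^ M * (1 - (aa K i : ℂ) / z^M)) := by
      refine Finset.prod_congr rfl fun i _ => ?_
      have : z^M ≠ 0 := pow_ne_zero _ hz'.1
      field_simp
    rw [h1, Finset.prod_mul_distrib, norm_mul, Finset.prod_const, norm_pow, norm_pow]
    apply mul_le_mul_of_nonneg_left _ (by positivity)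
    induction s using Finset.induction_on with
    | empty => simp
    | insert a s ha ih =>
      rw [Finset.prod_insert ha, Finset.sum_insert ha, norm_mul]
      have h2 : 1 - aa K a / ‖z‖^M ≤ ‖1 - (aa K a : ℂ) / z^M‖ := by
        have h3 : ‖(1:ℂ)‖ - ‖(aa K a : ℂ) / z^M‖ ≤ ‖1 - (aa K a : ℂ) / z^M‖ := norm_sub_norm_le _ _
        rw [norm_one, norm_div, norm_pow, Complex.norm_real, Real.norm_of_nonneg (aa_nonneg K a)] at h3
        exact h3
      have h3 : 0 ≤ aa K a / ‖z‖^M := div_nonneg (aa_nonneg K a) ht0.le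
      have h4 : 0 ≤ ∑ i ∈ s, aa K i / ‖z‖^M := Finset.sum_nonneg fun i _ => div_nonneg (aa_nonneg K i) ht0.le
      have ih' := ih (by
        refine Finset.prod_congr rfl fun i _ => ?_
        have : z^M ≠ 0 := pow_ne_zero _ hz'.1
        field_simp)
      by_cases h5 : 1 - aa K a / ‖z‖^M ≤ 0
      · have : 1 - (aa K a / ‖z‖ ^ M + ∑ i ∈ s, aa K i / ‖z‖ ^ M) ≤ 0 := by linarith
        exact this.trans (by positivity)
      push Not at h5
      by_cases h6 : 1 - ∑ i ∈ s, aa K i / ‖z‖^M ≤ 0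
      · have : 1 - (aa K a / ‖z‖ ^ M + ∑ i ∈ s, aa K i / ‖z‖ ^ M) ≤ 0 := by linarith
        exact this.trans (by positivity)
      push Not at h6
      calc 1 - (aa K a / ‖z‖ ^ M + ∑ i ∈ s, aa K i / ‖z‖ ^ M)
          ≤ (1 - aa K a / ‖z‖ ^ M) * (1 - ∑ i ∈ s, aa K i / ‖z‖ ^ M) := by nlinarith [mul_nonneg h3 h4]
        _ ≤ _ := mul_le_mul h2 ih' h6.le (norm_nonneg _)
  have h2 := hlow (Finset.range K)
  rw [Finset.card_range, ← pow_mul, mul_comm M K, ← Finset.sum_div] at h2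
  have h3 : (∑ i ∈ Finset.range K, aa K i) / ‖z‖^M ≤ 1/75 := by
    rw [div_le_iff₀ ht0]
    have := aa_sum K
    linarith
  have h4 : 3/4 * (1 - 1/75) ≤ ‖z‖^(K*M) * (1 - (∑ i ∈ Finset.range K, aa K i) / ‖z‖^M) :=
    mul_le_mul hlt.le (by linarith) (by norm_num) (by positivity)
  norm_num at h4
  linarith

lemma Zr_dist {K M q : ℕ} (hK : 0 < K) (hM : 0 < M) (hq0 : 0 < q) (hq : q < K * M) {z : ℂ}
    (hz : z ∈ Zr K M q) : 1 ≤ 4 * (K * M) * (1 - ‖z‖) := by
  have h1 := Zr_pow_le hK hM hq0 hq hz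
  have h2 := one_add_mul_le_pow (a := ‖z‖ - 1) (by have := norm_nonneg z; linarith) (K*M)
  have h3 : 1 + (‖z‖ - 1) = ‖z‖ := by ring
  rw [h3] at h2
  push_cast at h2
  nlinarith

lemma Zr_pow_ge {K M q : ℕ} (hK : 0 < K) (hq0 : 0 < q) (hM : 5 * q ≤ M) {z : ℂ}
    (hz : z ∈ Zr K M q) : 1/2 ≤ ‖z‖ ^ q := by
  have hM0 : 0 < M := by omega
  have hq : q < K * M := by nlinarith
  have hz' := Zr_bd hK hM0 hq0 hq hz
  rw [mem_Zr hM0 hq] at hz
  by_contra hlt
  push Not at hlt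
  have hn1 : ‖z‖ ≤ 1 := hz'.2.le
  have hA : 1/8 ≤ ‖∏ i ∈ Finset.range K, (z ^ M - (aa K i : ℂ))‖ := by
    have h1 : ∏ i ∈ Finset.range K, (z ^ M - (aa K i : ℂ)) = (1 - z^q)/4 := by
      unfold Pf at hz; linear_combination hz
    rw [h1, norm_div]
    have h4 : ‖(4:ℂ)‖ = 4 := by simp
    rw [h4]
    have h5 : ‖(1:ℂ)‖ - ‖z^q‖ ≤ ‖1 - z^q‖ := norm_sub_norm_le _ _
    rw [norm_one, norm_pow] at h5
    linarith
  have ht : ‖z‖^M ≤ 1/32 := by
    calc ‖z‖^M ≤ ‖z‖^(5*q) := pow_le_pow_of_le_one (norm_nonneg _) hn1 hM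
      _ = (‖z‖^q)^5 := by rw [← pow_mul, mul_comm]
      _ ≤ (1/2)^5 := pow_le_pow_left₀ (by positivity) hlt.le 5
      _ = 1/32 := by norm_num
  have hB : ‖∏ i ∈ Finset.range K, (z ^ M - (aa K i : ℂ))‖ ≤ 1/20 := by
    rw [norm_prod]
    have h2 : ∏ i ∈ Finset.range K, ‖z^M - (aa K i : ℂ)‖ ≤ ∏ i ∈ Finset.range K, (1/20 : ℝ) := by
      refine Finset.prod_le_prod (fun i _ => norm_nonneg _) fun i hi => ?_
      refine (norm_sub_le _ _).trans ?_
      rw [norm_pow, Complex.norm_real, Real.norm_of_nonneg (aa_nonneg K i)]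
      have h3 := (aa_le (Finset.mem_range.1 hi))
      have h4 : (1:ℝ) / (100 * K) ≤ 1/100 := by
        have : (1:ℝ) ≤ K := by exact_mod_cast hK
        rw [div_le_div_iff₀ (by positivity) (by positivity)]
        linarith
      linarith
    refine h2.trans ?_
    rw [Finset.prod_const, Finset.card_range]
    calc (1/20:ℝ)^K ≤ (1/20)^1 := pow_le_pow_of_le_one (by norm_num) (by norm_num) hK
      _ = 1/20 := by norm_num
  linarith

lemma Zr_near {K M q : ℕ} (hK : 0 < K) (hq0 : 0 < q) (hM : 5 * q ≤ M) {z : ℂ}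
    (hz : z ∈ Zr K M q) : q * (1 - ‖z‖) ≤ 1 := by
  have h1 := Zr_pow_ge hK hq0 hM hz
  by_contra hlt
  push Not at hlt
  have h2 : ‖z‖ ≤ Real.exp (-(1-‖z‖)) := by
    have := Real.add_one_le_exp (-(1 - ‖z‖)); linarith
  have h3 : ‖z‖^q ≤ Real.exp (-1) := by
    calc ‖z‖^q ≤ (Real.exp (-(1-‖z‖)))^q := pow_le_pow_left₀ (norm_nonneg _) h2 q
      _ = Real.exp (-(q*(1-‖z‖))) := by rw [← Real.exp_nat_mul]; ring_nf
      _ ≤ Real.exp (-1) := Real.exp_le_exp.2 (by linarith)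
  have h4 : Real.exp (-1) < 1/2 := by
    rw [Real.exp_neg, one_div]
    have := Real.exp_one_gt_d9
    exact inv_strictAnti₀ (by norm_num) (by linarith)
  linarith

end Vb
end part2

section part3
open Complex Polynomial
open Pool.Agent.MP58366f (bl)

namespace Vb

/-! ### sub-multisets -/

lemma sum_filter_le (Z : Multiset ℂ) (p : ℂ → Prop) [DecidablePred p] (f : ℂ → ℝ) (hf : ∀ w ∈ Z, 0 ≤ f w) :
    ((Z.filter p).map f).sum ≤ (Z.map f).sum := by
  have h := Multiset.filter_add_not p Z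
  conv_rhs => rw [← h]
  rw [Multiset.map_add, Multiset.sum_add]
  have : 0 ≤ ((Z.filter fun a => ¬ p a).map f).sum := by
    apply Multiset.sum_nonneg
    intro x hx
    obtain ⟨w, hw, rfl⟩ := Multiset.mem_map.1 hx
    exact hf w (Multiset.mem_of_mem_filter hw)
  linarith

lemma sum_map_le_mul (W : Multiset ℂ) (f g : ℂ → ℝ) (c : ℝ) (h : ∀ w ∈ W, f w ≤ c * g w) :
    (W.map f).sum ≤ c * (W.map g).sum := by
  rw [← Multiset.sum_map_mul_left]
  exact Multiset.sum_map_le_sum_map _ _ h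

open Classical in
noncomputable def Wn (K M q : ℕ) : Multiset ℂ := (Zr K M q).filter fun w => |arg w| ≤ Real.pi / q

open Classical in
noncomputable def Wc (K M q : ℕ) : Multiset ℂ := (Zr K M q).filter fun w => ¬ |arg w| ≤ Real.pi / q

lemma Wn_add_Wc (K M q : ℕ) : Wn K M q + Wc K M q = Zr K M q := by
  classical
  unfold Wn Wc
  convert Multiset.filter_add_not (fun w : ℂ => |arg w| ≤ Real.pi / q) (Zr K M q)

lemma Wn_sub {K M q : ℕ} {w : ℂ} (h : w ∈ Wn K M q) : w ∈ Zr K M q := by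
  classical
  unfold Wn at h; exact Multiset.mem_of_mem_filter h

lemma Wc_sub {K M q : ℕ} {w : ℂ} (h : w ∈ Wc K M q) : w ∈ Zr K M q := by
  classical
  unfold Wc at h; exact Multiset.mem_of_mem_filter h

lemma Wn_arg {K M q : ℕ} {w : ℂ} (h : w ∈ Wn K M q) : |arg w| ≤ Real.pi / q := by
  classical
  unfold Wn at h; exact (Multiset.mem_filter.1 h).2

lemma Wc_arg {K M q : ℕ} {w : ℂ} (h : w ∈ Wc K M q) : Real.pi / q < |arg w| := by
  classical
  unfold Wc at h; exact not_le.1 (Multiset.mem_filter.1 h).2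

lemma sum_Wn_le {K M q : ℕ} {f : ℂ → ℝ} (hf : ∀ w ∈ Zr K M q, 0 ≤ f w) :
    ((Wn K M q).map f).sum ≤ ((Zr K M q).map f).sum := by
  classical
  unfold Wn; exact sum_filter_le _ _ _ hf

lemma sum_Wc_le {K M q : ℕ} {f : ℂ → ℝ} (hf : ∀ w ∈ Zr K M q, 0 ≤ f w) :
    ((Wc K M q).map f).sum ≤ ((Zr K M q).map f).sum := by
  classical
  unfold Wc; exact sum_filter_le _ _ _ hf

lemma norm_one_sub_le {w : ℂ} (hw : ‖w‖ ≤ 1) : ‖1 - w‖ ≤ (1 - ‖w‖) + |arg w| := by
  have h1 : w = (‖w‖ : ℂ) * exp (arg w * I) := (Complex.norm_mul_exp_arg_mul_I w).symm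
  have h2 : ‖exp (arg w * I) - 1‖ ≤ |arg w| := by
    have := Real.norm_exp_I_mul_ofReal_sub_one_le (x := arg w)
    rwa [mul_comm, Real.norm_eq_abs] at this
  have h3 : 1 - w = -(exp (arg w * I) - 1) + (1 - ‖w‖ : ℝ) * exp (arg w * I) := by
    nth_rewrite 1 [h1]; push_cast; ring
  rw [h3]
  refine (norm_add_le _ _).trans ?_
  rw [norm_neg, norm_mul, Complex.norm_real, Complex.norm_exp_ofReal_mul_I, mul_one,
    Real.norm_of_nonneg (by linarith)]
  linarith

lemma Wn_near {K M q : ℕ} (hK : 0 < K) (hq0 : 0 < q) (hM : 5 * q ≤ M) {w : ℂ}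
    (hw : w ∈ Wn K M q) : ‖1 - w‖ ≤ 5 / q := by
  have hM0 : 0 < M := by omega
  have hq : q < K * M := by nlinarith
  have h1 := (Zr_bd hK hM0 hq0 hq (Wn_sub hw)).2
  have h2 := Zr_near hK hq0 hM (Wn_sub hw)
  have h3 := Wn_arg hw
  have hq' : (0:ℝ) < q := by exact_mod_cast hq0
  refine (norm_one_sub_le h1.le).trans ?_
  have h4 : 1 - ‖w‖ ≤ 1 / q := by
    rw [le_div_iff₀ hq']; linarith
  have h5 : Real.pi / q ≤ 4 / q := by
    apply div_le_div_of_nonneg_right Real.pi_le_four hq'.le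
  calc 1 - ‖w‖ + |arg w| ≤ 1/q + 4/q := by linarith
    _ = 5/q := by ring

lemma mass {K M q : ℕ} (hK : 0 < K) (hq0 : 2 ≤ q) (hM : 5 * q ≤ M) :
    ((Wn K M q).map fun w => 1 - ‖w‖).sum ≤ 240 / q := by
  have hM0 : 0 < M := by omega
  have hq : q < K * M := by nlinarith
  have hq' : (0:ℝ) < q := by exact_mod_cast (by omega : 0 < q)
  have hq2 : (2:ℝ) ≤ q := by exact_mod_cast hq0
  set h : ℝ := 3 / (2 * q) with hh
  have hh0 : 0 < h := by positivity
  have hh1 : h ≤ 1 := by rw [hh, div_le_one (by positivity)]; linarith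
  set ζ : ℂ := (1 - h : ℝ) * exp ((0:ℝ) * I) with hζ
  have hζ1 : ζ = ((1 - h : ℝ) : ℂ) := by rw [hζ]; simp
  have hζn : ‖ζ‖ = 1 - h := by
    rw [hζ1, Complex.norm_real, Real.norm_of_nonneg (by linarith)]
  have hP : 3/20 ≤ ‖Pf K M q ζ‖ := by
    apply P_lower hK hh0.le hh1
    · have h1 : (5 * q : ℝ) ≤ M := by exact_mod_cast hM
      have h2 : (1:ℝ) ≤ K := by exact_mod_cast hK
      rw [hh]
      have : (K:ℝ) * M * (3 / (2*q)) = K * M * 3 / (2 * q) := by ring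
      rw [this, le_div_iff₀ (by positivity)]
      nlinarith
    · right; rw [hh]; field_simp; norm_num
  have hs := sum_tq hK hM0 (by omega) hq (by rw [hζn]; linarith) hP
  have hnn : ∀ w ∈ Zr K M q, 0 ≤ tq w ζ := fun w hw =>
    tq_nonneg (Zr_bd hK hM0 (by omega) hq hw).2 (by rw [hζn]; linarith)
  have hs2 := (sum_Wn_le hnn).trans hs
  have hmain : ∀ w ∈ Wn K M q, 1 - ‖w‖ ≤ (48 / q) * tq w ζ := by
    intro w hw
    have hwb := (Zr_bd hK hM0 (by omega) hq (Wn_sub hw)).2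
    have hnear := Wn_near hK (by omega) hM hw
    have hden : ‖1 - (starRingEnd ℂ) w * ζ‖ ≤ 7 / q := by
      have e1 : 1 - (starRingEnd ℂ) w * ζ = (starRingEnd ℂ) (1 - w) + (starRingEnd ℂ) w * (h:ℂ) := by
        rw [hζ1, map_sub, map_one]; push_cast; ring
      rw [e1]
      refine (norm_add_le _ _).trans ?_
      rw [RCLike.norm_conj, norm_mul, RCLike.norm_conj, Complex.norm_real, Real.norm_of_nonneg hh0.le]
      have h3 : ‖w‖ * h ≤ h := mul_le_of_le_one_left hh0.le hwb.le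
      have h4 : h ≤ 2 / q := by
        rw [hh, div_le_div_iff₀ (by positivity) hq']; nlinarith
      have h5 : (5:ℝ)/q + 2/q = 7/q := by ring
      linarith
    have hpos : 0 < ‖1 - (starRingEnd ℂ) w * ζ‖ := by
      have := one_sub_ne hwb (by rw [hζn]; linarith : ‖ζ‖ ≤ 1); positivity
    unfold tq
    rw [hζn, ← mul_div_assoc, le_div_iff₀ (by positivity)]
    have h6 : ‖1 - (starRingEnd ℂ) w * ζ‖^2 ≤ (7/q)^2 := pow_le_pow_left₀ (norm_nonneg _) hden 2
    have h7 : h ≤ 1 - (1-h)^2 := by nlinarith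
    have h8 : 1 - ‖w‖ ≤ 1 - ‖w‖^2 := by nlinarith [norm_nonneg w]
    have h9 : 0 ≤ 1 - ‖w‖ := by linarith
    calc (1 - ‖w‖) * ‖1 - (starRingEnd ℂ) w * ζ‖ ^ 2 ≤ (1 - ‖w‖) * (7/q)^2 :=
          mul_le_mul_of_nonneg_left h6 h9
      _ ≤ (1 - ‖w‖) * ((48/q) * h) := by
          apply mul_le_mul_of_nonneg_left _ h9
          rw [hh]
          rw [div_pow, div_mul_div_comm, div_le_div_iff₀ (by positivity) (by positivity)]
          nlinarith [mul_pos hq' hq']
      _ = (48/q) * ((1 - ‖w‖) * h) := by ring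
      _ ≤ (48/q) * ((1 - ‖w‖^2) * (1 - (1-h)^2)) := by
          apply mul_le_mul_of_nonneg_left _ (by positivity)
          exact mul_le_mul h8 h7 hh0.le (by linarith)
  calc ((Wn K M q).map fun w => 1 - ‖w‖).sum ≤ (48/q) * ((Wn K M q).map fun w => tq w ζ).sum :=
        sum_map_le_mul _ _ _ _ hmain
    _ ≤ (48/q) * 5 := mul_le_mul_of_nonneg_left hs2 (by positivity)
    _ = 240 / q := by ring

/-! ### Poisson kernels -/

noncomputable def Pk (w : ℂ) (s : ℝ) : ℝ := (1 - ‖w‖^2) / ‖exp (s * I) - w‖^2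

lemma exp_sub_ne {w : ℂ} (hw : ‖w‖ < 1) (s : ℝ) : exp (s * I) - w ≠ 0 := by
  intro h
  have : exp (s * I) = w := by linear_combination h
  rw [← this, Complex.norm_exp_ofReal_mul_I] at hw
  exact lt_irrefl _ hw

lemma Pk_nonneg {w : ℂ} (hw : ‖w‖ < 1) (s : ℝ) : 0 ≤ Pk w s := by
  unfold Pk
  apply div_nonneg _ (by positivity)
  nlinarith [norm_nonneg w]

lemma Pk_le_tq {w : ℂ} (hw : ‖w‖ < 1) {s x c : ℝ} (hx0 : 0 < x) (hx1 : x ≤ 1)
    (h : x ≤ c * ‖exp (s * I) - w‖) :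
    Pk w s ≤ (1 + c)^2 / x * tq w ((1 - x : ℝ) * exp (s * I)) := by
  set ζ : ℂ := (1 - x : ℝ) * exp (s * I) with hζ
  have hζn : ‖ζ‖ = 1 - x := by
    rw [hζ, norm_mul, Complex.norm_real, Complex.norm_exp_ofReal_mul_I, mul_one,
      Real.norm_of_nonneg (by linarith)]
  set N := ‖exp (s * I) - w‖ with hN
  have hNpos : 0 < N := norm_pos_iff.2 (exp_sub_ne hw s)
  have hden : ‖1 - (starRingEnd ℂ) w * ζ‖ ≤ (1 + c) * N := by
    have e0 : (starRingEnd ℂ) (exp (s * I)) * exp (s * I) = 1 := by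
      rw [← Complex.normSq_eq_conj_mul_self, Complex.normSq_eq_norm_sq, Complex.norm_exp_ofReal_mul_I]
      simp
    have e1 : 1 - (starRingEnd ℂ) w * ζ = (starRingEnd ℂ) (exp (s * I) - w) * exp (s * I)
        + (starRingEnd ℂ) w * exp (s*I) * (x:ℂ) := by
      rw [hζ, map_sub]; push_cast; linear_combination -e0
    rw [e1]
    refine (norm_add_le _ _).trans ?_
    rw [norm_mul, norm_mul, norm_mul, RCLike.norm_conj, RCLike.norm_conj, Complex.norm_exp_ofReal_mul_I,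
      mul_one, mul_one, Complex.norm_real, Real.norm_of_nonneg hx0.le]
    have : ‖w‖ * x ≤ x := mul_le_of_le_one_left hx0.le hw.le
    linarith
  have hpos : 0 < ‖1 - (starRingEnd ℂ) w * ζ‖ := by
    have := one_sub_ne hw (by rw [hζn]; linarith : ‖ζ‖ ≤ 1); positivity
  have hw2 : 0 ≤ 1 - ‖w‖^2 := by nlinarith [norm_nonneg w]
  have h1 : x ≤ 1 - ‖ζ‖^2 := by rw [hζn]; nlinarith
  unfold Pk tq
  rw [← hN, div_mul_div_comm, div_le_div_iff₀ (by positivity) (by positivity)]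
  have h2 : ‖1 - (starRingEnd ℂ) w * ζ‖^2 ≤ ((1 + c) * N)^2 := pow_le_pow_left₀ (norm_nonneg _) hden 2
  calc (1 - ‖w‖^2) * (x * ‖1 - (starRingEnd ℂ) w * ζ‖ ^ 2)
      ≤ (1 - ‖w‖^2) * ((1 - ‖ζ‖^2) * ((1 + c) * N)^2) := by
        apply mul_le_mul_of_nonneg_left _ hw2
        exact mul_le_mul h1 h2 (by positivity) (by linarith)
    _ = _ := by ring

/-- general bound for the sum of Poisson kernels over a part of the zeros -/
lemma Pk_sum {K M q : ℕ} (hK : 0 < K) (hM : 0 < M) (hq0 : 0 < q) (hq : q < K * M) {W : Multiset ℂ}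
    (hW : W = Zr K M q ∨ W = Wn K M q ∨ W = Wc K M q)
    {s x c : ℝ} (hx0 : 0 < x) (hx1 : x ≤ 1)
    (hD : 5 ≤ K * M * x) (hg : Real.cos (q * s) ≤ 0 ∨ 3/2 ≤ q * x)
    (h : ∀ w ∈ W, x ≤ c * ‖exp (s * I) - w‖) :
    (W.map fun w => Pk w s).sum ≤ 5 * (1 + c)^2 / x := by
  have hsub : ∀ w ∈ W, w ∈ Zr K M q := by
    rcases hW with rfl | rfl | rfl
    · exact fun w hw => hw
    · exact fun w hw => Wn_sub hw
    · exact fun w hw => Wc_sub hw
  have hP := P_lower (q := q) hK hx0.le hx1 hD hg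
  set ζ : ℂ := (1 - x : ℝ) * exp (s * I) with hζ
  have hζn : ‖ζ‖ = 1 - x := by
    rw [hζ, norm_mul, Complex.norm_real, Complex.norm_exp_ofReal_mul_I, mul_one,
      Real.norm_of_nonneg (by linarith)]
  have hs := sum_tq hK hM hq0 hq (by rw [hζn]; linarith) hP
  have hnn : ∀ w ∈ Zr K M q, 0 ≤ tq w ζ := fun w hw =>
    tq_nonneg (Zr_bd hK hM hq0 hq hw).2 (by rw [hζn]; linarith)
  have hs2 : (W.map fun w => tq w ζ).sum ≤ 5 := by
    rcases hW with rfl | rfl | rfl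
    · exact hs
    · exact (sum_Wn_le hnn).trans hs
    · exact (sum_Wc_le hnn).trans hs
  calc (W.map fun w => Pk w s).sum ≤ ((1 + c)^2 / x) * (W.map fun w => tq w ζ).sum := by
        apply sum_map_le_mul
        intro w hw
        exact Pk_le_tq (Zr_bd hK hM hq0 hq (hsub w hw)).2 hx0 hx1 (h w hw)
    _ ≤ ((1 + c)^2 / x) * 5 := mul_le_mul_of_nonneg_left hs2 (by positivity)
    _ = 5 * (1 + c)^2 / x := by ring

/-! ### derivatives -/

noncomputable def Pk1 (w : ℂ) (s : ℝ) : ℝ :=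
  -((1 - ‖w‖^2) * (2 * ((starRingEnd ℂ) (exp (s * I) - w) * (exp (s * I) * I)).re)) / ‖exp (s * I) - w‖^4

lemma hasDeriv_exp (s : ℝ) : HasDerivAt (fun s : ℝ => exp ((s:ℂ) * I)) (exp (s * I) * I) s := by
  have h1 : HasDerivAt (fun s : ℝ => (s:ℂ) * I) I s := by
    simpa using (Complex.ofRealCLM.hasDerivAt (x := s)).mul_const I
  exact h1.cexp

lemma hasDeriv_Pk {w : ℂ} (hw : ‖w‖ < 1) (s : ℝ) : HasDerivAt (Pk w) (Pk1 w s) s := by
  have h1 : HasDerivAt (fun s : ℝ => exp ((s:ℂ) * I) - w) (exp (s * I) * I) s :=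
    (hasDeriv_exp s).sub_const w
  have h2 : HasDerivAt (fun s : ℝ => ‖exp ((s:ℂ) * I) - w‖^2)
      (2 * ((starRingEnd ℂ) (exp (s * I) - w) * (exp (s * I) * I)).re) s := by
    have h3 := h1.norm_sq
    refine h3.congr_deriv ?_
    rw [Complex.inner, mul_comm]
    ring_nf
  have h4 : ‖exp (s * I) - w‖^2 ≠ 0 := by
    have := exp_sub_ne hw s; positivity
  have h5 := (hasDerivAt_const s (1 - ‖w‖^2)).div h2 h4
  have h7 : Pk w = ((fun x : ℝ => 1 - ‖w‖ ^ 2) / fun s : ℝ => ‖cexp (↑s * I) - w‖ ^ 2) := rfl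
  rw [h7]
  refine h5.congr_deriv ?_
  unfold Pk1
  have h6 : (‖exp (s * I) - w‖^2)^2 = ‖exp (s * I) - w‖^4 := by ring
  rw [h6]; ring

lemma abs_Pk1_le {w : ℂ} (hw : ‖w‖ < 1) (s : ℝ) : |Pk1 w s| ≤ 2 * Pk w s / ‖exp (s * I) - w‖ := by
  set N := ‖exp (s * I) - w‖ with hN
  have hNpos : 0 < N := norm_pos_iff.2 (exp_sub_ne hw s)
  have hw2 : 0 ≤ 1 - ‖w‖^2 := by nlinarith [norm_nonneg w]
  have h1 : |((starRingEnd ℂ) (exp (s * I) - w) * (exp (s * I) * I)).re| ≤ N := by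
    refine (Complex.abs_re_le_norm _).trans ?_
    rw [norm_mul, RCLike.norm_conj, norm_mul, Complex.norm_exp_ofReal_mul_I, Complex.norm_I]
    simp [hN]
  unfold Pk1 Pk
  rw [← hN, abs_div, abs_neg, abs_mul, abs_mul, abs_of_nonneg hw2, abs_of_nonneg (by positivity : 0 ≤ N^4),
    abs_of_nonneg (by norm_num : (0:ℝ) ≤ 2)]
  calc (1 - ‖w‖ ^ 2) * (2 * |((starRingEnd ℂ) (exp (s * I) - w) * (exp (s * I) * I)).re|) / N ^ 4
      ≤ (1 - ‖w‖ ^ 2) * (2 * N) / N^4 := by
        apply div_le_div_of_nonneg_right _ (by positivity)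
        apply mul_le_mul_of_nonneg_left _ hw2
        linarith
    _ = 2 * ((1 - ‖w‖ ^ 2) / N ^ 2) / N := by field_simp

lemma norm_bl {w : ℂ} (hw0 : w ≠ 0) (hw : ‖w‖ < 1) (s : ℝ) : ‖bl w (exp (s * I))‖ = 1 := by
  unfold Pool.Agent.MP58366f.bl
  have h1 : ‖w‖ ≠ 0 := norm_ne_zero_iff.2 hw0
  have h2 : ‖1 - (starRingEnd ℂ) w * exp (s * I)‖ = ‖w - exp (s * I)‖ := by
    have h3 := norm_sq_id w (exp (s*I))
    rw [Complex.norm_exp_ofReal_mul_I] at h3
    have h4 : ‖1 - (starRingEnd ℂ) w * exp (s * I)‖^2 = ‖exp (s * I) - w‖^2 := by linarith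
    have h5 := (pow_left_inj₀ (norm_nonneg _) (norm_nonneg _) two_ne_zero).1 h4
    rw [h5, norm_sub_rev]
  have h3 : ‖w - exp (s * I)‖ ≠ 0 := by
    rw [norm_sub_rev]; exact norm_ne_zero_iff.2 (exp_sub_ne hw s)
  rw [norm_mul, norm_div, norm_div, RCLike.norm_conj, Complex.norm_real, norm_norm, h2]
  field_simp

lemma hasDeriv_bl {w : ℂ} (hw : ‖w‖ < 1) (s : ℝ) :
    HasDerivAt (fun s : ℝ => bl w (exp (s * I))) (I * (Pk w s : ℂ) * bl w (exp (s * I))) s := by
  have he := hasDeriv_exp s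
  set z := exp (s * I) with hz
  have hz1 : ‖z‖ = 1 := by rw [hz]; exact Complex.norm_exp_ofReal_mul_I s
  have hne : 1 - (starRingEnd ℂ) w * z ≠ 0 := one_sub_ne hw hz1.le
  have hzz : z * (starRingEnd ℂ) z = 1 := by
    rw [Complex.mul_conj, Complex.normSq_eq_norm_sq, hz1]; simp
  have hzw : z - w ≠ 0 := exp_sub_ne hw s
  have h1 : HasDerivAt (fun s : ℝ => (w - exp ((s:ℂ) * I)) / (1 - (starRingEnd ℂ) w * exp ((s:ℂ) * I)))
      ((-(z * I) * (1 - (starRingEnd ℂ) w * z) - (w - z) * (-((starRingEnd ℂ) w * (z * I)))) /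
        (1 - (starRingEnd ℂ) w * z)^2) s := by
    have a1 : HasDerivAt (fun s : ℝ => w - exp ((s:ℂ) * I)) (-(z * I)) s := he.const_sub w
    have a2 : HasDerivAt (fun s : ℝ => 1 - (starRingEnd ℂ) w * exp ((s:ℂ) * I))
      (-((starRingEnd ℂ) w * (z * I))) s := (he.const_mul ((starRingEnd ℂ) w)).const_sub 1
    exact a1.div a2 hne
  have h2 := h1.const_mul ((starRingEnd ℂ) w / (‖w‖:ℂ))
  have h8 : (fun s : ℝ => bl w (exp (s * I))) = (fun y : ℝ => (starRingEnd ℂ) w / ↑‖w‖ *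
    ((w - cexp (↑y * I)) / (1 - (starRingEnd ℂ) w * cexp (↑y * I)))) := rfl
  rw [h8]
  refine h2.congr_deriv ?_
  unfold Pool.Agent.MP58366f.bl
  have h3 : (Pk w s : ℂ) = (1 - w * (starRingEnd ℂ) w) / ((z - w) * (starRingEnd ℂ) (z - w)) := by
    unfold Pk
    rw [← hz]
    push_cast
    rw [Complex.mul_conj, Complex.mul_conj, Complex.normSq_eq_norm_sq, Complex.normSq_eq_norm_sq]
    push_cast; ring
  have h4 : 1 - (starRingEnd ℂ) w * z = z * (starRingEnd ℂ) (z - w) := by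
    rw [map_sub]; linear_combination -hzz
  have hzw' : (starRingEnd ℂ) (z - w) ≠ 0 := by
    rw [Ne, map_eq_zero]; exact hzw
  have hz0 : z ≠ 0 := by rw [hz]; exact Complex.exp_ne_zero _
  have key : -(z * I) * (1 - (starRingEnd ℂ) w * z) - (w - z) * -((starRingEnd ℂ) w * (z * I)) =
      -(I * z * (1 - w * (starRingEnd ℂ) w)) := by ring
  rw [key, h3, h4]
  generalize (starRingEnd ℂ) w / (‖w‖:ℂ) = κ
  generalize (starRingEnd ℂ) w = g at *
  have hu : (starRingEnd ℂ) (z - w) ≠ 0 := hzw'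
  generalize (starRingEnd ℂ) (z - w) = u at *
  field_simp
  ring

end Vb
end part3

section part4
open Complex Polynomial
open Pool.Agent.MP58366f (bl)

namespace Vb

noncomputable def UU (W : Multiset ℂ) (s : ℝ) : ℂ := (W.map fun w => bl w (exp ((s:ℂ) * I))).prod
noncomputable def Ph (W : Multiset ℂ) (s : ℝ) : ℝ := (W.map fun w => Pk w s).sum
noncomputable def Ph1 (W : Multiset ℂ) (s : ℝ) : ℝ := (W.map fun w => Pk1 w s).sum

lemma norm_UU {W : Multiset ℂ} (hW : ∀ w ∈ W, w ≠ 0 ∧ ‖w‖ < 1) (s : ℝ) : ‖UU W s‖ = 1 := by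
  induction W using Multiset.induction_on with
  | empty => simp [UU]
  | cons w W ih =>
    have ih' := ih fun w hw => hW w (Multiset.mem_cons_of_mem hw)
    have hw := hW w (Multiset.mem_cons_self w W)
    unfold UU at ih' ⊢
    rw [Multiset.map_cons, Multiset.prod_cons, norm_mul, norm_bl hw.1 hw.2, ih', one_mul]

lemma hasDeriv_UU {W : Multiset ℂ} (hW : ∀ w ∈ W, ‖w‖ < 1) (s : ℝ) :
    HasDerivAt (UU W) (I * (Ph W s : ℂ) * UU W s) s := by
  induction W using Multiset.induction_on with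
  | empty =>
    have : UU 0 = fun _ => 1 := by funext s; simp [UU]
    rw [this]
    simpa [Ph] using hasDerivAt_const s (1:ℂ)
  | cons w W ih =>
    have ih' := ih fun w hw => hW w (Multiset.mem_cons_of_mem hw)
    have hw := hW w (Multiset.mem_cons_self w W)
    have h1 : UU (w ::ₘ W) = fun s : ℝ => bl w (exp ((s:ℂ) * I)) * UU W s := by
      funext s; unfold UU; rw [Multiset.map_cons, Multiset.prod_cons]
    rw [h1]
    refine ((hasDeriv_bl hw s).mul ih').congr_deriv ?_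
    unfold Ph
    rw [Multiset.map_cons, Multiset.sum_cons]
    push_cast
    ring

lemma hasDeriv_Ph {W : Multiset ℂ} (hW : ∀ w ∈ W, ‖w‖ < 1) (s : ℝ) :
    HasDerivAt (Ph W) (Ph1 W s) s := by
  induction W using Multiset.induction_on with
  | empty =>
    have : Ph 0 = fun _ => 0 := by funext s; simp [Ph]
    rw [this]
    simpa [Ph1] using hasDerivAt_const s (0:ℝ)
  | cons w W ih =>
    have ih' := ih fun w hw => hW w (Multiset.mem_cons_of_mem hw)
    have hw := hW w (Multiset.mem_cons_self w W)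
    have h1 : Ph (w ::ₘ W) = fun s : ℝ => Pk w s + Ph W s := by
      funext s; unfold Ph; rw [Multiset.map_cons, Multiset.sum_cons]
    rw [h1]
    refine ((hasDeriv_Pk hw s).add ih').congr_deriv ?_
    unfold Ph1
    rw [Multiset.map_cons, Multiset.sum_cons]

lemma hasDeriv_UU1 {W : Multiset ℂ} (hW : ∀ w ∈ W, ‖w‖ < 1) (s : ℝ) :
    HasDerivAt (fun s : ℝ => I * (Ph W s : ℂ) * UU W s)
      ((I * (Ph1 W s : ℂ) - (Ph W s : ℂ)^2) * UU W s) s := by
  have h1 := hasDeriv_UU hW s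
  have h2 : HasDerivAt (fun s : ℝ => (Ph W s : ℂ)) (Ph1 W s : ℂ) s := (hasDeriv_Ph hW s).ofReal_comp
  refine ((h2.const_mul I).mul h1).congr_deriv ?_
  linear_combination (Ph W s : ℂ)^2 * UU W s * I_sq

lemma Ph_nonneg {W : Multiset ℂ} (hW : ∀ w ∈ W, ‖w‖ < 1) (s : ℝ) : 0 ≤ Ph W s := by
  unfold Ph
  apply Multiset.sum_nonneg
  intro x hx
  obtain ⟨w, hw, rfl⟩ := Multiset.mem_map.1 hx
  exact Pk_nonneg (hW w hw) s

lemma abs_Ph1_le {W : Multiset ℂ} (hW : ∀ w ∈ W, ‖w‖ < 1) {s x c : ℝ} (hx : 0 < x)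
    (h : ∀ w ∈ W, x ≤ c * ‖exp (s * I) - w‖) : |Ph1 W s| ≤ 2 * c / x * Ph W s := by
  unfold Ph1 Ph
  refine Multiset.abs_sum_le_sum_abs.trans ?_
  rw [Multiset.map_map]
  apply sum_map_le_mul
  intro w hw
  refine (abs_Pk1_le (hW w hw) s).trans ?_
  have hN : 0 < ‖exp (s * I) - w‖ := norm_pos_iff.2 (exp_sub_ne (hW w hw) s)
  have hP := Pk_nonneg (hW w hw) s
  have h1 : 1 / ‖exp (s * I) - w‖ ≤ c / x := by
    rw [div_le_div_iff₀ hN hx]
    have := h w hw
    linarith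
  calc 2 * Pk w s / ‖exp (s * I) - w‖ = 2 * Pk w s * (1 / ‖exp (s * I) - w‖) := by ring
    _ ≤ 2 * Pk w s * (c / x) := mul_le_mul_of_nonneg_left h1 (by positivity)
    _ = 2 * c / x * Pk w s := by ring

/-- The two derivative bounds for `UU`, abstractly. -/
lemma UU_bounds {W : Multiset ℂ} (hW : ∀ w ∈ W, w ≠ 0 ∧ ‖w‖ < 1) {s x c B : ℝ} (hx : 0 < x) (hc : 0 ≤ c)
    (h : ∀ w ∈ W, x ≤ c * ‖exp (s * I) - w‖) (hB : Ph W s ≤ B / x) :
    ‖I * (Ph W s : ℂ) * UU W s‖ ≤ B / x ∧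
    ‖(I * (Ph1 W s : ℂ) - (Ph W s : ℂ)^2) * UU W s‖ ≤ (2 * c * B + B^2) / x^2 := by
  have hW' : ∀ w ∈ W, ‖w‖ < 1 := fun w hw => (hW w hw).2
  have h0 := Ph_nonneg hW' s
  constructor
  · rw [norm_mul, norm_mul, norm_UU hW, Complex.norm_I, Complex.norm_real, Real.norm_of_nonneg h0]
    linarith
  · rw [norm_mul, norm_UU hW, mul_one]
    refine (norm_sub_le _ _).trans ?_
    rw [norm_mul, Complex.norm_I, Complex.norm_real, norm_pow, Complex.norm_real,
      Real.norm_of_nonneg h0, Real.norm_eq_abs, one_mul]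
    have h1 := abs_Ph1_le hW' hx h
    have h2 : 2 * c / x * Ph W s ≤ 2 * c / x * (B / x) := mul_le_mul_of_nonneg_left hB (by positivity)
    have h3 : Ph W s ^ 2 ≤ (B / x)^2 := pow_le_pow_left₀ h0 hB 2
    calc |Ph1 W s| + Ph W s ^ 2 ≤ 2 * c / x * (B / x) + (B/x)^2 := by linarith
      _ = _ := by field_simp

/-! ### geometry -/

lemma cos_le_cos' {x t : ℝ} (hx : 0 ≤ x) (h1 : x ≤ t) (h2 : t ≤ 2 * Real.pi - x) :
    Real.cos t ≤ Real.cos x := by
  rcases le_or_gt t Real.pi with h | h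
  · exact Real.cos_le_cos_of_nonneg_of_le_pi hx h h1
  · rw [← Real.cos_two_pi_sub t]
    exact Real.cos_le_cos_of_nonneg_of_le_pi hx (by linarith) (by linarith)

lemma dist_lower {w : ℂ} {s x : ℝ} (hx : 0 ≤ x) (hx2 : x ≤ Real.pi)
    (h : Real.cos (s - arg w) ≤ Real.cos x) : Real.sin x ≤ ‖exp (s * I) - w‖ := by
  have h1 : ‖exp (s * I) - w‖^2 = 1 - 2 * ‖w‖ * Real.cos (s - arg w) + ‖w‖^2 := by
    have hw : w = (‖w‖ : ℂ) * exp (arg w * I) := (Complex.norm_mul_exp_arg_mul_I w).symm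
    have hre : w.re = ‖w‖ * Real.cos (arg w) := (Complex.norm_mul_cos_arg w).symm
    have him : w.im = ‖w‖ * Real.sin (arg w) := (Complex.norm_mul_sin_arg w).symm
    rw [← Complex.normSq_eq_norm_sq, Complex.normSq_apply, Complex.sub_re, Complex.sub_im,
      Complex.exp_ofReal_mul_I_re, Complex.exp_ofReal_mul_I_im, hre, him, Real.cos_sub]
    have := Real.sin_sq_add_cos_sq s
    have := Real.sin_sq_add_cos_sq (arg w)
    linear_combination (Real.sin_sq_add_cos_sq s) + ‖w‖^2 * (Real.sin_sq_add_cos_sq (arg w))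
  have h2 : (Real.sin x)^2 ≤ ‖exp (s * I) - w‖^2 := by
    rw [h1]
    have h3 := Real.sin_sq_add_cos_sq x
    have h4 : ‖w‖ * Real.cos (s - arg w) ≤ ‖w‖ * Real.cos x := mul_le_mul_of_nonneg_left h (norm_nonneg _)
    nlinarith [sq_nonneg (‖w‖ - Real.cos x)]
  exact (pow_le_pow_iff_left₀ (Real.sin_nonneg_of_nonneg_of_le_pi hx hx2) (norm_nonneg _) two_ne_zero).1 h2

lemma half_le_sin {x : ℝ} (hx : 0 ≤ x) (hx2 : x ≤ 1) : x / 2 ≤ Real.sin x := by
  have h1 := Real.mul_le_sin hx (by have := Real.pi_gt_three; linarith : x ≤ Real.pi/2)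
  have h2 : (1:ℝ)/2 ≤ 2 / Real.pi := by
    rw [div_le_div_iff₀ (by norm_num) Real.pi_pos]
    have := Real.pi_le_four; linarith
  have h3 : 1/2 * x ≤ 2 / Real.pi * x := mul_le_mul_of_nonneg_right h2 hx
  linarith

lemma dist_lower' {w : ℂ} {s x : ℝ} (hx : 0 ≤ x) (hx2 : x ≤ 1)
    (h : Real.cos (s - arg w) ≤ Real.cos x) : x ≤ 2 * ‖exp (s * I) - w‖ := by
  have h1 := dist_lower hx (by have := Real.pi_gt_three; linarith) h
  have h2 := half_le_sin hx hx2
  linarith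

/-- good-point condition near the edges -/
lemma good_out {q : ℕ} (hq : 0 < q) {s x : ℝ} (hx : 0 ≤ x) (hs : |s| = Real.pi / q + x) :
    Real.cos (q * s) ≤ 0 ∨ 3/2 ≤ q * x := by
  have hq' : (0:ℝ) < q := by exact_mod_cast hq
  rcases le_or_gt (q * x) (Real.pi / 2) with h | h
  · left
    have h1 : Real.cos (q * s) = Real.cos (q * |s|) := by
      rw [← Real.cos_abs (q * s), abs_mul, Nat.abs_cast]
    rw [h1, hs]
    have h2 : (q:ℝ) * (Real.pi / q + x) = q * x + Real.pi := by field_simp; ring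
    rw [h2, Real.cos_add_pi]
    have : 0 ≤ Real.cos (q * x) := Real.cos_nonneg_of_neg_pi_div_two_le_of_le (by
      have := Real.pi_pos; have : 0 ≤ q * x := by positivity
      linarith) h
    linarith
  · right
    have := Real.pi_gt_three; linarith

lemma good_in {q : ℕ} (hq : 0 < q) {s x : ℝ} (hx : 0 ≤ x) (hs : |s| = Real.pi / q - x) :
    Real.cos (q * s) ≤ 0 ∨ 3/2 ≤ q * x := by
  have hq' : (0:ℝ) < q := by exact_mod_cast hq
  rcases le_or_gt (q * x) (Real.pi / 2) with h | h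
  · left
    have h1 : Real.cos (q * s) = Real.cos (q * |s|) := by
      rw [← Real.cos_abs (q * s), abs_mul, Nat.abs_cast]
    rw [h1, hs]
    have h2 : (q:ℝ) * (Real.pi / q - x) = Real.pi - q * x := by field_simp
    rw [h2, Real.cos_pi_sub]
    have : 0 ≤ Real.cos (q * x) := Real.cos_nonneg_of_neg_pi_div_two_le_of_le (by
      have := Real.pi_pos; have : 0 ≤ q * x := by positivity
      linarith) h
    linarith
  · right
    have := Real.pi_gt_three; linarith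

lemma Zr_ok {K M q : ℕ} (hK : 0 < K) (hM : 0 < M) (hq0 : 0 < q) (hq : q < K * M) {W : Multiset ℂ}
    (hW : W = Zr K M q ∨ W = Wn K M q ∨ W = Wc K M q) : ∀ w ∈ W, w ≠ 0 ∧ ‖w‖ < 1 := by
  intro w hw
  apply Zr_bd hK hM hq0 hq
  rcases hW with rfl | rfl | rfl
  · exact hw
  · exact Wn_sub hw
  · exact Wc_sub hw

/-- bounds just outside the window -/
lemma bounds_out {K M q : ℕ} (hK : 0 < K) (hq0 : 3 ≤ q) (hM : 5 * q ≤ M)
    {s x : ℝ} (hx0 : 0 < x) (hx1 : x ≤ 1/2) (hD : 5 ≤ K * M * x) (hs : |s| = Real.pi / q + x) :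
    ‖I * (Ph (Wn K M q) s : ℂ) * UU (Wn K M q) s‖ ≤ 45 / x ∧
    ‖(I * (Ph1 (Wn K M q) s : ℂ) - (Ph (Wn K M q) s : ℂ)^2) * UU (Wn K M q) s‖ ≤ 2205 / x^2 := by
  have hM0 : 0 < M := by omega
  have hq : q < K * M := by nlinarith
  have hq' : (3:ℝ) ≤ q := by exact_mod_cast hq0
  have hpi := Real.pi_gt_three
  have he : Real.pi / q ≤ Real.pi / 3 := div_le_div_of_nonneg_left Real.pi_pos.le (by norm_num) hq'
  have hdist : ∀ w ∈ Wn K M q, x ≤ 2 * ‖exp (s * I) - w‖ := by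
    intro w hw
    apply dist_lower' hx0.le (by linarith)
    have ha := Wn_arg hw
    rw [abs_le] at ha
    rcases abs_cases s with ⟨h1, _⟩ | ⟨h1, _⟩
    · rw [h1] at hs
      apply cos_le_cos' hx0.le (by linarith [ha.2])
      have := ha.1; linarith
    · rw [h1] at hs
      rw [← Real.cos_neg]
      apply cos_le_cos' hx0.le (by linarith [ha.1])
      have := ha.2; linarith
  have hP := Pk_sum hK hM0 (by omega) hq (Or.inr (Or.inl rfl)) hx0 (by linarith) hD
    (good_out (by omega) hx0.le hs) hdist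
  have := UU_bounds (Zr_ok hK hM0 (by omega) hq (Or.inr (Or.inl rfl))) hx0 (by norm_num : (0:ℝ) ≤ 2) hdist
    (B := 45) (by refine hP.trans (le_of_eq ?_); norm_num)
  norm_num at this ⊢
  exact this

/-- bounds just inside the window, for the complementary product -/
lemma bounds_in {K M q : ℕ} (hK : 0 < K) (hq0 : 4 ≤ q) (hM : 5 * q ≤ M)
    {s x : ℝ} (hx0 : 0 < x) (hD : 5 ≤ K * M * x) (hs : |s| = Real.pi / q - x) :
    ‖I * (Ph (Wc K M q) s : ℂ) * UU (Wc K M q) s‖ ≤ 45 / x ∧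
    ‖(I * (Ph1 (Wc K M q) s : ℂ) - (Ph (Wc K M q) s : ℂ)^2) * UU (Wc K M q) s‖ ≤ 2205 / x^2 := by
  have hM0 : 0 < M := by omega
  have hq : q < K * M := by nlinarith
  have hq' : (4:ℝ) ≤ q := by exact_mod_cast hq0
  have hpi := Real.pi_gt_three
  have he : Real.pi / q ≤ Real.pi / 4 := div_le_div_of_nonneg_left Real.pi_pos.le (by norm_num) hq'
  have hpi4 := Real.pi_le_four
  have hs0 := abs_nonneg s
  have hx1 : x ≤ 1 := by linarith
  have hdist : ∀ w ∈ Wc K M q, x ≤ 2 * ‖exp (s * I) - w‖ := by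
    intro w hw
    apply dist_lower' hx0.le hx1
    have ha := Wc_arg hw
    have hb := Complex.arg_le_pi w
    have hb' := Complex.neg_pi_lt_arg w
    have hs1 := le_abs_self s
    have hs2 := neg_abs_le s
    rcases abs_cases (arg w) with ⟨h1, _⟩ | ⟨h1, _⟩
    · rw [h1] at ha
      rw [← Real.cos_neg]
      apply cos_le_cos' hx0.le (by linarith)
      linarith
    · rw [h1] at ha
      apply cos_le_cos' hx0.le (by linarith)
      linarith
  have hP := Pk_sum hK hM0 (by omega) hq (Or.inr (Or.inr rfl)) hx0 (by linarith) hD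
    (good_in (by omega) hx0.le hs) hdist
  have := UU_bounds (Zr_ok hK hM0 (by omega) hq (Or.inr (Or.inr rfl))) hx0 (by norm_num : (0:ℝ) ≤ 2) hdist
    (B := 45) (by refine hP.trans (le_of_eq ?_); norm_num)
  norm_num at this ⊢
  exact this

/-- bounds at the corners -/
lemma bounds_corner {K M q : ℕ} (hK : 0 < K) (hq0 : 3 ≤ q) (hM : 20 * q ≤ M)
    {s : ℝ} (hs : |(|s| - Real.pi / q)| ≤ 20 / (K * M)) :
    ‖I * (Ph (Wn K M q) s : ℂ) * UU (Wn K M q) s‖ ≤ 441 * (K * M) ∧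
    ‖(I * (Ph1 (Wn K M q) s : ℂ) - (Ph (Wn K M q) s : ℂ)^2) * UU (Wn K M q) s‖ ≤ 200000 * (K * M)^2 := by
  have hM0 : 0 < M := by omega
  have hq : q < K * M := by nlinarith
  have hq' : (3:ℝ) ≤ q := by exact_mod_cast hq0
  have hpi := Real.pi_gt_three
  have hKr : (1:ℝ) ≤ K := by exact_mod_cast hK
  have hMr : (20 * q : ℝ) ≤ M := by exact_mod_cast hM
  set D : ℝ := K * M with hD
  have hDM : (M:ℝ) ≤ D := by rw [hD]; nlinarith
  have hDpos : 0 < D := by linarith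
  have hx0 : (0:ℝ) < 5 / D := by positivity
  have hdist : ∀ w ∈ Wn K M q, 5 / D ≤ 20 * ‖exp (s * I) - w‖ := by
    intro w hw
    have h1 := Zr_dist hK hM0 (by omega) hq (Wn_sub hw)
    have h2 : 1 - ‖w‖ ≤ ‖exp (s * I) - w‖ := by
      have := norm_sub_norm_le (exp (s * I)) w
      rwa [Complex.norm_exp_ofReal_mul_I] at this
    rw [div_le_iff₀ hDpos]
    nlinarith
  have hg : Real.cos (q * s) ≤ 0 ∨ 3/2 ≤ q * (5 / D) := by
    left
    have h1 : Real.cos (q * s) = Real.cos (q * |s|) := by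
      rw [← Real.cos_abs (q * s), abs_mul, Nat.abs_cast]
    rw [h1]
    have h3 : |(q:ℝ) * |s| - Real.pi| ≤ Real.pi / 2 := by
      have h4 : (q:ℝ) * |s| - Real.pi = q * (|s| - Real.pi / q) := by field_simp
      rw [h4, abs_mul, Nat.abs_cast]
      calc (q:ℝ) * |(|s| - Real.pi / q)| ≤ q * (20 / D) := mul_le_mul_of_nonneg_left hs (by positivity)
        _ = (20 * q) / D := by ring
        _ ≤ 1 := by rw [div_le_one hDpos]; linarith
        _ ≤ Real.pi / 2 := by linarith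
    rw [abs_le] at h3
    have h5 : Real.cos ((q:ℝ) * |s|) = - Real.cos ((q:ℝ) * |s| - Real.pi) := by
      rw [Real.cos_sub_pi, neg_neg]
    rw [h5]
    have := Real.cos_nonneg_of_neg_pi_div_two_le_of_le (x := (q:ℝ) * |s| - Real.pi) (by linarith [h3.1]) h3.2
    linarith
  have hx1 : 5 / D ≤ 1 := by
    rw [div_le_one hDpos]; nlinarith
  have hP := Pk_sum hK hM0 (by omega) hq (Or.inr (Or.inl rfl)) hx0 hx1
    (by rw [← hD, mul_div_cancel₀ _ hDpos.ne']) hg hdist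
  have h6 := UU_bounds (Zr_ok hK hM0 (by omega) hq (Or.inr (Or.inl rfl))) hx0 (by norm_num : (0:ℝ) ≤ 20) hdist
    (B := 2205) (by refine hP.trans (le_of_eq ?_); norm_num)
  refine ⟨h6.1.trans (le_of_eq ?_), h6.2.trans ?_⟩
  · field_simp; norm_num
  · have : (2 * 20 * 2205 + 2205 ^ 2) / (5 / D) ^ 2 = (4950225/25) * D^2 := by
      rw [div_pow]; field_simp; norm_num
    rw [this]
    have : 0 ≤ D^2 := by positivity
    linarith

/-- bounds far away from the window -/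
lemma bounds_far {K M q : ℕ} (hK : 0 < K) (hq0 : 200 ≤ q) (hM : 5 * q ≤ M)
    {s : ℝ} (hs : 1 / 800 ≤ 1 - Real.cos s) :
    ‖I * (Ph (Wn K M q) s : ℂ) * UU (Wn K M q) s‖ ≤ 2420 ∧
    ‖(I * (Ph1 (Wn K M q) s : ℂ) - (Ph (Wn K M q) s : ℂ)^2) * UU (Wn K M q) s‖ ≤ 10000000 := by
  have hM0 : 0 < M := by omega
  have hq : q < K * M := by nlinarith
  have hq' : (200:ℝ) ≤ q := by exact_mod_cast hq0
  have hKr : (1:ℝ) ≤ K := by exact_mod_cast hK
  have hMr : (5 * q : ℝ) ≤ M := by exact_mod_cast hM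
  have hdist : ∀ w ∈ Wn K M q, 1/4 ≤ 10 * ‖exp (s * I) - w‖ := by
    intro w hw
    have h1 := Wn_near hK (by omega) hM hw
    have h2 : (1:ℝ)/20 ≤ ‖exp (s * I) - 1‖ := by
      have h3 : ‖exp (s * I) - 1‖^2 = 2 * (1 - Real.cos s) := by
        rw [← Complex.normSq_eq_norm_sq, Complex.normSq_apply, Complex.sub_re, Complex.sub_im,
          Complex.exp_ofReal_mul_I_re, Complex.exp_ofReal_mul_I_im, Complex.one_re, Complex.one_im]
        linear_combination (Real.sin_sq_add_cos_sq s)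
      have h4 : (1/20:ℝ)^2 ≤ ‖exp (s * I) - 1‖^2 := by rw [h3]; linarith
      exact (pow_le_pow_iff_left₀ (by norm_num) (norm_nonneg _) two_ne_zero).1 h4
    have h3 : ‖exp (s * I) - 1‖ ≤ ‖exp (s * I) - w‖ + ‖1 - w‖ := by
      have : exp (s * I) - 1 = (exp (s * I) - w) - (1 - w) := by ring
      rw [this]; exact norm_sub_le _ _
    have h4 : (5:ℝ) / q ≤ 1/40 := by
      rw [div_le_div_iff₀ (by linarith) (by norm_num)]; linarith
    linarith
  have hP := Pk_sum hK hM0 (by omega) hq (Or.inr (Or.inl rfl)) (by norm_num : (0:ℝ) < 1/4) (by norm_num)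
    (by nlinarith) (Or.inr (by linarith)) hdist
  have := UU_bounds (Zr_ok hK hM0 (by omega) hq (Or.inr (Or.inl rfl))) (by norm_num : (0:ℝ) < 1/4)
    (by norm_num : (0:ℝ) ≤ 10) hdist
    (B := 605) (by refine hP.trans (le_of_eq ?_); norm_num)
  refine ⟨this.1.trans (by norm_num), this.2.trans (by norm_num)⟩

end Vb
end part4

section part5
open Complex

namespace Vb

noncomputable def PR (K M q : ℕ) (r : ℝ) : ℝ :=
  (∏ i ∈ Finset.range K, (r ^ M - aa K i)) - (1 - r ^ q) / 4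

lemma Pf_real (K M q : ℕ) (r : ℝ) : Pf K M q (r:ℂ) = (PR K M q r : ℂ) := by
  unfold Pf PR; push_cast; rfl

noncomputable def tau (K k : ℕ) : ℝ := ((K:ℝ) + k + 1/2) / (200 * (K:ℝ)^2)

noncomputable def fk (K k : ℕ) : ℝ := ∏ i ∈ Finset.range K, (tau K k - aa K i)

lemma tau_sub (K k i : ℕ) : tau K k - aa K i = ((k:ℝ) - i - 1/2) / (200 * (K:ℝ)^2) := by
  unfold tau aa; rw [← sub_div]; congr 1; ring

lemma fk_abs {K : ℕ} (hK : 0 < K) (k : ℕ) : (1 / (400 * (K:ℝ)^2))^K ≤ |fk K k| := by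
  have hK' : (0:ℝ) < K := by exact_mod_cast hK
  unfold fk
  rw [Finset.abs_prod]
  have : (1 / (400 * (K:ℝ)^2))^K = ∏ i ∈ Finset.range K, (1 / (400 * (K:ℝ)^2)) := by simp
  rw [this]
  apply Finset.prod_le_prod (fun i _ => by positivity)
  intro i _
  rw [tau_sub, abs_div, abs_of_pos (by positivity : (0:ℝ) < 200 * (K:ℝ)^2)]
  have h1 : (1:ℝ)/2 ≤ |(k:ℝ) - i - 1/2| := by
    rcases le_or_gt k i with h | h
    · have : (k:ℝ) ≤ i := by exact_mod_cast h
      rw [abs_of_nonpos (by linarith)]; linarith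
    · have : (i:ℝ) + 1 ≤ k := by exact_mod_cast h
      rw [abs_of_nonneg (by linarith)]; linarith
  rw [div_le_div_iff₀ (by positivity) (by positivity)]
  nlinarith [mul_pos hK' hK']

lemma fk_sign {K k : ℕ} (hk : k < K) : fk K k * fk K (k+1) < 0 := by
  have hK' : (0:ℝ) < K := by exact_mod_cast (lt_of_le_of_lt (Nat.zero_le _) hk)
  unfold fk
  rw [← Finset.prod_mul_distrib, ← Finset.mul_prod_erase _ _ (Finset.mem_range.2 hk)]
  apply mul_neg_of_neg_of_pos
  · rw [tau_sub, tau_sub, div_mul_div_comm]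
    apply div_neg_of_neg_of_pos _ (by positivity)
    push_cast
    have : ((k:ℝ) - k - 1/2) * ((k:ℝ) + 1 - k - 1/2) = -(1/4) := by ring
    rw [this]; norm_num
  · apply Finset.prod_pos
    intro i hi
    rw [tau_sub, tau_sub, div_mul_div_comm]
    apply div_pos _ (by positivity)
    push_cast
    rcases lt_or_gt_of_ne (Finset.ne_of_mem_erase hi) with h | h
    · have h1 : (i:ℝ) + 1 ≤ k := by exact_mod_cast h
      apply mul_pos <;> linarith
    · have h1 : (k:ℝ) + 1 ≤ i := by exact_mod_cast h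
      apply mul_pos_of_neg_of_neg <;> linarith

lemma one_sub_exp {y : ℝ} (h0 : 0 ≤ y) (h1 : y ≤ 1) : y / 2 ≤ 1 - Real.exp (-y) := by
  have h2 : Real.exp (-y) ≤ 1 / (1 + y) := by
    rw [Real.exp_neg, one_div]
    apply inv_anti₀ (by linarith)
    have := Real.add_one_le_exp y; linarith
  have h3 : 1 / (1 + y) ≤ 1 - y / 2 := by
    rw [div_le_iff₀ (by linarith)]; nlinarith
  linarith

lemma cluster {K : ℕ} (hK : 0 < K) (q : ℕ) : ∃ M₀ : ℕ, ∀ M : ℕ, M₀ ≤ M → 0 < M → q < K * M →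
    ∃ r : Fin K → ℝ, Function.Injective r ∧ (∀ i, 0 < r i ∧ r i < 1 ∧ ((r i : ℝ) : ℂ) ∈ Wn K M q) ∧
      ∀ i i', |r i - r i'| ≤ (2 / Real.log (80 * K)) * (1 - r i) := by
  have hK' : (0:ℝ) < K := by exact_mod_cast hK
  have hK1 : (1:ℝ) ≤ K := by exact_mod_cast hK
  set δ : ℝ := (1 / (400 * (K:ℝ)^2))^K with hδ
  have hδ0 : 0 < δ := by positivity
  obtain ⟨M₀, hM₀⟩ := exists_nat_gt (max (Real.log (200 * K)) (q * Real.log (200 * K) / δ))
  refine ⟨M₀, fun M hM hMpos hqM => ?_⟩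
  have hMr : max (Real.log (200 * K)) (q * Real.log (200 * K) / δ) < M :=
    lt_of_lt_of_le hM₀ (by exact_mod_cast hM)
  have hM1 : Real.log (200 * K) < M := lt_of_le_of_lt (le_max_left _ _) hMr
  have hM2 : q * Real.log (200 * K) / δ < M := lt_of_le_of_lt (le_max_right _ _) hMr
  have hMp : (0:ℝ) < M := by exact_mod_cast hMpos
  -- tau
  have htau0 : ∀ k, 0 < tau K k := fun k => by unfold tau; positivity
  have htau_lo : ∀ k, 1 / (200 * K) ≤ tau K k := by
    intro k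
    unfold tau
    rw [div_le_div_iff₀ (by positivity) (by positivity)]
    have : (0:ℝ) ≤ k := Nat.cast_nonneg k
    nlinarith [mul_pos hK' hK', mul_nonneg this hK'.le]
  have htau_hi : ∀ k, k ≤ K → tau K k ≤ 1 / (80 * K) := by
    intro k hk
    have : (k:ℝ) ≤ K := by exact_mod_cast hk
    unfold tau
    rw [div_le_div_iff₀ (by positivity) (by positivity)]
    nlinarith [mul_pos hK' hK']
  have htau_mono : ∀ k l, k < l → tau K k < tau K l := by
    intro k l h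
    have : (k:ℝ) < l := by exact_mod_cast h
    unfold tau
    apply div_lt_div_of_pos_right _ (by positivity)
    linarith
  set ρ : ℕ → ℝ := fun k => Real.exp (Real.log (tau K k) / M) with hρ
  have hρM : ∀ k, ρ k ^ M = tau K k := by
    intro k
    simp only [hρ]
    rw [← Real.exp_nat_mul, mul_div_cancel₀ _ hMp.ne', Real.exp_log (htau0 k)]
  have hlog_lo : ∀ k, -Real.log (200 * K) ≤ Real.log (tau K k) := by
    intro k
    have := Real.log_le_log (by positivity) (htau_lo k)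
    rwa [one_div, Real.log_inv] at this
  have hlog_hi : ∀ k, k ≤ K → Real.log (tau K k) ≤ -Real.log (80 * K) := by
    intro k hk
    have := Real.log_le_log (htau0 k) (htau_hi k hk)
    rwa [one_div, Real.log_inv] at this
  have hl80 : 0 < Real.log (80 * K) := Real.log_pos (by linarith)
  have hρ_mono : ∀ k l, k < l → ρ k < ρ l := by
    intro k l h
    simp only [hρ]
    apply Real.exp_lt_exp.2
    apply div_lt_div_of_pos_right _ hMp
    exact Real.log_lt_log (htau0 k) (htau_mono k l h)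
  have hPRρ : ∀ k, k ≤ K → |PR K M q (ρ k) - fk K k| < δ := by
    intro k hk
    have h1 : PR K M q (ρ k) - fk K k = -((1 - ρ k ^ q) / 4) := by
      unfold PR fk
      rw [Finset.prod_congr rfl fun i _ => by rw [hρM k]]
      ring
    rw [h1, abs_neg]
    have h2 : ρ k ^ q = Real.exp (q * (Real.log (tau K k) / M)) := by
      simp only [hρ]; rw [← Real.exp_nat_mul]
    have h3 : q * (Real.log (tau K k) / M) ≤ 0 := by
      apply mul_nonpos_of_nonneg_of_nonpos (Nat.cast_nonneg q)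
      apply div_nonpos_of_nonpos_of_nonneg _ hMp.le
      have := hlog_hi k hk; linarith
    have h4 : ρ k ^ q ≤ 1 := by rw [h2]; exact Real.exp_le_one_iff.2 h3
    rw [abs_of_nonneg (by linarith)]
    have h5 : 1 - ρ k ^ q ≤ q * Real.log (200 * K) / M := by
      have h6 := Real.add_one_le_exp (q * (Real.log (tau K k) / M))
      rw [← h2] at h6
      have h7 : -(q * (Real.log (tau K k) / M)) ≤ q * Real.log (200 * K) / M := by
        rw [mul_div_assoc, ← mul_neg, ← neg_div]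
        apply mul_le_mul_of_nonneg_left _ (Nat.cast_nonneg q)
        apply div_le_div_of_nonneg_right _ hMp.le
        have := hlog_lo k; linarith
      linarith
    have h8 : q * Real.log (200 * K) / M < δ := by
      rw [div_lt_iff₀ hMp]
      rw [div_lt_iff₀ hδ0] at hM2
      linarith
    linarith
  have hroot : ∀ k : Fin K, ∃ r, ρ k < r ∧ r < ρ (k+1) ∧ PR K M q r = 0 := by
    intro k
    have hk := k.2
    have hcont : ContinuousOn (PR K M q) (Set.Icc (ρ k) (ρ (k+1))) := by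
      apply Continuous.continuousOn
      unfold PR
      fun_prop
    have h1 := hPRρ k hk.le
    have h2 := hPRρ (k+1) hk
    have h3 := fk_abs hK k
    have h4 := fk_abs hK (k+1)
    have h5 := fk_sign hk
    rw [← hδ] at h3 h4
    rw [abs_lt] at h1 h2
    have hle := (hρ_mono k (k+1) (Nat.lt_succ_self _)).le
    rcases lt_or_gt_of_ne (fun h : fk K k = 0 => by rw [h] at h5; simp at h5) with h6 | h6
    · have h7 : 0 < fk K (k+1) := pos_of_mul_neg_right h5 h6.le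
      rw [abs_of_neg h6] at h3
      rw [abs_of_pos h7] at h4
      have h8 : (0:ℝ) ∈ Set.Ioo (PR K M q (ρ k)) (PR K M q (ρ (k+1))) := ⟨by linarith, by linarith⟩
      obtain ⟨r, hr, hr0⟩ := intermediate_value_Ioo hle hcont h8
      exact ⟨r, hr.1, hr.2, hr0⟩
    · have h7 : fk K (k+1) < 0 := neg_of_mul_neg_right h5 h6.le
      rw [abs_of_pos h6] at h3
      rw [abs_of_neg h7] at h4
      have h8 : (0:ℝ) ∈ Set.Ioo (PR K M q (ρ (k+1))) (PR K M q (ρ k)) := ⟨by linarith, by linarith⟩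
      obtain ⟨r, hr, hr0⟩ := intermediate_value_Ioo' hle hcont h8
      exact ⟨r, hr.1, hr.2, hr0⟩
  choose r hr1 hr2 hr3 using hroot
  have hρK : ρ K ≤ Real.exp (-(Real.log (80*K) / M)) := by
    simp only [hρ]
    apply Real.exp_le_exp.2
    rw [← neg_div]
    exact div_le_div_of_nonneg_right (hlog_hi K le_rfl) hMp.le
  have hρle : ∀ k l, k ≤ l → ρ k ≤ ρ l := by
    intro k l h
    rcases h.eq_or_lt with rfl | h
    · exact le_rfl
    · exact (hρ_mono k l h).le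
  have hrlo : ∀ i, ρ 0 < r i := fun i => lt_of_le_of_lt (hρle 0 i (Nat.zero_le _)) (hr1 i)
  have hrhi : ∀ i, r i < ρ K := fun i => lt_of_lt_of_le (hr2 i) (hρle (i+1) K i.2)
  have hρ0 : 0 < ρ 0 := Real.exp_pos _
  have hy : Real.log (80*K) / M ≤ 1 := by
    rw [div_le_one hMp]
    have : Real.log (80*K) ≤ Real.log (200*K) := Real.log_le_log (by positivity) (by linarith)
    linarith
  have h1mr : ∀ i, Real.log (80*K) / M / 2 ≤ 1 - r i := by
    intro i
    have := one_sub_exp (by positivity) hy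
    have := hrhi i
    linarith
  have hr_lt1 : ∀ i, r i < 1 := by
    intro i
    have := h1mr i
    have : 0 < Real.log (80*K) / M / 2 := by positivity
    linarith
  refine ⟨r, ?_, ?_, ?_⟩
  · intro i j hij
    by_contra hne
    rcases lt_or_gt_of_ne hne with h | h
    · have h2 : ρ (i+1) ≤ ρ j := hρle _ _ h
      have := hr2 i
      have := hr1 j
      rw [hij] at *
      linarith
    · have h2 : ρ (j+1) ≤ ρ i := hρle _ _ h
      have := hr2 j
      have := hr1 i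
      rw [hij] at *
      linarith
  · intro i
    refine ⟨lt_trans hρ0 (hrlo i), hr_lt1 i, ?_⟩
    classical
    unfold Wn
    rw [Multiset.mem_filter]
    constructor
    · rw [mem_Zr hMpos hqM, Pf_real, hr3 i]; simp
    · rw [Complex.arg_ofReal_of_nonneg (lt_trans hρ0 (hrlo i)).le, abs_zero]
      positivity
  · intro i j
    have h1 : |r i - r j| ≤ ρ K - ρ 0 := by
      rw [abs_le]
      have := hrlo i; have := hrlo j; have := hrhi i; have := hrhi j
      constructor <;> linarith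
    have h2 : ρ K - ρ 0 ≤ 1 / M := by
      have h3 : ρ 0 = ρ K * Real.exp (-((Real.log (tau K K) - Real.log (tau K 0)) / M)) := by
        simp only [hρ]
        rw [← Real.exp_add]; congr 1; ring
      have h4 := Real.add_one_le_exp (-((Real.log (tau K K) - Real.log (tau K 0)) / M))
      have h5 : Real.log (tau K K) - Real.log (tau K 0) ≤ 1 := by
        rw [← Real.log_div (htau0 K).ne' (htau0 0).ne']
        have h6 : tau K K / tau K 0 ≤ 2 := by
          rw [div_le_iff₀ (htau0 0)]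
          unfold tau
          rw [← mul_div_assoc]
          apply div_le_div_of_nonneg_right _ (by positivity)
          push_cast; linarith
        have h7 := Real.log_le_log (div_pos (htau0 K) (htau0 0)) h6
        have h8 : Real.log 2 < 1 := by
          have := Real.log_two_lt_d9; linarith
        linarith
      have h6 : ρ K ≤ 1 := hρK.trans (Real.exp_le_one_iff.2 (by
        have : 0 ≤ Real.log (80*K) / M := by positivity
        linarith))
      have h9 : 0 ≤ (Real.log (tau K K) - Real.log (tau K 0)) / M := by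
        apply div_nonneg _ hMp.le
        have := Real.log_le_log (htau0 0) (htau_mono 0 K hK).le
        linarith
      have h10 : (Real.log (tau K K) - Real.log (tau K 0)) / M ≤ 1 / M :=
        div_le_div_of_nonneg_right h5 hMp.le
      have h11 : 0 < ρ K := Real.exp_pos _
      rw [h3]
      have h12 : ρ K * (1 - (Real.log (tau K K) - Real.log (tau K 0)) / M) ≤
          ρ K * Real.exp (-((Real.log (tau K K) - Real.log (tau K 0)) / M)) :=
        mul_le_mul_of_nonneg_left (by linarith) h11.le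
      have h13 : ρ K * ((Real.log (tau K K) - Real.log (tau K 0)) / M) ≤
          1 * ((Real.log (tau K K) - Real.log (tau K 0)) / M) := mul_le_mul_of_nonneg_right h6 h9
      nlinarith
    have h3 : 1 / (M:ℝ) = (2 / Real.log (80*K)) * (Real.log (80*K) / M / 2) := by
      field_simp
    refine h1.trans (h2.trans ?_)
    rw [h3]
    exact mul_le_mul_of_nonneg_left (h1mr i) (by positivity)

end Vb
end part5

section part6
open Complex
open Pool.Agent.MP58366f

namespace Vb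

section
variable {N : ℕ} [NeZero N]

lemma M4_ec (k : ZMod N) : M4 (fun j : ZMod N => ec (j * k)) 1 := by
  intro f
  have h : Top (fun j : ZMod N => ec (j * k)) f = fun x => f (x - k) := by
    apply FT_injective
    intro j
    rw [FT_Top]
    unfold FT
    rw [Finset.mul_sum]
    refine Fintype.sum_equiv (Equiv.addRight k) _ _ ?_
    intro x
    simp only [Equiv.coe_addRight, add_sub_cancel_right]
    have : ec (j * (x + k)) = ec (j * x) * ec (j * k) := by
      rw [← ec_add]; congr 1; ring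
    rw [this]; ring
  rw [h, n4_shift, one_mul]

/-- the sampled point on the circle -/
noncomputable def zz (N : ℕ) (σ : ℝ) (j : ZMod N) : ℂ :=
  exp (((2 * Real.pi * (j.valMinAbs : ℝ) / N - σ : ℝ) : ℂ) * I)

lemma M4_zz (σ : ℝ) (k : ℕ) : M4 (fun j : ZMod N => zz N σ j ^ k) 1 := by
  have h1 : ∀ j : ZMod N, ec (j * (k : ZMod N)) = exp (((2 * Real.pi * (j.valMinAbs : ℝ) / N : ℝ) : ℂ) * I) ^ k := by
    intro j
    have h2 : j * (k : ZMod N) = ((j.valMinAbs * k : ℤ) : ZMod N) := by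
      push_cast; simp
    rw [h2]
    unfold ec
    rw [ZMod.stdAddChar_coe, ← Complex.exp_nat_mul]
    congr 1
    push_cast
    ring
  have h3 := (M4_ec (N := N) (k : ZMod N)).const_mul (exp (-(σ:ℂ) * I) ^ k)
  have h4 : ‖exp (-(σ:ℂ) * I) ^ k‖ = 1 := by
    rw [norm_pow, ← Complex.ofReal_neg, Complex.norm_exp_ofReal_mul_I, one_pow]
  rw [h4, one_mul] at h3
  refine h3.congr fun j => ?_
  rw [h1, ← mul_pow, ← Complex.exp_add]
  unfold zz
  congr 2
  push_cast; ring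

lemma M4_inv {h : ZMod N → ℂ} {c : ℝ} (hc : c < 1) (H : M4 (fun j => 1 - h j) c) (h0 : ∀ j, h j ≠ 0) :
    M4 (fun j => (h j)⁻¹) (1 / (1 - c)) := by
  intro f
  set g := Top (fun j => (h j)⁻¹) f with hg
  have h1 : Top h g = f := by
    rw [hg, ← Top_mul]
    have : (fun j => h j * (h j)⁻¹) = fun _ => (1:ℂ) := by
      funext j; exact mul_inv_cancel₀ (h0 j)
    rw [this, Top_one]
  have h2 : g = fun x => Top (fun j => 1 - h j) g x + f x := by
    funext x
    have h3 : g x = Top (fun _ => (1:ℂ)) g x := by rw [Top_one]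
    have h4 : (fun _ : ZMod N => (1:ℂ)) = fun j => (1 - h j) + h j := by funext j; ring
    rw [h3, h4, Top_add, h1]
  have h5 : n4 g ≤ c * n4 g + n4 f := by
    calc n4 g = n4 (fun x => Top (fun j => 1 - h j) g x + f x) := by rw [← h2]
      _ ≤ n4 (Top (fun j => 1 - h j) g) + n4 f := n4_add_le _ _
      _ ≤ _ := by have := H g; linarith
  rw [one_div, ← div_eq_inv_mul, le_div_iff₀ (by linarith)]
  linarith

lemma prod_one_add_le (K : ℕ) : ∏ i ∈ Finset.range K, (1 + aa K i) ≤ 51/50 := by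
  have h1 : ∏ i ∈ Finset.range K, (1 + aa K i) ≤ ∏ i ∈ Finset.range K, Real.exp (aa K i) := by
    apply Finset.prod_le_prod
    · intro i _; have := aa_nonneg K i; linarith
    · intro i _; have := Real.add_one_le_exp (aa K i); linarith
  rw [← Real.exp_sum] at h1
  have h2 : Real.exp (∑ i ∈ Finset.range K, aa K i) ≤ Real.exp (1/100) := Real.exp_le_exp.2 (aa_sum K)
  have h4 : Real.exp (1/100) ≤ 1 + 1/50 := by
    have := Real.exp_bound_div_one_sub_of_interval (x := 1/100) (by norm_num) (by norm_num)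
    refine this.trans (by norm_num)
  linarith

lemma M4_P (K M q : ℕ) (σ : ℝ) : M4 (fun j : ZMod N => Pf K M q (zz N σ j)) 2 := by
  have h1 : ∀ s : Finset ℕ, M4 (fun j : ZMod N => ∏ i ∈ s, (zz N σ j ^ M - (aa K i : ℂ))) (∏ i ∈ s, (1 + aa K i)) := by
    intro s
    induction s using Finset.induction_on with
    | empty => simpa using M4_one (N := N)
    | insert a s ha ih =>
      have ha0 := aa_nonneg K a
      have h2 : M4 (fun j : ZMod N => zz N σ j ^ M - (aa K a : ℂ)) (1 + aa K a) := by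
        have h3 := (M4_zz (N := N) σ M).add (M4_const (N := N) (-(aa K a : ℂ)))
        have h4 : ‖-(aa K a : ℂ)‖ = aa K a := by
          rw [norm_neg, Complex.norm_real, Real.norm_of_nonneg ha0]
        rw [h4] at h3
        exact h3.congr fun j => by ring
      have h5 := M4.mul (by linarith) h2 ih
      rw [Finset.prod_insert ha]
      exact h5.congr fun j => by rw [Finset.prod_insert ha]
  have h6 : M4 (fun j : ZMod N => -((1 - zz N σ j ^ q) / 4)) (1/2) := by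
    have h7 := ((M4_one (N := N)).add ((M4_zz (N := N) σ q).const_mul (-1))).const_mul (-(1/4))
    have h8 : ‖(-(1/4) : ℂ)‖ * (1 + ‖(-1:ℂ)‖ * 1) = 1/2 := by norm_num
    rw [h8] at h7
    exact h7.congr fun j => by ring
  have h9 := ((h1 (Finset.range K)).mono (prod_one_add_le K)).add h6
  refine (h9.mono (by norm_num)).congr fun j => ?_
  unfold Pf; ring

lemma M4_Q (K M q : ℕ) (σ : ℝ) : M4 (fun j : ZMod N => 1 - Qf K M q (zz N σ j)) (13/25) := by
  have h1 : ∀ s : Finset ℕ, M4 (fun j : ZMod N => (∏ i ∈ s, (1 - (aa K i : ℂ) * zz N σ j ^ M)) - 1)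
      ((∏ i ∈ s, (1 + aa K i)) - 1) := by
    intro s
    induction s using Finset.induction_on with
    | empty => simpa using M4_const (N := N) 0
    | insert a s ha ih =>
      have ha0 := aa_nonneg K a
      have h2 : M4 (fun j : ZMod N => -((aa K a : ℂ) * zz N σ j ^ M)) (aa K a) := by
        have h3 := (M4_zz (N := N) σ M).const_mul (-(aa K a : ℂ))
        have h4 : ‖-(aa K a : ℂ)‖ = aa K a := by
          rw [norm_neg, Complex.norm_real, Real.norm_of_nonneg ha0]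
        rw [h4, mul_one] at h3
        exact h3.congr fun j => by ring
      have h3 := (M4_one (N := N)).add h2
      have h5 := (M4.mul (by linarith) h3 ih).add h2
      have h6 : (1 + aa K a) * (∏ i ∈ s, (1 + aa K i) - 1) + aa K a = ∏ i ∈ insert a s, (1 + aa K i) - 1 := by
        rw [Finset.prod_insert ha]; ring
      rw [h6] at h5
      exact h5.congr fun j => by rw [Finset.prod_insert ha]; ring
  have h6 : M4 (fun j : ZMod N => (zz N σ j ^ (K*M) - zz N σ j ^ (K*M-q)) / 4) (1/2) := by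
    have h7 := ((M4_zz (N := N) σ (K*M)).add ((M4_zz (N := N) σ (K*M-q)).const_mul (-1))).const_mul ((1/4))
    have h8 : ‖((1/4) : ℂ)‖ * (1 + ‖(-1:ℂ)‖ * 1) = 1/2 := by norm_num
    rw [h8] at h7
    exact h7.congr fun j => by ring
  have h8 : ∏ i ∈ Finset.range K, (1 + aa K i) - 1 ≤ 1/50 := by
    have := prod_one_add_le K; linarith
  have h9 := (((h1 (Finset.range K)).mono h8).const_mul (-1)).add h6
  have h10 : ‖(-1:ℂ)‖ * (1/50) + 1/2 = 13/25 := by norm_num
  rw [h10] at h9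
  refine h9.congr fun j => ?_
  unfold Qf; ring

omit [NeZero N] in
lemma norm_zz (σ : ℝ) (j : ZMod N) : ‖zz N σ j‖ = 1 := by
  unfold zz; exact Complex.norm_exp_ofReal_mul_I _

lemma Qf_ne {K M q : ℕ} {z : ℂ} (hz : ‖z‖ ≤ 1) : Qf K M q z ≠ 0 := by
  intro h
  have := Q_norm (K := K) (M := M) (q := q) hz
  rw [h] at this
  norm_num at this

lemma UU_Zr {K M q : ℕ} (hM : 0 < M) (hq : q < K * M) :
    ∃ γ : ℂ, (‖γ‖ ≤ 1) ∧ ∀ s : ℝ, UU (Zr K M q) s = γ * (Pf K M q (exp ((s:ℂ) * I)) * (Qf K M q (exp ((s:ℂ) * I)))⁻¹) := by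
  refine ⟨((Zr K M q).map fun w => -((starRingEnd ℂ) w / (‖w‖ : ℂ))).prod, ?_, ?_⟩
  · have h : ∀ W : Multiset ℂ, ‖(W.map fun w => -((starRingEnd ℂ) w / (‖w‖ : ℂ))).prod‖ ≤ 1 := by
      intro W
      induction W using Multiset.induction_on with
      | empty => simp
      | cons w W ih =>
        rw [Multiset.map_cons, Multiset.prod_cons, norm_mul, norm_neg, norm_div, RCLike.norm_conj,
          Complex.norm_real, norm_norm]
        exact mul_le_one₀ (div_self_le_one _) (norm_nonneg _) ih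
    exact h _
  · intro s
    rw [Pf_eq_prod hM hq, Qf_eq_prod hM hq, ← Multiset.prod_map_inv, ← Multiset.prod_map_mul,
      ← Multiset.prod_map_mul]
    unfold UU
    congr 1
    apply Multiset.map_congr rfl
    intro w _
    unfold Pool.Agent.MP58366f.bl
    ring

lemma M4_UU_Zr {K M q : ℕ} (hM : 0 < M) (hq : q < K * M) (σ : ℝ) :
    M4 (sym N (fun s => UU (Zr K M q) (s - σ))) 5 := by
  obtain ⟨γ, hγ, h⟩ := UU_Zr (K := K) hM hq
  have h1 := M4_inv (by norm_num) (M4_Q (N := N) K M q σ) (fun j => Qf_ne (norm_zz σ j).le)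
  have h2 := (M4.mul (by norm_num) (M4_P (N := N) K M q σ) h1).const_mul γ
  have h3 : ‖γ‖ * (2 * (1 / (1 - 13/25))) ≤ 5 := by
    have : ‖γ‖ * (2 * (1 / (1 - 13/25))) ≤ 1 * (2 * (1 / (1 - 13/25))) :=
      mul_le_mul_of_nonneg_right hγ (by norm_num)
    refine this.trans (by norm_num)
  refine (h2.mono h3).congr fun j => ?_
  show _ = UU (Zr K M q) (2 * Real.pi * (j.valMinAbs : ℝ) / N - σ)
  rw [h]
  rfl

end

lemma UU_add (W V : Multiset ℂ) (s : ℝ) : UU (W + V) s = UU W s * UU V s := by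
  unfold UU; rw [Multiset.map_add, Multiset.prod_add]

lemma UU_Wn {K M q : ℕ} (hK : 0 < K) (hM : 0 < M) (hq0 : 0 < q) (hq : q < K * M) (s : ℝ) :
    UU (Wn K M q) s = UU (Zr K M q) s * (starRingEnd ℂ) (UU (Wc K M q) s) := by
  have h1 := norm_UU (Zr_ok hK hM hq0 hq (Or.inr (Or.inr rfl)) : ∀ w ∈ Wc K M q, w ≠ 0 ∧ ‖w‖ < 1) s
  rw [← Wn_add_Wc, UU_add, mul_assoc, Complex.mul_conj, Complex.normSq_eq_norm_sq, h1]
  simp

end Vb
end part6

section part7
open Complex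
open Pool.Agent.MP58366f

namespace Vb

/-- second differences -/
def SD (H : ℝ → ℂ) (B : ℝ) : Prop := ∀ s t : ℝ, ‖H (s + t) - 2 * H s + H (s - t)‖ ≤ B * t ^ 2

lemma SD_of_deriv {H H1 H2 : ℝ → ℂ} {B : ℝ} (h1 : ∀ s, HasDerivAt H (H1 s) s)
    (h2 : ∀ s, HasDerivAt H1 (H2 s) s) (hB : ∀ s, ‖H2 s‖ ≤ B) : SD H B := by
  have key : ∀ s t : ℝ, 0 ≤ t → ‖H (s + t) - 2 * H s + H (s - t)‖ ≤ B * t ^ 2 := by
    intro s t ht
    have hlip : ∀ a b : ℝ, ‖H1 a - H1 b‖ ≤ B * |a - b| := by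
      intro a b
      have := Convex.norm_image_sub_le_of_norm_hasDerivWithin_le (f := H1) (f' := H2) (C := B)
        (s := Set.univ) (fun x _ => (h2 x).hasDerivWithinAt) (fun x _ => hB x) convex_univ
        (Set.mem_univ b) (Set.mem_univ a)
      simpa [Real.norm_eq_abs] using this
    have hφ : ∀ x : ℝ, HasDerivAt (fun x : ℝ => H (s + x) - 2 * H s + H (s - x)) (H1 (s + x) - H1 (s - x)) x := by
      intro x
      have a1 : HasDerivAt (fun x : ℝ => H (s + x)) (H1 (s + x)) x := by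
        simpa using (h1 (s + x)).comp_const_add s x
      have a2 : HasDerivAt (fun x : ℝ => H (s - x)) (-(H1 (s - x))) x := by
        simpa using (h1 (s - x)).comp_const_sub s x
      have a3 := (a1.sub_const (2 * H s)).add a2
      exact a3.congr_deriv (by ring)
    have := image_norm_le_of_norm_deriv_right_le_deriv_boundary (a := 0) (b := t)
      (f := fun x : ℝ => H (s + x) - 2 * H s + H (s - x)) (f' := fun x => H1 (s + x) - H1 (s - x))
      (B := fun x => B * x^2) (B' := fun x => B * (2 * x))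
      (fun x _ => (hφ x).continuousAt.continuousWithinAt) (fun x _ => (hφ x).hasDerivWithinAt)
      (by simp; ring_nf)
      (fun x => by
        have := ((hasDerivAt_pow 2 x).const_mul B)
        simpa using this)
      (fun x hx => by
        have h3 := hlip (s + x) (s - x)
        have h4 : |s + x - (s - x)| = 2 * x := by
          rw [show s + x - (s - x) = 2 * x by ring, abs_of_nonneg (by linarith [hx.1])]
        rwa [h4] at h3)
    exact this ⟨ht, le_rfl⟩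
  intro s t
  rcases le_total 0 t with ht | ht
  · exact key s t ht
  · have := key s (-t) (by linarith)
    have e : H (s + -t) - 2 * H s + H (s - -t) = H (s + t) - 2 * H s + H (s - t) := by
      rw [← sub_eq_add_neg, sub_neg_eq_add]; ring
    rw [e] at this
    simpa using this

lemma SD.mono {H : ℝ → ℂ} {B B' : ℝ} (h : SD H B) (hB : B ≤ B') : SD H B' := fun s t =>
  (h s t).trans (mul_le_mul_of_nonneg_right hB (sq_nonneg t))

lemma SD.shift {H : ℝ → ℂ} {B : ℝ} (h : SD H B) (σ : ℝ) : SD (fun s => H (s - σ)) B := by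
  intro s t
  have := h (s - σ) t
  have e1 : s + t - σ = s - σ + t := by ring
  have e2 : s - t - σ = s - σ - t := by ring
  simp only [e1, e2]
  exact this

/-! ### smooth cut-off -/

noncomputable def T (x : ℝ) : ℝ := Real.smoothTransition (x - 1)
noncomputable def T1 : ℝ → ℝ := deriv T
noncomputable def T2 : ℝ → ℝ := deriv T1

lemma T_contDiff : ContDiff ℝ (⊤ : ℕ∞) T := by
  unfold T
  exact Real.smoothTransition.contDiff.comp (contDiff_id.sub contDiff_const)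

lemma T1_contDiff : ContDiff ℝ (⊤ : ℕ∞) T1 := (contDiff_infty_iff_deriv.1 T_contDiff).2
lemma T2_contDiff : ContDiff ℝ (⊤ : ℕ∞) T2 := (contDiff_infty_iff_deriv.1 T1_contDiff).2

lemma T_hasDeriv (x : ℝ) : HasDerivAt T (T1 x) x :=
  ((contDiff_infty_iff_deriv.1 T_contDiff).1 x).hasDerivAt
lemma T1_hasDeriv (x : ℝ) : HasDerivAt T1 (T2 x) x :=
  ((contDiff_infty_iff_deriv.1 T1_contDiff).1 x).hasDerivAt

lemma T_zero {x : ℝ} (h : x ≤ 1) : T x = 0 := by
  unfold T; exact Real.smoothTransition.zero_of_nonpos (by linarith)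
lemma T_one {x : ℝ} (h : 2 ≤ x) : T x = 1 := by
  unfold T; exact Real.smoothTransition.one_of_one_le (by linarith)
lemma T_nonneg (x : ℝ) : 0 ≤ T x := Real.smoothTransition.nonneg _
lemma T_le_one (x : ℝ) : T x ≤ 1 := Real.smoothTransition.le_one _

/-- derivative of a locally constant function vanishes -/
lemma deriv_zero_of_const {f f1 : ℝ → ℝ} (h : ∀ x, HasDerivAt f (f1 x) x) {U : Set ℝ} (hU : IsOpen U) {c : ℝ}
    (hc : ∀ x ∈ U, f x = c) : ∀ x ∈ U, f1 x = 0 := by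
  intro x hx
  have h1 : HasDerivAt f 0 x := by
    have : f =ᶠ[nhds x] fun _ => c := Filter.mem_of_superset (hU.mem_nhds hx) hc
    exact (hasDerivAt_const x c).congr_of_eventuallyEq this
  exact (h x).unique h1

lemma T1_zero {x : ℝ} (h : x < 1 ∨ 2 < x) : T1 x = 0 := by
  rcases h with h | h
  · exact deriv_zero_of_const T_hasDeriv isOpen_Iio (c := 0) (fun y hy => T_zero (le_of_lt hy)) x h
  · exact deriv_zero_of_const T_hasDeriv isOpen_Ioi (c := 1) (fun y hy => T_one (le_of_lt hy)) x h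

lemma T2_zero {x : ℝ} (h : x < 1 ∨ 2 < x) : T2 x = 0 := by
  rcases h with h | h
  · exact deriv_zero_of_const T1_hasDeriv isOpen_Iio (c := 0) (fun y hy => T1_zero (Or.inl hy)) x h
  · exact deriv_zero_of_const T1_hasDeriv isOpen_Ioi (c := 0) (fun y hy => T1_zero (Or.inr hy)) x h

lemma bdd_of_supp {f : ℝ → ℝ} (hf : Continuous f) (h0 : ∀ x, x < 1 ∨ 2 < x → f x = 0) :
    ∃ C, ∀ x, |f x| ≤ C := by
  obtain ⟨C, hC⟩ := isCompact_Icc.exists_bound_of_continuousOn (hf.continuousOn (s := Set.Icc (1:ℝ) 2))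
  refine ⟨max C 0, fun x => ?_⟩
  by_cases hx : x ∈ Set.Icc (1:ℝ) 2
  · exact (hC x hx).trans (le_max_left _ _)
  · rw [h0 x (by
      rw [Set.mem_Icc, not_and_or, not_le, not_le] at hx; exact hx)]
    simp

lemma exists_CT : ∃ CT : ℝ, 1 ≤ CT ∧ (∀ x, |T x| ≤ 1) ∧ (∀ x, |T1 x| ≤ CT) ∧ ∀ x, |T2 x| ≤ CT := by
  obtain ⟨C1, h1⟩ := bdd_of_supp T1_contDiff.continuous fun x => T1_zero
  obtain ⟨C2, h2⟩ := bdd_of_supp T2_contDiff.continuous fun x => T2_zero
  refine ⟨max 1 (max C1 C2), le_max_left _ _, fun x => ?_, fun x => ?_, fun x => ?_⟩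
  · rw [abs_of_nonneg (T_nonneg x)]; exact T_le_one x
  · exact (h1 x).trans ((le_max_left _ _).trans (le_max_right _ _))
  · exact (h2 x).trans ((le_max_right _ _).trans (le_max_right _ _))

/-- a cut-off function at scale `ρ` -/
structure Cut (E E1 E2 : ℝ → ℝ) (ρ C : ℝ) : Prop where
  d1 : ∀ s, HasDerivAt E (E1 s) s
  d2 : ∀ s, HasDerivAt E1 (E2 s) s
  b0 : ∀ s, |E s| ≤ C
  b1 : ∀ s, |E1 s| ≤ C / ρ
  b2 : ∀ s, |E2 s| ≤ C / ρ^2

lemma Cut.sub {E E1 E2 F F1 F2 : ℝ → ℝ} {ρ C C' : ℝ} (h : Cut E E1 E2 ρ C) (h' : Cut F F1 F2 ρ C') :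
    Cut (fun s => E s - F s) (fun s => E1 s - F1 s) (fun s => E2 s - F2 s) ρ (C + C') where
  d1 s := (h.d1 s).sub (h'.d1 s)
  d2 s := (h.d2 s).sub (h'.d2 s)
  b0 s := (abs_sub _ _).trans (add_le_add (h.b0 s) (h'.b0 s))
  b1 s := by rw [add_div]; exact (abs_sub _ _).trans (add_le_add (h.b1 s) (h'.b1 s))
  b2 s := by rw [add_div]; exact (abs_sub _ _).trans (add_le_add (h.b2 s) (h'.b2 s))

lemma Cut.mul {E E1 E2 F F1 F2 : ℝ → ℝ} {ρ C C' : ℝ} (hC : 0 ≤ C) (hρ : 0 < ρ)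
    (h : Cut E E1 E2 ρ C) (h' : Cut F F1 F2 ρ C') :
    Cut (fun s => E s * F s) (fun s => E1 s * F s + E s * F1 s)
      (fun s => (E2 s * F s + E1 s * F1 s) + (E1 s * F1 s + E s * F2 s)) ρ (4 * (C * C')) := by
  have hC' : 0 ≤ C' := (abs_nonneg _).trans (h'.b0 0)
  refine ⟨fun s => (h.d1 s).mul (h'.d1 s), fun s => ((h.d2 s).mul (h'.d1 s)).add ((h.d1 s).mul (h'.d2 s)),
    fun s => ?_, fun s => ?_, fun s => ?_⟩
  · rw [abs_mul]
    have := mul_le_mul (h.b0 s) (h'.b0 s) (abs_nonneg _) hC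
    have : 0 ≤ C * C' := mul_nonneg hC hC'
    linarith
  · have e1 : |E1 s * F s| ≤ C / ρ * C' := by
      rw [abs_mul]; exact mul_le_mul (h.b1 s) (h'.b0 s) (abs_nonneg _) (by positivity)
    have e2 : |E s * F1 s| ≤ C * (C' / ρ) := by
      rw [abs_mul]; exact mul_le_mul (h.b0 s) (h'.b1 s) (abs_nonneg _) (by positivity)
    refine (abs_add_le _ _).trans ?_
    have : 0 ≤ C * C' / ρ := by positivity
    calc _ ≤ C / ρ * C' + C * (C' / ρ) := add_le_add e1 e2
      _ = 2 * (C * C' / ρ) := by ring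
      _ ≤ 4 * (C * C' / ρ) := by linarith
      _ = _ := by ring
  · have e1 : |E2 s * F s| ≤ C / ρ^2 * C' := by
      rw [abs_mul]; exact mul_le_mul (h.b2 s) (h'.b0 s) (abs_nonneg _) (by positivity)
    have e2 : |E s * F2 s| ≤ C * (C' / ρ^2) := by
      rw [abs_mul]; exact mul_le_mul (h.b0 s) (h'.b2 s) (abs_nonneg _) (by positivity)
    have e3 : |E1 s * F1 s| ≤ (C / ρ) * (C' / ρ) := by
      rw [abs_mul]; exact mul_le_mul (h.b1 s) (h'.b1 s) (abs_nonneg _) (by positivity)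
    refine (abs_add_le _ _).trans ?_
    have e4 := abs_add_le (E2 s * F s) (E1 s * F1 s)
    have e5 := abs_add_le (E1 s * F1 s) (E s * F2 s)
    calc _ ≤ (C / ρ^2 * C' + (C / ρ) * (C' / ρ)) + ((C / ρ) * (C' / ρ) + C * (C' / ρ^2)) := by linarith
      _ = 4 * (C * C') / ρ^2 := by field_simp; ring

lemma Cut.mono {E E1 E2 : ℝ → ℝ} {ρ C ρ' C' : ℝ} (h : Cut E E1 E2 ρ C)
    (hC : C ≤ C') (h1 : C / ρ ≤ C' / ρ') (h2 : C / ρ^2 ≤ C' / ρ'^2) : Cut E E1 E2 ρ' C' :=
  ⟨h.d1, h.d2, fun s => (h.b0 s).trans hC, fun s => (h.b1 s).trans h1, fun s => (h.b2 s).trans h2⟩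

lemma Cut_const (c : ℝ) {ρ : ℝ} (hρ : 0 < ρ) : Cut (fun _ => c) (fun _ => 0) (fun _ => 0) ρ |c| where
  d1 s := hasDerivAt_const s c
  d2 s := hasDerivAt_const s 0
  b0 _ := le_rfl
  b1 _ := by rw [abs_zero]; positivity
  b2 _ := by rw [abs_zero]; positivity

/-- `T` rescaled: `s ↦ T (κ (s - c))` -/
lemma Cut_T {CT : ℝ} (hCT : 1 ≤ CT ∧ (∀ x, |T x| ≤ 1) ∧ (∀ x, |T1 x| ≤ CT) ∧ ∀ x, |T2 x| ≤ CT)
    (c : ℝ) {κ ρ : ℝ} (hρ : 0 < ρ) (hκ : |κ| ≤ 1 / ρ) :
    Cut (fun s => T (κ * (s - c))) (fun s => κ * T1 (κ * (s - c))) (fun s => κ * (κ * T2 (κ * (s - c)))) ρ CT where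
  d1 s := by
    have h1 : HasDerivAt (fun s : ℝ => κ * (s - c)) κ s := by
      simpa using ((hasDerivAt_id s).sub_const c).const_mul κ
    have := (T_hasDeriv (κ * (s - c))).comp s h1
    exact this.congr_deriv (by ring)
  d2 s := by
    have h1 : HasDerivAt (fun s : ℝ => κ * (s - c)) κ s := by
      simpa using ((hasDerivAt_id s).sub_const c).const_mul κ
    have := ((T1_hasDeriv (κ * (s - c))).comp s h1).const_mul κ
    exact this.congr_deriv (by ring)
  b0 s := (hCT.2.1 _).trans hCT.1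
  b1 s := by
    rw [abs_mul]
    calc |κ| * |T1 (κ * (s - c))| ≤ (1 / ρ) * CT :=
          mul_le_mul hκ (hCT.2.2.1 _) (abs_nonneg _) (by positivity)
      _ = CT / ρ := by ring
  b2 s := by
    rw [abs_mul, abs_mul]
    calc |κ| * (|κ| * |T2 (κ * (s - c))|) ≤ (1 / ρ) * ((1/ρ) * CT) :=
          mul_le_mul hκ (mul_le_mul hκ (hCT.2.2.2 _) (abs_nonneg _) (by positivity)) (by positivity) (by positivity)
      _ = CT / ρ^2 := by field_simp

/-- product of a `C²` function with a cut-off -/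
lemma piece {G G1 G2 : ℝ → ℂ} {E E1 E2 : ℝ → ℝ} {ρ A C : ℝ} (hρ : 0 < ρ) (hA : 0 ≤ A)
    (g1 : ∀ s, HasDerivAt G (G1 s) s) (g2 : ∀ s, HasDerivAt G1 (G2 s) s) (hE : Cut E E1 E2 ρ C)
    {S : Set ℝ} (hS : IsClosed S) (h0 : ∀ s, s ∉ S → E s = 0)
    (hb : ∀ s ∈ S, ‖G s‖ ≤ A ∧ ‖G1 s‖ ≤ A / ρ ∧ ‖G2 s‖ ≤ A / ρ^2) :
    (∀ s, ‖G s * (E s : ℂ)‖ ≤ A * C) ∧ SD (fun s => G s * (E s : ℂ)) (4 * (A * C) / ρ^2) := by
  have hC : 0 ≤ C := (abs_nonneg _).trans (hE.b0 0)
  have h1 : ∀ s, s ∉ S → E1 s = 0 := fun s hs =>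
    deriv_zero_of_const hE.d1 hS.isOpen_compl (c := 0) (fun x hx => h0 x hx) s hs
  have h2 : ∀ s, s ∉ S → E2 s = 0 := fun s hs =>
    deriv_zero_of_const hE.d2 hS.isOpen_compl (c := 0) (fun x hx => h1 x hx) s hs
  constructor
  · intro s
    by_cases hs : s ∈ S
    · rw [norm_mul, Complex.norm_real, Real.norm_eq_abs]
      exact mul_le_mul (hb s hs).1 (hE.b0 s) (abs_nonneg _) hA
    · rw [h0 s hs]; simp; positivity
  · have d1 : ∀ s, HasDerivAt (fun s => (E s : ℂ)) (E1 s : ℂ) s := fun s => (hE.d1 s).ofReal_comp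
    have d2 : ∀ s, HasDerivAt (fun s => (E1 s : ℂ)) (E2 s : ℂ) s := fun s => (hE.d2 s).ofReal_comp
    refine SD_of_deriv (fun s => (g1 s).mul (d1 s)) (fun s => ((g2 s).mul (d1 s)).add ((g1 s).mul (d2 s))) ?_
    intro s
    by_cases hs : s ∈ S
    · obtain ⟨b0, b1, b2⟩ := hb s hs
      have e1 : ‖G2 s * (E s : ℂ)‖ ≤ A / ρ^2 * C := by
        rw [norm_mul, Complex.norm_real, Real.norm_eq_abs]
        exact mul_le_mul b2 (hE.b0 s) (abs_nonneg _) (by positivity)
      have e2 : ‖G1 s * (E1 s : ℂ)‖ ≤ A / ρ * (C / ρ) := by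
        rw [norm_mul, Complex.norm_real, Real.norm_eq_abs]
        exact mul_le_mul b1 (hE.b1 s) (abs_nonneg _) (by positivity)
      have e3 : ‖G s * (E2 s : ℂ)‖ ≤ A * (C / ρ^2) := by
        rw [norm_mul, Complex.norm_real, Real.norm_eq_abs]
        exact mul_le_mul b0 (hE.b2 s) (abs_nonneg _) hA
      refine (norm_add_le _ _).trans ?_
      have e4 := norm_add_le (G2 s * (E s : ℂ)) (G1 s * (E1 s : ℂ))
      have e5 := norm_add_le (G1 s * (E1 s : ℂ)) (G s * (E2 s : ℂ))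
      calc _ ≤ (A / ρ^2 * C + A / ρ * (C / ρ)) + (A / ρ * (C / ρ) + A * (C / ρ^2)) := by linarith
        _ = 4 * (A * C) / ρ^2 := by field_simp; ring
    · rw [h0 s hs, h1 s hs, h2 s hs]; simp; positivity

end Vb
end part7

section part8
open Complex
open Pool.Agent.MP58366f

namespace Vb

lemma bump : ∃ C : ℝ, 0 < C ∧ ∀ (N : ℕ) [NeZero N] (F : ℝ → ℂ) (x₀ r A σ : ℝ),
    0 < r → r ≤ 1 → |x₀ + σ| ≤ 1 → 1 ≤ N * r → 0 ≤ A →
    (∀ s, r < |s - x₀| → F s = 0) → (∀ s, ‖F s‖ ≤ A) → SD F (A / r^2) →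
    M4 (sym N (fun s => F (s - σ))) (C * A) := by
  obtain ⟨C, hC, h⟩ := ker_bound
  refine ⟨C, hC, fun N _ F x₀ r A σ hr hr1 hx hN hA hsupp hbd hSD => ?_⟩
  refine (h N (fun s => F (s - σ)) (x₀ + σ) r A hr hr1 hx hN hA ?_ ?_ ?_).2
  · intro s hs
    apply hsupp
    have : s - σ - x₀ = s - (x₀ + σ) := by ring
    rwa [this]
  · intro s; exact hbd _
  · intro s t
    have := hSD.shift σ s t
    refine this.trans (le_of_eq (by ring))

/-- a bump piece: `C²` function times a cut-off -/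
lemma bump_piece : ∃ C : ℝ, 0 < C ∧ ∀ (N : ℕ) [NeZero N] (G G1 G2 : ℝ → ℂ) (E E1 E2 : ℝ → ℝ)
    (x₀ r' r ρ A B σ : ℝ), 0 < ρ → ρ ≤ r → r ≤ 8 * ρ → r ≤ 1 → r' ≤ r → |x₀ + σ| ≤ 1 → 1 ≤ N * r → 0 ≤ A →
    (∀ s, HasDerivAt G (G1 s) s) → (∀ s, HasDerivAt G1 (G2 s) s) → Cut E E1 E2 ρ B →
    (∀ s, r' < |s - x₀| → E s = 0) → 
    (∀ s, |s - x₀| ≤ r' → ‖G s‖ ≤ A ∧ ‖G1 s‖ ≤ A / ρ ∧ ‖G2 s‖ ≤ A / ρ^2) →
    M4 (sym N (fun s => G (s - σ) * (E (s - σ) : ℂ))) (C * (A * B)) := by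
  obtain ⟨C, hC, h⟩ := bump
  refine ⟨C * 256, by positivity, fun N _ G G1 G2 E E1 E2 x₀ r' r ρ A B σ hρ hρr hrρ hr1 hr' hx hN hA g1 g2 hE hsupp hb => ?_⟩
  have hB : 0 ≤ B := (abs_nonneg _).trans (hE.b0 0)
  have hr : 0 < r := lt_of_lt_of_le hρ hρr
  have hp := piece (S := {s | |s - x₀| ≤ r'}) hρ hA g1 g2 hE
    (isClosed_le (by fun_prop) continuous_const) (fun s hs => hsupp s (not_le.1 hs)) (fun s hs => hb s hs)
  have hAB : 0 ≤ A * B := mul_nonneg hA hB
  have := h N (fun s => G s * (E s : ℂ)) x₀ r (256 * (A * B)) σ hr hr1 hx hN (by positivity)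
    (fun s hs => by rw [hsupp s (lt_of_le_of_lt hr' hs)]; simp)
    (fun s => (hp.1 s).trans (by linarith))
    (hp.2.mono (by
      rw [div_le_div_iff₀ (by positivity) (by positivity)]
      have : r^2 ≤ 64 * ρ^2 := by nlinarith
      nlinarith [mul_nonneg hAB (sq_nonneg r)]))
  refine this.mono (le_of_eq (by ring))

/-- dyadic pieces to the right of `c` -/
lemma MR : ∃ C : ℝ, 0 < C ∧ ∀ (N : ℕ) [NeZero N] (L : ℕ) (c r₀ A σ : ℝ) (G G1 G2 : ℝ → ℂ),
    0 < r₀ → r₀ ≤ 1 / 8 → |c + σ| ≤ 1 → 100 ≤ N * (r₀ / 2 ^ L) → 0 ≤ A →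
    (∀ s, HasDerivAt G (G1 s) s) → (∀ s, HasDerivAt G1 (G2 s) s) →
    (∀ x, r₀ / 2 ^ L ≤ x → x ≤ 2 * r₀ → ‖G (c + x)‖ ≤ A ∧ ‖G1 (c + x)‖ ≤ A / x ∧ ‖G2 (c + x)‖ ≤ A / x^2) →
    M4 (sym N (fun s => G (s - σ) * ((T ((2 ^ L / r₀) * (s - σ - c)) - T ((1 / r₀) * (s - σ - c)) : ℝ) : ℂ))) (C * A) := by
  obtain ⟨CM, hCM, h⟩ := mikhlin
  obtain ⟨CT, hCT⟩ := exists_CT
  have hCT0 : 0 < CT := by linarith [hCT.1]
  refine ⟨CM * (32 * CT), by positivity, fun N _ L c r₀ A σ G G1 G2 hr hr1 hx hN hA g1 g2 hb => ?_⟩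
  set κ : ℕ → ℝ := fun l => 2 ^ l / r₀ with hκ
  have hκ0 : ∀ l, 0 < κ l := fun l => by simp only [hκ]; positivity
  set E : ℕ → ℝ → ℝ := fun l s => T (κ (l+1) * (s - c)) - T (κ l * (s - c)) with hE
  have hcut : ∀ l, Cut (E l) (fun s => κ (l+1) * T1 (κ (l+1) * (s - c)) - κ l * T1 (κ l * (s - c)))
      (fun s => κ (l+1) * (κ (l+1) * T2 (κ (l+1) * (s - c))) - κ l * (κ l * T2 (κ l * (s - c))))
      (r₀ / 2^(l+1)) (CT + CT) := by
    intro l
    apply Cut.sub
    · apply Cut_T hCT c (by positivity)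
      rw [abs_of_pos (hκ0 _)]; simp only [hκ]; rw [one_div_div]
    · apply Cut_T hCT c (by positivity)
      rw [abs_of_pos (hκ0 _)]; simp only [hκ]; rw [one_div_div]
      apply div_le_div_of_nonneg_right _ hr.le
      exact pow_le_pow_right₀ (by norm_num) (Nat.le_succ l)
  have hsupp : ∀ l s, ¬ (r₀ / 2^l / 2 ≤ s - c ∧ s - c ≤ 2 * (r₀ / 2^l)) → E l s = 0 := by
    intro l s hs
    rw [not_and_or, not_le, not_le] at hs
    simp only [hE, hκ]
    rcases hs with hs | hs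
    · have h1 : 2^(l+1) / r₀ * (s - c) ≤ 1 := by
        rw [div_mul_eq_mul_div, div_le_one hr, pow_succ]
        have h3 : s - c ≤ r₀ / (2^l * 2) := by rw [← div_div]; exact hs.le
        rw [le_div_iff₀ (by positivity)] at h3
        linarith
      have h2 : 2^l / r₀ * (s - c) ≤ 1 := by
        rcases le_or_gt 0 (s - c) with h4 | h4
        · refine le_trans ?_ h1
          apply mul_le_mul_of_nonneg_right _ h4
          apply div_le_div_of_nonneg_right _ hr.le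
          exact pow_le_pow_right₀ (by norm_num) (Nat.le_succ l)
        · have : 2^l / r₀ * (s - c) ≤ 0 := mul_nonpos_of_nonneg_of_nonpos (by positivity) h4.le
          linarith
      rw [T_zero h1, T_zero h2, sub_zero]
    · have h2 : 2 ≤ 2^l / r₀ * (s - c) := by
        rw [div_mul_eq_mul_div, le_div_iff₀ hr]
        have h3 : 2 * r₀ / 2^l < s - c := by rw [mul_div_assoc]; exact hs
        rw [div_lt_iff₀ (by positivity)] at h3
        linarith
      have h1 : 2 ≤ 2^(l+1) / r₀ * (s - c) := by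
        refine h2.trans ?_
        have h4 : 0 ≤ s - c := by
          have : 0 < 2 * (r₀ / 2^l) := by positivity
          linarith
        apply mul_le_mul_of_nonneg_right _ h4
        apply div_le_div_of_nonneg_right _ hr.le
        exact pow_le_pow_right₀ (by norm_num) (Nat.le_succ l)
      rw [T_one h1, T_one h2, sub_self]
  have hpiece : ∀ l < L, (∀ s, ‖G s * (E l s : ℂ)‖ ≤ A * (CT + CT)) ∧
      SD (fun s => G s * (E l s : ℂ)) (4 * (A * (CT + CT)) / (r₀ / 2^(l+1))^2) := by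
    intro l hl
    apply piece (S := {s | r₀ / 2^l / 2 ≤ s - c ∧ s - c ≤ 2 * (r₀ / 2^l)}) (by positivity) hA g1 g2 (hcut l)
    · rw [Set.ofPred_and]
      exact (isClosed_le (by fun_prop) (by fun_prop)).inter (isClosed_le (by fun_prop) (by fun_prop))
    · exact hsupp l
    · intro s hs
      have e1 : c + (s - c) = s := by ring
      have hlow : r₀ / 2^(l+1) ≤ s - c := by rw [pow_succ, ← div_div]; exact hs.1
      have h1 : r₀ / 2^L ≤ s - c := by
        refine le_trans ?_ hlow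
        apply div_le_div_of_nonneg_left hr.le (by positivity)
        exact pow_le_pow_right₀ (by norm_num) hl
      have h2 : s - c ≤ 2 * r₀ := by
        refine hs.2.trans ?_
        have : r₀ / 2^l ≤ r₀ := div_le_self hr.le (one_le_pow₀ (by norm_num))
        linarith
      have h3 := hb (s - c) h1 h2
      rw [e1] at h3
      have hpos : 0 < r₀ / 2^(l+1) := by positivity
      refine ⟨h3.1, h3.2.1.trans ?_, h3.2.2.trans ?_⟩
      · exact div_le_div_of_nonneg_left hA hpos hlow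
      · exact div_le_div_of_nonneg_left hA (by positivity) (pow_le_pow_left₀ hpos.le hlow 2)
  have hmain := h N L (c + σ) r₀ (A * (32 * CT)) (fun l s => G (s - σ) * (E l (s - σ) : ℂ)) hr hr1 hx hN (by positivity)
    (fun l _ s hs => by
      by_contra hcon
      apply hs
      rw [hsupp l (s - σ) (by
        intro h4; apply hcon
        have e : s - σ - c = s - (c + σ) := by ring
        rwa [e] at h4)]
      simp)
    (fun l hl s => ((hpiece l hl).1 (s - σ)).trans (by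
      have : 0 ≤ A * CT := by positivity
      linarith))
    (fun l hl s t => by
      refine ((hpiece l hl).2.shift σ s t).trans (le_of_eq ?_)
      rw [pow_succ]
      field_simp; ring)
  refine (hmain.mono (le_of_eq (by ring))).congr fun j => ?_
  show ∑ l ∈ Finset.range L, G (2 * Real.pi * (j.valMinAbs : ℝ) / N - σ) * (E l (2 * Real.pi * (j.valMinAbs : ℝ) / N - σ) : ℂ) = _
  rw [← Finset.mul_sum]
  show _ = G (2 * Real.pi * (j.valMinAbs : ℝ) / N - σ) * _
  congr 1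
  rw [← Complex.ofReal_sum]
  congr 1
  simp only [hE]
  rw [Finset.sum_range_sub (fun l => T (κ l * (2 * Real.pi * (j.valMinAbs : ℝ) / N - σ - c)))]
  simp only [hκ, pow_zero]

/-- dyadic pieces to the left of `c` -/
lemma ML : ∃ C : ℝ, 0 < C ∧ ∀ (N : ℕ) [NeZero N] (L : ℕ) (c r₀ A σ : ℝ) (G G1 G2 : ℝ → ℂ),
    0 < r₀ → r₀ ≤ 1 / 8 → |c + σ| ≤ 1 → 100 ≤ N * (r₀ / 2 ^ L) → 0 ≤ A →
    (∀ s, HasDerivAt G (G1 s) s) → (∀ s, HasDerivAt G1 (G2 s) s) →
    (∀ x, r₀ / 2 ^ L ≤ x → x ≤ 2 * r₀ → ‖G (c - x)‖ ≤ A ∧ ‖G1 (c - x)‖ ≤ A / x ∧ ‖G2 (c - x)‖ ≤ A / x^2) →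
    M4 (sym N (fun s => G (s - σ) * ((T (-(2 ^ L / r₀) * (s - σ - c)) - T (-(1 / r₀) * (s - σ - c)) : ℝ) : ℂ))) (C * A) := by
  obtain ⟨CM, hCM, h⟩ := mikhlin_left
  obtain ⟨CT, hCT⟩ := exists_CT
  have hCT0 : 0 < CT := by linarith [hCT.1]
  refine ⟨CM * (32 * CT), by positivity, fun N _ L c r₀ A σ G G1 G2 hr hr1 hx hN hA g1 g2 hb => ?_⟩
  set κ : ℕ → ℝ := fun l => -(2 ^ l / r₀) with hκ
  have hκ0 : ∀ l, |κ l| = 2^l / r₀ := fun l => by simp only [hκ]; rw [abs_neg, abs_of_pos (by positivity)]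
  set E : ℕ → ℝ → ℝ := fun l s => T (κ (l+1) * (s - c)) - T (κ l * (s - c)) with hE
  have hcut : ∀ l, Cut (E l) (fun s => κ (l+1) * T1 (κ (l+1) * (s - c)) - κ l * T1 (κ l * (s - c)))
      (fun s => κ (l+1) * (κ (l+1) * T2 (κ (l+1) * (s - c))) - κ l * (κ l * T2 (κ l * (s - c))))
      (r₀ / 2^(l+1)) (CT + CT) := by
    intro l
    apply Cut.sub
    · apply Cut_T hCT c (by positivity)
      rw [hκ0, one_div_div]
    · apply Cut_T hCT c (by positivity)
      rw [hκ0, one_div_div]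
      apply div_le_div_of_nonneg_right _ hr.le
      exact pow_le_pow_right₀ (by norm_num) (Nat.le_succ l)
  have hsupp : ∀ l s, ¬ (r₀ / 2^l / 2 ≤ c - s ∧ c - s ≤ 2 * (r₀ / 2^l)) → E l s = 0 := by
    intro l s hs
    rw [not_and_or, not_le, not_le] at hs
    simp only [hE, hκ]
    have e1 : ∀ l : ℕ, -(2^l / r₀) * (s - c) = 2^l / r₀ * (c - s) := fun l => by ring
    rw [e1, e1]
    rcases hs with hs | hs
    · have h1 : 2^(l+1) / r₀ * (c - s) ≤ 1 := by
        rw [div_mul_eq_mul_div, div_le_one hr, pow_succ]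
        have h3 : c - s ≤ r₀ / (2^l * 2) := by rw [← div_div]; exact hs.le
        rw [le_div_iff₀ (by positivity)] at h3
        linarith
      have h2 : 2^l / r₀ * (c - s) ≤ 1 := by
        rcases le_or_gt 0 (c - s) with h4 | h4
        · refine le_trans ?_ h1
          apply mul_le_mul_of_nonneg_right _ h4
          apply div_le_div_of_nonneg_right _ hr.le
          exact pow_le_pow_right₀ (by norm_num) (Nat.le_succ l)
        · have : 2^l / r₀ * (c - s) ≤ 0 := mul_nonpos_of_nonneg_of_nonpos (by positivity) h4.le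
          linarith
      rw [T_zero h1, T_zero h2, sub_zero]
    · have h2 : 2 ≤ 2^l / r₀ * (c - s) := by
        rw [div_mul_eq_mul_div, le_div_iff₀ hr]
        have h3 : 2 * r₀ / 2^l < c - s := by rw [mul_div_assoc]; exact hs
        rw [div_lt_iff₀ (by positivity)] at h3
        linarith
      have h1 : 2 ≤ 2^(l+1) / r₀ * (c - s) := by
        refine h2.trans ?_
        have h4 : 0 ≤ c - s := by
          have : 0 < 2 * (r₀ / 2^l) := by positivity
          linarith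
        apply mul_le_mul_of_nonneg_right _ h4
        apply div_le_div_of_nonneg_right _ hr.le
        exact pow_le_pow_right₀ (by norm_num) (Nat.le_succ l)
      rw [T_one h1, T_one h2, sub_self]
  have hpiece : ∀ l < L, (∀ s, ‖G s * (E l s : ℂ)‖ ≤ A * (CT + CT)) ∧
      SD (fun s => G s * (E l s : ℂ)) (4 * (A * (CT + CT)) / (r₀ / 2^(l+1))^2) := by
    intro l hl
    apply piece (S := {s | r₀ / 2^l / 2 ≤ c - s ∧ c - s ≤ 2 * (r₀ / 2^l)}) (by positivity) hA g1 g2 (hcut l)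
    · rw [Set.ofPred_and]
      exact (isClosed_le (by fun_prop) (by fun_prop)).inter (isClosed_le (by fun_prop) (by fun_prop))
    · exact hsupp l
    · intro s hs
      have e1 : c - (c - s) = s := by ring
      have hlow : r₀ / 2^(l+1) ≤ c - s := by rw [pow_succ, ← div_div]; exact hs.1
      have h1 : r₀ / 2^L ≤ c - s := by
        refine le_trans ?_ hlow
        apply div_le_div_of_nonneg_left hr.le (by positivity)
        exact pow_le_pow_right₀ (by norm_num) hl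
      have h2 : c - s ≤ 2 * r₀ := by
        refine hs.2.trans ?_
        have : r₀ / 2^l ≤ r₀ := div_le_self hr.le (one_le_pow₀ (by norm_num))
        linarith
      have h3 := hb (c - s) h1 h2
      rw [e1] at h3
      have hpos : 0 < r₀ / 2^(l+1) := by positivity
      refine ⟨h3.1, h3.2.1.trans ?_, h3.2.2.trans ?_⟩
      · exact div_le_div_of_nonneg_left hA hpos hlow
      · exact div_le_div_of_nonneg_left hA (by positivity) (pow_le_pow_left₀ hpos.le hlow 2)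
  have hmain := h N L (c + σ) r₀ (A * (32 * CT)) (fun l s => G (s - σ) * (E l (s - σ) : ℂ)) hr hr1 hx hN (by positivity)
    (fun l _ s hs => by
      by_contra hcon
      apply hs
      rw [hsupp l (s - σ) (by
        intro h4; apply hcon
        have e : c - (s - σ) = c + σ - s := by ring
        rwa [e] at h4)]
      simp)
    (fun l hl s => ((hpiece l hl).1 (s - σ)).trans (by
      have : 0 ≤ A * CT := by positivity
      linarith))
    (fun l hl s t => by
      refine ((hpiece l hl).2.shift σ s t).trans (le_of_eq ?_)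
      rw [pow_succ]
      field_simp; ring)
  refine (hmain.mono (le_of_eq (by ring))).congr fun j => ?_
  show ∑ l ∈ Finset.range L, G (2 * Real.pi * (j.valMinAbs : ℝ) / N - σ) * (E l (2 * Real.pi * (j.valMinAbs : ℝ) / N - σ) : ℂ) = _
  rw [← Finset.mul_sum]
  show _ = G (2 * Real.pi * (j.valMinAbs : ℝ) / N - σ) * _
  congr 1
  rw [← Complex.ofReal_sum]
  congr 1
  simp only [hE]
  rw [Finset.sum_range_sub (fun l => T (κ l * (2 * Real.pi * (j.valMinAbs : ℝ) / N - σ - c)))]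
  simp only [hκ, pow_zero]

/-! ### the far cut-off -/

noncomputable def kap (s : ℝ) : ℝ := T (800 * (1 - Real.cos s))

lemma Cut_kap : ∃ (E1 E2 : ℝ → ℝ) (C : ℝ), 0 < C ∧ Cut kap E1 E2 1 C := by
  obtain ⟨CT, hCT⟩ := exists_CT
  have hCT0 : 0 < CT := by linarith [hCT.1]
  refine ⟨fun s => T1 (800 * (1 - Real.cos s)) * (800 * Real.sin s),
    fun s => (T2 (800 * (1 - Real.cos s)) * (800 * Real.sin s)) * (800 * Real.sin s) +
      T1 (800 * (1 - Real.cos s)) * (800 * Real.cos s), CT * 700000, by positivity, ?_⟩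
  have hin : ∀ s, HasDerivAt (fun s : ℝ => 800 * (1 - Real.cos s)) (800 * Real.sin s) s := by
    intro s
    have := ((Real.hasDerivAt_cos s).const_sub 1).const_mul 800
    exact this.congr_deriv (by ring)
  constructor
  · intro s
    exact (T_hasDeriv (800 * (1 - Real.cos s))).comp s (hin s)
  · intro s
    have h1 : HasDerivAt (fun s : ℝ => T1 (800 * (1 - Real.cos s))) (T2 (800 * (1 - Real.cos s)) * (800 * Real.sin s)) s :=
      (T1_hasDeriv (800 * (1 - Real.cos s))).comp s (hin s)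
    exact h1.mul ((Real.hasDerivAt_sin s).const_mul 800)
  · intro s
    unfold kap
    refine (hCT.2.1 _).trans ?_
    nlinarith [hCT.1]
  · intro s
    rw [div_one, abs_mul, abs_mul, abs_of_pos (by norm_num : (0:ℝ) < 800)]
    have h1 := hCT.2.2.1 (800 * (1 - Real.cos s))
    have h2 := Real.abs_sin_le_one s
    calc _ ≤ CT * (800 * 1) := mul_le_mul h1 (by linarith) (by positivity) hCT0.le
      _ ≤ CT * 700000 := by nlinarith
  · intro s
    rw [one_pow, div_one]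
    have h1 := hCT.2.2.1 (800 * (1 - Real.cos s))
    have h2 := hCT.2.2.2 (800 * (1 - Real.cos s))
    have h3 := Real.abs_sin_le_one s
    have h4 := Real.abs_cos_le_one s
    refine (abs_add_le _ _).trans ?_
    rw [abs_mul, abs_mul, abs_mul, abs_mul, abs_mul, abs_of_pos (by norm_num : (0:ℝ) < 800)]
    have e1 : |T2 (800 * (1 - Real.cos s))| * (800 * |Real.sin s|) * (800 * |Real.sin s|) ≤ CT * (800 * 1) * (800 * 1) := by
      apply mul_le_mul _ (by linarith) (by positivity) (by positivity)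
      exact mul_le_mul h2 (by linarith) (by positivity) hCT0.le
    have e2 : |T1 (800 * (1 - Real.cos s))| * (800 * |Real.cos s|) ≤ CT * (800 * 1) :=
      mul_le_mul h1 (by linarith) (by positivity) hCT0.le
    nlinarith

lemma far_piece : ∃ C : ℝ, 0 < C ∧ ∀ (N : ℕ) [NeZero N] (G G1 G2 : ℝ → ℂ) (A σ : ℝ), 0 ≤ A →
    (∀ s, G (s + 2 * Real.pi) = G s) →
    (∀ s, HasDerivAt G (G1 s) s) → (∀ s, HasDerivAt G1 (G2 s) s) →
    (∀ s, 1/800 ≤ 1 - Real.cos s → ‖G s‖ ≤ A ∧ ‖G1 s‖ ≤ A ∧ ‖G2 s‖ ≤ A) →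
    M4 (sym N (fun s => G (s - σ) * (kap (s - σ) : ℂ))) (C * A) := by
  obtain ⟨E1, E2, B, hB, hcut⟩ := Cut_kap
  obtain ⟨C, hC, h⟩ := ker_bound_periodic
  refine ⟨C * (4 * B), by positivity, fun N _ G G1 G2 A σ hA hper g1 g2 hb => ?_⟩
  have hp := piece (S := {s | 1/800 ≤ 1 - Real.cos s}) (by norm_num : (0:ℝ) < 1) hA g1 g2 hcut
    (isClosed_le continuous_const (by fun_prop))
    (fun s hs => by
      unfold kap
      apply T_zero
      have : ¬ (1/800 ≤ 1 - Real.cos s) := hs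
      linarith)
    (fun s hs => by
      have := hb s hs
      norm_num
      exact this)
  have hm := h N (fun s => G (s - σ) * (kap (s - σ) : ℂ)) (4 * (A * B)) (by positivity)
    (fun s => by
      show G (s + 2 * Real.pi - σ) * _ = _
      have e : s + 2 * Real.pi - σ = (s - σ) + 2 * Real.pi := by ring
      rw [e, hper]
      unfold kap
      rw [Real.cos_add_two_pi])
    (fun s => (hp.1 (s - σ)).trans (by
      have : 0 ≤ A * B := by positivity
      linarith))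
    (fun s t => by
      have := hp.2.shift σ s t
      refine this.trans (le_of_eq ?_)
      norm_num)
  exact hm.2.mono (le_of_eq (by ring))

end Vb
end part8

section part9
open Complex
open Pool.Agent.MP58366f

namespace Vb

lemma UU_per (W : Multiset ℂ) (s : ℝ) : UU W (s + 2 * Real.pi) = UU W s := by
  unfold UU
  have : exp (((s + 2 * Real.pi : ℝ) : ℂ) * I) = exp ((s:ℂ) * I) := by
    push_cast
    rw [add_mul, Complex.exp_add, Complex.exp_two_pi_mul_I, mul_one]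
  rw [this]

lemma hasDeriv_conj {f : ℝ → ℂ} {f' : ℂ} {s : ℝ} (h : HasDerivAt f f' s) :
    HasDerivAt (fun s => (starRingEnd ℂ) (f s)) ((starRingEnd ℂ) f') s := h.star

/-- dyadic partition identity -/
lemma partition_id {e a r r₀ θ : ℝ} (ha : 0 < a) (hr : 0 < r) (h1 : 2 * a ≤ e) (h2 : 2 * r ≤ e)
    (h3 : 0 < r₀) (h4 : |θ| ≤ r₀) :
    (T ((1/a) * (θ - e)) - T ((1 / r₀) * (θ - e))) + (T (-(1/a) * (θ - -e)) - T (-(1 / r₀) * (θ - -e)))
     + (1 - T ((1/a) * (θ - e)) - T (-(1/a) * (θ - e))) + (1 - T ((1/a) * (θ - -e)) - T (-(1/a) * (θ - -e)))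
     + ((T (-(1/a) * (θ - e)) - T (-(1/r) * (θ - e))) + (T ((1/a) * (θ - -e)) - T ((1/r) * (θ - -e)))
       + T (-(1/r) * (θ - e)) * T ((1/r) * (θ - -e))) = 1 := by
  rw [abs_le] at h4
  have e0 : 0 < e := by linarith
  have t1 : T ((1 / r₀) * (θ - e)) = 0 := by
    apply T_zero
    rw [one_div_mul_eq_div, div_le_one h3]; linarith [h4.2]
  have t2 : T (-(1 / r₀) * (θ - -e)) = 0 := by
    apply T_zero
    have : -(1 / r₀) * (θ - -e) = (-θ - e) / r₀ := by ring
    rw [this, div_le_one h3]; linarith [h4.1]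
  have t3 : T (-(1/r) * (θ - e)) * T ((1/r) * (θ - -e)) = T (-(1/r) * (θ - e)) + T ((1/r) * (θ - -e)) - 1 := by
    rcases le_total θ 0 with h | h
    · have : T (-(1/r) * (θ - e)) = 1 := by
        apply T_one
        have : -(1/r) * (θ - e) = (e - θ) / r := by ring
        rw [this, le_div_iff₀ hr]; linarith
      rw [this]; ring
    · have : T ((1/r) * (θ - -e)) = 1 := by
        apply T_one
        have : (1/r) * (θ - -e) = (e + θ) / r := by ring
        rw [this, le_div_iff₀ hr]; linarith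
      rw [this]; ring
  rw [t1, t2, t3]; ring

lemma kap_local {θ : ℝ} (h1 : -(Real.pi + 1/4) ≤ θ) (h2 : θ ≤ Real.pi) (h : kap θ ≠ 1) : |θ| ≤ 1/8 := by
  by_contra hcon
  push Not at hcon
  apply h
  unfold kap
  apply T_one
  have hpi := Real.pi_gt_three
  have hpi2 := Real.pi_lt_d2
  rcases le_or_gt (-Real.pi) θ with h3 | h3
  · have h4 := Real.cos_le_one_sub_mul_cos_sq (x := θ) (abs_le.2 ⟨h3, h2⟩)
    have h5 : (1/8:ℝ)^2 ≤ θ^2 := by
      rw [← sq_abs θ]
      exact pow_le_pow_left₀ (by norm_num) hcon.le 2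
    have h6 : (1:ℝ)/400 ≤ 2 / Real.pi^2 * θ^2 := by
      rw [div_mul_eq_mul_div, div_le_div_iff₀ (by norm_num) (by positivity)]
      have : Real.pi^2 ≤ 3.15^2 := pow_le_pow_left₀ (by linarith) hpi2.le 2
      nlinarith
    linarith
  · have h4 : Real.cos θ = - Real.cos (θ + Real.pi) := by rw [Real.cos_add_pi, neg_neg]
    have h5 : 0 ≤ Real.cos (θ + Real.pi) := Real.cos_nonneg_of_neg_pi_div_two_le_of_le (by linarith) (by linarith)
    rw [h4]; linarith

lemma exists_dyadic {x y : ℝ} (hy : 0 < y) (h : y ≤ x) : ∃ m : ℕ, y ≤ x / 2^m ∧ x / 2^m < 2 * y := by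
  obtain ⟨m, h1, h2⟩ := exists_nat_pow_near (x := x / y) (y := 2) (by rw [le_div_iff₀ hy]; linarith) (by norm_num)
  refine ⟨m, ?_, ?_⟩
  · rw [le_div_iff₀ (by positivity)]
    rw [le_div_iff₀ hy] at h1
    linarith
  · rw [div_lt_iff₀ (by positivity)]
    rw [div_lt_iff₀ hy, pow_succ] at h2
    linarith

/-- data common to all pieces -/
structure Dat (K M q L m : ℕ) (e a r : ℝ) : Prop where
  hK : 0 < K
  hq : 200 ≤ q
  hM : 20 * q ≤ M
  he : e = Real.pi / q
  ha : a = (1/8) / 2^L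
  hr : r = (1/8) / 2^m
  hmL : m ≤ L
  hDa : 5 ≤ (K:ℝ) * M * a
  hDa2 : (K:ℝ) * M * a < 10
  h2a : 2 * a ≤ e
  h2r : 2 * r ≤ e
  h4r : e ≤ 4 * r
  har : a ≤ r

lemma Dat_exists {K M q : ℕ} (hK : 0 < K) (hq : 200 ≤ q) (hM : 20 * q ≤ M) :
    ∃ (L m : ℕ) (e a r : ℝ), Dat K M q L m e a r := by
  have hqr : (200:ℝ) ≤ q := by exact_mod_cast hq
  have hKr : (1:ℝ) ≤ K := by exact_mod_cast hK
  have hMr : (20 * q : ℝ) ≤ M := by exact_mod_cast hM
  have hpi := Real.pi_gt_three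
  have hpi2 := Real.pi_lt_d2
  set D : ℝ := (K:ℝ) * M with hD
  have hDM : (M:ℝ) ≤ D := by rw [hD]; nlinarith
  have hDpos : 0 < D := by linarith
  set e : ℝ := Real.pi / q with he
  have he0 : 0 < e := by rw [he]; positivity
  have heq : e * q = Real.pi := by rw [he]; field_simp
  have he1 : e ≤ 1/50 := by rw [he, div_le_iff₀ (by linarith)]; linarith
  obtain ⟨m, hm1, hm2⟩ := exists_dyadic (x := 1/8) (y := e/4) (by positivity) (by linarith)
  obtain ⟨L, hL1, hL2⟩ := exists_dyadic (x := 1/8) (y := 5/D) (by positivity) (by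
    rw [div_le_div_iff₀ hDpos (by norm_num)]; linarith)
  have har : (1/8:ℝ) / 2^L < (1/8) / 2^m := by
    have h1 : 2 * (5/D) ≤ e/4 := by
      have : 2 * (5/D) = 10 / D := by ring
      rw [this, div_le_div_iff₀ hDpos (by norm_num)]
      nlinarith
    linarith
  have h2a : (1/8:ℝ) / 2^L < 10 / D := by
    have h5 : 2 * (5/D) = 10 / D := by ring
    linarith
  refine ⟨L, m, e, _, _, hK, hq, hM, he, rfl, rfl, ?_, ?_, ?_, by linarith, by linarith, by linarith, har.le⟩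
  · by_contra hcon
    push Not at hcon
    have : (1/8:ℝ) / 2^m ≤ (1/8) / 2^L := by
      apply div_le_div_of_nonneg_left (by norm_num) (by positivity)
      exact pow_le_pow_right₀ (by norm_num) hcon.le
    linarith
  · rw [div_le_iff₀ hDpos] at hL1; linarith
  · rw [lt_div_iff₀ hDpos] at h2a; linarith

/-- the big constant -/
noncomputable def AA : ℝ := 20000000

lemma AA_pos : 0 < AA := by unfold AA; norm_num

noncomputable def Go (K M q : ℕ) (s : ℝ) : ℂ := UU (Wn K M q) s - 1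
noncomputable def Go1 (K M q : ℕ) (s : ℝ) : ℂ := I * (Ph (Wn K M q) s : ℂ) * UU (Wn K M q) s
noncomputable def Go2 (K M q : ℕ) (s : ℝ) : ℂ :=
  (I * (Ph1 (Wn K M q) s : ℂ) - (Ph (Wn K M q) s : ℂ)^2) * UU (Wn K M q) s

noncomputable def Gi (K M q : ℕ) (s : ℝ) : ℂ := (starRingEnd ℂ) (UU (Wc K M q) s)
noncomputable def Gi1 (K M q : ℕ) (s : ℝ) : ℂ :=
  (starRingEnd ℂ) (I * (Ph (Wc K M q) s : ℂ) * UU (Wc K M q) s)
noncomputable def Gi2 (K M q : ℕ) (s : ℝ) : ℂ :=
  (starRingEnd ℂ) ((I * (Ph1 (Wc K M q) s : ℂ) - (Ph (Wc K M q) s : ℂ)^2) * UU (Wc K M q) s)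

section
variable {K M q L m : ℕ} {e a r : ℝ}

lemma Dat.q0 (d : Dat K M q L m e a r) : 0 < q := by have := d.hq; omega
lemma Dat.M0 (d : Dat K M q L m e a r) : 0 < M := by have := d.hq; have := d.hM; omega
lemma Dat.qKM (d : Dat K M q L m e a r) : q < K * M := by
  have := d.hq; have := d.hM; have := d.hK; nlinarith
lemma Dat.e0 (d : Dat K M q L m e a r) : 0 < e := by
  have h := d.q0
  have h' : (0:ℝ) < q := by exact_mod_cast h
  rw [d.he]; exact div_pos Real.pi_pos h'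
lemma Dat.e1 (d : Dat K M q L m e a r) : e ≤ 1/50 := by
  have hq : (200:ℝ) ≤ q := by exact_mod_cast d.hq
  rw [d.he, div_le_iff₀ (by linarith)]
  have := Real.pi_lt_d2; linarith
lemma Dat.a0 (d : Dat K M q L m e a r) : 0 < a := by rw [d.ha]; positivity
lemma Dat.r0 (d : Dat K M q L m e a r) : 0 < r := by rw [d.hr]; positivity
lemma Dat.hra (d : Dat K M q L m e a r) : r / 2^(L-m) = a := by
  have := d.hmL
  rw [d.hr, d.ha, div_div, ← pow_add]; congr 2; omega

lemma Dat.okn (d : Dat K M q L m e a r) : ∀ w ∈ Wn K M q, w ≠ 0 ∧ ‖w‖ < 1 :=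
  Zr_ok d.hK d.M0 d.q0 d.qKM (Or.inr (Or.inl rfl))
lemma Dat.okc (d : Dat K M q L m e a r) : ∀ w ∈ Wc K M q, w ≠ 0 ∧ ‖w‖ < 1 :=
  Zr_ok d.hK d.M0 d.q0 d.qKM (Or.inr (Or.inr rfl))

lemma Dat.go1 (d : Dat K M q L m e a r) (s : ℝ) : HasDerivAt (Go K M q) (Go1 K M q s) s :=
  (hasDeriv_UU (fun w hw => (d.okn w hw).2) s).sub_const 1
lemma Dat.go2 (d : Dat K M q L m e a r) (s : ℝ) : HasDerivAt (Go1 K M q) (Go2 K M q s) s :=
  hasDeriv_UU1 (fun w hw => (d.okn w hw).2) s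
lemma Dat.gi1 (d : Dat K M q L m e a r) (s : ℝ) : HasDerivAt (Gi K M q) (Gi1 K M q s) s :=
  hasDeriv_conj (hasDeriv_UU (fun w hw => (d.okc w hw).2) s)
lemma Dat.gi2 (d : Dat K M q L m e a r) (s : ℝ) : HasDerivAt (Gi1 K M q) (Gi2 K M q s) s :=
  hasDeriv_conj (hasDeriv_UU1 (fun w hw => (d.okc w hw).2) s)
lemma Dat.goA (d : Dat K M q L m e a r) (s : ℝ) : ‖Go K M q s‖ ≤ AA := by
  unfold Go
  refine (norm_sub_le _ _).trans ?_
  rw [norm_UU d.okn, norm_one]; unfold AA; norm_num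
lemma Dat.giA (d : Dat K M q L m e a r) (s : ℝ) : ‖Gi K M q s‖ ≤ AA := by
  unfold Gi
  rw [RCLike.norm_conj, norm_UU d.okc]; unfold AA; norm_num

lemma Dat.out (d : Dat K M q L m e a r) {s x : ℝ} (hx1 : a ≤ x) (hx2 : x ≤ 1/2) (hs : |s| = e + x) :
    ‖Go K M q s‖ ≤ AA ∧ ‖Go1 K M q s‖ ≤ AA / x ∧ ‖Go2 K M q s‖ ≤ AA / x^2 := by
  have hx0 : 0 < x := lt_of_lt_of_le d.a0 hx1
  have h5 : 5 ≤ (K:ℝ) * M * x := d.hDa.trans (mul_le_mul_of_nonneg_left hx1 (by positivity))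
  have hq := d.hq
  have hM := d.hM
  have hb := bounds_out (K := K) (M := M) (q := q) d.hK (by omega) (by omega) hx0 hx2 h5 (s := s) (by rw [hs, d.he])
  refine ⟨d.goA s, hb.1.trans ?_, hb.2.trans ?_⟩
  · apply div_le_div_of_nonneg_right _ hx0.le; unfold AA; norm_num
  · apply div_le_div_of_nonneg_right _ (by positivity); unfold AA; norm_num

lemma Dat.inn (d : Dat K M q L m e a r) {s x : ℝ} (hx1 : a ≤ x) (hs : |s| = e - x) :
    ‖Gi K M q s‖ ≤ AA ∧ ‖Gi1 K M q s‖ ≤ AA / x ∧ ‖Gi2 K M q s‖ ≤ AA / x^2 := by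
  have hx0 : 0 < x := lt_of_lt_of_le d.a0 hx1
  have h5 : 5 ≤ (K:ℝ) * M * x := d.hDa.trans (mul_le_mul_of_nonneg_left hx1 (by positivity))
  have hq := d.hq
  have hM := d.hM
  have hb := bounds_in (K := K) (M := M) (q := q) d.hK (by omega) (by omega) hx0 h5 (s := s) (by rw [hs, d.he])
  refine ⟨d.giA s, ?_, ?_⟩
  · unfold Gi1; rw [RCLike.norm_conj]; refine hb.1.trans ?_
    apply div_le_div_of_nonneg_right _ hx0.le; unfold AA; norm_num
  · unfold Gi2; rw [RCLike.norm_conj]; refine hb.2.trans ?_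
    apply div_le_div_of_nonneg_right _ (by positivity); unfold AA; norm_num

lemma Dat.cor (d : Dat K M q L m e a r) {s : ℝ} (hs : |(|s| - e)| ≤ 2 * a) :
    ‖Go K M q s‖ ≤ AA ∧ ‖Go1 K M q s‖ ≤ AA / a ∧ ‖Go2 K M q s‖ ≤ AA / a^2 := by
  have ha0 := d.a0
  have hq := d.hq
  have hM := d.hM
  have hK : (0:ℝ) < K := by exact_mod_cast d.hK
  have hMp : (0:ℝ) < M := by exact_mod_cast d.M0
  have hD : 0 < (K:ℝ) * M := by positivity
  have h2 := d.hDa2
  have hb := bounds_corner (K := K) (M := M) (q := q) d.hK (by omega) hM (s := s) (by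
    rw [← d.he]
    refine hs.trans ?_
    rw [le_div_iff₀ hD]; linarith)
  refine ⟨d.goA s, hb.1.trans ?_, hb.2.trans ?_⟩
  · rw [le_div_iff₀ ha0]; unfold AA; nlinarith
  · rw [le_div_iff₀ (by positivity)]; unfold AA
    have h3 : ((K:ℝ) * M * a)^2 ≤ 10^2 := pow_le_pow_left₀ (by positivity) h2.le 2
    nlinarith

lemma Dat.far (d : Dat K M q L m e a r) {s : ℝ} (hs : 1/800 ≤ 1 - Real.cos s) :
    ‖Go K M q s‖ ≤ AA ∧ ‖Go1 K M q s‖ ≤ AA ∧ ‖Go2 K M q s‖ ≤ AA := by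
  have hq := d.hq
  have hM := d.hM
  have hb := bounds_far (K := K) (M := M) (q := q) d.hK (by omega) (by omega) hs
  refine ⟨d.goA s, hb.1.trans ?_, hb.2.trans ?_⟩ <;> (unfold AA; norm_num)

end

lemma outR : ∃ C : ℝ, 0 ≤ C ∧ ∀ (K M q L m : ℕ) (e a r : ℝ), Dat K M q L m e a r → ∀ σ ∈ Set.Icc (0 : ℝ) (1 / 4),
    ∀ (N : ℕ) [NeZero N], 100 ≤ N * a →
    M4 (sym N (fun s => Go K M q (s - σ) * ((T ((1/a) * (s - σ - e)) - T ((1 / (1/8)) * (s - σ - e)) : ℝ) : ℂ))) C := by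
  obtain ⟨C, hC, h⟩ := MR
  refine ⟨C * AA, by have := AA_pos; positivity, fun K M q L m e a r d σ hσ N _ hN => ?_⟩
  have e0 := d.e0; have e1 := d.e1
  have := h N L e (1/8) AA σ (Go K M q) (Go1 K M q) (Go2 K M q) (by norm_num) le_rfl
    (by rw [abs_le]; constructor <;> linarith [hσ.1, hσ.2]) (by rw [← d.ha]; exact hN) AA_pos.le d.go1 d.go2
    (fun x hx1 hx2 => d.out (by rw [d.ha]; exact hx1) (by linarith)
      (by rw [abs_of_pos]; have : 0 < (1/8:ℝ)/2^L := by positivity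
          linarith))
  have h3 : (2:ℝ)^L / (1/8) = 1/a := by rw [d.ha, one_div_div]
  rw [h3] at this
  exact this

lemma outL : ∃ C : ℝ, 0 ≤ C ∧ ∀ (K M q L m : ℕ) (e a r : ℝ), Dat K M q L m e a r → ∀ σ ∈ Set.Icc (0 : ℝ) (1 / 4),
    ∀ (N : ℕ) [NeZero N], 100 ≤ N * a →
    M4 (sym N (fun s => Go K M q (s - σ) * ((T (-(1/a) * (s - σ - -e)) - T (-(1 / (1/8)) * (s - σ - -e)) : ℝ) : ℂ))) C := by
  obtain ⟨C, hC, h⟩ := ML
  refine ⟨C * AA, by have := AA_pos; positivity, fun K M q L m e a r d σ hσ N _ hN => ?_⟩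
  have e0 := d.e0; have e1 := d.e1
  have := h N L (-e) (1/8) AA σ (Go K M q) (Go1 K M q) (Go2 K M q) (by norm_num) le_rfl
    (by rw [abs_le]; constructor <;> linarith [hσ.1, hσ.2]) (by rw [← d.ha]; exact hN) AA_pos.le d.go1 d.go2
    (fun x hx1 hx2 => d.out (by rw [d.ha]; exact hx1) (by linarith)
      (by
        have : 0 < (1/8:ℝ)/2^L := by positivity
        rw [abs_of_neg (by linarith)]; ring))
  have h3 : (2:ℝ)^L / (1/8) = 1/a := by rw [d.ha, one_div_div]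
  rw [h3] at this
  exact this

lemma cornerP : ∃ C : ℝ, 0 ≤ C ∧ ∀ (K M q L m : ℕ) (e a r : ℝ), Dat K M q L m e a r → ∀ σ ∈ Set.Icc (0 : ℝ) (1 / 4),
    ∀ (N : ℕ) [NeZero N], 100 ≤ N * a → ∀ c : ℝ, (c = e ∨ c = -e) →
    M4 (sym N (fun s => Go K M q (s - σ) * ((1 - T ((1/a) * (s - σ - c)) - T (-(1/a) * (s - σ - c)) : ℝ) : ℂ))) C := by
  obtain ⟨C, hC, h⟩ := bump_piece
  obtain ⟨CT, hCT⟩ := exists_CT
  have hCT0 : 0 < CT := by linarith [hCT.1]
  refine ⟨C * (AA * (|(1:ℝ)| + CT + CT)), by have := AA_pos; positivity, fun K M q L m e a r d σ hσ N _ hN c hc => ?_⟩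
  have e0 := d.e0; have e1 := d.e1; have ha0 := d.a0; have h2a := d.h2a
  have hcσ : |c + σ| ≤ 1 := by
    rcases hc with rfl | rfl <;> (rw [abs_le]; constructor <;> linarith [hσ.1, hσ.2])
  have hce : ∀ s : ℝ, |(|s| - e)| ≤ |s - c| := by
    intro s
    rcases hc with h | h
    · rw [h]
      have := abs_abs_sub_abs_le s e
      rwa [abs_of_pos e0] at this
    · rw [h]
      have := abs_abs_sub_abs_le s (-e)
      rwa [abs_neg, abs_of_pos e0] at this
  have hcut := ((Cut_const 1 ha0).sub (Cut_T hCT c (κ := 1/a) ha0 (by rw [abs_of_pos (by positivity)]))).sub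
    (Cut_T hCT c (κ := -(1/a)) ha0 (by rw [abs_neg, abs_of_pos (by positivity)]))
  have := h N (Go K M q) (Go1 K M q) (Go2 K M q) _ _ _ c (2*a) (2*a) a AA _ σ
    ha0 (by linarith) (by linarith) (by linarith) le_rfl hcσ (by nlinarith) AA_pos.le d.go1 d.go2 hcut
    (fun s hs => by
      rcases lt_abs.1 hs with h | h
      · rw [T_one (show 2 ≤ (1/a) * (s - c) by rw [one_div_mul_eq_div, le_div_iff₀ ha0]; linarith),
          T_zero (show -(1/a) * (s - c) ≤ 1 by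
            have : -(1/a) * (s - c) = (c - s) / a := by ring
            rw [this, div_le_one ha0]; linarith)]
        ring
      · rw [T_one (show 2 ≤ -(1/a) * (s - c) by
            have : -(1/a) * (s - c) = (c - s) / a := by ring
            rw [this, le_div_iff₀ ha0]; linarith),
          T_zero (show (1/a) * (s - c) ≤ 1 by rw [one_div_mul_eq_div, div_le_one ha0]; linarith)]
        ring)
    (fun s hs => d.cor ((hce s).trans hs))
  exact this

lemma inP : ∃ C : ℝ, 0 ≤ C ∧ ∀ (K M q L m : ℕ) (e a r : ℝ), Dat K M q L m e a r → ∀ σ ∈ Set.Icc (0 : ℝ) (1 / 4),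
    ∀ (N : ℕ) [NeZero N], 100 ≤ N * a →
    ∀ (G G1 G2 : ℝ → ℂ), (∀ s, HasDerivAt G (G1 s) s) → (∀ s, HasDerivAt G1 (G2 s) s) →
      (∀ s x, a ≤ x → |s| = e - x → ‖G s‖ ≤ AA ∧ ‖G1 s‖ ≤ AA / x ∧ ‖G2 s‖ ≤ AA / x^2) →
      M4 (sym N (fun s => G (s - σ) * (((T (-(1/a) * (s - σ - e)) - T (-(1/r) * (s - σ - e))) +
        (T ((1/a) * (s - σ - -e)) - T ((1/r) * (s - σ - -e)))
       + T (-(1/r) * (s - σ - e)) * T ((1/r) * (s - σ - -e)) : ℝ) : ℂ))) C := by
  obtain ⟨C1, hC1, h1⟩ := ML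
  obtain ⟨C2, hC2, h2⟩ := MR
  obtain ⟨C3, hC3, h3⟩ := bump_piece
  obtain ⟨CT, hCT⟩ := exists_CT
  have hCT0 : 0 < CT := by linarith [hCT.1]
  have hAA := AA_pos
  refine ⟨C1 * AA + C2 * AA + C3 * (AA * (4 * (CT * CT))), by positivity,
    fun K M q L m e a r d σ hσ N _ hN G G1 G2 g1 g2 hb => ?_⟩
  have e0 := d.e0; have e1 := d.e1; have ha0 := d.a0; have h2a := d.h2a; have h2r := d.h2r
  have hr0 := d.r0; have h4r := d.h4r; have har := d.har
  have hr8 : r ≤ 1/8 := by linarith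
  have hNL : 100 ≤ N * (r / 2^(L-m)) := by rw [d.hra]; exact hN
  have p1 := h1 N (L-m) e r AA σ G G1 G2 hr0 hr8
    (by rw [abs_le]; constructor <;> linarith [hσ.1, hσ.2]) hNL hAA.le g1 g2
    (fun x hx1 hx2 => hb (e - x) x (by rw [d.hra] at hx1; exact hx1) (by rw [abs_of_nonneg (by linarith)]))
  have p2 := h2 N (L-m) (-e) r AA σ G G1 G2 hr0 hr8
    (by rw [abs_le]; constructor <;> linarith [hσ.1, hσ.2]) hNL hAA.le g1 g2
    (fun x hx1 hx2 => hb (-e + x) x (by rw [d.hra] at hx1; exact hx1) (by rw [abs_of_nonpos (by linarith)]; ring))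
  have h5 : (2:ℝ)^(L-m) / r = 1/a := by
    rw [← d.hra, one_div_div]
  rw [h5] at p1 p2
  have hcut := (Cut_T hCT e (κ := -(1/r)) hr0 (by rw [abs_neg, abs_of_pos (by positivity)])).mul hCT0.le hr0
    (Cut_T hCT (-e) (κ := 1/r) hr0 (by rw [abs_of_pos (by positivity)]))
  have hNpos : (0:ℝ) < N := by
    by_contra h
    push Not at h
    nlinarith
  have p3 := h3 N G G1 G2 _ _ _ 0 (e - r) e r AA _ σ
    hr0 (by linarith) (by linarith) (by linarith) (by linarith)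
    (by rw [zero_add, abs_le]; constructor <;> linarith [hσ.1, hσ.2])
    (by
      have : (N:ℝ) * a ≤ N * e := mul_le_mul_of_nonneg_left (by linarith) hNpos.le
      linarith) hAA.le g1 g2 hcut
    (fun s hs => by
      rw [sub_zero] at hs
      rcases lt_abs.1 hs with h | h
      · rw [T_zero (show -(1/r) * (s - e) ≤ 1 by
          have : -(1/r) * (s - e) = (e - s) / r := by ring
          rw [this, div_le_one hr0]; linarith), zero_mul]
      · rw [T_zero (show (1/r) * (s - -e) ≤ 1 by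
          rw [one_div_mul_eq_div, div_le_one hr0]; linarith), mul_zero])
    (fun s hs => by
      rw [sub_zero] at hs
      have h6 : r ≤ e - |s| := by linarith
      have h7 := hb s (e - |s|) (by linarith) (by ring)
      refine ⟨h7.1, h7.2.1.trans ?_, h7.2.2.trans ?_⟩
      · exact div_le_div_of_nonneg_left hAA.le hr0 h6
      · exact div_le_div_of_nonneg_left hAA.le (by positivity) (pow_le_pow_left₀ hr0.le h6 2))
  refine ((p1.add p2).add p3).congr fun j => ?_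
  show G (_ - σ) * _ + G (_ - σ) * _ + G (_ - σ) * _ = G (_ - σ) * _
  push_cast
  ring

theorem M4_window : ∃ CB : ℝ, 0 < CB ∧ ∀ (K M q : ℕ), 0 < K → 200 ≤ q → 20 * q ≤ M →
    ∀ σ ∈ Set.Icc (0 : ℝ) (1 / 4), ∃ N₀ : ℕ, ∀ (N : ℕ) [NeZero N], N₀ ≤ N →
      M4 (sym N (fun s => UU (Wn K M q) (s - σ))) CB := by
  obtain ⟨B1, hB1, h1⟩ := outR
  obtain ⟨B2, hB2, h2⟩ := outL
  obtain ⟨B3, hB3, h3⟩ := cornerP
  obtain ⟨B4, hB4, h4⟩ := inP
  obtain ⟨C5, hC5, h5⟩ := far_piece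
  have hAA := AA_pos
  set X : ℝ := (B1 + B2 + B3 + B3) + 5 * B4 + B4 with hX
  refine ⟨1 + C5 * AA + (1 + C5 * 1) * X, by positivity, fun K M q hK hq hM σ hσ => ?_⟩
  obtain ⟨L, m, e, a, r, d⟩ := Dat_exists hK hq hM
  have ha0 := d.a0
  obtain ⟨N₀, hN₀⟩ := exists_nat_gt (100 / a)
  refine ⟨N₀, fun N _ hN => ?_⟩
  have hNa : 100 ≤ N * a := by
    have h1 : (N₀:ℝ) ≤ N := by exact_mod_cast hN
    have h2 : 100 / a < N := lt_of_lt_of_le hN₀ h1
    rw [div_lt_iff₀ ha0] at h2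
    exact h2.le
  have OR := h1 K M q L m e a r d σ hσ N hNa
  have OL := h2 K M q L m e a r d σ hσ N hNa
  have CR := h3 K M q L m e a r d σ hσ N hNa e (Or.inl rfl)
  have CL := h3 K M q L m e a r d σ hσ N hNa (-e) (Or.inr rfl)
  have IN := h4 K M q L m e a r d σ hσ N hNa (Gi K M q) (Gi1 K M q) (Gi2 K M q) d.gi1 d.gi2
    (fun s x hx hs => d.inn hx hs)
  have I1 := h4 K M q L m e a r d σ hσ N hNa (fun _ => 1) (fun _ => 0) (fun _ => 0)
    (fun s => hasDerivAt_const s 1) (fun s => hasDerivAt_const s 0)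
    (fun s x hx hs => by
      have hx0 : 0 < x := lt_of_lt_of_le ha0 hx
      rw [norm_one, norm_zero]
      refine ⟨by unfold AA; norm_num, by positivity, by positivity⟩)
  have FA := h5 N (Go K M q) (Go1 K M q) (Go2 K M q) AA σ hAA.le (fun s => by unfold Go; rw [UU_per])
    d.go1 d.go2 (fun s hs => d.far hs)
  have F1 := h5 N (fun _ => 1) (fun _ => 0) (fun _ => 0) 1 σ (by norm_num) (fun s => rfl)
    (fun s => hasDerivAt_const s 1) (fun s => hasDerivAt_const s 0)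
    (fun s _ => by simp)
  have VZ := M4_UU_Zr (N := N) d.M0 d.qKM σ
  have Y := ((((OR.add OL).add CR).add CL).add (M4.mul (by norm_num) VZ IN)).add (I1.const_mul (-1))
  have Z := (M4_one (N := N)).add (F1.const_mul (-1))
  have hn1 : ‖(-1:ℂ)‖ = 1 := by simp
  rw [hn1] at Y Z
  have W := ((M4_one (N := N)).add FA).add (M4.mul (by positivity) Z Y)
  refine (W.mono (le_of_eq (by rw [hX]; ring))).congr fun j => ?_
  -- pointwise identity
  have hval : -(Real.pi) ≤ 2 * Real.pi * (j.valMinAbs : ℝ) / N ∧ 2 * Real.pi * (j.valMinAbs : ℝ) / N ≤ Real.pi := by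
    have hNpos : (0:ℝ) < N := by
      have := NeZero.pos N
      exact_mod_cast this
    have h6 := ZMod.natAbs_valMinAbs_le j
    have h7 : |(j.valMinAbs : ℝ)| ≤ N / 2 := by
      have h8 : ((j.valMinAbs.natAbs : ℕ) : ℝ) ≤ ((N / 2 : ℕ) : ℝ) := by exact_mod_cast h6
      rw [Nat.cast_natAbs, Int.cast_abs] at h8
      exact h8.trans Nat.cast_div_le
    rw [abs_le] at h7
    have hpi := Real.pi_pos
    constructor
    · rw [le_div_iff₀ hNpos]; nlinarith [h7.1]
    · rw [div_le_iff₀ hNpos]; nlinarith [h7.2]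
  unfold sym
  beta_reduce
  set θ : ℝ := 2 * Real.pi * (j.valMinAbs : ℝ) / N - σ with hθ
  have hUW := UU_Wn d.hK d.M0 d.q0 d.qKM θ
  have hGo : Go K M q θ = UU (Wn K M q) θ - 1 := rfl
  have hGi : Gi K M q θ = (starRingEnd ℂ) (UU (Wc K M q) θ) := rfl
  rw [hGo, hGi]
  by_cases hk : kap θ = 1
  · rw [hk]; push_cast; ring
  · have hloc := kap_local (θ := θ) (by linarith [hval.1, hσ.2]) (by linarith [hval.2, hσ.1]) hk
    have hpid := partition_id (e := e) ha0 d.r0 d.h2a d.h2r (by norm_num : (0:ℝ) < 1/8) hloc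
    have hpid' : ∀ z : ℂ, z = z * ((((T ((1/a) * (θ - e)) - T ((1 / (1/8)) * (θ - e))) + (T (-(1/a) * (θ - -e)) - T (-(1 / (1/8)) * (θ - -e)))
     + (1 - T ((1/a) * (θ - e)) - T (-(1/a) * (θ - e))) + (1 - T ((1/a) * (θ - -e)) - T (-(1/a) * (θ - -e)))
     + ((T (-(1/a) * (θ - e)) - T (-(1/r) * (θ - e))) + (T ((1/a) * (θ - -e)) - T ((1/r) * (θ - -e)))
       + T (-(1/r) * (θ - e)) * T ((1/r) * (θ - -e))) : ℝ)) : ℂ) := by
      intro z; rw [hpid]; simp
    have hz := hpid' (UU (Wn K M q) θ - 1)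
    rw [hUW] at hz ⊢
    push_cast at hz ⊢
    linear_combination (-(1 - (kap θ : ℂ))) * hz
end Vb
end part9

section part10
open Complex Filter Topology
open Pool.Agent.MP58366f

namespace Vb

theorem window_exists' : ∃ (CB : ℝ) (eta : ℕ → ℝ), 0 < CB ∧ Tendsto eta atTop (𝓝 0) ∧
    ∀ (K : ℕ) (ε : ℝ), 0 < ε → ∃ W : Multiset ℂ,
      (∀ w ∈ W, 0 < ‖w‖ ∧ ‖w‖ < 1 ∧ ‖w - 1‖ ≤ ε) ∧
      (W.map fun w => 1 - ‖w‖).sum ≤ ε ∧
      (∃ r : Fin K → ℝ, Function.Injective r ∧ (∀ i, 0 < r i ∧ r i < 1 ∧ ((r i : ℝ) : ℂ) ∈ W) ∧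
        ∀ i i', |r i - r i'| ≤ eta K * (1 - r i)) ∧
      ∀ σ ∈ Set.Icc (0 : ℝ) (1 / 4), ∃ N₀ : ℕ, ∀ (N : ℕ) [NeZero N], N₀ ≤ N →
        M4 (sym N (fun s => (W.map fun w => bl w (Complex.exp (((s - σ : ℝ) : ℂ) * Complex.I))).prod)) CB := by
  obtain ⟨CB, hCB, h⟩ := M4_window
  refine ⟨1 + CB, fun K => 2 / Real.log (80 * K), by positivity, ?_, fun K ε hε => ?_⟩
  · apply Tendsto.div_atTop tendsto_const_nhds
    apply Real.tendsto_log_atTop.comp
    apply Tendsto.const_mul_atTop (by norm_num)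
    exact tendsto_natCast_atTop_atTop
  rcases Nat.eq_zero_or_pos K with rfl | hK
  · refine ⟨0, by simp, by simp; exact hε.le, ⟨fun i => i.elim0, fun i => i.elim0, fun i => i.elim0, fun i => i.elim0⟩,
      fun σ _ => ⟨0, fun N _ _ => ?_⟩⟩
    have : sym N (fun s => ((0 : Multiset ℂ).map fun w => bl w (Complex.exp (((s - σ : ℝ) : ℂ) * Complex.I))).prod)
        = fun _ => 1 := by
      funext j; simp [sym]
    rw [this]
    exact (M4_one (N := N)).mono (by linarith)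
  · obtain ⟨q, hq⟩ := exists_nat_gt (max 200 (240 / ε))
    have hq1 : (200:ℝ) < q := lt_of_le_of_lt (le_max_left _ _) hq
    have hq2 : 240 / ε < q := lt_of_le_of_lt (le_max_right _ _) hq
    have hqn : 200 ≤ q := by exact_mod_cast hq1.le
    obtain ⟨M₀, hM₀⟩ := cluster hK q
    set M : ℕ := max M₀ (20 * q) with hM
    have hM1 : M₀ ≤ M := le_max_left _ _
    have hM2 : 20 * q ≤ M := le_max_right _ _
    have hMpos : 0 < M := by omega
    have hqKM : q < K * M := by nlinarith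
    have hq240 : 240 / (q:ℝ) ≤ ε := by
      rw [div_le_iff₀ (by linarith)]
      rw [div_lt_iff₀ hε] at hq2
      linarith
    refine ⟨Wn K M q, fun w hw => ?_, ?_, hM₀ M hM1 hMpos hqKM, fun σ hσ => ?_⟩
    · have h1 := Zr_bd hK hMpos (by omega) hqKM (Wn_sub hw)
      refine ⟨norm_pos_iff.2 h1.1, h1.2, ?_⟩
      rw [norm_sub_rev]
      refine (Wn_near hK (by omega) (by omega) hw).trans (le_trans ?_ hq240)
      apply div_le_div_of_nonneg_right (by norm_num) (by linarith)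
    · exact (mass hK (by omega) (by omega)).trans hq240
    · obtain ⟨N₀, hN₀⟩ := h K M q hK hqn hM2 σ hσ
      exact ⟨N₀, fun N _ hN => (hN₀ N hN).mono (by linarith)⟩

end Vb
end part10
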