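import Mathlib
import Pool.Agent.MP58366f.PartA
import Pool.Agent.MP58366f.Window

/-!
Interface for MP_58366f (frozen negation S04730), p = 4.
Part A (helper66): ker_bound, ker_bound_periodic, mikhlin, mikhlin_left, glue (proved in PartA.lean).
Part B (helper16): window_exists (proved in Window.lean).
Part C: final assembly.
-/

namespace Pool.Agent.MP58366f
open scoped BigOperators
open Finset Filter Topology

noncomputable section

/-- Theorem B -/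
theorem window_exists : ∃ (CB : ℝ) (eta : ℕ → ℝ), 0 < CB ∧ Tendsto eta atTop (𝓝 0) ∧
    ∀ (K : ℕ) (ε : ℝ), 0 < ε → ∃ W : Multiset ℂ,
      (∀ w ∈ W, 0 < ‖w‖ ∧ ‖w‖ < 1 ∧ ‖w - 1‖ ≤ ε) ∧
      (W.map fun w => 1 - ‖w‖).sum ≤ ε ∧
      (∃ r : Fin K → ℝ, Function.Injective r ∧ (∀ i, 0 < r i ∧ r i < 1 ∧ ((r i : ℝ) : ℂ) ∈ W) ∧
        ∀ i i', |r i - r i'| ≤ eta K * (1 - r i)) ∧
      ∀ σ ∈ Set.Icc (0 : ℝ) (1 / 4), ∃ N₀ : ℕ, ∀ (N : ℕ) [NeZero N], N₀ ≤ N →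
        M4 (sym N (fun s => (W.map fun w => bl w (Complex.exp (((s - σ : ℝ) : ℂ) * Complex.I))).prod)) CB :=
  Vb.window_exists'

end

end Pool.Agent.MP58366f
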