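import Mathlib
import Pool.Agent.MP58366f.PartA

set_option linter.unusedSectionVars false

/-!
Total multiplier bound: products of `1 + β_k + ρ_k` with disjointly supported `β_k` and small `ρ_k`.
-/

namespace Pool.Agent.MP58366f
open scoped BigOperators
open Finset

noncomputable section

variable {N : ℕ} [NeZero N]

/-- products of `1 + β_k` with disjoint supports -/
lemma prod_one_add_of_disj {ι : Type*} [DecidableEq ι] (S : Finset ι) (b : ι → ℂ)
    (hd : ∀ i ∈ S, ∀ k ∈ S, i ≠ k → b i * b k = 0) :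
    ∏ k ∈ S, (1 + b k) = 1 + ∑ k ∈ S, b k := by
  induction S using Finset.induction_on with
  | empty => simp
  | insert a S ha ih =>
    rw [Finset.prod_insert ha, Finset.sum_insert ha, ih (fun i hi k hk h =>
      hd i (Finset.mem_insert_of_mem hi) k (Finset.mem_insert_of_mem hk) h)]
    have h1 : b a * ∑ k ∈ S, b k = 0 := by
      rw [Finset.mul_sum]
      apply Finset.sum_eq_zero
      intro k hk
      apply hd a (Finset.mem_insert_self _ _) k (Finset.mem_insert_of_mem hk)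
      intro h; rw [h] at ha; exact ha hk
    calc (1 + b a) * (1 + ∑ k ∈ S, b k) = 1 + (b a + ∑ k ∈ S, b k) + b a * ∑ k ∈ S, b k := by ring
      _ = _ := by rw [h1, add_zero]

lemma M4_prod {ι : Type*} [DecidableEq ι] (S : Finset ι) (h : ι → ZMod N → ℂ) (q : ι → ℝ)
    (hq : ∀ k ∈ S, 0 ≤ q k) (hM : ∀ k ∈ S, M4 (h k) (q k)) :
    M4 (fun j => ∏ k ∈ S, h k j) (∏ k ∈ S, q k) := by
  induction S using Finset.induction_on with
  | empty => simpa using M4_one (N := N)
  | insert a S ha ih =>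
    have h1 := (hM a (Finset.mem_insert_self _ _)).mul (hq a (Finset.mem_insert_self _ _))
      (ih (fun k hk => hq k (Finset.mem_insert_of_mem hk)) (fun k hk => hM k (Finset.mem_insert_of_mem hk)))
    rw [Finset.prod_insert ha]
    apply h1.congr
    intro j
    rw [Finset.prod_insert ha]

/-- total bound -/
theorem total_bound {K : ℕ} {β ρ : ℕ → ZMod N → ℂ} {C0 : ℝ} {q : ℕ → ℝ}
    (hd : ∀ i < K, ∀ k < K, i ≠ k → ∀ j, β i j * β k j = 0)
    (hβ : ∀ S ⊆ range K, M4 (fun j => 1 + ∑ k ∈ S, β k j) C0)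
    (hq : ∀ k < K, 0 ≤ q k) (hρ : ∀ k < K, M4 (ρ k) (q k)) :
    M4 (fun j => ∏ k ∈ range K, (1 + β k j + ρ k j)) (C0 * ∏ k ∈ range K, (1 + q k)) := by
  classical
  have e1 : ∀ j : ZMod N, ∏ k ∈ range K, (1 + β k j + ρ k j)
      = ∑ R ∈ (range K).powerset, (∏ k ∈ R, ρ k j) * (1 + ∑ k ∈ range K \ R, β k j) := by
    intro j
    have : ∀ k, 1 + β k j + ρ k j = ρ k j + (1 + β k j) := fun k => by ring
    simp_rw [this]
    rw [Finset.prod_add]
    apply Finset.sum_congr rfl; intro R hR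
    congr 1
    apply prod_one_add_of_disj
    intro i hi k hk hik
    exact hd i (mem_range.mp (Finset.sdiff_subset hi)) k (mem_range.mp (Finset.sdiff_subset hk)) hik j
  have e2 : C0 * ∏ k ∈ range K, (1 + q k) = ∑ R ∈ (range K).powerset, (∏ k ∈ R, q k) * C0 := by
    have : ∀ k, 1 + q k = q k + 1 := fun k => by ring
    simp_rw [this]
    rw [Finset.prod_add_one, Finset.mul_sum]
    apply Finset.sum_congr rfl; intros; ring
  rw [e2]
  have h1 := M4.sum ((range K).powerset)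
    (h := fun R (j : ZMod N) => (∏ k ∈ R, ρ k j) * (1 + ∑ k ∈ range K \ R, β k j))
    (C := fun R => (∏ k ∈ R, q k) * C0) ?_
  · apply h1.congr
    intro j; exact (e1 j).symm
  · intro R hR
    rw [Finset.mem_powerset] at hR
    apply M4.mul
    · exact Finset.prod_nonneg (fun k hk => hq k (mem_range.mp (hR hk)))
    · apply M4_prod
      · intro k hk; exact hq k (mem_range.mp (hR hk))
      · intro k hk; exact hρ k (mem_range.mp (hR hk))
    · exact hβ _ Finset.sdiff_subset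

lemma prod_one_add_pow_le (K : ℕ) : ∏ k ∈ range K, (1 + (1 / 2 : ℝ) ^ (k + 1)) ≤ 3 := by
  have h1 : ∏ k ∈ range K, (1 + (1 / 2 : ℝ) ^ (k + 1)) ≤ Real.exp (∑ k ∈ range K, (1 / 2 : ℝ) ^ (k + 1)) := by
    rw [Real.exp_sum]
    apply Finset.prod_le_prod
    · intro k _; positivity
    · intro k _; rw [add_comm]; exact Real.add_one_le_exp _
  have h2 : ∑ k ∈ range K, (1 / 2 : ℝ) ^ (k + 1) ≤ 1 := by
    have h3 : ∀ K : ℕ, ∑ k ∈ range K, (1 / 2 : ℝ) ^ (k + 1) = 1 - (1 / 2) ^ K := by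
      intro K
      induction K with
      | zero => simp
      | succ K ih => rw [Finset.sum_range_succ, ih]; ring
    rw [h3]
    have : (0:ℝ) ≤ (1 / 2) ^ K := by positivity
    linarith
  refine le_trans h1 (le_trans (Real.exp_le_exp.mpr h2) ?_)
  have := Real.exp_one_lt_d9
  linarith

/-- gluing for all subsets of the windows at once -/
theorem glue_subsets (Cb : ℝ) (hCb : 0 ≤ Cb) : ∃ C : ℝ, 0 < C ∧ ∀ (N : ℕ) [NeZero N] (K : ℕ)
    (c a Hm : ℕ → ℝ) (β : ℕ → ZMod N → ℂ),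
    (∀ k, 0 < a k) → (∀ k, a k ≤ c k / 16) → (∀ k, c (k + 1) ≤ c k / 16) → c 0 ≤ 1 / 4 →
    (∀ k, a (k + 1) ≤ a k / 16) →
    (∀ k < K, ∀ j, β k j ≠ 0 → |2 * Real.pi * (j.valMinAbs : ℝ) / N - c k| ≤ 2 * a k) →
    (∀ k < K, M4 (β k) Cb) → (∀ k < K, ∀ j, ‖β k j‖ ≤ 2) →
    (∀ k < K, ∑ x, ‖ker (β k) x‖ * nz x ^ (3 / 4 : ℝ) ≤ Hm k) →
    (∀ k, ∀ j < k, Hm j * a k ^ (3 / 4 : ℝ) ≤ 1 / 2 ^ (k - j)) →
    (∀ k < K, 100 ≤ N * a k) →
    ∀ S ⊆ range K, M4 (fun j => 1 + ∑ k ∈ S, β k j) C := by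
  classical
  obtain ⟨C, hC, H⟩ := glue Cb hCb
  refine ⟨1 + C, by linarith, ?_⟩
  intro N _ K c a Hm β h1 h2 h3 h4 h5 h6 h7 h8 h9 h10 h11 S hS
  have key := H N K c a Hm (fun k j => if k ∈ S then β k j else 0) h1 h2 h3 h4 h5 ?_ ?_ ?_ ?_ h10 h11
  · have h12 := M4.add (M4_one (N := N)) key
    apply h12.congr
    intro j
    congr 1
    rw [← Finset.sum_filter]
    apply Finset.sum_congr _ (fun _ _ => rfl)
    ext k
    rw [Finset.mem_filter]
    exact ⟨fun h => h.2, fun h => ⟨hS h, h⟩⟩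
  · intro k hk j hj
    by_cases hkS : k ∈ S
    · simp only [hkS, if_true] at hj
      exact h6 k hk j hj
    · simp [hkS] at hj
  · intro k hk
    by_cases hkS : k ∈ S
    · simp only [hkS, if_true]; exact h7 k hk
    · simp only [hkS, if_false]
      exact (M4_const (N := N) 0).mono (by simpa using hCb)
  · intro k hk j
    by_cases hkS : k ∈ S
    · simp only [hkS, if_true]; exact h8 k hk j
    · simp [hkS]
  · intro k hk
    by_cases hkS : k ∈ S
    · simp only [hkS, if_true]; exact h9 k hk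
    · simp only [hkS, if_false]
      have h0 : 0 ≤ Hm k := le_trans (Finset.sum_nonneg (fun x _ =>
        mul_nonneg (norm_nonneg _) (Real.rpow_nonneg (nz_nonneg x) _))) (h9 k hk)
      refine le_trans (le_of_eq ?_) h0
      apply Finset.sum_eq_zero
      intro x _
      unfold ker
      simp

end

end Pool.Agent.MP58366f
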